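import Pool.Agent.Work.MP_51e72e_nt.AV.Fix
import Pool.Agent.Work.MP_678620_nt.TBBox
import Pool.Agent.Work.MP_51e72e_nt.AV.MinA

-- merged part: Pool.Agent.Work.MP_51e72e_nt.PV.Defs
section
/-! Systems of polynomials on average: definitions. -/

set_option autoImplicit false
open Finset Filter MeasureTheory Pool.Agent.Lib.MR Pool.Agent.Lib.LargeSieve
open Pool.Agent.Work.MP_678620_nt Pool.Agent.Work.MP_51e72e_nt.AV

namespace Pool.Agent.Work.MP_51e72e_nt.PV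

noncomputable section

/-- The value of a polynomial given by its coefficients. -/
def pe {d : ℕ} (c : Fin (d + 1) → ℤ) (y : ℤ) : ℤ := ∑ j, c j * y ^ (j : ℕ)

/-- The range of one coefficient. -/
def Co (lam : ℝ) (d H : ℕ) (j : Fin (d + 1)) : Finset ℤ :=
  if j = Fin.last d then (Icc (1 : ℤ) H).filter fun a : ℤ => (H : ℝ) ≤ lam * a
  else Icc (-(H : ℤ)) H

/-- Polynomials of height at most `H` without the small leading coefficients. -/
def PX (lam : ℝ) (d H : ℕ) : Finset (Fin (d + 1) → ℤ) := Fintype.piFinset (Co lam d H)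

/-- All coefficient vectors of height at most `H`. -/
def Cube (d H : ℕ) : Finset (Fin (d + 1) → ℤ) := Fintype.piFinset fun _ => Icc (-(H : ℤ)) H

/-- Tuples of polynomials. -/
def Tp {k : ℕ} (d : Fin k → ℕ) (lam : ℝ) (H : Fin k → ℕ) :
    Finset ((i : Fin k) → Fin (d i + 1) → ℤ) := Fintype.piFinset fun i => PX lam (d i) (H i)

/-- A bound for the number of tuples. -/
def Wt {k : ℕ} (d : Fin k → ℕ) (H : Fin k → ℕ) : ℝ := ∏ i, (3 * (H i : ℝ)) ^ (d i + 1)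

/-- Close to a multiple of `M`. -/
def Cl (M L : ℕ) (x : ℤ) : Prop := ∃ u : ℤ, |u| ≤ L ∧ (M : ℤ) ∣ x - u

open Classical in
/-- The count of the Schur test. -/
def cn (d M L : ℕ) (S : Finset ℕ) (t : ℕ) : ℕ :=
  ((S ×ˢ S ×ˢ range M).filter fun x : ℕ × ℕ × ℕ => ∀ i : Fin (d + 1),
    Cl M L ((x.1 : ℤ) ^ (i : ℕ) * t - (x.2.1 : ℤ) ^ (i : ℕ) * x.2.2)).card

/-- Close to an integer. -/
def Nr (κ x : ℝ) : Prop := ∃ z : ℤ, |x - z| ≤ κ

/-- Major arcs. -/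
def Mj (Q : ℕ) (ρ α : ℝ) : Prop :=
  ∃ (s : ℕ) (r : ℤ), 1 ≤ s ∧ s ≤ Q ∧ IsCoprime r (s : ℤ) ∧ |α - (r : ℝ) / s| ≤ ρ

/-- Farey fractions `x.2 / x.1`. -/
def Far (Q : ℕ) : Finset (ℕ × ℕ) :=
  (Icc 1 Q ×ˢ range Q).filter fun x => x.2 < x.1 ∧ Nat.Coprime x.2 x.1

/-- The kernel of an average over `h` consecutive integers. -/
def Kh (h : ℕ) (x : ℝ) : ℂ := (h : ℂ)⁻¹ * ∑ j ∈ range h, ee (j * x)

/-- The multiplier. -/
def psi (Q h : ℕ) (α : ℝ) : ℂ := 1 - ∑ x ∈ Far Q, Kh h (α - (x.2 : ℝ) / x.1)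

/-- The major arc part of `G`. -/
def Gm (Q h : ℕ) (G : ℤ → ℂ) (m : ℤ) : ℂ :=
  ∑ x ∈ Far Q, (h : ℂ)⁻¹ * ∑ j ∈ range h, G (m + j) * ee (-(j * ((x.2 : ℝ) / x.1)))

/-- The variance bound for one random polynomial. -/
def Var (d N H : ℕ) (lam : ℝ) (X C : ℕ) : Prop :=
  ∀ g : ℕ → ℂ, (∀ n, ‖g n‖ ≤ 1) →
    ∑ c ∈ PX lam d H, ‖∑ n ∈ Ra lam N, g n * (G1 (zz X) (pe c n) : ℂ)‖ ^ 2
      ≤ (3 * (H : ℝ)) ^ (d + 1) * N ^ 2 / Real.log N ^ C

/-- Functions that behave like polynomials of degree at most `D`. -/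
structure Gd {ι : Type} (φ : ι → ℤ → ℤ) (D : ℕ) : Prop where
  per : ∀ (i : ι) (m x y : ℤ), x ≡ y [ZMOD m] → φ i x ≡ φ i y [ZMOD m]
  rt : ∀ (i : ι) (p : ℕ), p.Prime → (∀ y, (p : ℤ) ∣ φ i y) ∨
    ((range p).filter fun n : ℕ => (p : ℤ) ∣ φ i n).card ≤ D

/-- The number of roots of the product over `I`. -/
def om {ι : Type} (φ : ι → ℤ → ℤ) (I : Finset ι) (p : ℕ) : ℕ :=
  ((range p).filter fun n : ℕ => ∃ i ∈ I, (p : ℤ) ∣ φ i n).card

/-- The members that are sieved at `p`. -/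
def act {ι : Type} [Fintype ι] (z : ι → ℝ) (p : ℕ) : Finset ι := univ.filter fun i => (p : ℝ) ≤ z i

/-- The local factor. -/
def lz {ι : Type} [Fintype ι] (φ : ι → ℤ → ℤ) (z : ι → ℝ) (p : ℕ) : ℝ :=
  (1 - (om φ (act z p) p : ℝ) / p) / (1 - 1 / (p : ℝ)) ^ (act z p).card

/-- The truncated product. -/
def EZ {ι : Type} [Fintype ι] (φ : ι → ℤ → ℤ) (z : ι → ℝ) (Y : ℕ) : ℝ :=
  ∏ p ∈ (range (Y + 1)).filter Nat.Prime, lz φ z p

/-- The first order term of the logarithm of a piece of the product. -/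
def Rs {ι : Type} [Fintype ι] (φ : ι → ℤ → ℤ) (z : ι → ℝ) (w Y : ℕ) : ℝ :=
  ∑ p ∈ (Ioc w Y).filter Nat.Prime, ((om φ (act z p) p : ℝ) - (act z p).card) / p

/-- Few roots. -/
def Bd {ι : Type} [Fintype ι] (φ : ι → ℤ → ℤ) (z : ι → ℝ) (w Y E : ℕ) : Prop :=
  ∀ p : ℕ, p.Prime → w < p → p ≤ Y → om φ (act z p) p ≤ E

/-- The normalised count of the problem. -/
def cz {ι : Type} [Fintype ι] (φ : ι → ℤ → ℤ) (N : ℕ) : ℝ :=
  (((Icc 1 N).filter fun n : ℕ => ∀ i, (φ i n).natAbs.Prime).card : ℝ) *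
    (∏ i, Real.log |(φ i N : ℝ)|) / N

/-- The fixed forms and the random polynomials together. -/
def Sys (F₀ : Finset (ℤ × ℤ)) {k : ℕ} {d : Fin k → ℕ} (v : (i : Fin k) → Fin (d i + 1) → ℤ) :
    F₀ ⊕ Fin k → ℤ → ℤ :=
  Sum.elim (fun f y => f.1.1 * y + f.1.2) fun i => pe (v i)

end

lemma sum_update {ι : Type} [Fintype ι] [DecidableEq ι] {α : ι → Type} [∀ i, DecidableEq (α i)]
    (B : ∀ i, Finset (α i)) (β : ι → ℝ) (hβ : ∀ i, ((B i).card : ℝ) ≤ β i) (i : ι)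
    (Φ : (∀ i, α i) → ℝ) {M : ℝ} (hM : 0 ≤ M)
    (h : ∀ v ∈ Fintype.piFinset B, ∑ f ∈ B i, Φ (Function.update v i f) ≤ M) :
    ∑ v ∈ Fintype.piFinset B, Φ v ≤ (∏ j ∈ univ.erase i, β j) * M := by
  have β0 : ∀ j, 0 ≤ β j := fun j => (Nat.cast_nonneg _).trans (hβ j)
  rcases (B i).eq_empty_or_nonempty with hB | hB
  · rw [Fintype.piFinset_eq_empty.2 ⟨i, hB⟩, sum_empty]
    exact mul_nonneg (prod_nonneg fun j _ => β0 j) hM
  have hc : (0 : ℝ) < (B i).card := by exact_mod_cast hB.card_pos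
  have hmem : ∀ v ∈ Fintype.piFinset B, ∀ f ∈ B i,
      Function.update v i f ∈ Fintype.piFinset B := by
    intro v hv f hf
    rw [Fintype.mem_piFinset] at hv ⊢
    intro j
    by_cases e : j = i
    · subst e; simpa using hf
    · rw [Function.update_of_ne e]; exact hv j
  have e : ∑ p ∈ Fintype.piFinset B ×ˢ B i, Φ p.1 =
      ∑ p ∈ Fintype.piFinset B ×ˢ B i, Φ (Function.update p.1 i p.2) := by
    refine sum_nbij' (fun p => (Function.update p.1 i p.2, p.1 i))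
      (fun p => (Function.update p.1 i p.2, p.1 i)) ?_ ?_ ?_ ?_ ?_
    · intro p hp
      obtain ⟨h1, h2⟩ := mem_product.1 hp
      exact mem_product.2 ⟨hmem _ h1 _ h2, Fintype.mem_piFinset.1 h1 i⟩
    · intro p hp
      obtain ⟨h1, h2⟩ := mem_product.1 hp
      exact mem_product.2 ⟨hmem _ h1 _ h2, Fintype.mem_piFinset.1 h1 i⟩
    · intro p _; simp
    · intro p _; simp
    · intro p _; simp
  rw [sum_product, sum_product] at e
  simp only [sum_const, nsmul_eq_mul] at e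
  rw [← mul_sum] at e
  refine le_of_mul_le_mul_left ?_ hc
  rw [e, ← mul_assoc]
  refine (sum_le_card_nsmul _ _ _ h).trans ?_
  rw [nsmul_eq_mul, Fintype.card_piFinset, Nat.cast_prod, ← mul_prod_erase _ _ (mem_univ i)]
  exact mul_le_mul_of_nonneg_right (mul_le_mul_of_nonneg_left
    (prod_le_prod (fun _ _ => Nat.cast_nonneg _) fun j _ => hβ j) hc.le) hM

lemma Co_sub (lam : ℝ) (d H : ℕ) (j : Fin (d + 1)) : Co lam d H j ⊆ Icc (-(H : ℤ)) H := by
  unfold Co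
  split_ifs
  · exact (filter_subset _ _).trans (Icc_subset_Icc (by omega) le_rfl)
  · exact Subset.refl _

lemma Co_of_ne (lam : ℝ) {d : ℕ} (H : ℕ) {j : Fin (d + 1)} (h : j ≠ Fin.last d) :
    Co lam d H j = Icc (-(H : ℤ)) H := if_neg h

lemma Co_zero (lam : ℝ) {d : ℕ} (hd : 1 ≤ d) (H : ℕ) : Co lam d H 0 = Icc (-(H : ℤ)) H :=
  Co_of_ne lam H fun h => by
    have := congrArg Fin.val h
    rw [Fin.val_last, Fin.val_zero] at this
    omega

lemma Co_last (lam : ℝ) (d H : ℕ) :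
    Co lam d H (Fin.last d) = (Ra lam H).image fun a : ℕ => (a : ℤ) := by
  rw [Co, if_pos rfl]
  ext a
  simp only [mem_filter, mem_Icc, mem_image, Ra]
  constructor
  · rintro ⟨⟨h1, h2⟩, h3⟩
    obtain ⟨b, rfl⟩ := Int.eq_ofNat_of_zero_le (show 0 ≤ a by omega)
    exact ⟨b, ⟨⟨by exact_mod_cast h1, by exact_mod_cast h2⟩, by exact_mod_cast h3⟩, rfl⟩
  · rintro ⟨b, ⟨⟨h1, h2⟩, h3⟩, rfl⟩
    exact ⟨⟨by exact_mod_cast h1, by exact_mod_cast h2⟩, by exact_mod_cast h3⟩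

lemma card_Icc_le {H : ℕ} (hH : 1 ≤ H) : ((Icc (-(H : ℤ)) H).card : ℝ) ≤ 3 * H := by
  have h : (Icc (-(H : ℤ)) H).card ≤ 3 * H := by
    rw [Int.card_Icc]
    omega
  exact_mod_cast h

lemma card_Co (lam : ℝ) (d : ℕ) {H : ℕ} (hH : 1 ≤ H) (j : Fin (d + 1)) :
    ((Co lam d H j).card : ℝ) ≤ 3 * H :=
  le_trans (by exact_mod_cast card_le_card (Co_sub lam d H j)) (card_Icc_le hH)

lemma PX_sub (lam : ℝ) (d H : ℕ) : PX lam d H ⊆ Cube d H :=
  Fintype.piFinset_subset _ _ (Co_sub lam d H)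

lemma card_PX (lam : ℝ) (d : ℕ) {H : ℕ} (hH : 1 ≤ H) :
    ((PX lam d H).card : ℝ) ≤ (3 * (H : ℝ)) ^ (d + 1) := by
  rw [PX, Fintype.card_piFinset, Nat.cast_prod]
  refine (prod_le_prod (fun _ _ => Nat.cast_nonneg _) fun j _ => card_Co lam d hH j).trans_eq ?_
  rw [prod_const, card_univ, Fintype.card_fin]

lemma card_Tp {k : ℕ} (d : Fin k → ℕ) (lam : ℝ) {H : Fin k → ℕ} (hH : ∀ i, 1 ≤ H i) :
    ((Tp d lam H).card : ℝ) ≤ Wt d H := by
  rw [Tp, Fintype.card_piFinset, Nat.cast_prod]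
  exact prod_le_prod (fun _ _ => Nat.cast_nonneg _) fun j _ => card_PX lam _ (hH j)

lemma Wt_nonneg {k : ℕ} (d : Fin k → ℕ) (H : Fin k → ℕ) : 0 ≤ Wt d H :=
  prod_nonneg fun _ _ => by positivity

lemma mem_PX {lam : ℝ} {d H : ℕ} {c : Fin (d + 1) → ℤ} (h : c ∈ PX lam d H) :
    (∀ j, |c j| ≤ H) ∧ 1 ≤ c (Fin.last d) ∧ (H : ℝ) ≤ lam * c (Fin.last d) := by
  rw [PX, Fintype.mem_piFinset] at h
  have h1 := h (Fin.last d)
  rw [Co, if_pos rfl, mem_filter, mem_Icc] at h1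
  exact ⟨fun j => abs_le.2 (mem_Icc.1 (Co_sub lam d H j (h j))), h1.1.1, h1.2⟩

/-- Summing over one coefficient first. -/
lemma sum_PX_le (lam : ℝ) {d H : ℕ} (hH : 1 ≤ H) (j : Fin (d + 1)) (Φ : (Fin (d + 1) → ℤ) → ℝ)
    {M : ℝ} (hM : 0 ≤ M)
    (h : ∀ c ∈ PX lam d H, ∑ b ∈ Co lam d H j, Φ (Function.update c j b) ≤ M) :
    ∑ c ∈ PX lam d H, Φ c ≤ (3 * (H : ℝ)) ^ d * M := by
  refine (sum_update (Co lam d H) (fun _ => 3 * (H : ℝ)) (card_Co lam d hH) j Φ hM h).trans_eq ?_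
  rw [prod_const, card_erase_of_mem (mem_univ j), card_univ, Fintype.card_fin, Nat.add_sub_cancel]

/-- Summing over one polynomial first. -/
lemma sum_Tp_le {k : ℕ} (d : Fin k → ℕ) (lam : ℝ) {H : Fin k → ℕ} (hH : ∀ i, 1 ≤ H i) (i : Fin k)
    (Φ : ((i : Fin k) → Fin (d i + 1) → ℤ) → ℝ) {M : ℝ} (hM : 0 ≤ M)
    (h : ∀ v ∈ Tp d lam H, ∑ f ∈ PX lam (d i) (H i), Φ (Function.update v i f)
      ≤ (3 * (H i : ℝ)) ^ (d i + 1) * M) :
    ∑ v ∈ Tp d lam H, Φ v ≤ Wt d H * M := by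
  refine (sum_update (fun i => PX lam (d i) (H i)) (fun i => (3 * (H i : ℝ)) ^ (d i + 1))
    (fun i => card_PX lam _ (hH i)) i Φ (by positivity) h).trans_eq ?_
  rw [← mul_assoc, prod_erase_mul _ _ (mem_univ i), Wt]

lemma pe_update {d : ℕ} (c : Fin (d + 1) → ℤ) (j : Fin (d + 1)) (b y : ℤ) :
    pe (Function.update c j b) y = b * y ^ (j : ℕ) + pe (Function.update c j 0) y := by
  have e : ∀ b : ℤ, pe (Function.update c j b) y =
      b * y ^ (j : ℕ) + ∑ i ∈ univ.erase j, c i * y ^ (i : ℕ) := fun b => by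
    rw [pe, ← add_sum_erase _ _ (mem_univ j), Function.update_self]
    exact congrArg _ (sum_congr rfl fun i hi => by rw [Function.update_of_ne (ne_of_mem_erase hi)])
  rw [e, e, zero_mul, zero_add]

lemma pe_modEq {d : ℕ} (c : Fin (d + 1) → ℤ) {m x y : ℤ} (h : x ≡ y [ZMOD m]) :
    pe c x ≡ pe c y [ZMOD m] :=
  Int.ModEq.sum fun _ _ => (h.pow _).mul_left _

lemma pe_rt {d : ℕ} (c : Fin (d + 1) → ℤ) {p : ℕ} (hp : p.Prime) :
    (∀ y, (p : ℤ) ∣ pe c y) ∨ ((range p).filter fun n : ℕ => (p : ℤ) ∣ pe c n).card ≤ d := by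
  have := Fact.mk hp
  let f : Polynomial (ZMod p) := ∑ j : Fin (d + 1), Polynomial.monomial j (c j : ZMod p)
  have e : ∀ y : ℤ, f.eval (y : ZMod p) = (pe c y : ℤ) := fun y => by
    simp [f, pe, Polynomial.eval_finsetSum]
  by_cases h : f = 0
  · refine Or.inl fun y => (ZMod.intCast_zmod_eq_zero_iff_dvd _ p).1 ?_
    rw [← e, h, Polynomial.eval_zero]
  refine Or.inr ?_
  have h1 : f.natDegree ≤ d := Polynomial.natDegree_sum_le_of_forall_le _ _ fun j _ =>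
    (Polynomial.natDegree_monomial_le _).trans (Nat.lt_succ_iff.1 j.2)
  refine le_trans (card_le_card_of_injOn (t := f.roots.toFinset) (fun n : ℕ => (n : ZMod p))
    (fun n hn => ?_) fun a ha b hb hab => ?_)
    ((Multiset.toFinset_card_le _).trans ((Polynomial.card_roots' f).trans h1))
  · rw [mem_coe, Multiset.mem_toFinset, Polynomial.mem_roots h, Polynomial.IsRoot.def]
    have := e n
    rw [Int.cast_natCast] at this
    rw [this]
    exact (ZMod.intCast_zmod_eq_zero_iff_dvd _ p).2 (mem_filter.1 (mem_coe.1 hn)).2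
  · have a1 := mem_range.1 (mem_filter.1 (mem_coe.1 ha)).1
    have b1 := mem_range.1 (mem_filter.1 (mem_coe.1 hb)).1
    exact Nat.ModEq.eq_of_lt_of_lt ((ZMod.natCast_eq_natCast_iff _ _ _).1 hab) a1 b1

lemma Gd_Sys {F₀ : Finset (ℤ × ℤ)} (h₀ : Prim F₀) {k D : ℕ} {d : Fin k → ℕ} (hd : ∀ i, d i ≤ D)
    (v : (i : Fin k) → Fin (d i + 1) → ℤ) : Gd (Sys F₀ v) (D + 1) where
  per i m x y h := by
    rcases i with f | i
    · exact (h.mul_left _).add_right _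
    · exact pe_modEq _ h
  rt i p hp := by
    rcases i with f | i
    · exact Or.inr ((TB_root_le hp (h₀ f f.2).2).trans (by omega))
    · exact (pe_rt (v i) hp).imp_right fun h => h.trans (by have := hd i; omega)

/-- The terms of lower order. -/
lemma pe_low {d H : ℕ} {c : Fin (d + 1) → ℤ} (hc : ∀ j, |c j| ≤ H) {n N : ℕ} (hn : n ≤ N)
    (hN : 1 ≤ N) : |pe (Function.update c (Fin.last d) 0) n| ≤ d * (H * (N : ℤ) ^ (d - 1)) := by
  rw [pe, Fin.sum_univ_castSucc, Function.update_self, zero_mul, add_zero]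
  refine (abs_sum_le_sum_abs _ _).trans ((sum_le_card_nsmul _ _ (H * (N : ℤ) ^ (d - 1))
    fun j _ => ?_).trans_eq (by simp))
  rw [Function.update_of_ne (Fin.castSucc_ne_last j), abs_mul, abs_pow, Nat.abs_cast]
  refine mul_le_mul (hc _) ?_ (by positivity) (by positivity)
  have j1 : (j.castSucc : ℕ) ≤ d - 1 := by
    have := j.2
    rw [Fin.val_castSucc]
    omega
  exact (pow_le_pow_left₀ (by positivity) (by exact_mod_cast hn) _).trans
    (pow_le_pow_right₀ (by exact_mod_cast hN) j1)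

/-- The size of the values. -/
lemma pe_bounds {lam : ℝ} {d H n : ℕ} {c : Fin (d + 1) → ℤ} (hc : c ∈ PX lam d H) (hn : 1 ≤ n)
    (h : 2 * d * lam ≤ n) :
    (c (Fin.last d) : ℝ) * n ^ d ≤ 2 * pe c n ∧ (pe c n : ℝ) ≤ 2 * (c (Fin.last d) * n ^ d) := by
  obtain ⟨c1, c2, c3⟩ := mem_PX hc
  have e := pe_update c (Fin.last d) (c (Fin.last d)) n
  rw [Function.update_eq_self, Fin.val_last] at e
  have l := pe_low c1 (le_refl n) hn
  have l' : |(pe (Function.update c (Fin.last d) 0) n : ℝ)| ≤ d * (H * (n : ℝ) ^ (d - 1)) := by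
    exact_mod_cast l
  have a0 : (0 : ℝ) ≤ c (Fin.last d) := by exact_mod_cast (by omega : 0 ≤ c (Fin.last d))
  have b : 2 * (d * (H * (n : ℝ) ^ (d - 1))) ≤ c (Fin.last d) * n ^ d := by
    rcases d with _ | d
    · simpa using a0
    · rw [Nat.add_sub_cancel, pow_succ]
      calc _ ≤ 2 * (((d + 1 : ℕ) : ℝ) * (lam * c (Fin.last (d + 1)) * (n : ℝ) ^ d)) := by gcongr
        _ = c (Fin.last (d + 1)) * ((n : ℝ) ^ d * (2 * ((d + 1 : ℕ) : ℝ) * lam)) := by ring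
        _ ≤ _ := by gcongr
  rw [e]
  push_cast
  obtain ⟨l1, l2⟩ := abs_le.1 l'
  have : (0 : ℝ) ≤ c (Fin.last d) * n ^ d := by positivity
  constructor <;> linarith only [b, l1, l2]

lemma pe_range {lam : ℝ} {d H N n : ℕ} {c : Fin (d + 1) → ℤ} (hd : 1 ≤ d) (hc : c ∈ PX lam d H)
    {S : Finset ℕ} (hS : Rg lam N S) (hn : n ∈ S) (hl : 0 < lam) (h : 2 * d * lam ^ 2 ≤ N) :
    (n : ℤ) ≤ 2 * pe c n ∧ 1 ≤ pe c n ∧ pe c n ≤ 2 * (H * N ^ d) := by
  obtain ⟨c1, c2, -⟩ := mem_PX hc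
  have n1 := hS.pos n hn
  obtain ⟨b1, b2⟩ := pe_bounds hc n1 (le_of_mul_le_mul_left
    (le_trans (le_of_eq (by ring)) (h.trans (hS.lo n hn))) hl)
  have b3 : c (Fin.last d) * (n : ℤ) ^ d ≤ 2 * pe c n := by exact_mod_cast b1
  have b4 : pe c n ≤ 2 * (c (Fin.last d) * (n : ℤ) ^ d) := by exact_mod_cast b2
  have n2 : (1 : ℤ) ≤ n := by exact_mod_cast n1
  have b5 : (n : ℤ) ≤ c (Fin.last d) * (n : ℤ) ^ d :=
    (le_self_pow₀ n2 (by omega)).trans (le_mul_of_one_le_left (by positivity) c2)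
  have b6 : c (Fin.last d) * (n : ℤ) ^ d ≤ H * N ^ d :=
    mul_le_mul ((le_abs_self _).trans (c1 _))
      (pow_le_pow_left₀ (by positivity) (by exact_mod_cast hS.hi n hn) _) (by positivity)
      (by positivity)
  exact ⟨by linarith only [b3, b5], by omega, by linarith only [b4, b6]⟩

/-- The number of polynomials with a value divisible by `e`. -/
lemma card_dvd (lam : ℝ) {d H e : ℕ} (hd : 1 ≤ d) (he : 1 ≤ e) (heH : e ≤ H) (y : ℤ) :
    (((PX lam d H).filter fun c => (e : ℤ) ∣ pe c y).card : ℝ)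
      ≤ 2 * (3 * (H : ℝ)) ^ (d + 1) / e := by
  rw [card_filter]
  push_cast
  refine (sum_PX_le lam (he.trans heH) 0 _ (M := 6 * (H : ℝ) / e) (by positivity)
    fun c _ => ?_).trans_eq (by ring)
  have := Fix_line he heH (pe (Function.update c 0 0) y)
  rw [card_filter] at this
  push_cast at this
  rw [Co_zero lam hd]
  refine le_of_eq_of_le (sum_congr rfl fun b _ => ?_) this
  rw [pe_update, Fin.val_zero, pow_zero, mul_one, add_comm]

end Pool.Agent.Work.MP_51e72e_nt.PV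
end

-- merged part: Pool.Agent.Work.MP_51e72e_nt.AV.Sing
section
/-! The singular product. -/

set_option autoImplicit false
open Finset Filter MeasureTheory Pool.Agent.Lib.MR Pool.Agent.Lib.LargeSieve
open Pool.Agent.Work.MP_678620_nt

namespace Pool.Agent.Work.MP_51e72e_nt.AV

/-- The product of the leading coefficients and of the determinants. -/
def Sing_D (F : Finset (ℤ × ℤ)) : ℕ :=
  (∏ f ∈ F, f.1.natAbs) * ∏ x ∈ F.offDiag, (x.1.1 * x.2.2 - x.2.1 * x.1.2).natAbs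

lemma Sing_D_ne {F : Finset (ℤ × ℤ)} (h : Prim F) : Sing_D F ≠ 0 := by
  refine mul_ne_zero (prod_ne_zero_iff.2 fun f hf => Int.natAbs_ne_zero.2 ?_)
    (prod_ne_zero_iff.2 fun x hx => Int.natAbs_ne_zero.2 fun e => ?_)
  · have := (h f hf).1
    omega
  obtain ⟨h1, h2, h3⟩ := mem_offDiag.1 hx
  obtain ⟨a1, c1⟩ := h _ h1
  obtain ⟨a2, c2⟩ := h _ h2
  have e1 : x.1.1 = x.2.1 := Int.dvd_antisymm (by omega) (by omega)
    (c1.dvd_of_dvd_mul_right ⟨x.2.2, by linarith only [e]⟩) (c2.dvd_of_dvd_mul_right ⟨x.1.2, by linarith only [e]⟩)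
  refine h3 (Prod.ext e1 (mul_left_cancel₀ (a := x.2.1) (by omega) ?_))
  rw [e1] at e
  linarith only [e]

lemma Sing_om {F : Finset (ℤ × ℤ)} {p : ℕ} (hp : p.Prime) : omF F p =
    (F.biUnion fun f => (range p).filter fun n : ℕ => (p : ℤ) ∣ f.1 * n + f.2).card := by
  rw [omF]
  congr 1
  ext n
  simp only [mem_filter, mem_biUnion, (Nat.prime_iff_prime_int.mp hp).dvd_finsetProd_iff, ev]
  exact ⟨fun ⟨h1, f, h2, h3⟩ => ⟨f, h2, h1, h3⟩, fun ⟨f, h2, h1, h3⟩ => ⟨h1, f, h2, h3⟩⟩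

lemma Sing_om_le {F : Finset (ℤ × ℤ)} (h : Prim F) {p : ℕ} (hp : p.Prime) : omF F p ≤ F.card := by
  rw [Sing_om hp]
  simpa using card_biUnion_le_card_mul F _ 1 fun f hf => TB_root_le hp (h f hf).2

lemma Sing_om_eq {F : Finset (ℤ × ℤ)} {p : ℕ} (hp : p.Prime) (hd : ¬ p ∣ Sing_D F) :
    omF F p = F.card := by
  rw [Sing_om hp, card_biUnion, card_eq_sum_ones F]
  · exact sum_congr rfl fun f hf => TB_root hp fun k =>
      hd (((Int.natCast_dvd.1 k).trans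
        (dvd_prod_of_mem (fun f : ℤ × ℤ => f.1.natAbs) hf)).mul_right _)
  · intro f hf g hg hne
    refine disjoint_filter.2 fun n _ h1 h2 => hd (Dvd.dvd.mul_left ?_ _)
    have hx : (f, g) ∈ F.offDiag := mem_offDiag.2 ⟨hf, hg, hne⟩
    refine (Int.natCast_dvd.1 ?_).trans (dvd_prod_of_mem _ hx)
    have := (h2.mul_left f.1).sub (h1.mul_left g.1)
    rwa [show f.1 * (g.1 * n + g.2) - g.1 * (f.1 * n + f.2) = f.1 * g.2 - g.1 * f.2 by ring] at this

lemma Sing_x {p : ℕ} (hp : p.Prime) : 0 < (p : ℝ)⁻¹ ∧ (p : ℝ)⁻¹ ≤ 2⁻¹ :=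
  ⟨inv_pos.2 (by exact_mod_cast hp.pos), inv_anti₀ two_pos (by exact_mod_cast hp.two_le)⟩

lemma Sing_loc (F : Finset (ℤ × ℤ)) {p : ℕ} (hp : p.Prime) :
    0 ≤ loc F p ∧ loc F p ≤ (1 - (p : ℝ)⁻¹)⁻¹ ^ F.card := by
  obtain ⟨x0, x1⟩ := Sing_x hp
  have h1 : (omF F p : ℝ) / p ≤ 1 := div_le_one_of_le₀
    (by exact_mod_cast (card_filter_le _ _).trans (card_range p).le) (Nat.cast_nonneg _)
  have h2 : 0 < (1 - (p : ℝ)⁻¹) ^ F.card := pow_pos (by linarith only [x0, x1]) _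
  rw [loc, one_div, inv_pow, ← one_div (_ ^ _)]
  exact ⟨div_nonneg (by linarith only [h1]) h2.le,
    div_le_div_of_nonneg_right (sub_le_self _ (by positivity)) h2.le⟩

lemma Sing_bern {x : ℝ} (x1 : x ≤ 1) (m : ℕ) : 1 - m * x ≤ (1 - x) ^ m := by
  simpa [sub_eq_add_neg] using one_add_mul_le_pow (a := -x) (by linarith) m

lemma Sing_bern2 {x : ℝ} (x0 : 0 ≤ x) (x1 : x ≤ 1) (m : ℕ) :
    (1 - x) ^ m ≤ 1 - m * x + (m * x) ^ 2 := by
  induction m with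
  | zero => simp
  | succ m ih =>
    rw [pow_succ]
    refine (mul_le_mul_of_nonneg_right ih (by linarith)).trans ?_
    have m0 : (0 : ℝ) ≤ m := Nat.cast_nonneg m
    push_cast
    linarith only [m0, x0, mul_nonneg m0 (sq_nonneg x), mul_nonneg (sq_nonneg (m * x)) x0, sq_nonneg x, sq_nonneg x, sq_nonneg (↑m * x)]

lemma Sing_le_one {F : Finset (ℤ × ℤ)} {p : ℕ} (hp : p.Prime) (hd : ¬ p ∣ Sing_D F) :
    loc F p ≤ 1 := by
  obtain ⟨x0, x1⟩ := Sing_x hp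
  rw [loc, Sing_om_eq hp hd, one_div, div_eq_mul_inv (F.card : ℝ)]
  exact div_le_one_of_le₀ (Sing_bern (by linarith only [x0, x1]) _) (pow_nonneg (by linarith) _)

lemma Sing_near {F : Finset (ℤ × ℤ)} (h : Prim F) {k p : ℕ} (hk : F.card ≤ k) (hp : p.Prime)
    (hkp : 2 * k ≤ p) : |loc F p - 1| ≤
      2 * k ^ 2 * ((p : ℝ) ^ 2)⁻¹ + if p ∣ Sing_D F then 2 * k * (p : ℝ)⁻¹ else 0 := by
  obtain ⟨x0, x1⟩ := Sing_x hp
  have k1 : (k : ℝ) * (p : ℝ)⁻¹ ≤ 2⁻¹ := by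
    rw [mul_inv_le_iff₀ (by exact_mod_cast hp.pos)]
    have : (2 * k : ℝ) ≤ p := by exact_mod_cast hkp
    linarith only [this]
  have m1 : (F.card : ℝ) * (p : ℝ)⁻¹ ≤ k * (p : ℝ)⁻¹ :=
    mul_le_mul_of_nonneg_right (by exact_mod_cast hk) x0.le
  have m0 : 0 ≤ (F.card : ℝ) * (p : ℝ)⁻¹ := by positivity
  have b1 := Sing_bern (x := (p : ℝ)⁻¹) (by linarith only [x0, x1]) F.card
  have b2 := Sing_bern2 x0.le (by linarith only [x0, x1]) F.card
  have b3 : (1 - (p : ℝ)⁻¹) ^ F.card ≤ 1 := pow_le_one₀ (by linarith only [x0, x1]) (by linarith only [x0])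
  have b4 : 0 < (1 - (p : ℝ)⁻¹) ^ F.card := by linarith only [x0, x1, k1, m1, b1]
  have e : 2 * (k : ℝ) ^ 2 * ((p : ℝ) ^ 2)⁻¹ = 2 * (k * (p : ℝ)⁻¹) ^ 2 := by
    rw [mul_pow, inv_pow, mul_assoc]
  rw [e, mul_assoc, abs_le, loc, one_div, div_eq_mul_inv (omF F p : ℝ), le_sub_iff_add_le,
    sub_le_iff_le_add, le_div_iff₀ b4, div_le_iff₀ b4]
  split_ifs with d
  · have o1 : (omF F p : ℝ) * (p : ℝ)⁻¹ ≤ F.card * (p : ℝ)⁻¹ :=
      mul_le_mul_of_nonneg_right (by exact_mod_cast Sing_om_le h hp) x0.le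
    have o0 : 0 ≤ (omF F p : ℝ) * (p : ℝ)⁻¹ := by positivity
    generalize (omF F p : ℝ) * (p : ℝ)⁻¹ = o at *
    generalize (F.card : ℝ) * (p : ℝ)⁻¹ = y at *
    generalize (k : ℝ) * (p : ℝ)⁻¹ = u at *
    generalize (1 - (p : ℝ)⁻¹) ^ F.card = q at *
    constructor
    · (refine le_of_not_gt fun h_nl => ?_; linarith only [h_nl, o0, o1, m1, b4, x0, x1, k1, b3, mul_nonneg (sq_nonneg u) b4.le, sq_nonneg u, mul_pos_of_neg_of_neg (Mathlib.Tactic.Linarith.sub_neg_of_lt x0) (Mathlib.Tactic.Linarith.sub_neg_of_lt h_nl), mul_nonneg_of_nonpos_of_nonpos (Mathlib.Tactic.Linarith.sub_nonpos_of_le x1) (le_of_lt (Mathlib.Tactic.Linarith.sub_neg_of_lt h_nl)), mul_nonneg_of_nonpos_of_nonpos (Mathlib.Tactic.Linarith.sub_nonpos_of_le k1) (Mathlib.Tactic.Linarith.sub_nonpos_of_le b3)])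
    · (refine le_of_not_gt fun h_nl => ?_; linarith only [h_nl, o0, m1, b1, b4, x0, x1, k1, b3, mul_nonneg (sq_nonneg u) b4.le, sq_nonneg u, mul_pos_of_neg_of_neg (Mathlib.Tactic.Linarith.sub_neg_of_lt x0) (Mathlib.Tactic.Linarith.sub_neg_of_lt h_nl), mul_nonneg_of_nonpos_of_nonpos (Mathlib.Tactic.Linarith.sub_nonpos_of_le x1) (le_of_lt (Mathlib.Tactic.Linarith.sub_neg_of_lt h_nl)), mul_nonneg_of_nonpos_of_nonpos (Mathlib.Tactic.Linarith.sub_nonpos_of_le k1) (Mathlib.Tactic.Linarith.sub_nonpos_of_le b3)])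
  · rw [Sing_om_eq hp d]
    generalize (F.card : ℝ) * (p : ℝ)⁻¹ = y at *
    generalize (k : ℝ) * (p : ℝ)⁻¹ = u at *
    generalize (1 - (p : ℝ)⁻¹) ^ F.card = q at *
    have y2 : y ^ 2 ≤ u ^ 2 := pow_le_pow_left₀ m0 m1 2
    constructor
    · linarith only [b2, y2, k1, m1, b1, mul_nonneg (sq_nonneg u) (show 0 ≤ q - 2⁻¹ by linarith), sq_nonneg u]
    · linarith only [b1, b4, mul_nonneg (sq_nonneg u) b4.le, sq_nonneg u]

lemma Sing_EP0 (F : Finset (ℤ × ℤ)) (y : ℕ) : 0 ≤ EP F y :=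
  prod_nonneg fun _ hp => (Sing_loc F (mem_filter.1 hp).2).1

/-- The tail of the product. -/
lemma Sing_tail {F : Finset (ℤ × ℤ)} (h : Prim F) {k w y : ℕ} (hk : F.card ≤ k) (hw : 0 < w)
    (hkw : 2 * k ≤ w) (hy : w ≤ y) : |EP F y - EP F w| ≤ EP F w *
      (Real.exp ((2 * k ^ 2 + 2 * k * (Sing_D F).primeFactors.card) / w) - 1) := by
  set T := (Ioc w y).filter Nat.Prime with hT
  have e : EP F y = EP F w * ∏ p ∈ T, loc F p := by
    rw [EP, EP, ← prod_union (disjoint_left.2 fun p h1 h2 => ?_)]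
    · congr 1
      ext p
      simp only [hT, mem_filter, mem_range, mem_union, mem_Ioc]
      by_cases q : p.Prime <;> simp only [q, and_true, and_false, or_self]
      omega
    · have a := mem_range.1 (mem_filter.1 h1).1
      have b := (mem_Ioc.1 (mem_filter.1 h2).1).1
      omega
  have w0 : (0 : ℝ) < w := by exact_mod_cast hw
  rw [e, ← mul_sub_one, abs_mul, abs_of_nonneg (Sing_EP0 F w)]
  refine mul_le_mul_of_nonneg_left ?_ (Sing_EP0 F w)
  have a := T.norm_prod_one_add_sub_one_le fun p => loc F p - 1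
  simp only [add_sub_cancel, Real.norm_eq_abs] at a
  refine a.trans (sub_le_sub_right (Real.exp_le_exp.2 ?_) _)
  refine (sum_le_sum fun p hp => Sing_near h hk (mem_filter.1 hp).2
    (hkw.trans (mem_Ioc.1 (mem_filter.1 hp).1).1.le)).trans ?_
  rw [sum_add_distrib, ← mul_sum, ← sum_filter, add_div, div_eq_mul_inv, div_eq_mul_inv]
  refine add_le_add (mul_le_mul_of_nonneg_left ?_ (by positivity)) ?_
  · refine (sum_le_sum_of_subset_of_nonneg (filter_subset _ _) fun _ _ _ => by positivity).trans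
      ((sum_Ioc_inv_sq_le_sub hw.ne' hy).trans (sub_le_self _ (by positivity)))
  · refine (sum_le_card_nsmul _ _ (2 * k * (w : ℝ)⁻¹) fun p hp => ?_).trans ?_
    · refine mul_le_mul_of_nonneg_left (inv_anti₀ w0 ?_) (by positivity)
      exact_mod_cast (mem_Ioc.1 (mem_filter.1 (mem_filter.1 hp).1).1).1.le
    · rw [nsmul_eq_mul, mul_comm, mul_right_comm (2 * k : ℝ) _ (w : ℝ)⁻¹]
      refine mul_le_mul_of_nonneg_left (Nat.cast_le.2 (card_le_card fun p hp => ?_))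
        (show (0 : ℝ) ≤ 2 * k * (w : ℝ)⁻¹ by positivity)
      exact Nat.mem_primeFactors.2 ⟨(mem_filter.1 (mem_filter.1 hp).1).2, (mem_filter.1 hp).2,
        Sing_D_ne h⟩

theorem EP_tendsto {F : Finset (ℤ × ℤ)} (h : Prim F) : Tendsto (EP F) atTop (nhds (CF F)) := by
  have a : Antitone fun n => EP F (n + Sing_D F) := antitone_nat_of_succ_le fun n => by
    rw [add_right_comm, EP, range_add_one, filter_insert]
    split_ifs with q
    · rw [prod_insert fun k => notMem_range_self (mem_filter.1 k).1]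
      refine mul_le_of_le_one_left (Sing_EP0 F _) (Sing_le_one q fun k => ?_)
      have := Nat.le_of_dvd (Nat.pos_of_ne_zero (Sing_D_ne h)) k
      omega
    · exact le_rfl
  exact tendsto_nhds_limUnder ⟨_, (tendsto_add_atTop_iff_nat _).1
    (tendsto_atTop_ciInf a ⟨0, by rintro _ ⟨n, rfl⟩; exact Sing_EP0 F _⟩)⟩

lemma Sing_head {F : Finset (ℤ × ℤ)} {k w : ℕ} (hk : F.card ≤ k) (hw : 2 ≤ w) :
    EP F w ≤ (Real.exp 73 * Real.log w) ^ k := by
  have a := Pool.Agent.Lib.ANT.prod_one_sub_inv_prime_inv_le w hw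
  have e : (range (w + 1)).filter Nat.Prime = (Ioc 0 w).filter Nat.Prime := by
    ext p
    simp only [mem_filter, mem_range, mem_Ioc]
    exact and_congr_left fun q => ⟨fun r => ⟨q.pos, by omega⟩, fun r => by omega⟩
  have b : 1 ≤ ∏ p ∈ (Ioc 0 w).filter Nat.Prime, (1 - (p : ℝ)⁻¹)⁻¹ := by
    refine one_le_prod fun p hp => ?_
    obtain ⟨x0, x1⟩ := Sing_x (mem_filter.1 hp).2
    exact (one_le_inv₀ (by linarith only [x0, x1])).2 (by linarith only [x0])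
  rw [EP, e]
  refine (prod_le_prod (fun p hp => (Sing_loc F (mem_filter.1 hp).2).1)
    fun p hp => (Sing_loc F (mem_filter.1 hp).2).2).trans ?_
  rw [prod_pow]
  exact (pow_le_pow_right₀ b hk).trans (pow_le_pow_left₀ (by linarith only [b]) a k)

/-- Few primes divide the discriminant. -/
lemma Sing_omega {k N : ℕ} {lam : ℝ} {F : Finset (ℤ × ℤ)} (h : Sy k N lam F) (hN : 2 ≤ N) :
    ((Sing_D F).primeFactors.card : ℝ) ≤ 2 * (k + 3 * k ^ 2) * Real.log N := by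
  have a : 2 ^ (Sing_D F).primeFactors.card ≤ Sing_D F :=
    (pow_card_le_prod _ (fun p => p) 2 fun p hp => (Nat.prime_of_mem_primeFactors hp).two_le).trans
      (Nat.le_of_dvd (Nat.pos_of_ne_zero (Sing_D_ne h.prim)) (Nat.prod_primeFactors_dvd _))
  have b : Sing_D F ≤ N ^ (k + 3 * k ^ 2) := by
    rw [pow_add, pow_mul]
    refine Nat.mul_le_mul ((prod_le_pow_card _ _ N fun f hf => ?_).trans
      (Nat.pow_le_pow_right (by omega) h.card)) ((prod_le_pow_card _ _ (N ^ 3) fun x hx => ?_).trans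
      (Nat.pow_le_pow_right (by positivity) ?_))
    · have := h.a_le f hf
      have := (h.prim f hf).1
      omega
    · obtain ⟨h1, h2, -⟩ := mem_offDiag.1 hx
      have key : ∀ f ∈ F, ∀ g ∈ F, |f.1 * g.2| ≤ (N : ℤ) * N := fun f hf g hg => by
        rw [abs_mul, abs_of_nonneg (show 0 ≤ f.1 by linarith only [h, hf, (h.prim f hf).1])]
        exact mul_le_mul (h.a_le f hf) (h.b_le g hg) (abs_nonneg _) (Nat.cast_nonneg _)
      have c := abs_sub (x.1.1 * x.2.2) (x.2.1 * x.1.2)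
      have n2 : (2 : ℤ) ≤ N := by exact_mod_cast hN
      zify
      linarith only [c, key, h1, h2, n2, key _ h1 _ h2, key _ h2 _ h1, mul_nonneg (sub_nonneg.2 n2) (mul_self_nonneg (N : ℤ)), mul_self_nonneg ↑N]
    · rw [offDiag_card, sq]
      exact (Nat.sub_le _ _).trans (Nat.mul_le_mul h.card h.card)
  have c : (2 : ℝ) ^ (Sing_D F).primeFactors.card ≤ (N : ℝ) ^ (k + 3 * k ^ 2) := by
    exact_mod_cast a.trans b
  have d := Real.log_le_log (by positivity) c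
  rw [Real.log_pow, Real.log_pow] at d
  push_cast at d
  linarith only [d, Real.log_two_gt_d9, Nat.cast_nonneg (α := ℝ) (Sing_D F).primeFactors.card, mul_nonneg_of_nonpos_of_nonpos (Mathlib.Tactic.Linarith.sub_nonpos_of_le (Mathlib.Tactic.Linarith.natCast_nonneg ℝ #(Sing_D F).primeFactors)) (le_of_lt (Mathlib.Tactic.Linarith.sub_neg_of_lt Real.log_two_gt_d9))]

theorem sing (k : ℕ) : ∀ᶠ N : ℕ in atTop, ∀ (lam : ℝ) (F : Finset (ℤ × ℤ)), Sy k N lam F →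
    |EP F ⌊zz N⌋₊ - CF F| ≤ 1 / Real.log N ∧ 0 ≤ CF F ∧ CF F ≤ √(Real.log N) := by
  obtain ⟨c, c0, hc⟩ : ∃ c : ℝ, 0 ≤ c ∧ c = 2 * k ^ 2 + 2 * k * (2 * (k + 3 * k ^ 2)) :=
    ⟨_, by positivity, rfl⟩
  obtain ⟨C, C0, hC⟩ : ∃ C : ℝ, 0 < C ∧ C = Real.exp 73 ^ k * Real.exp (2 * c) :=
    ⟨_, by positivity, rfl⟩
  filter_upwards [TB_tend.eventually ((Real.isLittleO_pow_log_id_atTop (n := k * 2)).bound
    (c := (C ^ 2)⁻¹) (by positivity)), TB_tend.eventually_ge_atTop (2 * k + 4 * c + 2), zz_big 4,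
    eventually_ge_atTop 2] with N h1 h2 h3 hN lam F h
  generalize hl : Real.log N = l at *
  have k0 : (0 : ℝ) ≤ k := Nat.cast_nonneg k
  have l2 : 2 ≤ l := by linarith only [c0, h2]
  have t := EP_tendsto h.prim
  have tail : ∀ w y : ℕ, ⌊l⌋₊ ≤ w → w ≤ y →
      |EP F y - EP F w| ≤ EP F w * (Real.exp (c * l / w) - 1) := fun w y hw hy => by
    have w1 : 2 * k + 2 ≤ w := (Nat.le_floor (by push_cast; linarith only [c0, h2])).trans hw
    refine (Sing_tail h.prim h.card (by omega) (by omega) hy).trans (mul_le_mul_of_nonneg_left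
      (sub_le_sub_right (Real.exp_le_exp.2 (div_le_div_of_nonneg_right ?_ (Nat.cast_nonneg _))) _)
      (Sing_EP0 F w))
    have a := mul_le_mul_of_nonneg_left (Sing_omega h hN) (show (0 : ℝ) ≤ 2 * k by positivity)
    rw [hl] at a
    rw [hc]
    linarith only [a, c0, h2, mul_nonneg (sq_nonneg (k : ℝ)) (show 0 ≤ l - 1 by linarith), sq_nonneg ↑k]
  have half : ∀ x : ℝ, 2 ≤ x → x / 2 ≤ ⌊x⌋₊ := fun x hx => by linarith only [hx, Nat.lt_floor_add_one x]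
  have big : ∀ y, ⌊l⌋₊ ≤ y → EP F y ≤ √l := fun y hy => by
    have w2 : 2 ≤ ⌊l⌋₊ := Nat.le_floor (by exact_mod_cast l2)
    have a1 := (abs_le.1 (tail _ y le_rfl hy)).2
    have a2 : c * l / ⌊l⌋₊ ≤ 2 * c := by
      rw [div_le_iff₀ (by linarith only [c0, h2, half, l2, half l l2])]
      linarith only [half, l2, c0, mul_le_mul_of_nonneg_left (half l l2) c0]
    have a3 : EP F ⌊l⌋₊ ≤ (Real.exp 73 * Real.log l) ^ k := (Sing_head h.card w2).trans
      (pow_le_pow_left₀ (mul_nonneg (Real.exp_pos _).le (Real.log_natCast_nonneg _))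
        (mul_le_mul_of_nonneg_left (Real.log_le_log (by linarith only [c0, h2, half, l2, half l l2])
          (Nat.floor_le (by linarith only [c0, h2]))) (Real.exp_pos _).le) k)
    have a4 : EP F y ≤ C * Real.log l ^ k := by
      have := mul_le_mul a3 (Real.exp_le_exp.2 a2) (Real.exp_pos _).le ((Sing_EP0 F _).trans a3)
      rw [hC, mul_right_comm, ← mul_pow]
      linarith only [a1, this]
    refine a4.trans (Real.le_sqrt_of_sq_le ?_)
    rw [Real.norm_eq_abs, Real.norm_eq_abs, id, abs_of_nonneg (show 0 ≤ l by linarith only [c0, h2]),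
      le_inv_mul_iff₀ (by positivity), pow_mul] at h1
    rw [mul_pow]
    exact (mul_le_mul_of_nonneg_left (le_abs_self _) (sq_nonneg _)).trans h1
  refine ⟨?_, ge_of_tendsto' t (Sing_EP0 F), le_of_tendsto t
    ((eventually_ge_atTop ⌊l⌋₊).mono big)⟩
  have l4 : l ≤ l ^ 4 := le_self_pow₀ (by linarith only [c0, h2]) (by norm_num)
  have z1 : ⌊l⌋₊ ≤ ⌊zz N⌋₊ := Nat.floor_le_floor (l4.trans h3.1)
  have z2 : l ^ 4 / 2 ≤ ⌊zz N⌋₊ := by linarith only [h3, half, c0, h2, l4, half (zz N) (by linarith [h3.1]), h3.1]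
  have s1 : c * l / ⌊zz N⌋₊ ≤ 1 / (2 * l ^ 2) := by
    rw [div_le_div_iff₀ (by linarith only [c0, h2, l4, z2]) (by positivity)]
    linarith only [z2, h2, l2, mul_le_mul_of_nonneg_right (show 4 * c ≤ l by linarith)
      (show 0 ≤ l ^ 3 by positivity)]
  have s0 : 0 ≤ c * l / ⌊zz N⌋₊ := by positivity
  have s2 : 1 / (2 * l ^ 2) ≤ 1 := div_le_one_of_le₀ (by (refine le_of_not_gt fun h_nl => ?_; linarith only [h_nl, c0, h2, l4, mul_nonneg_of_nonpos_of_nonpos (Mathlib.Tactic.Linarith.sub_nonpos_of_le (sq_nonneg l)) (le_of_lt (Mathlib.Tactic.Linarith.sub_neg_of_lt h_nl))])) (by positivity)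
  have s3 := (le_abs_self _).trans (Real.abs_exp_sub_one_le (x := c * l / ⌊zz N⌋₊)
    (by rw [abs_of_nonneg s0]; linarith only [s1, s2]))
  rw [abs_of_nonneg s0] at s3
  have s4 : √l ≤ l := Real.sqrt_le_self_iff.2 (Or.inr (by linarith only [c0, h2]))
  rw [abs_sub_comm]
  refine le_of_tendsto (t.sub_const _).abs ((eventually_ge_atTop ⌊zz N⌋₊).mono fun y hy =>
    (tail _ y z1 hy).trans ?_)
  refine (mul_le_mul ((big _ z1).trans s4) (s3.trans (mul_le_mul_of_nonneg_left s1 zero_le_two))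
    (sub_nonneg.2 (Real.one_le_exp s0)) (by linarith only [c0, h2])).trans_eq ?_
  field_simp

end Pool.Agent.Work.MP_51e72e_nt.AV
end

-- merged part: Pool.Agent.Work.MP_51e72e_nt.PV.CmpD
section
/-! Comparing two truncations of the product. -/

set_option autoImplicit false
open Finset Filter MeasureTheory Pool.Agent.Lib.MR Pool.Agent.Lib.LargeSieve
open Pool.Agent.Work.MP_678620_nt Pool.Agent.Work.MP_51e72e_nt.AV

namespace Pool.Agent.Work.MP_51e72e_nt.PV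

lemma PVCmpD_loc {ι : Type} [Fintype ι] (φ : ι → ℤ → ℤ) (z : ι → ℝ) {p : ℕ} (hp : p.Prime) :
    0 ≤ lz φ z p ∧ lz φ z p ≤ (1 - (p : ℝ)⁻¹)⁻¹ ^ Fintype.card ι := by
  obtain ⟨x0, x1⟩ := Sing_x hp
  have h1 : (om φ (act z p) p : ℝ) / p ≤ 1 := div_le_one_of_le₀
    (by exact_mod_cast (card_filter_le _ _).trans (card_range p).le) (Nat.cast_nonneg _)
  have h2 : 0 < (1 - (p : ℝ)⁻¹) ^ (act z p).card := pow_pos (by linarith only [x0, x1]) _
  refine ⟨div_nonneg (by linarith only [h1]) (one_div (p : ℝ) ▸ h2.le), le_trans ?_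
    (pow_le_pow_right₀ ((one_le_inv₀ (by linarith only [x0, x1])).2 (by linarith only [x0])) (card_le_univ (act z p)))⟩
  rw [lz, one_div, inv_pow, ← one_div (_ ^ _)]
  exact div_le_div_of_nonneg_right (sub_le_self _ (by positivity)) h2.le

lemma PVCmpD_log {x : ℝ} (x1 : x ≤ 2⁻¹) : |Real.log (1 - x) + x| ≤ 2 * x ^ 2 := by
  have h0 : 0 < 1 - x := by linarith only [x1]
  have h1 := Real.log_le_sub_one_of_pos h0
  have h2 := Real.one_sub_inv_le_log_of_pos h0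
  have h3 : (1 - x)⁻¹ ≤ 1 + x + 2 * x ^ 2 := by
    rw [inv_le_iff_one_le_mul₀ h0]
    linarith only [x1, mul_nonneg (sq_nonneg x) (show 0 ≤ 1 - 2 * x by linarith), sq_nonneg x]
  rw [abs_le]
  constructor <;> linarith only [h2, h3, h1, sq_nonneg x, sq_nonneg x]

lemma PVCmpD_lz {ι : Type} [Fintype ι] (φ : ι → ℤ → ℤ) (z : ι → ℝ) {p E : ℕ} (hp : p.Prime)
    (hE : 2 * E ≤ p) (hc : Fintype.card ι ≤ E) (hb : om φ (act z p) p ≤ E) :
    ∃ r : ℝ, |r| ≤ 4 * (E : ℝ) ^ 2 * ((p : ℝ) ^ 2)⁻¹ ∧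
      lz φ z p = Real.exp (r - ((om φ (act z p) p : ℝ) - (act z p).card) / p) := by
  obtain ⟨x0, x1⟩ := Sing_x hp
  have hm : ((act z p).card : ℝ) ≤ (E : ℝ) ^ 2 := by
    exact_mod_cast ((card_le_univ _).trans hc).trans (Nat.le_self_pow two_ne_zero E)
  have ho : (om φ (act z p) p : ℝ) ≤ E := by exact_mod_cast hb
  have hx : (E : ℝ) * (p : ℝ)⁻¹ ≤ 2⁻¹ := by
    rw [mul_inv_le_iff₀ (by exact_mod_cast hp.pos)]
    have : (2 * E : ℝ) ≤ p := by exact_mod_cast hE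
    linarith only [this]
  rw [lz, one_div, div_eq_mul_inv (om φ (act z p) p : ℝ), div_eq_mul_inv _ (p : ℝ), ← inv_pow]
  generalize (p : ℝ)⁻¹ = x at *
  generalize (act z p).card = m at *
  have o0 : (0 : ℝ) ≤ om φ (act z p) p := Nat.cast_nonneg _
  generalize (om φ (act z p) p : ℝ) = o at *
  have o1 : o * x ≤ E * x := mul_le_mul_of_nonneg_right ho x0.le
  have l1 := PVCmpD_log (o1.trans hx)
  have l2 := PVCmpD_log x1
  refine ⟨(Real.log (1 - o * x) + o * x) - m * (Real.log (1 - x) + x), (abs_sub _ _).trans ?_, ?_⟩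
  · rw [abs_mul, Nat.abs_cast]
    have l3 := mul_le_mul hm l2 (abs_nonneg _) (sq_nonneg _)
    have l4 := pow_le_pow_left₀ (mul_nonneg o0 x0.le) o1 2
    rw [mul_pow (E : ℝ)] at l4
    linarith only [l1, l3, l4]
  · rw [show Real.log (1 - o * x) + o * x - m * (Real.log (1 - x) + x) - (o - m) * x =
      Real.log (1 - o * x) - m * Real.log (1 - x) by ring, Real.exp_sub, Real.exp_nat_mul,
      Real.exp_log (by linarith only [x0, x1, hx, o1]), Real.exp_log (by linarith only [x0, x1])]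

theorem EZ_head {ι : Type} [Fintype ι] (φ : ι → ℤ → ℤ) (z : ι → ℝ) {w : ℕ} (hw : 2 ≤ w) :
    0 ≤ EZ φ z w ∧ EZ φ z w ≤ (Real.exp 73 * Real.log w) ^ Fintype.card ι := by
  refine ⟨prod_nonneg fun p hp => (PVCmpD_loc φ z (mem_filter.1 hp).2).1, ?_⟩
  have a := Pool.Agent.Lib.ANT.prod_one_sub_inv_prime_inv_le w hw
  have e : (range (w + 1)).filter Nat.Prime = (Ioc 0 w).filter Nat.Prime := by
    ext p
    simp only [mem_filter, mem_range, mem_Ioc]
    exact and_congr_left fun q => ⟨fun r => ⟨q.pos, by omega⟩, fun r => by omega⟩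
  rw [EZ, e]
  refine (prod_le_prod (fun p hp => (PVCmpD_loc φ z (mem_filter.1 hp).2).1)
    fun p hp => (PVCmpD_loc φ z (mem_filter.1 hp).2).2).trans ?_
  rw [prod_pow]
  refine pow_le_pow_left₀ (prod_nonneg fun p hp => ?_) a _
  obtain ⟨x0, x1⟩ := Sing_x (mem_filter.1 hp).2
  exact inv_nonneg.2 (by linarith only [x0, x1])

theorem EZ_congr {ι : Type} [Fintype ι] (φ : ι → ℤ → ℤ) {z z' : ι → ℝ} {w : ℕ}
    (h : ∀ i, (w : ℝ) ≤ z i) (h' : ∀ i, (w : ℝ) ≤ z' i) : EZ φ z w = EZ φ z' w := by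
  refine prod_congr rfl fun p hp => ?_
  have hp' : (p : ℝ) ≤ w := by exact_mod_cast Nat.lt_succ_iff.1 (mem_range.1 (mem_filter.1 hp).1)
  have e : act z p = act z' p := filter_congr fun i _ =>
    iff_of_true (hp'.trans (h i)) (hp'.trans (h' i))
  rw [lz, lz, e]

theorem cmp_det {ι : Type} [Fintype ι] (φ : ι → ℤ → ℤ) (z : ι → ℝ) {w Y E : ℕ} {s : ℝ}
    (hw : 1 ≤ w) (hY : w ≤ Y) (hE : 2 * E ≤ w) (hc : Fintype.card ι ≤ E) (hb : Bd φ z w Y E)
    (hs : |Rs φ z w Y| + 4 * (E : ℝ) ^ 2 / w ≤ s) (hs1 : s ≤ 1) :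
    |EZ φ z Y - EZ φ z w| ≤ 2 * s * EZ φ z w := by
  have h0 : 0 ≤ EZ φ z w := prod_nonneg fun p hp => (PVCmpD_loc φ z (mem_filter.1 hp).2).1
  have e : EZ φ z Y = EZ φ z w * ∏ p ∈ (Ioc w Y).filter Nat.Prime, lz φ z p := by
    rw [EZ, EZ, ← prod_union (disjoint_filter_filter (disjoint_left.2 fun p h1 h2 => by
      have := mem_range.1 h1
      have := mem_Ioc.1 h2
      omega)), ← filter_union]
    refine prod_congr (congrArg _ ?_) fun _ _ => rfl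
    ext p
    simp only [mem_range, mem_union, mem_Ioc]
    omega
  have h1 : ∀ p ∈ (Ioc w Y).filter Nat.Prime, ∃ r : ℝ, |r| ≤ 4 * (E : ℝ) ^ 2 * ((p : ℝ) ^ 2)⁻¹ ∧
      lz φ z p = Real.exp (r - ((om φ (act z p) p : ℝ) - (act z p).card) / p) := fun p hp => by
    obtain ⟨h2, h3⟩ := mem_filter.1 hp
    obtain ⟨h4, h5⟩ := mem_Ioc.1 h2
    exact PVCmpD_lz φ z h3 (by omega) hc (hb p h3 h4 h5)
  choose! r hr1 hr2 using h1
  have h2 : |∑ p ∈ (Ioc w Y).filter Nat.Prime, r p| ≤ 4 * (E : ℝ) ^ 2 / w := by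
    refine (abs_sum_le_sum_abs _ _).trans ((sum_le_sum hr1).trans ?_)
    rw [← mul_sum, div_eq_mul_inv]
    refine mul_le_mul_of_nonneg_left ((sum_le_sum_of_subset_of_nonneg (filter_subset _ _)
      fun _ _ _ => by positivity).trans ((sum_Ioc_inv_sq_le_sub (by omega) hY).trans
        (sub_le_self _ (by positivity)))) (by positivity)
  have h3 : |∑ p ∈ (Ioc w Y).filter Nat.Prime, r p - Rs φ z w Y| ≤ s :=
    (abs_sub _ _).trans (by linarith only [hs, h2])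
  rw [e, prod_congr rfl hr2, ← Real.exp_sum, sum_sub_distrib, ← Rs, ← mul_sub_one, abs_mul,
    abs_of_nonneg h0, mul_comm]
  exact mul_le_mul_of_nonneg_right ((Real.abs_exp_sub_one_le (h3.trans hs1)).trans (by linarith only [h3])) h0

end Pool.Agent.Work.MP_51e72e_nt.PV
end

-- merged part: Pool.Agent.Work.MP_51e72e_nt.AV.Four
section
/-! The Fourier transform in the constant coefficient. -/

set_option autoImplicit false
open Finset Filter MeasureTheory Pool.Agent.Lib.MR Pool.Agent.Lib.LargeSieve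
open Pool.Agent.Work.MP_678620_nt

namespace Pool.Agent.Work.MP_51e72e_nt.AV

lemma Four_orth {Q : ℕ} (hQ : 0 < Q) {u : ℤ} (h1 : -(Q : ℤ) < u) (h2 : u < Q) :
    ∑ t ∈ range Q, ee (u * ((t : ℝ) / Q)) = if u = 0 then (Q : ℂ) else 0 := by
  have h := sum_ee_orth Q hQ (r := u.toNat) (r' := (-u).toNat) (by omega) (by omega)
  have e : (u : ℝ) = (u.toNat : ℝ) - ((-u).toNat : ℝ) := by
    exact_mod_cast (Int.toNat_sub_toNat_neg u).symm
  have e' : u.toNat = (-u).toNat ↔ u = 0 := by omega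
  simp only [e', Complex.ofReal_natCast] at h
  rw [← h]
  refine sum_congr rfl fun t _ => ?_
  rw [conj_ee, ← ee_add]
  refine congrArg ee ?_
  rw [e]
  ring

lemma Four_dual {A : Finset ℕ} (y : ℕ → ℂ) {M D : ℝ} (hM : 0 ≤ M) (h1 : ∀ a ∈ A, ‖y a‖ ≤ M)
    (h2 : ∀ c : ℕ → ℂ, (∀ a, ‖c a‖ ≤ 1) → ‖∑ a ∈ A, c a * y a‖ ≤ D) :
    ∑ a ∈ A, ‖y a‖ ^ 2 ≤ M * D := by
  choose c hc using fun a => RCLike.exists_norm_eq_mul_self (y a)
  have h3 := h2 c fun a => (hc a).1.le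
  have h4 : ∑ a ∈ A, c a * y a = ((∑ a ∈ A, ‖y a‖ : ℝ) : ℂ) := by
    rw [Complex.ofReal_sum]
    exact sum_congr rfl fun a _ => (hc a).2.symm
  rw [h4, Complex.norm_real, Real.norm_eq_abs] at h3
  refine le_trans ?_ (mul_le_mul_of_nonneg_left ((le_abs_self _).trans h3) hM)
  rw [mul_sum]
  refine sum_le_sum fun a ha => ?_
  rw [sq]
  exact mul_le_mul_of_nonneg_right (h1 a ha) (norm_nonneg _)

lemma Four_cs (X : Finset ℕ) (u v : ℕ → ℂ) {D : ℝ} (h : ∑ x ∈ X, ‖v x‖ ^ 2 ≤ D) :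
    ‖∑ x ∈ X, u x * v x‖ ≤ √(∑ x ∈ X, ‖u x‖ ^ 2) * √D := by
  refine (norm_sum_le _ _).trans ?_
  simp only [norm_mul]
  exact (Real.sum_mul_le_sqrt_mul_sqrt X _ _).trans
    (mul_le_mul_of_nonneg_left (Real.sqrt_le_sqrt h) (Real.sqrt_nonneg _))

lemma Four_bessel {H : ℕ} (hH : 1 ≤ H) (y : ℕ → ℂ) :
    ∑ b ∈ Icc (-(H : ℤ)) H, ‖∑ t ∈ range (3 * H), ee (b * ((t : ℝ) / (3 * H : ℕ))) * y t‖ ^ 2 ≤
      (3 * H : ℕ) * ∑ t ∈ range (3 * H), ‖y t‖ ^ 2 := by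
  have h2 := sum_normSq_of_orth (range (3 * H)) (range (3 * H))
    (fun h r => ee (h * ((r : ℝ) / (3 * H : ℕ)))) (fun _ => ((3 * H : ℕ) : ℝ))
    (fun t => ee (-(H * ((t : ℝ) / (3 * H : ℕ)))) * y t)
    (fun j hj k hk => sum_ee_orth (3 * H) (by omega) (mem_range.1 hj) (mem_range.1 hk))
  simp only [norm_mul, Lib.LargeSieve.norm_ee, one_mul] at h2
  rw [mul_sum, ← h2]
  have hs : Icc (-(H : ℤ)) H ⊆ (range (3 * H)).image fun h : ℕ => (h : ℤ) - H := by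
    intro b hb
    rw [mem_Icc] at hb
    exact mem_image.2 ⟨(b + H).toNat, mem_range.2 (by omega), by omega⟩
  refine (sum_le_sum_of_subset_of_nonneg hs fun _ _ _ => by positivity).trans ?_
  rw [sum_image fun i _ j _ h => by simpa using h]
  refine le_of_eq (sum_congr rfl fun h _ => ?_)
  refine congrArg (fun z : ℂ => ‖z‖ ^ 2) (sum_congr rfl fun t _ => ?_)
  rw [← mul_assoc, ← ee_add]
  refine congrArg (fun z => ee z * y t) ?_
  push_cast
  ring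

/-- The transform of `G` on a window. -/
noncomputable def Four_gh (G : ℤ → ℂ) (H : ℕ) (θ : ℝ) (x : ℕ) : ℂ :=
  ∑ m ∈ Ioc ((x : ℤ) - H) ((x : ℤ) - H + 3 * H), G m * ee (-(m * θ))

lemma Four_shift (G : ℤ → ℂ) (H : ℕ) (θ : ℝ) (x m : ℕ) :
    Four_gh G H θ x * ee (m * θ) = ∑ j ∈ Ioc ((x : ℤ) - H - m) ((x : ℤ) - H - m + 3 * H),
      G (m + j) * ee (-(j * θ)) := by
  rw [Four_gh, sum_mul]
  refine sum_nbij' (fun j => j - m) (fun j => m + j) ?_ ?_ ?_ ?_ ?_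
  · intro j hj
    simp only [mem_Ioc] at hj ⊢
    omega
  · intro j hj
    simp only [mem_Ioc] at hj ⊢
    omega
  · intro j _
    simp
  · intro j _
    simp
  · intro j _
    rw [mul_assoc, ← ee_add, add_sub_cancel]
    refine congrArg (fun z => G j * ee z) ?_
    push_cast
    ring

lemma Four_inv (G : ℤ → ℂ) {H : ℕ} (hH : 1 ≤ H) (x m : ℕ) {b : ℤ}
    (hb : m + b ∈ Ioc ((x : ℤ) - H) ((x : ℤ) - H + 3 * H)) :
    ∑ t ∈ range (3 * H), ee (b * ((t : ℝ) / (3 * H : ℕ))) *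
      (Four_gh G H ((t : ℝ) / (3 * H : ℕ)) x * ee (m * ((t : ℝ) / (3 * H : ℕ)))) =
      (3 * H : ℕ) * G (m + b) := by
  simp only [Four_gh, sum_mul, mul_sum]
  rw [sum_comm]
  have key : ∀ j ∈ Ioc ((x : ℤ) - H) ((x : ℤ) - H + 3 * H),
      ∑ t ∈ range (3 * H), ee (b * ((t : ℝ) / (3 * H : ℕ))) *
        (G j * ee (-(j * ((t : ℝ) / (3 * H : ℕ)))) * ee (m * ((t : ℝ) / (3 * H : ℕ)))) =
      if m + b = j then (3 * H : ℕ) * G j else 0 := by
    intro j hj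
    rw [mem_Ioc] at hb hj
    have h := Four_orth (Q := 3 * H) (u := m + b - j) (by omega) (by omega) (by omega)
    simp only [sub_eq_zero] at h
    have e : (if (m : ℤ) + b = j then ((3 * H : ℕ) : ℂ) * G j else 0) =
        (if (m : ℤ) + b = j then ((3 * H : ℕ) : ℂ) else 0) * G j := by
      split_ifs <;> simp
    rw [e, ← h, sum_mul]
    refine sum_congr rfl fun t _ => ?_
    have e' : ((m + b - j : ℤ) : ℝ) * ((t : ℝ) / (3 * H : ℕ)) =
        b * ((t : ℝ) / (3 * H : ℕ)) + (-(j * ((t : ℝ) / (3 * H : ℕ))) +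
          m * ((t : ℝ) / (3 * H : ℕ))) := by
      rw [Int.cast_sub, Int.cast_add, Int.cast_natCast]
      ring
    rw [e', ee_add, ee_add]
    ring
  rw [sum_congr rfl key, sum_ite_eq, if_pos hb]

lemma Four_card (H x : ℕ) : (Ioc ((x : ℤ) - H) ((x : ℤ) - H + 3 * H)).card = 3 * H := by
  rw [Int.card_Ioc]
  omega

lemma Four_gh_le {G : ℤ → ℂ} {H : ℕ} {g₀ : ℝ} {x : ℕ}
    (hG : ∀ m ∈ Ioc ((x : ℤ) - H) ((x : ℤ) - H + 3 * H), ‖G m‖ ≤ g₀) (θ : ℝ) :
    ‖Four_gh G H θ x‖ ≤ (3 * H : ℕ) * g₀ := by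
  refine (norm_sum_le _ _).trans ?_
  refine (sum_le_card_nsmul _ _ g₀ fun m hm => ?_).trans ?_
  · rw [norm_mul, norm_ee, mul_one]
    exact hG m hm
  · rw [Four_card, nsmul_eq_mul]

lemma Four_gh_sq {G : ℤ → ℂ} {H : ℕ} (hH : 1 ≤ H) {g₀ : ℝ} {x : ℕ}
    (hG : ∀ m ∈ Ioc ((x : ℤ) - H) ((x : ℤ) - H + 3 * H), ‖G m‖ ≤ g₀) :
    ∑ t ∈ range (3 * H), ‖Four_gh G H ((t : ℝ) / (3 * H : ℕ)) x‖ ^ 2 ≤
      (3 * H : ℕ) * ((3 * H : ℕ) * g₀ ^ 2) := by
  have h2 := sum_normSq_of_orth (range (3 * H)) (Ioc ((x : ℤ) - H) ((x : ℤ) - H + 3 * H))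
    (fun t m => ee (-(m * ((t : ℝ) / (3 * H : ℕ))))) (fun _ => ((3 * H : ℕ) : ℝ)) G (by
      intro j hj k hk
      rw [mem_Ioc] at hj hk
      have h := Four_orth (Q := 3 * H) (u := k - j) (by omega) (by omega) (by omega)
      simp only [sub_eq_zero, eq_comm (a := k)] at h
      rw [Complex.ofReal_natCast, ← h]
      refine sum_congr rfl fun t _ => ?_
      rw [conj_ee, ← ee_add]
      refine congrArg ee ?_
      rw [Int.cast_sub]
      ring)
  simp only [Four_gh, mul_comm (G _)]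
  rw [h2, ← mul_sum]
  refine mul_le_mul_of_nonneg_left ?_ (Nat.cast_nonneg _)
  refine (sum_le_card_nsmul _ _ (g₀ ^ 2) fun m hm => ?_).trans ?_
  · exact pow_le_pow_left₀ (norm_nonneg _) (hG m hm) 2
  · rw [Four_card, nsmul_eq_mul]

/-- The base points of the windows. -/
def Four_X (H N : ℕ) : Finset ℕ := (range (H * N)).filter fun x => H ≤ x

lemma Four_win {E : Type*} [AddCommMonoid E] {H N m : ℕ} (h1 : 2 * H ≤ m) (h2 : m ≤ H * N)
    (φ : ℕ → E) : ∑ x ∈ Four_X H N, (if x < m ∧ m ≤ x + H then φ x else 0) =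
      ∑ i ∈ range H, φ (m - H + i) := by
  rw [← sum_filter]
  refine sum_nbij' (fun x => x - (m - H)) (fun i => m - H + i) ?_ ?_ ?_ ?_ ?_
  · intro x hx
    simp only [Four_X, mem_filter, mem_range] at hx ⊢
    omega
  · intro x hx
    simp only [Four_X, mem_filter, mem_range] at hx ⊢
    omega
  · intro x hx
    simp only [Four_X, mem_filter, mem_range] at hx ⊢
    omega
  · intro x _
    omega
  · intro x hx
    simp only [Four_X, mem_filter, mem_range] at hx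
    refine congrArg φ ?_
    omega

lemma Four_prod {lam : ℝ} {H N : ℕ} {A S : Finset ℕ} (hl : 1 ≤ lam) (hN : 2 * lam ^ 2 ≤ N)
    (hA : Rg lam H A) (hS : Rg lam N S) {a n : ℕ} (ha : a ∈ A) (hn : n ∈ S) :
    2 * H ≤ a * n ∧ a * n ≤ H * N := by
  refine ⟨?_, Nat.mul_le_mul (hA.hi a ha) (hS.hi n hn)⟩
  have h1 := mul_le_mul (hA.lo a ha) (hS.lo n hn) (Nat.cast_nonneg _) (by positivity)
  have h2 := mul_le_mul_of_nonneg_left hN (Nat.cast_nonneg (α := ℝ) H)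
  have h3 : lam ^ 2 * (2 * H) ≤ lam ^ 2 * (a * n) := by linarith
  exact_mod_cast le_of_mul_le_mul_left h3 (by positivity)

/-- The Fourier coefficient. -/
noncomputable def Four_T (G : ℤ → ℂ) (g : ℕ → ℂ) (H N : ℕ) (S A : Finset ℕ) (c : ℕ → ℂ)
    (θ : ℝ) : ℂ :=
  ∑ x ∈ Four_X H N, Four_gh G H θ x * Sh A S (fun a n => c a * g n * ee ((a * n : ℕ) * θ)) H x

lemma Four_rep {H N : ℕ} {A S : Finset ℕ}
    (h : ∀ a ∈ A, ∀ n ∈ S, 2 * H ≤ a * n ∧ a * n ≤ H * N) (G : ℤ → ℂ) (g c : ℕ → ℂ) (θ : ℝ) :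
    Four_T G g H N S A c θ = ∑ i ∈ range H, ∑ a ∈ A, ∑ n ∈ S,
      c a * g n * (Four_gh G H θ (a * n - H + i) * ee ((a * n : ℕ) * θ)) := by
  simp only [Four_T, Sh, mul_sum, mul_ite, mul_zero]
  rw [sum_comm, sum_comm (s := range H)]
  refine sum_congr rfl fun a ha => ?_
  rw [sum_comm, sum_comm (s := range H)]
  refine sum_congr rfl fun n hn => ?_
  rw [Four_win (h a ha n hn).1 (h a ha n hn).2]
  exact sum_congr rfl fun i _ => by ring

lemma Four_lin (G : ℤ → ℂ) (g c : ℕ → ℂ) (H N : ℕ) (S A : Finset ℕ) (θ : ℝ) :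
    ∑ a ∈ A, c a * Four_T G g H N S {a} (fun _ => 1) θ = Four_T G g H N S A c θ := by
  simp only [Four_T, Sh, mul_sum, mul_ite, mul_zero, sum_singleton]
  rw [sum_comm]
  refine sum_congr rfl fun x _ => sum_congr rfl fun a _ => sum_congr rfl fun n _ => ?_
  split_ifs
  · ring
  · rfl

lemma Four_single {lam : ℝ} {H N a : ℕ} {S : Finset ℕ} (hl : 1 ≤ lam) (hA : Rg lam H {a})
    (hS : Rg lam N S) (h : ∀ n ∈ S, 2 * H ≤ a * n ∧ a * n ≤ H * N) (f : ℕ → ℕ → ℂ)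
    (hf : ∀ a n, ‖f a n‖ ≤ 1) : ∑ x ∈ Four_X H N, ‖Sh {a} S f H x‖ ^ 2 ≤ 2 * lam * H * N := by
  have h1 : ∀ x, ‖Sh {a} S f H x‖ ≤
      ∑ n ∈ S, if x < a * n ∧ a * n ≤ x + H then (1 : ℝ) else 0 := by
    intro x
    rw [Sh, sum_singleton]
    refine (norm_sum_le _ _).trans (sum_le_sum fun n _ => ?_)
    split_ifs
    · exact hf a n
    · exact norm_zero.le
  have h2 : ∀ x, ‖Sh {a} S f H x‖ ≤ 2 * lam := fun x => (h1 x).trans (by
    simpa only [sum_singleton, card_singleton, Nat.cast_one, mul_one] using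
      Sh_card (S := S) hl hA x)
  have h3 : ∑ x ∈ Four_X H N, ‖Sh {a} S f H x‖ ≤ H * N := by
    refine (sum_le_sum fun x _ => h1 x).trans ?_
    rw [sum_comm, sum_congr rfl fun n hn => Four_win (h n hn).1 (h n hn).2 fun _ => (1 : ℝ)]
    simp only [sum_const, card_range, nsmul_eq_mul, mul_one]
    rw [mul_comm]
    exact mul_le_mul_of_nonneg_left (by exact_mod_cast hS.card) (Nat.cast_nonneg _)
  rw [mul_assoc (2 * lam)]
  refine le_trans ?_ (mul_le_mul_of_nonneg_left h3 (by positivity))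
  rw [mul_sum]
  refine sum_le_sum fun x _ => ?_
  rw [sq]
  exact mul_le_mul_of_nonneg_right (h2 x) (norm_nonneg _)

theorem four {lam g₀ E₁ E₂ : ℝ} {H N : ℕ} {A S : Finset ℕ} (hl : 1 ≤ lam) (hH : 1 ≤ H)
    (hN : 2 * lam ^ 2 ≤ N) (hA : Rg lam H A) (hS : Rg lam N S) (G : ℤ → ℂ)
    (hG : ∀ m : ℤ, 1 ≤ m → m ≤ 3 * H * N → ‖G m‖ ≤ g₀) (g : ℕ → ℂ) (hg : ∀ n, ‖g n‖ ≤ 1)
    (Mj : Finset ℕ) (hE₁ : 0 ≤ E₁) (hE₂ : 0 ≤ E₂) (hg₀ : 0 ≤ g₀)
    (hmin : ∀ t ∈ range (3 * H), t ∉ Mj → ∀ b : ℕ → ℂ, (∀ a, ‖b a‖ ≤ 1) →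
      ∑ x ∈ range (H * N), ‖Sh A S (fun a n => b a * g n *
        ee ((a * n : ℕ) * ((t : ℝ) / (3 * H : ℕ)))) H x‖ ^ 2 ≤ E₁ ^ 2)
    (hmaj : ∀ t ∈ Mj, ∀ b : ℕ → ℂ, (∀ a, ‖b a‖ ≤ 1) → ∀ j₁ : ℤ, -(2 * (H : ℤ)) ≤ j₁ → j₁ ≤ 0 →
      ‖∑ a ∈ A, ∑ n ∈ S, b a * g n * ∑ j ∈ Ioc j₁ (j₁ + 3 * H),
        G ((a * n : ℕ) + j) * ee (-(j * ((t : ℝ) / (3 * H : ℕ))))‖ ≤ E₂) :
    ∑ a ∈ A, ∑ b ∈ Icc (-(H : ℤ)) H, ‖∑ n ∈ S, g n * G ((a * n : ℕ) + b)‖ ^ 2
      ≤ 3 * N * g₀ ^ 2 * √(2 * lam * H * N) * E₁ + Mj.card * g₀ * N * E₂ := by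
  have hp : ∀ a ∈ A, ∀ n ∈ S, 2 * H ≤ a * n ∧ a * n ≤ H * N :=
    fun a ha n hn => Four_prod hl hN hA hS ha hn
  have hN1 : 1 ≤ N := by
    have : (1 : ℝ) ≤ N := by linarith only [hl, hN, mul_nonneg_of_nonpos_of_nonpos (Mathlib.Tactic.Linarith.sub_nonpos_of_le hl) (Mathlib.Tactic.Linarith.sub_nonpos_of_le hl)]
    exact_mod_cast this
  have hX : ∀ x : ℕ, H ≤ x → x < H * N →
      ∀ m ∈ Ioc ((x : ℤ) - H) ((x : ℤ) - H + 3 * H), ‖G m‖ ≤ g₀ := by
    intro x h1 h2 m hm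
    rw [mem_Ioc] at hm
    have h3 : H ≤ H * N := Nat.le_mul_of_pos_right H hN1
    have e : 3 * (H : ℤ) * N = 3 * (H * N : ℕ) := by push_cast; ring
    exact hG m (by omega) (by omega)
  set θ : ℕ → ℝ := fun t => (t : ℝ) / (3 * H : ℕ) with hθ
  set y : ℕ → ℕ → ℂ := fun t a => Four_T G g H N S {a} (fun _ => 1) (θ t) with hy
  set E : ℕ → ℝ := fun t => ∑ x ∈ Four_X H N, ‖Four_gh G H (θ t) x‖ ^ 2 with hE
  have hE0 : ∀ t, 0 ≤ E t := fun t => sum_nonneg fun _ _ => by positivity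
  have hp1 : ∀ a ∈ A, ∀ a' ∈ ({a} : Finset ℕ), ∀ n ∈ S, 2 * H ≤ a' * n ∧ a' * n ≤ H * N :=
    fun a ha a' ha' => hp a' (mem_singleton.1 ha' ▸ ha)
  have inv : ∀ a ∈ A, ∀ b ∈ Icc (-(H : ℤ)) H, ∑ t ∈ range (3 * H), ee (b * θ t) * y t a =
      (H * (3 * H : ℕ) : ℂ) * ∑ n ∈ S, g n * G ((a * n : ℕ) + b) := by
    intro a ha b hb
    rw [mem_Icc] at hb
    simp only [hy, Four_rep (hp1 a ha), sum_singleton, mul_sum, one_mul]
    rw [sum_comm]
    have : ∀ i ∈ range H, ∑ t ∈ range (3 * H), ∑ n ∈ S, ee (b * θ t) *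
        (g n * (Four_gh G H (θ t) (a * n - H + i) * ee ((a * n : ℕ) * θ t))) =
        ∑ n ∈ S, ((3 * H : ℕ) : ℂ) * (g n * G ((a * n : ℕ) + b)) := by
      intro i hi
      rw [sum_comm]
      refine sum_congr rfl fun n hn => ?_
      have h1 := hp a ha n hn
      rw [mem_range] at hi
      have h2 := Four_inv G hH (a * n - H + i) (a * n) (b := b) (mem_Ioc.2 (by omega))
      rw [mul_left_comm, ← h2, mul_sum]
      exact sum_congr rfl fun t _ => by ring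
    rw [sum_congr rfl this, sum_const, card_range, nsmul_eq_mul, mul_sum]
    exact sum_congr rfl fun n _ => by ring
  have bes : ((H : ℝ) * (3 * H : ℕ)) ^ 2 *
      ∑ a ∈ A, ∑ b ∈ Icc (-(H : ℤ)) H, ‖∑ n ∈ S, g n * G ((a * n : ℕ) + b)‖ ^ 2 ≤
      (3 * H : ℕ) * ∑ t ∈ range (3 * H), ∑ a ∈ A, ‖y t a‖ ^ 2 := by
    rw [sum_comm (s := range (3 * H)), mul_sum, mul_sum]
    refine sum_le_sum fun a ha => ?_
    refine le_trans (le_of_eq ?_) (Four_bessel hH fun t => y t a)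
    rw [mul_sum]
    refine sum_congr rfl fun b hb => ?_
    rw [inv a ha b hb, norm_mul, norm_mul, Complex.norm_natCast, Complex.norm_natCast, ← mul_pow]
  have hb : ∀ (c : ℕ → ℂ), (∀ a, ‖c a‖ ≤ 1) → ∀ (t a n : ℕ),
      ‖c a * g n * ee ((a * n : ℕ) * θ t)‖ ≤ 1 := by
    intro c hc t a n
    rw [norm_mul, norm_mul, norm_ee, mul_one]
    exact mul_le_one₀ (hc a) (norm_nonneg _) (hg n)
  have mi : ∀ t ∈ range (3 * H), t ∉ Mj →
      ∑ a ∈ A, ‖y t a‖ ^ 2 ≤ E t * (√(2 * lam * H * N) * E₁) := by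
    intro t ht ht'
    have h := Four_dual (A := A) (y t) (M := √(E t) * √(2 * lam * H * N)) (D := √(E t) * E₁)
      (by positivity) (fun a ha => Four_cs _ _ _ (Four_single hl
        (hA.mono (singleton_subset_iff.2 ha)) hS (hp a ha) _ (hb _ (fun _ => norm_one.le) t)))
      (fun c hc => by
        rw [hy, Four_lin, ← Real.sqrt_sq hE₁]
        exact Four_cs _ _ _ ((sum_le_sum_of_subset_of_nonneg (filter_subset _ _)
          fun _ _ _ => by positivity).trans (hmin t ht ht' c hc)))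
    refine h.trans (le_of_eq ?_)
    rw [mul_mul_mul_comm, Real.mul_self_sqrt (hE0 t)]
  have ma : ∀ t ∈ Mj, ∑ a ∈ A, ‖y t a‖ ^ 2 ≤ H * (N * ((3 * H : ℕ) * g₀)) * (H * E₂) := by
    intro t ht
    refine Four_dual (y t) (by positivity) (fun a ha => ?_) fun c hc => ?_
    · simp only [hy, Four_rep (hp1 a ha), sum_singleton, one_mul]
      refine (norm_sum_le _ _).trans ((sum_le_card_nsmul _ _ (N * ((3 * H : ℕ) * g₀))
        fun i hi => ?_).trans (by rw [card_range, nsmul_eq_mul]))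
      refine (norm_sum_le _ _).trans ((sum_le_card_nsmul _ _ ((3 * H : ℕ) * g₀)
        fun n hn => ?_).trans ?_)
      · have h1 := hp a ha n hn
        rw [mem_range] at hi
        rw [norm_mul, norm_mul, norm_ee, mul_one]
        exact (mul_le_of_le_one_left (norm_nonneg _) (hg n)).trans
          (Four_gh_le (hX _ (by omega) (by omega)) _)
      · rw [nsmul_eq_mul]
        exact mul_le_mul_of_nonneg_right (by exact_mod_cast hS.card) (by positivity)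
    · rw [hy, Four_lin, Four_rep hp]
      refine (norm_sum_le _ _).trans ((sum_le_card_nsmul _ _ E₂ fun i hi => ?_).trans
        (by rw [card_range, nsmul_eq_mul]))
      rw [mem_range] at hi
      refine le_trans (le_of_eq (congrArg norm ?_))
        (hmaj t ht c hc (i - 2 * H) (by omega) (by omega))
      refine sum_congr rfl fun a ha => sum_congr rfl fun n hn => ?_
      have h1 := hp a ha n hn
      have e : ((a * n - H + i : ℕ) : ℤ) - H - (a * n : ℕ) = i - 2 * H := by omega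
      rw [Four_shift, e]
  have hEs : ∑ t ∈ range (3 * H), E t ≤ H * N * ((3 * H : ℕ) * ((3 * H : ℕ) * g₀ ^ 2)) := by
    rw [hE, sum_comm]
    refine (sum_le_card_nsmul _ _ _ fun x hx => Four_gh_sq hH
      (hX x (mem_filter.1 hx).2 (mem_range.1 (mem_filter.1 hx).1))).trans ?_
    rw [nsmul_eq_mul]
    refine mul_le_mul_of_nonneg_right ?_ (by positivity)
    have := card_le_card (filter_subset (fun x => H ≤ x) (range (H * N)))
    rw [card_range] at this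
    exact_mod_cast this
  have tot : ∑ t ∈ range (3 * H), ∑ a ∈ A, ‖y t a‖ ^ 2 ≤
      H * N * ((3 * H : ℕ) * ((3 * H : ℕ) * g₀ ^ 2)) * (√(2 * lam * H * N) * E₁) +
        Mj.card * (H * (N * ((3 * H : ℕ) * g₀)) * (H * E₂)) := by
    rw [← sum_filter_add_sum_filter_not (range (3 * H)) fun t => t ∉ Mj]
    refine add_le_add ?_ ?_
    · refine (sum_le_sum fun t ht => mi t (mem_filter.1 ht).1 (mem_filter.1 ht).2).trans ?_
      rw [← sum_mul]
      exact mul_le_mul_of_nonneg_right ((sum_le_sum_of_subset_of_nonneg (filter_subset _ _)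
        fun t _ _ => hE0 t).trans hEs) (by positivity)
    · refine (sum_le_card_nsmul _ _ _ fun t ht => ma t (not_not.1 (mem_filter.1 ht).2)).trans ?_
      rw [nsmul_eq_mul]
      refine mul_le_mul_of_nonneg_right ?_ (by positivity)
      exact_mod_cast card_le_card fun t ht => not_not.1 (mem_filter.1 ht).2
  have hH0 : (0 : ℝ) < H := by exact_mod_cast hH
  refine le_of_mul_le_mul_left (bes.trans ((mul_le_mul_of_nonneg_left tot
    (Nat.cast_nonneg _)).trans (le_of_eq ?_))) (by push_cast; positivity)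
  push_cast
  ring

end Pool.Agent.Work.MP_51e72e_nt.AV
end

-- merged part: Pool.Agent.Work.MP_51e72e_nt.PV.Mult
section
/-! The multiplier and the finite Fourier transform. -/

set_option autoImplicit false
open Finset Filter MeasureTheory Pool.Agent.Lib.MR Pool.Agent.Lib.LargeSieve
open Pool.Agent.Work.MP_678620_nt Pool.Agent.Work.MP_51e72e_nt.AV

namespace Pool.Agent.Work.MP_51e72e_nt.PV

lemma PVMult_one {h : ℕ} (hh : 1 ≤ h) (x : ℝ) : ‖Kh h x‖ ≤ 1 := by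
  rw [Kh, norm_mul, norm_inv, Complex.norm_natCast, inv_mul_le_iff₀ (by positivity), mul_one]
  exact norm_sum_ee_le_card h x

lemma PVMult_far {Q h : ℕ} (hh : 1 ≤ h) {α : ℝ} {S : Finset (ℕ × ℕ)} (hS : S ⊆ Far Q)
    (hd : ∀ x ∈ S, 1 / (2 * (Q : ℝ) ^ 2) ≤ dZ (α - (x.2 : ℝ) / x.1)) :
    ‖∑ x ∈ S, Kh h (α - (x.2 : ℝ) / x.1)‖ ≤ (Q : ℝ) ^ 4 / h := by
  have c : (S.card : ℝ) ≤ Q ^ 2 := by
    have := (card_le_card hS).trans (card_filter_le _ _)
    rw [card_product, Nat.card_Icc, card_range, Nat.add_sub_cancel, ← sq] at this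
    exact_mod_cast this
  refine (norm_sum_le _ _).trans ((sum_le_card_nsmul _ _ ((Q : ℝ) ^ 2 / h) fun x hx => ?_).trans ?_)
  · have q := mem_Icc.1 (mem_product.1 (mem_filter.1 (hS hx)).1).1
    have q0 : (0 : ℝ) < Q := by exact_mod_cast q.1.trans q.2
    have d0 := lt_of_lt_of_le (by positivity) (hd x hx)
    rw [Kh, norm_mul, norm_inv, Complex.norm_natCast, inv_mul_eq_div]
    refine div_le_div_of_nonneg_right ((norm_sum_ee_le h _ d0).trans ?_) (by positivity)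
    rw [div_le_iff₀ (by positivity)]
    linarith only [q0, hd, hx, (div_le_iff₀' (by positivity)).1 (hd x hx)]
  · rw [nsmul_eq_mul]
    exact (mul_le_mul_of_nonneg_right c (by positivity)).trans_eq (by ring)

lemma PVMult_split {Q h : ℕ} (hh : 1 ≤ h) {α : ℝ} {y : ℕ × ℕ} (hy : y ∈ Far Q)
    (hd : dZ (α - (y.2 : ℝ) / y.1) ≤ 1 / (2 * (Q : ℝ) ^ 2)) :
    ‖psi Q h α‖ ≤ ‖1 - Kh h (α - (y.2 : ℝ) / y.1)‖ + (Q : ℝ) ^ 4 / h := by
  rw [psi, ← add_sum_erase _ _ hy, ← sub_sub]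
  refine (norm_sub_le _ _).trans (add_le_add_right (PVMult_far hh (erase_subset _ _) fun x hx => ?_) _)
  obtain ⟨x1, x2, x3⟩ := mem_filter.1 (mem_of_mem_erase hx)
  obtain ⟨y1, y2, y3⟩ := mem_filter.1 hy
  have a := (farey_spaced (mem_product.1 y1).1 (mem_product.1 x1).1 y2 x2 y3 x3
    (ne_of_mem_erase hx).symm).trans
      (dZ_le _ (round (α - (x.2 : ℝ) / x.1) - round (α - (y.2 : ℝ) / y.1)))
  have b := abs_sub (α - (x.2 : ℝ) / x.1 - round (α - (x.2 : ℝ) / x.1))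
    (α - (y.2 : ℝ) / y.1 - round (α - (y.2 : ℝ) / y.1))
  rw [Int.cast_sub, Nat.cast_pow, show ∀ p q u v : ℝ, p - q - (u - v) = α - q - u - (α - p - v) from
    fun _ _ _ _ => by ring] at a
  unfold dZ at hd ⊢
  have e : 1 / (Q : ℝ) ^ 2 = 2 * (1 / (2 * (Q : ℝ) ^ 2)) := by ring
  linarith only [hd, a, b, e]

theorem psi_le {Q h : ℕ} (hh : 1 ≤ h) (hQ : Q ^ 4 ≤ h) (α : ℝ) : ‖psi Q h α‖ ≤ 3 := by
  have q : (Q : ℝ) ^ 4 / h ≤ 1 := div_le_one_of_le₀ (by exact_mod_cast hQ) (by positivity)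
  by_cases k : ∃ y ∈ Far Q, dZ (α - (y.2 : ℝ) / y.1) ≤ 1 / (2 * (Q : ℝ) ^ 2)
  · obtain ⟨y, hy, hd⟩ := k
    have := norm_sub_le 1 (Kh h (α - (y.2 : ℝ) / y.1))
    rw [norm_one] at this
    linarith only [q, this, hh, hy, hd, PVMult_split hh hy hd, PVMult_one hh (α - (y.2 : ℝ) / y.1)]
  · refine (norm_sub_le _ _).trans ?_
    rw [norm_one]
    linarith only [q, hh, k, PVMult_far hh (α := α) (Subset.refl (Far Q))
      fun x hx => (not_le.1 fun c => k ⟨x, hx, c⟩).le]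

theorem psi_maj {Q h : ℕ} {ρ α : ℝ} (hh : 1 ≤ h) (hρ : 2 * (Q : ℝ) ^ 2 * ρ ≤ 1) (hα : Mj Q ρ α) :
    ‖psi Q h α‖ ≤ 7 * h * ρ + (Q : ℝ) ^ 4 / h := by
  obtain ⟨s, r, s1, s2, hc, hr⟩ := hα
  have s0 : (0 : ℤ) < s := by exact_mod_cast s1
  have q0 : (0 : ℝ) < Q := by exact_mod_cast s1.trans s2
  obtain ⟨t, ht⟩ := Int.eq_ofNat_of_zero_le (Int.emod_nonneg r s0.ne')
  have t1 : t < s := by exact_mod_cast ht ▸ Int.emod_lt_of_pos r s0
  have e0 : r = t + s * (r / s) := by rw [← ht, Int.emod_add_mul_ediv]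
  have e : α - (t : ℝ) / s = α - (r : ℝ) / s + (r / s : ℤ) := by
    have : (r : ℝ) = t + s * (r / s : ℤ) := by exact_mod_cast e0
    generalize ((r / s : ℤ) : ℝ) = z at this ⊢
    rw [this]
    field_simp
    ring
  have hy : (s, t) ∈ Far Q := mem_filter.2 ⟨mem_product.2 ⟨mem_Icc.2 ⟨s1, s2⟩,
    mem_range.2 (t1.trans_le s2)⟩, t1, Nat.isCoprime_iff_coprime.1
      (IsCoprime.of_add_mul_left_left (e0 ▸ hc : IsCoprime (t + s * (r / s)) (s : ℤ)))⟩
  refine (PVMult_split hh hy ((dZ_le _ (r / s)).trans ?_)).trans (add_le_add_left ?_ _)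
  · rw [e, add_sub_cancel_right]
    exact hr.trans ((le_div_iff₀' (by positivity)).2 hρ)
  have h0 : (h : ℂ) ≠ 0 := by exact_mod_cast (by omega : h ≠ 0)
  have e1 : ∀ x, 1 - Kh h x = (h : ℂ)⁻¹ * ∑ j ∈ range h, (1 - ee (j * x)) := fun x => by
    rw [sum_sub_distrib, mul_sub, Kh, sum_const, card_range, nsmul_one, inv_mul_cancel₀ h0]
  rw [e1, norm_mul, norm_inv, Complex.norm_natCast, inv_mul_le_iff₀ (by positivity)]
  refine (norm_sum_le _ _).trans ((sum_le_card_nsmul _ _ (7 * h * ρ) fun j hj => ?_).trans_eq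
    (by rw [card_range, nsmul_eq_mul]))
  rw [e, mul_add, ← Int.cast_natCast j, ← Int.cast_mul, ee_add_int, norm_sub_rev, Int.cast_natCast, ee]
  refine Real.norm_exp_I_mul_ofReal_sub_one_le.trans ?_
  rw [Real.norm_eq_abs, abs_mul, abs_mul (j : ℝ), abs_of_pos Real.two_pi_pos, Nat.abs_cast, mul_assoc 7]
  exact mul_le_mul (by linarith only [Real.pi_lt_d2]) (mul_le_mul
    (by exact_mod_cast (mem_range.1 hj).le) hr (abs_nonneg _) (by positivity)) (by positivity)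
    (by norm_num)

theorem dft {M h : ℕ} (Q : ℕ) (hM : 1 ≤ M) (hh : 1 ≤ h) (G : ℤ → ℂ) {g₀ : ℝ} (hg : 0 ≤ g₀)
    (hG : ∀ m : ℤ, 1 ≤ m → m < M → ‖G m‖ ≤ g₀) :
    ∃ a : ℕ → ℂ, ∑ t ∈ range M, ‖a t‖ ^ 2 ≤ g₀ ^ 2 ∧ ∀ m : ℤ, 1 ≤ m → m + h ≤ M →
      G m - Gm Q h G m = ∑ t ∈ range M, a t * psi Q h ((t : ℝ) / M) * ee (t * (m : ℝ) / M) := by
  have M0 : (M : ℂ) ≠ 0 := by exact_mod_cast (by omega : M ≠ 0)
  obtain ⟨a, ha⟩ : ∃ a : ℕ → ℂ, a = fun t : ℕ =>
    (M : ℂ)⁻¹ * ∑ m ∈ Ico (1 : ℤ) M, G m * ee (-(t * (m : ℝ) / M)) := ⟨_, rfl⟩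
  have inv : ∀ m : ℤ, 1 ≤ m → m < M → ∑ t ∈ range M, a t * ee (t * (m : ℝ) / M) = G m :=
    fun m m1 m2 => by
      have e : ∀ n ∈ Ico (1 : ℤ) M, ∑ t ∈ range M, (M : ℂ)⁻¹ * (G n * ee (-(t * (n : ℝ) / M))) *
          ee (t * (m : ℝ) / M) = if m = n then G n else 0 := fun n hn => by
        have o := Four_orth hM (u := m - n) (by have := mem_Ico.1 hn; omega)
          (by have := mem_Ico.1 hn; omega)
        have e2 : ∀ t : ℕ, (M : ℂ)⁻¹ * (G n * ee (-(t * (n : ℝ) / M))) * ee (t * (m : ℝ) / M) =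
            (M : ℂ)⁻¹ * G n * ee ((m - n : ℤ) * ((t : ℝ) / M)) := fun t => by
          rw [mul_assoc, mul_assoc, mul_assoc, ← ee_add]; push_cast; congr 3; ring
        rw [sum_congr rfl fun t _ => e2 t, ← mul_sum, o]
        simp only [sub_eq_zero]
        split_ifs
        · field_simp
        · exact mul_zero _
      simp only [ha, mul_sum, sum_mul]
      rw [sum_comm, sum_congr rfl e, sum_ite_eq, if_pos (mem_Ico.2 ⟨m1, m2⟩)]
  refine ⟨a, ?_, fun m m1 m2 => ?_⟩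
  · have e : ((∑ t ∈ range M, ‖a t‖ ^ 2 : ℝ) : ℂ) =
        (((M : ℝ)⁻¹ * ∑ m ∈ Ico (1 : ℤ) M, ‖G m‖ ^ 2 : ℝ) : ℂ) := by
      push_cast
      simp only [← Complex.mul_conj']
      rw [sum_congr rfl fun t _ => show a t * (starRingEnd ℂ) (a t) = ∑ m ∈ Ico (1 : ℤ) M,
          (M : ℂ)⁻¹ * ((a t * ee (t * (m : ℝ) / M)) * (starRingEnd ℂ) (G m)) by
        conv_lhs => arg 2; rw [ha]
        simp only [map_mul, map_sum, map_inv₀, map_natCast, conj_ee, neg_neg, mul_sum]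
        exact sum_congr rfl fun m _ => by ring, sum_comm, mul_sum]
      refine sum_congr rfl fun m hm => ?_
      rw [← mul_sum, ← sum_mul, inv m (mem_Ico.1 hm).1 (mem_Ico.1 hm).2]
    rw [Complex.ofReal_inj.1 e, inv_mul_le_iff₀ (by positivity)]
    refine (sum_le_card_nsmul _ _ (g₀ ^ 2) fun m hm => pow_le_pow_left₀ (norm_nonneg _)
      (hG m (mem_Ico.1 hm).1 (mem_Ico.1 hm).2) 2).trans ?_
    rw [nsmul_eq_mul, Int.card_Ico]
    exact mul_le_mul_of_nonneg_right (by exact_mod_cast (by omega : ((M : ℤ) - 1).toNat ≤ M))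
      (by positivity)
  · simp only [psi, mul_sub, sub_mul, mul_one, sum_sub_distrib]
    rw [inv m m1 (by omega), Gm]
    simp only [Kh, mul_sum, sum_mul]
    rw [sum_comm (s := range M)]
    refine congrArg _ (sum_congr rfl fun x _ => ?_)
    rw [sum_comm]
    refine sum_congr rfl fun j hj => ?_
    rw [← inv (m + j) (by omega) (by have := mem_range.1 hj; omega), sum_mul, mul_sum]
    refine sum_congr rfl fun t _ => ?_
    rw [mul_assoc (a t), ← ee_add, mul_left_comm, mul_assoc (a t), mul_assoc, ← ee_add]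
    push_cast
    congr 3
    ring

end Pool.Agent.Work.MP_51e72e_nt.PV
end
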