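import Pool.Agent.Work.MP_51e72e_nt.PV.Mult

-- merged part: Pool.Agent.Work.MP_51e72e_nt.PV.Near
section
/-! Multiples of a real number close to an integer. -/

set_option autoImplicit false
open Finset Filter MeasureTheory Pool.Agent.Lib.MR Pool.Agent.Lib.LargeSieve
open Pool.Agent.Work.MP_678620_nt Pool.Agent.Work.MP_51e72e_nt.AV

namespace Pool.Agent.Work.MP_51e72e_nt.PV

theorem PVNear_int (T : Finset ℤ) {a L : ℝ} (hL : 0 ≤ L)
    (h : ∀ z ∈ T, a ≤ z ∧ (z : ℝ) ≤ a + L) : (T.card : ℝ) ≤ L + 1 := by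
  have h1 : T ⊆ Icc ⌈a⌉ ⌊a + L⌋ := fun z hz =>
    mem_Icc.2 ⟨Int.ceil_le.2 (h z hz).1, Int.le_floor.2 (h z hz).2⟩
  have h2 : (T.card : ℝ) ≤ ((⌊a + L⌋ + 1 - ⌈a⌉).toNat : ℝ) := by
    rw [← Int.card_Icc]
    exact_mod_cast card_le_card h1
  refine h2.trans ?_
  rcases le_total 0 (⌊a + L⌋ + 1 - ⌈a⌉) with h3 | h3
  · have h4 : ((⌊a + L⌋ + 1 - ⌈a⌉).toNat : ℝ) = ((⌊a + L⌋ + 1 - ⌈a⌉ : ℤ) : ℝ) := by
      exact_mod_cast Int.toNat_of_nonneg h3
    rw [h4]
    push_cast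
    linarith only [Int.floor_le (a + L), Int.le_ceil a]
  · rw [Int.toNat_of_nonpos h3]
    push_cast
    linarith only [hL]

theorem PVNear_fib {α : Type} (T : Finset α) (f : α → ℤ) {a L B : ℝ} (hL : 0 ≤ L) (hB : 0 ≤ B)
    (h1 : ∀ x ∈ T, a ≤ f x ∧ (f x : ℝ) ≤ a + L)
    (h2 : ∀ z, ((T.filter fun x => f x = z).card : ℝ) ≤ B) : (T.card : ℝ) ≤ (L + 1) * B := by
  rw [card_eq_sum_card_image f T, Nat.cast_sum]
  refine (sum_le_card_nsmul _ _ B fun z _ => h2 z).trans ?_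
  rw [nsmul_eq_mul]
  refine mul_le_mul_of_nonneg_right (PVNear_int _ (a := a) hL fun z hz => ?_) hB
  obtain ⟨x, hx, rfl⟩ := mem_image.1 hz
  exact h1 x hx

theorem PVNear_choose (κ θ : ℝ) : ∃ f : ℤ → ℤ, ∀ q : ℤ, Nr κ (q * θ) → |q * θ - f q| ≤ κ := by
  classical
  exact ⟨fun q => if h : Nr κ (q * θ) then h.choose else 0, fun q h => by
    simp only [dif_pos h]
    exact h.choose_spec⟩

open Classical in
theorem near1 {θ κ : ℝ} (hθ : θ ≠ 0) (hκ : 0 ≤ κ) (N : ℕ) :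
    (((Icc (-(N : ℤ)) N).filter fun q : ℤ => Nr κ (q * θ)).card : ℝ)
      ≤ (2 * N * |θ| + 2 * κ + 1) * (2 * κ / |θ| + 1) := by
  obtain ⟨f, hf⟩ := PVNear_choose κ θ
  have t0 : 0 < |θ| := abs_pos.2 hθ
  refine (PVNear_fib _ f (a := -(N * |θ| + κ)) (L := 2 * N * |θ| + 2 * κ)
    (B := 2 * κ / |θ| + 1) (by positivity) (by positivity) (fun q hq => ?_) fun z => ?_)
  · obtain ⟨h1, h2⟩ := mem_filter.1 hq
    have h3 : |(q : ℝ)| ≤ N := by exact_mod_cast abs_le.2 (mem_Icc.1 h1)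
    have h4 : |q * θ| ≤ N * |θ| := by
      rw [abs_mul]
      exact mul_le_mul_of_nonneg_right h3 t0.le
    obtain ⟨h5, h6⟩ := abs_le.1 h4
    obtain ⟨h7, h8⟩ := abs_le.1 (hf q h2)
    constructor <;> linarith only [h5, h8, h6, h7]
  · refine PVNear_int _ (a := z / θ - κ / |θ|) (by positivity) fun q hq => ?_
    obtain ⟨h1, h2⟩ := mem_filter.1 hq
    have h3 := hf q (mem_filter.1 h1).2
    rw [h2] at h3
    have h4 : |(q : ℝ) - z / θ| ≤ κ / |θ| := by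
      rw [le_div_iff₀ t0, ← abs_mul, sub_mul, div_mul_cancel₀ _ hθ]
      exact h3
    obtain ⟨h5, h6⟩ := abs_le.1 h4
    rw [mul_div_assoc]
    constructor <;> linarith only [h5, h6]

open Classical in
theorem near2 {θ κ : ℝ} {s : ℕ} {r : ℤ} (hs : 1 ≤ s) (hr : IsCoprime r (s : ℤ))
    (h : |θ - (r : ℝ) / s| ≤ 1 / (s : ℝ) ^ 2) (hκ : 0 ≤ κ) (N : ℕ) :
    (((Icc (-(N : ℤ)) N).filter fun q : ℤ => Nr κ (q * θ)).card : ℝ)
      ≤ (2 * N / s + 2) * (2 * s * κ + 3) := by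
  obtain ⟨f, hf⟩ := PVNear_choose κ θ
  have s0 : (0 : ℝ) < s := by exact_mod_cast hs
  have s1 : (0 : ℤ) < s := by exact_mod_cast hs
  have dm : ∀ q : ℤ, (q : ℝ) = s * (q / (s : ℤ) : ℤ) + (q % (s : ℤ) : ℤ) := fun q => by
    exact_mod_cast (Int.mul_ediv_add_emod q s).symm
  have m0 : ∀ q : ℤ, (0 : ℝ) ≤ (q % (s : ℤ) : ℤ) := fun q => by
    exact_mod_cast Int.emod_nonneg q s1.ne'
  have m1 : ∀ q : ℤ, ((q % (s : ℤ) : ℤ) : ℝ) ≤ s := fun q => by
    exact_mod_cast (Int.emod_lt_of_pos q s1).le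
  refine (PVNear_fib _ (fun q => q / (s : ℤ)) (a := -(N / s + 1)) (L := 2 * N / s + 1)
    (B := 2 * s * κ + 3) (by positivity) (by positivity) (fun q hq => ?_)
    fun b => ?_).trans_eq (by ring)
  · obtain ⟨h1, h2⟩ := mem_Icc.1 (mem_filter.1 hq).1
    have h3 : -(N : ℝ) ≤ q := by exact_mod_cast h1
    have h4 : (q : ℝ) ≤ N := by exact_mod_cast h2
    have h5 : ((q / (s : ℤ) : ℤ) : ℝ) ≤ N / s := by
      rw [le_div_iff₀ s0]
      linarith only [h4, dm, m0, dm q, m0 q]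
    have h6 : -((q / (s : ℤ) : ℤ) : ℝ) - 1 ≤ N / s := by
      rw [le_div_iff₀ s0]
      linarith only [h3, dm, m1, dm q, m1 q]
    rw [mul_div_assoc]
    constructor <;> linarith only [h6, h5]
  · rw [← card_image_of_injOn (f := fun q : ℤ => q % (s : ℤ) * r - s * f q)]
    · refine (PVNear_int _ (a := -(s ^ 2 * b * θ) - (s * κ + 1)) (L := 2 * s * κ + 2)
        (by positivity) fun w hw => ?_).trans_eq (by ring)
      obtain ⟨q, hq, rfl⟩ := mem_image.1 hw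
      obtain ⟨h1, h2⟩ := mem_filter.1 hq
      have h3 := hf q (mem_filter.1 h1).2
      have h4 : |(s : ℝ) * (q * θ - f q)| ≤ s * κ := by
        rw [abs_mul, abs_of_pos s0]
        exact mul_le_mul_of_nonneg_left h3 s0.le
      have h5 : |((q % (s : ℤ) : ℤ) : ℝ) * s * (θ - r / s)| ≤ 1 := by
        rw [abs_mul, abs_of_nonneg (mul_nonneg (m0 q) s0.le)]
        calc _ ≤ (s : ℝ) * s * (1 / (s : ℝ) ^ 2) :=
              mul_le_mul (mul_le_mul_of_nonneg_right (m1 q) s0.le) h (abs_nonneg _) (by positivity)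
          _ = 1 := by field_simp
      have h6 : (s : ℝ) * (q * θ - f q) = s ^ 2 * b * θ +
          (((q % (s : ℤ) : ℤ) : ℝ) * r - s * f q) + ((q % (s : ℤ) : ℤ) : ℝ) * s * (θ - r / s) := by
        have := dm q
        simp only [h2] at this
        generalize ((q % (s : ℤ) : ℤ) : ℝ) = j at this
        rw [this]
        field_simp
        ring
      obtain ⟨h7, h8⟩ := abs_le.1 h4
      obtain ⟨h9, h10⟩ := abs_le.1 h5
      rw [Int.cast_sub, Int.cast_mul, Int.cast_mul, Int.cast_natCast]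
      constructor <;> linarith only [h6, h7, h10, h8, h9]
    · intro q hq q' hq' e
      have h1 := (mem_filter.1 (mem_coe.1 hq)).2
      have h2 := (mem_filter.1 (mem_coe.1 hq')).2
      have h3 : (s : ℤ) ∣ (q % s - q' % s) * r := ⟨f q - f q', by
        simp only at e
        linear_combination e⟩
      have h4 := hr.symm.dvd_of_dvd_mul_right h3
      have h5 : q % s - q' % s = 0 := Int.eq_zero_of_abs_lt_dvd h4 (abs_lt.2
        ⟨by linarith only [s1, Int.emod_nonneg q s1.ne', Int.emod_lt_of_pos q' s1],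
          by linarith only [s1, Int.emod_nonneg q' s1.ne', Int.emod_lt_of_pos q s1]⟩)
      have h6 := Int.mul_ediv_add_emod q s
      have h7 := Int.mul_ediv_add_emod q' s
      rw [h1] at h6
      rw [h2] at h7
      linarith only [h5, h6, h7]

open Classical in
theorem PVNear_one {d Q N H n : ℕ} {lam α : ℝ} (hd : 1 ≤ d) (n1 : n ≤ N) (n2 : (N : ℝ) ≤ lam * n)
    (hl : 1 ≤ lam) (hQ : lam ^ d ≤ Q) (hQN : Q ≤ N) (hH : Q ^ 6 * N ≤ H)
    (hα : ¬ Mj Q ((Q : ℝ) ^ 3 / (H * (N : ℝ) ^ (d - 1))) α) :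
    (((Icc (-(N : ℤ)) N).filter fun q : ℤ => ∀ i < d,
        Nr (N / (4 * H)) ((n : ℝ) ^ i * q * α)).card : ℝ) ≤ 30 * N / Q := by
  have Q1 : (1 : ℝ) ≤ Q := (one_le_pow₀ hl).trans hQ
  have Q2 : 1 ≤ Q := by exact_mod_cast Q1
  have QN : (Q : ℝ) ≤ N := by exact_mod_cast hQN
  have N1 : (1 : ℝ) ≤ N := Q1.trans QN
  have H1 : (Q : ℝ) ^ 6 * N ≤ H := by exact_mod_cast hH
  have Q0 : (0 : ℝ) < Q := by linarith only [Q1]
  have N0 : (0 : ℝ) < N := by linarith only [Q1, QN]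
  have H0 : (0 : ℝ) < H := lt_of_lt_of_le (by positivity) H1
  have Qp : ∀ a b : ℕ, a ≤ b → (Q : ℝ) ^ a ≤ (Q : ℝ) ^ b := fun a b h => pow_le_pow_right₀ Q1 h
  have H2 : ∀ a : ℕ, a ≤ 6 → (Q : ℝ) ^ a * N ≤ H := fun a h =>
    (mul_le_mul_of_nonneg_right (Qp a 6 h) N0.le).trans H1
  have H3 : Q ≤ H := by
    have : (Q : ℝ) ≤ H := by linarith only [QN, H2, Q1, H2 1 (by omega), mul_nonneg_of_nonpos_of_nonpos (Mathlib.Tactic.Linarith.sub_nonpos_of_le (Mathlib.Tactic.Linarith.natCast_nonneg ℝ N)) (Mathlib.Tactic.Linarith.sub_nonpos_of_le Q1)]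
    exact_mod_cast this
  have x1 : 1 ≤ (N : ℝ) / Q := (one_le_div Q0).2 QN
  obtain ⟨x, hx, hs⟩ := Real.exists_rat_abs_sub_le_and_den_le α (Nat.div_pos H3 Q2)
  have hr : IsCoprime x.num (x.den : ℤ) := Int.isCoprime_iff_gcd_eq_one.2 x.reduced
  have s1 : 1 ≤ x.den := x.den_pos
  rw [Rat.cast_def] at hx
  generalize x.den = s at hx hs hr s1
  generalize x.num = r at hx hr
  have s2 : (1 : ℝ) ≤ s := by exact_mod_cast s1
  have s0 : (0 : ℝ) < s := by linarith only [s2]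
  have s3 : (s : ℝ) ≤ (H / Q : ℕ) := by exact_mod_cast hs
  have s4 : (s : ℝ) * Q ≤ H := by
    exact_mod_cast (Nat.mul_le_mul_right Q hs).trans (Nat.div_mul_le_self H Q)
  have s5 : (H : ℝ) ≤ (((H / Q : ℕ) : ℝ) + 1) * Q := by
    have := (Nat.lt_mul_div_succ H (show 0 < Q by omega)).le
    rw [mul_comm] at this
    exact_mod_cast this
  rw [mul_div_assoc]
  rcases lt_or_ge Q s with hc | hc
  · have c1 : (Q : ℝ) ≤ s := by exact_mod_cast hc.le
    have h1 := near2 (θ := α) (κ := N / (4 * H)) s1 hr (hx.trans (one_div_le_one_div_of_le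
      (by positivity) (by linarith only [s2, s3, mul_nonneg_of_nonpos_of_nonpos (Mathlib.Tactic.Linarith.sub_nonpos_of_le (Mathlib.Tactic.Linarith.natCast_nonneg ℝ s)) (Mathlib.Tactic.Linarith.sub_nonpos_of_le s3)]))) (by positivity) N
    refine le_trans (Nat.cast_le.2 (card_le_card (monotone_filter_right _ fun q _ hq => ?_)))
      (h1.trans ?_)
    · simpa using hq 0 hd
    · have e1 : (N : ℝ) / s ≤ N / Q := div_le_div_of_nonneg_left N0.le Q0 c1
      have e2 : 4 * (s * ((N : ℝ) / (4 * H))) ≤ N / Q := by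
        rw [le_div_iff₀ Q0, show 4 * (s * ((N : ℝ) / (4 * H))) * Q = N * (s * Q / H) by field_simp]
        exact mul_le_of_le_one_right N0.le ((div_le_one H0).2 s4)
      have e3 : 4 * (N * ((N : ℝ) / (4 * H))) ≤ N / Q := by
        rw [le_div_iff₀ Q0,
          show 4 * (N * ((N : ℝ) / (4 * H))) * Q = N * ((Q : ℝ) ^ 1 * N / H) by field_simp]
        exact mul_le_of_le_one_right N0.le ((div_le_one H0).2 (H2 1 (by omega)))
      have e4 : (2 * (N : ℝ) / s + 2) * (2 * s * (N / (4 * H)) + 3) =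
          4 * (N * ((N : ℝ) / (4 * H))) + 6 * (N / s) + 4 * (s * ((N : ℝ) / (4 * H))) + 6 := by
        field_simp
        ring
      rw [e4]
      linarith only [x1, e1, e2, e3]
  · have c1 : (s : ℝ) ≤ Q := by exact_mod_cast hc
    obtain ⟨η, hη⟩ : ∃ η, η = α - r / s := ⟨_, rfl⟩
    have y1 : (Q : ℝ) ^ 3 < |η| * N ^ (d - 1) * H := by
      have : (Q : ℝ) ^ 3 / (H * (N : ℝ) ^ (d - 1)) < |η| :=
        lt_of_not_ge fun h => hα ⟨s, r, s1, hc, hr, hη ▸ h⟩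
      rw [div_lt_iff₀ (by positivity)] at this
      linarith only [this]
    have y2 : |η| * H ≤ Q := by
      rw [← hη, le_div_iff₀ (by positivity)] at hx
      have h1 : |η| * (((H / Q : ℕ) : ℝ) + 1) ≤ 1 :=
        le_trans (mul_le_mul_of_nonneg_left (le_mul_of_one_le_right (by positivity) s2)
          (abs_nonneg _)) hx
      calc _ ≤ |η| * ((((H / Q : ℕ) : ℝ) + 1) * Q) := mul_le_mul_of_nonneg_left s5 (abs_nonneg _)
        _ = |η| * (((H / Q : ℕ) : ℝ) + 1) * Q := by ring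
        _ ≤ 1 * Q := mul_le_mul_of_nonneg_right h1 Q0.le
        _ = Q := one_mul _
    have ex : ∃ j : ℕ, (Q : ℝ) ^ 3 < |η| * N ^ j * H := ⟨_, y1⟩
    have j1 := Nat.find_spec ex
    have j2 : Nat.find ex ≤ d - 1 := Nat.find_min' ex y1
    have j3 : ∀ m < Nat.find ex, |η| * N ^ m * H ≤ (Q : ℝ) ^ 3 := fun m hm =>
      le_of_not_gt (Nat.find_min ex hm)
    generalize Nat.find ex = j at j1 j2 j3
    obtain _ | j := j
    · have := Qp 1 3 (by omega)
      rw [pow_zero, mul_one] at j1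
      rw [pow_one] at this
      linarith only [y2, j1, this]
    have j4 := j3 j (by omega)
    obtain ⟨θ, hθ⟩ : ∃ θ, θ = s * η * (n : ℝ) ^ (j + 1) := ⟨_, rfl⟩
    have t1 : |θ| = s * |η| * (n : ℝ) ^ (j + 1) := by
      rw [hθ, abs_mul, abs_mul, abs_of_pos s0, abs_of_nonneg (a := (n : ℝ) ^ (j + 1))
        (by positivity)]
    have t2 : (Q : ℝ) ^ 2 ≤ |θ| * H := by
      have h1 : (N : ℝ) ^ (j + 1) ≤ Q * (n : ℝ) ^ (j + 1) :=
        calc _ ≤ (lam * n) ^ (j + 1) := pow_le_pow_left₀ N0.le n2 _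
          _ = lam ^ (j + 1) * (n : ℝ) ^ (j + 1) := mul_pow _ _ _
          _ ≤ _ := mul_le_mul_of_nonneg_right
            ((pow_le_pow_right₀ hl (by omega)).trans hQ) (by positivity)
      refine le_of_mul_le_mul_left ?_ Q0
      calc _ = (Q : ℝ) ^ 3 := by ring
        _ ≤ |η| * N ^ (j + 1) * H := j1.le
        _ ≤ |η| * (Q * (n : ℝ) ^ (j + 1)) * H := by gcongr
        _ = Q * (1 * |η| * (n : ℝ) ^ (j + 1) * H) := by ring
        _ ≤ Q * (s * |η| * (n : ℝ) ^ (j + 1) * H) := by gcongr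
        _ = _ := by rw [t1]
    have t3 : |θ| * Q ≤ 1 := by
      have h1 : (n : ℝ) ≤ N := by exact_mod_cast n1
      refine le_of_mul_le_mul_right ?_ H0
      calc _ = s * |η| * (n : ℝ) ^ (j + 1) * Q * H := by rw [t1]
        _ ≤ Q * |η| * (N : ℝ) ^ (j + 1) * Q * H := by gcongr
        _ = Q ^ 2 * N * (|η| * N ^ j * H) := by ring
        _ ≤ Q ^ 2 * N * (Q : ℝ) ^ 3 := by gcongr
        _ = (Q : ℝ) ^ 5 * N := by ring
        _ ≤ 1 * H := by rw [one_mul]; exact H2 5 (by omega)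
    have t0 : 0 < |θ| := (mul_pos_iff_of_pos_right H0).1 (lt_of_lt_of_le (by positivity) t2)
    have h1 := near1 (θ := θ) (κ := s * (N / (4 * H))) (abs_pos.1 t0) (by positivity) N
    refine le_trans (Nat.cast_le.2 (card_le_card (monotone_filter_right _ fun q _ hq => ?_)))
      (h1.trans ?_)
    · obtain ⟨z, hz⟩ := hq (j + 1) (by omega)
      refine ⟨s * z - n ^ (j + 1) * q * r, ?_⟩
      have e : (q : ℝ) * θ - ((s * z - n ^ (j + 1) * q * r : ℤ) : ℝ) =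
          s * ((n : ℝ) ^ (j + 1) * q * α - z) := by
        rw [hθ, hη]
        push_cast
        field_simp
        ring
      rw [e, abs_mul, abs_of_pos s0]
      exact mul_le_mul_of_nonneg_left hz s0.le
    · obtain ⟨k, hk⟩ : ∃ k : ℝ, k = s * (N / (4 * H)) := ⟨_, rfl⟩
      have k0 : 0 ≤ k := by rw [hk]; positivity
      have k1 : 4 * k * H ≤ Q * N := by
        rw [hk, show 4 * (s * ((N : ℝ) / (4 * H))) * H = s * N by field_simp]
        exact mul_le_mul_of_nonneg_right c1 N0.le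
      have k2 : 4 * k * Q ≤ 1 := by
        refine le_of_mul_le_mul_right ?_ H0
        calc _ = 4 * k * H * Q := by ring
          _ ≤ Q * N * Q := by gcongr
          _ = (Q : ℝ) ^ 2 * N := by ring
          _ ≤ 1 * H := by rw [one_mul]; exact H2 2 (by omega)
      have e1 : 4 * (N * k) ≤ N / Q := by
        rw [le_div_iff₀ Q0]
        linarith only [k2, mul_nonneg_of_nonpos_of_nonpos (Mathlib.Tactic.Linarith.sub_nonpos_of_le (Mathlib.Tactic.Linarith.natCast_nonneg ℝ N)) (Mathlib.Tactic.Linarith.sub_nonpos_of_le k2)]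
      have e2 : N * |θ| ≤ N / Q := by
        rw [le_div_iff₀ Q0]
        linarith only [t3, mul_nonneg_of_nonpos_of_nonpos (Mathlib.Tactic.Linarith.sub_nonpos_of_le (Mathlib.Tactic.Linarith.natCast_nonneg ℝ N)) (Mathlib.Tactic.Linarith.sub_nonpos_of_le t3)]
      have e3 : 2 * k ≤ 1 := by (refine le_of_not_gt fun h_nl => ?_; linarith only [h_nl, Q1, k2, mul_nonneg_of_nonpos_of_nonpos (Mathlib.Tactic.Linarith.sub_nonpos_of_le (sq_nonneg ↑Q)) (le_of_lt (Mathlib.Tactic.Linarith.sub_neg_of_lt h_nl)), mul_nonneg_of_nonpos_of_nonpos (Mathlib.Tactic.Linarith.sub_nonpos_of_le (Mathlib.Tactic.Linarith.natCast_nonneg ℝ Q)) (Mathlib.Tactic.Linarith.sub_nonpos_of_le Q1), mul_nonneg_of_nonpos_of_nonpos (Mathlib.Tactic.Linarith.sub_nonpos_of_le (Mathlib.Tactic.Linarith.natCast_nonneg ℝ Q)) (Mathlib.Tactic.Linarith.sub_nonpos_of_le k2)])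
      have e4 : 2 * k / |θ| ≤ N / Q := by
        rw [div_le_div_iff₀ t0 Q0]
        refine le_of_mul_le_mul_right ?_ H0
        calc _ = 2 * k * H * Q := by ring
          _ ≤ Q * N * Q := mul_le_mul_of_nonneg_right (by linarith only [k1, mul_nonneg_of_nonpos_of_nonpos (Mathlib.Tactic.Linarith.sub_nonpos_of_le (Mathlib.Tactic.Linarith.natCast_nonneg ℝ N)) (Mathlib.Tactic.Linarith.sub_nonpos_of_le (Mathlib.Tactic.Linarith.natCast_nonneg ℝ Q))]) Q0.le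
          _ = N * (Q : ℝ) ^ 2 := by ring
          _ ≤ N * (|θ| * H) := mul_le_mul_of_nonneg_left t2 N0.le
          _ = _ := by ring
      have e5 : (2 * N * |θ| + 2 * k + 1) * (2 * k / |θ| + 1) =
          4 * (N * k) + 2 * (N * |θ|) + (2 * k + 1) * (2 * k / |θ| + 1) := by
        field_simp
        ring
      have e6 : (2 * k + 1) * (2 * k / |θ| + 1) ≤ 2 * (N / Q + 1) :=
        mul_le_mul (by linarith only [e3]) (by linarith only [e4]) (by positivity) (by norm_num)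
      rw [← hk, e5]
      linarith only [x1, e1, e2, e6]

open Classical in
theorem pairs {d Q N H : ℕ} {lam α : ℝ} {S : Finset ℕ} (hd : 1 ≤ d) (hS : Rg lam N S)
    (hl : 1 ≤ lam) (hQ : lam ^ d ≤ Q) (hQN : Q ≤ N) (hH : Q ^ 6 * N ≤ H)
    (hα : ¬ Mj Q ((Q : ℝ) ^ 3 / (H * (N : ℝ) ^ (d - 1))) α) :
    (((S ×ˢ S).filter fun x : ℕ × ℕ => ∀ i < d,
        Nr (N / (4 * H)) ((x.1 : ℝ) ^ i * ((x.1 : ℝ) - x.2) * α)).card : ℝ)
      ≤ 30 * (N : ℝ) ^ 2 / Q := by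
  have Q0 : (0 : ℝ) ≤ 30 * N / Q := by positivity
  rw [card_filter, sum_product, Nat.cast_sum]
  refine (sum_le_card_nsmul _ _ (30 * (N : ℝ) / Q) fun n hn => ?_).trans ?_
  · rw [← card_filter]
    refine le_trans (Nat.cast_le.2 (card_le_card_of_injOn (fun m : ℕ => (n : ℤ) - m)
      (fun m hm => ?_) fun a _ b _ e => ?_))
      (PVNear_one hd (hS.hi n hn) (hS.lo n hn) hl hQ hQN hH hα)
    · obtain ⟨h1, h2⟩ := mem_filter.1 (mem_coe.1 hm)
      have h3 := hS.hi n hn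
      have h4 := hS.hi m h1
      refine mem_coe.2 (mem_filter.2 ⟨mem_Icc.2 ⟨by simp only; omega, by simp only; omega⟩,
        fun i hi => ?_⟩)
      push_cast
      rw [mul_assoc, ← mul_assoc]
      exact h2 i hi
    · simp only at e
      omega
  · have h1 : S.card ≤ N := by
      have := card_le_card (show S ⊆ Icc 1 N from fun a ha => mem_Icc.2 ⟨hS.pos a ha, hS.hi a ha⟩)
      simpa using this
    rw [nsmul_eq_mul]
    exact (mul_le_mul_of_nonneg_right (Nat.cast_le.2 h1) Q0).trans_eq (by ring)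

end Pool.Agent.Work.MP_51e72e_nt.PV
end

-- merged part: Pool.Agent.Work.MP_51e72e_nt.PV.Count
section
/-! The count of the Schur test. -/

set_option autoImplicit false
open Finset Filter MeasureTheory Pool.Agent.Lib.MR Pool.Agent.Lib.LargeSieve
open Pool.Agent.Work.MP_678620_nt Pool.Agent.Work.MP_51e72e_nt.AV

namespace Pool.Agent.Work.MP_51e72e_nt.PV

theorem PVCount_key {d M L n : ℕ} (h : 2 * L * (n + 1) < M) (δ : ℤ)
    (hδ : ∀ i : Fin (d + 1), ∃ v : ℤ, |v| ≤ 2 * L ∧ (M : ℤ) ∣ (n : ℤ) ^ (i : ℕ) * δ - v) :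
    ∃ v : ℤ, |v| * (n : ℤ) ^ d ≤ 2 * L ∧ (M : ℤ) ∣ δ - v := by
  obtain ⟨v, h1, h2⟩ := hδ 0
  rw [Fin.val_zero, pow_zero, one_mul] at h2
  have h' : 2 * (L : ℤ) * (n + 1) < M := by exact_mod_cast h
  have key : ∀ j ≤ d, |v| * (n : ℤ) ^ j ≤ 2 * L := by
    intro j
    induction j with
    | zero => intro _; rwa [pow_zero, mul_one]
    | succ j ih =>
      intro hj
      obtain ⟨w, k1, k2⟩ := hδ ⟨j + 1, Nat.lt_succ_of_le hj⟩
      have k3 : (M : ℤ) ∣ (n : ℤ) ^ (j + 1) * v - w := by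
        have := k2.sub (h2.mul_left ((n : ℤ) ^ (j + 1)))
        rwa [show (n : ℤ) ^ (j + 1) * δ - w - (n : ℤ) ^ (j + 1) * (δ - v) =
          (n : ℤ) ^ (j + 1) * v - w by ring] at this
      have k4 : |(n : ℤ) ^ (j + 1) * v| = |v| * (n : ℤ) ^ (j + 1) := by
        rw [abs_mul, abs_pow, Nat.abs_cast, mul_comm]
      have k5 := mul_le_mul_of_nonneg_right (ih (Nat.le_of_succ_le hj)) (Int.natCast_nonneg n)
      have k6 := Int.eq_zero_of_abs_lt_dvd k3 ((abs_sub _ _).trans_lt (by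
        rw [k4, pow_succ]
        linarith only [h, k1, k5]))
      rw [← k4, sub_eq_zero.1 k6]
      exact k1
  exact ⟨v, key d le_rfl, h2⟩

open Classical in
theorem fiber {d M L n : ℕ} (hn : 1 ≤ n) (h : 2 * L * (n + 1) < M) (y : Fin (d + 1) → ℤ) :
    (((range M).filter fun t : ℕ => ∀ i : Fin (d + 1),
        Cl M L (y i - (n : ℤ) ^ (i : ℕ) * t)).card : ℝ) ≤ 4 * L / (n : ℝ) ^ d + 1 := by
  rcases ((range M).filter fun t : ℕ => ∀ i : Fin (d + 1),
    Cl M L (y i - (n : ℤ) ^ (i : ℕ) * t)).eq_empty_or_nonempty with e | ⟨t', ht'⟩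
  · rw [e, card_empty, Nat.cast_zero]
    positivity
  have n0 : 0 < n ^ d := Nat.pow_pos hn
  have k1 : ((range M).filter fun t : ℕ => ∀ i : Fin (d + 1),
      Cl M L (y i - (n : ℤ) ^ (i : ℕ) * t)) ⊆ (Icc (-((2 * L / n ^ d : ℕ) : ℤ))
        ((2 * L / n ^ d : ℕ) : ℤ)).image fun v : ℤ => (((t' : ℤ) + v) % M).toNat := by
    intro t ht
    obtain ⟨v, h1, h2⟩ := PVCount_key (d := d) h ((t : ℤ) - t') fun i => by
      obtain ⟨u, a1, a2⟩ := (mem_filter.1 ht).2 i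
      obtain ⟨u', b1, b2⟩ := (mem_filter.1 ht').2 i
      refine ⟨u' - u, (abs_sub _ _).trans (by linarith only [a1, b1]), ?_⟩
      have := b2.sub a2
      rwa [show y i - (n : ℤ) ^ (i : ℕ) * t' - u' - (y i - (n : ℤ) ^ (i : ℕ) * t - u) =
        (n : ℤ) ^ (i : ℕ) * ((t : ℤ) - t') - (u' - u) by ring] at this
    refine mem_image.2 ⟨v, mem_Icc.2 (abs_le.1 ?_), ?_⟩
    · push_cast
      exact Int.le_ediv_of_mul_le (by exact_mod_cast n0) h1
    · have e : ((t' : ℤ) + v) % M = (t : ℤ) % M :=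
        (Int.modEq_iff_dvd.2 (by rwa [← sub_sub])  : (t' : ℤ) + v ≡ t [ZMOD M])
      rw [e, Int.emod_eq_of_lt (Int.natCast_nonneg t)
        (by exact_mod_cast mem_range.1 (mem_filter.1 ht).1), Int.toNat_natCast]
  have k2 := (card_le_card k1).trans card_image_le
  rw [Int.card_Icc] at k2
  have k3 : ((2 * L / n ^ d : ℕ) : ℝ) ≤ 2 * L / (n : ℝ) ^ d := by
    have := Nat.cast_div_le (α := ℝ) (m := 2 * L) (n := n ^ d)
    push_cast at this
    exact this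
  generalize 2 * L / n ^ d = K at k2 k3
  have k4 : ((K : ℤ) + 1 - -(K : ℤ)).toNat = 2 * K + 1 := by omega
  rw [k4] at k2
  refine ((Nat.cast_le (α := ℝ)).2 k2).trans ?_
  push_cast
  rw [show 4 * (L : ℝ) / (n : ℝ) ^ d = 2 * (2 * L / (n : ℝ) ^ d) by ring]
  linarith only [k3]

theorem PVCount_L {d N H : ℕ} (hH : 1 ≤ H) : 8 * (3 * (H * N ^ d) / (8 * H)) ≤ 3 * N ^ d := by
  refine Nat.le_of_mul_le_mul_left ?_ hH
  have := Nat.div_mul_le_self (3 * (H * N ^ d)) (8 * H)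
  linarith only [this]

theorem PVCount_gen {d N H : ℕ} {lam : ℝ} {S : Finset ℕ} (hS : Rg lam N S) (hl : 1 ≤ lam)
    (hN : 1 ≤ N) (hH : N ≤ H) (t : ℕ) (P : Finset (ℕ × ℕ)) (hP : P ⊆ S ×ˢ S)
    (hP' : ∀ a ∈ S, ∀ b ∈ S, ∀ t' : ℕ, (∀ i : Fin (d + 1), Cl (3 * (H * N ^ d))
      (3 * (H * N ^ d) / (8 * H)) ((a : ℤ) ^ (i : ℕ) * t - (b : ℤ) ^ (i : ℕ) * t')) → (a, b) ∈ P) :
    (cn d (3 * (H * N ^ d)) (3 * (H * N ^ d) / (8 * H)) S t : ℝ) ≤ P.card * (3 * lam ^ d) := by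
  classical
  have hL := PVCount_L (d := d) (N := N) (hN.trans hH)
  generalize 3 * (H * N ^ d) / (8 * H) = L at hL hP'
  rw [cn, card_eq_sum_card_fiberwise (f := fun x : ℕ × ℕ × ℕ => (x.1, x.2.1)) (t := P)
    fun x hx => by
      obtain ⟨h1, h2⟩ := mem_filter.1 (mem_coe.1 hx)
      exact hP' _ (mem_product.1 h1).1 _ (mem_product.1 (mem_product.1 h1).2).1 _ h2,
    Nat.cast_sum, ← nsmul_eq_mul]
  refine sum_le_card_nsmul _ _ _ fun p hp => ?_
  have hb := (mem_product.1 (hP hp)).2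
  have b1 := hS.pos _ hb
  have b2 := hS.hi _ hb
  have N0 : 0 < N ^ d := Nat.pow_pos hN
  have c1 : 2 * L * (p.2 + 1) < 3 * (H * N ^ d) := by
    have a1 : 8 * L * (p.2 + 1) ≤ 3 * N ^ d * (2 * H) := Nat.mul_le_mul hL (by omega)
    have a2 : 0 < H * N ^ d := Nat.mul_pos (by omega) N0
    linarith only [a1, a2]
  refine le_trans ?_ ((fiber (d := d) b1 c1 fun i => (p.1 : ℤ) ^ (i : ℕ) * t).trans ?_)
  · refine Nat.cast_le.2 (card_le_card_of_injOn (fun x => x.2.2) (fun x hx => ?_)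
      fun x hx y hy e => ?_)
    · obtain ⟨h1, rfl⟩ := mem_filter.1 (mem_coe.1 hx)
      obtain ⟨h2, h3⟩ := mem_filter.1 h1
      exact mem_coe.2 (mem_filter.2 ⟨(mem_product.1 (mem_product.1 h2).2).2, h3⟩)
    · have e' := (mem_filter.1 (mem_coe.1 hx)).2.trans (mem_filter.1 (mem_coe.1 hy)).2.symm
      exact Prod.ext (Prod.ext_iff.1 e').1 (Prod.ext (Prod.ext_iff.1 e').2 e)
  · have a1 : (1 : ℝ) ≤ lam ^ d := one_le_pow₀ hl
    have a2 : (N : ℝ) ^ d ≤ lam ^ d * (p.2 : ℝ) ^ d := by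
      rw [← mul_pow]
      exact pow_le_pow_left₀ (Nat.cast_nonneg _) (hS.lo _ hb) d
    have a3 : 8 * (L : ℝ) ≤ 3 * (N : ℝ) ^ d := by exact_mod_cast hL
    have a4 : (0 : ℝ) < (p.2 : ℝ) ^ d := by exact_mod_cast Nat.pow_pos b1
    have a5 : 4 * (L : ℝ) / (p.2 : ℝ) ^ d ≤ 2 * lam ^ d := by
      rw [div_le_iff₀ a4]
      have : (0 : ℝ) ≤ (N : ℝ) ^ d := by positivity
      linarith only [a2, a3]
    linarith only [a1, a5]

theorem cn_le {d N H : ℕ} {lam : ℝ} {S : Finset ℕ} (hS : Rg lam N S) (hl : 1 ≤ lam) (hN : 1 ≤ N)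
    (hH : N ≤ H) (t : ℕ) :
    (cn d (3 * (H * N ^ d)) (3 * (H * N ^ d) / (8 * H)) S t : ℝ) ≤ 3 * lam ^ d * N ^ 2 := by
  refine (PVCount_gen hS hl hN hH t (S ×ˢ S) Subset.rfl fun a ha b hb _ _ =>
    mem_product.2 ⟨ha, hb⟩).trans ?_
  have h : ((S ×ˢ S).card : ℝ) ≤ N ^ 2 := by
    rw [card_product, sq]
    exact_mod_cast Nat.mul_le_mul hS.card hS.card
  rw [mul_comm]
  exact mul_le_mul_of_nonneg_left h (by positivity)

theorem cn_minor {d Q N H : ℕ} {lam : ℝ} {S : Finset ℕ} (hd : 1 ≤ d) (hS : Rg lam N S)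
    (hl : 1 ≤ lam) (hQ : lam ^ d ≤ Q) (hQN : Q ≤ N) (hH : Q ^ 6 * N ≤ H) (t : ℕ)
    (hα : ¬ Mj Q ((Q : ℝ) ^ 3 / (H * (N : ℝ) ^ (d - 1))) ((t : ℝ) / (3 * (H * N ^ d) : ℕ))) :
    (cn d (3 * (H * N ^ d)) (3 * (H * N ^ d) / (8 * H)) S t : ℝ) ≤ 90 * lam ^ d * N ^ 2 / Q := by
  classical
  have Q1 : 1 ≤ Q := by exact_mod_cast (one_le_pow₀ hl).trans hQ
  have hN : 1 ≤ N := Q1.trans hQN
  have hNH : N ≤ H := (Nat.le_mul_of_pos_left N (Nat.pow_pos Q1)).trans hH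
  have hp := pairs hd hS hl hQ hQN hH hα
  refine (PVCount_gen hS hl hN hNH t _ (filter_subset _ _) fun a ha b hb t' h =>
    mem_filter.2 ⟨mem_product.2 ⟨ha, hb⟩, fun i hi => ?_⟩).trans
      ((mul_le_mul_of_nonneg_right hp (by positivity)).trans_eq (by ring))
  obtain ⟨u, a1, z, a2⟩ := h ⟨i, by omega⟩
  obtain ⟨u', b1, z', b2⟩ := h ⟨i + 1, by omega⟩
  have hL := Nat.div_mul_le_self (3 * (H * N ^ d)) (8 * H)
  have M0 : 0 < 3 * (H * N ^ d) := Nat.mul_pos three_pos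
    (Nat.mul_pos (hN.trans hNH) (Nat.pow_pos hN))
  generalize 3 * (H * N ^ d) / (8 * H) = L at hL a1 b1
  generalize 3 * (H * N ^ d) = M at hL a2 b2 M0
  have M1 : (0 : ℝ) < M := by exact_mod_cast M0
  have H1 : (0 : ℝ) < H := by exact_mod_cast hN.trans hNH
  have e : (a : ℤ) ^ i * ((a : ℤ) - b) * t - (z' - b * z) * M = u' - b * u := by
    simp only at a2 b2
    linear_combination b2 - b * a2
  have e1 : |u' - b * u| ≤ L * (2 * N) := by
    have c1 : (b : ℤ) ≤ N := by exact_mod_cast hS.hi b hb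
    have c2 : (1 : ℤ) ≤ N := by exact_mod_cast hN
    have c3 : |(b : ℤ) * u| ≤ N * L := by
      rw [abs_mul, Nat.abs_cast]
      exact mul_le_mul c1 a1 (abs_nonneg _) (by positivity)
    have c4 := le_mul_of_one_le_right (Int.natCast_nonneg L) c2
    have := abs_sub u' (b * u)
    linarith only [b1, c3, c4, this]
  rw [← e] at e1
  have e2 : |(a : ℝ) ^ i * ((a : ℝ) - b) * t - ((z' - b * z : ℤ) : ℝ) * M| ≤ L * (2 * N) := by
    exact_mod_cast e1
  have e3 : (L : ℝ) * (8 * H) ≤ M := by exact_mod_cast hL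
  refine ⟨z' - b * z, ?_⟩
  have e4 : (a : ℝ) ^ i * ((a : ℝ) - b) * ((t : ℝ) / M) - ((z' - b * z : ℤ) : ℝ) =
      ((a : ℝ) ^ i * ((a : ℝ) - b) * t - ((z' - b * z : ℤ) : ℝ) * M) / M := by
    field_simp
  rw [e4, abs_div, abs_of_pos M1, div_le_div_iff₀ M1 (by positivity)]
  have e5 := mul_le_mul_of_nonneg_right e2 (show (0 : ℝ) ≤ 4 * H by positivity)
  have e6 := mul_le_mul_of_nonneg_left e3 (Nat.cast_nonneg (α := ℝ) N)
  linarith only [e5, e6]

end Pool.Agent.Work.MP_51e72e_nt.PV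
end
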