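import Pool.Agent.Work.MP_51e72e_nt.PV.Mult

/-! The fixed form. -/

set_option autoImplicit false
open Finset Filter MeasureTheory Pool.Agent.Lib.MR Pool.Agent.Lib.LargeSieve
open Pool.Agent.Work.MP_678620_nt Pool.Agent.Work.MP_51e72e_nt.AV

namespace Pool.Agent.Work.MP_51e72e_nt.PV

variable {k : ℕ} {d : Fin k → ℕ} {z : Fin k → ℝ}

/-- The primes of `P` dividing one of the values. -/
noncomputable def PVFix_Z (z : Fin k → ℝ) (P : Finset ℕ) (n : ℕ)
    (v : (i : Fin k) → Fin (d i + 1) → ℤ) : Finset ℕ :=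
  P.filter fun p => ∃ i, (p : ℝ) ≤ z i ∧ (p : ℤ) ∣ pe (v i) n

lemma PVFix_count (hd : ∀ i, 1 ≤ d i) {H : Fin k → ℕ} {P T : Finset ℕ}
    (hT : ∀ p ∈ T, p.Prime) (hH : ∀ i, ∏ p ∈ T, p ≤ H i)
    (lam : ℝ) (n : ℕ) :
    ∑ v ∈ Tp d lam H, (if T ⊆ PVFix_Z z P n v then (1 : ℝ) else 0)
      ≤ (2 ^ k * Wt d H) * ∏ p ∈ T, ((k : ℝ) / p) := by
  classical
  let dd : (T → Fin k) → Fin k → ℕ := fun φ i => ∏ p ∈ univ.filter fun p : T => φ p = i, (p : ℕ)
  have hprod : ∀ φ : T → Fin k, ∏ i, dd φ i = ∏ p ∈ T, p := fun φ => by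
    rw [prod_fiberwise univ φ (fun p : T => (p : ℕ)), prod_coe_sort T fun p => p]
  have pos : ∀ φ i, 1 ≤ dd φ i := fun φ i =>
    Nat.one_le_iff_ne_zero.2 (prod_ne_zero_iff.2 fun p _ => (hT p p.2).ne_zero)
  have le : ∀ φ i, dd φ i ≤ H i := fun φ i => by
    refine le_trans ?_ (hH i)
    rw [← hprod φ]
    exact single_le_prod' (fun j _ => pos φ j) (mem_univ i)
  have step : ∀ v ∈ Tp d lam H, (if T ⊆ PVFix_Z z P n v then (1 : ℝ) else 0)
      ≤ ∑ φ : T → Fin k, ∏ i, (if (dd φ i : ℤ) ∣ pe (v i) n then (1 : ℝ) else 0) := by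
    intro v _
    have nn : ∀ φ : T → Fin k,
        0 ≤ ∏ i, (if (dd φ i : ℤ) ∣ pe (v i) n then (1 : ℝ) else 0) := fun φ =>
      prod_nonneg fun i _ => by split_ifs <;> norm_num
    split_ifs with h
    · choose φ hφ using fun p : T => (mem_filter.1 (h p.2)).2
      refine le_trans (le_of_eq ?_) (single_le_sum (fun φ _ => nn φ) (mem_univ φ))
      refine (prod_eq_one fun i _ => if_pos ?_).symm
      simp only [dd]
      push_cast
      refine prod_dvd_of_coprime ?_ fun p hp => ?_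
      · intro p _ q _ hpq
        exact Nat.isCoprime_iff_coprime.2
          ((Nat.coprime_primes (hT p p.2) (hT q q.2)).2 fun e => hpq (Subtype.ext e))
      · rw [← (mem_filter.1 hp).2]
        exact (hφ p).2
    · exact sum_nonneg fun φ _ => nn φ
  refine (sum_le_sum step).trans ?_
  rw [sum_comm]
  have one : ∀ φ : T → Fin k, ∑ v ∈ Tp d lam H,
      ∏ i, (if (dd φ i : ℤ) ∣ pe (v i) n then (1 : ℝ) else 0)
      ≤ (2 ^ k * Wt d H) / ∏ p ∈ T, (p : ℝ) := by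
    intro φ
    rw [Tp, ← prod_univ_sum (fun i : Fin k => PX lam (d i) (H i))
      fun i f => if (dd φ i : ℤ) ∣ pe f n then (1 : ℝ) else 0]
    refine (prod_le_prod (g := fun i => 2 * (3 * (H i : ℝ)) ^ (d i + 1) / dd φ i)
      (fun i _ => sum_nonneg fun f _ => by split_ifs <;> norm_num) fun i _ => ?_).trans_eq ?_
    · have := card_dvd lam (hd i) (pos φ i) (le φ i) n
      rw [card_filter] at this
      push_cast at this
      exact this
    · rw [prod_div_distrib, prod_mul_distrib, prod_const, card_univ, Fintype.card_fin,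
        ← Nat.cast_prod, hprod, Nat.cast_prod, Wt]
  refine (sum_le_card_nsmul _ _ _ fun φ _ => one φ).trans_eq ?_
  rw [card_univ, Fintype.card_fun, Fintype.card_fin, Fintype.card_coe, prod_div_distrib,
    prod_const, nsmul_eq_mul]
  push_cast
  ring

lemma PVFix_mod {P T : Finset ℕ} (n : ℕ) (v : (i : Fin k) → Fin (d i + 1) → ℤ) :
    T ⊆ PVFix_Z z P (n % ∏ p ∈ T, p) v ↔ T ⊆ PVFix_Z z P n v := by
  refine forall_congr' fun p => forall_congr' fun hp => ?_
  simp only [PVFix_Z, mem_filter]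
  refine and_congr_right fun _ => exists_congr fun i => and_congr_right fun _ => ?_
  have h : ((n % ∏ p ∈ T, p : ℕ) : ℤ) ≡ n [ZMOD p] := Int.natCast_modEq_iff.2
    ((Nat.mod_modEq n _).of_dvd (dvd_prod_of_mem (fun p : ℕ => p) hp))
  exact (pe_modEq (v i) h).dvd_iff

lemma PVFix_main (hd : ∀ i, 1 ≤ d i) {H : Fin k → ℕ} {P T : Finset ℕ}
    (hT : ∀ p ∈ T, p.Prime) (hH : ∀ i, ∏ p ∈ T, p ≤ H i)
    (lam : ℝ) (S : Finset ℕ) (G : ℕ → ℝ) {t : ℝ} (ht : 0 < t) :
    ∑ v ∈ Tp d lam H, |∑ n ∈ S, G n * (if T ⊆ PVFix_Z z P n v then (1 : ℝ) else 0)|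
      ≤ (2 ^ k * Wt d H) * ((t * ∏ p ∈ T, ((k : ℝ) ^ 2 / p) +
        (∑ c ∈ range (∏ p ∈ T, p), (∑ n ∈ S.filter (fun n => n % (∏ p ∈ T, p) = c), G n) ^ 2) / t)
          / 2) := by
  have d0 : 0 < ∏ p ∈ T, p := prod_pos fun p hp => (hT p hp).pos
  have step : ∀ v ∈ Tp d lam H, |∑ n ∈ S, G n * (if T ⊆ PVFix_Z z P n v then (1 : ℝ) else 0)|
      ≤ ∑ c ∈ range (∏ p ∈ T, p), |∑ n ∈ S.filter (fun n => n % (∏ p ∈ T, p) = c), G n| *
        (if T ⊆ PVFix_Z z P c v then (1 : ℝ) else 0) := by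
    intro v _
    rw [← sum_fiberwise_of_maps_to (s := S) (t := range (∏ p ∈ T, p))
      (g := fun n => n % ∏ p ∈ T, p) fun n _ => mem_range.2 (Nat.mod_lt n d0)]
    refine (abs_sum_le_sum_abs _ _).trans (sum_le_sum fun c _ => le_of_eq ?_)
    rw [sum_congr rfl (g := fun n => G n * (if T ⊆ PVFix_Z z P c v then (1 : ℝ) else 0)) fun n hn => by
      rw [← (mem_filter.1 hn).2]
      simp only [PVFix_mod], ← sum_mul, abs_mul]
    congr 1
    split_ifs <;> simp
  refine (sum_le_sum step).trans ?_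
  rw [sum_comm]
  have dR : (0 : ℝ) < ∏ p ∈ T, (p : ℝ) := prod_pos fun p hp => Nat.cast_pos.2 (hT p hp).pos
  have e : t * ∏ p ∈ T, ((k : ℝ) ^ 2 / p)
      = ∑ _c ∈ range (∏ p ∈ T, p), t * (∏ p ∈ T, ((k : ℝ) / p)) ^ 2 := by
    rw [sum_const, card_range, nsmul_eq_mul, prod_div_distrib, prod_div_distrib, prod_const,
      prod_const, Nat.cast_prod]
    field_simp
    ring
  rw [e, sum_div, ← sum_add_distrib, sum_div, mul_sum]
  refine sum_le_sum fun c _ => ?_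
  rw [← mul_sum]
  refine (mul_le_mul_of_nonneg_left (PVFix_count hd (P := P) hT hH lam c) (abs_nonneg _)).trans ?_
  rw [mul_left_comm]
  refine mul_le_mul_of_nonneg_left ?_ (mul_nonneg (by positivity) (Wt_nonneg d H))
  rw [← sq_abs (∑ n ∈ S.filter (fun n => n % (∏ p ∈ T, p) = c), G n)]
  generalize |∑ n ∈ S.filter (fun n => n % (∏ p ∈ T, p) = c), G n| = x
  generalize ∏ p ∈ T, ((k : ℝ) / p) = y
  have : (t * y ^ 2 + x ^ 2 / t) / 2 - x * y = (t * y - x) ^ 2 / (2 * t) := by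
    field_simp
    ring
  have : 0 ≤ (t * y - x) ^ 2 / (2 * t) := by positivity
  linarith

lemma PVFix_core (h1 : ∀ i, 1 ≤ d i) {J D : ℕ} {H : Fin k → ℕ} {P : Finset ℕ}
    (hP : ∀ p ∈ P, p.Prime)
    (hd : ∀ T ⊆ P, T.card ≤ J + 1 → (∀ i, ∏ p ∈ T, p ≤ H i) ∧ ∏ p ∈ T, p ≤ D)
    (lam : ℝ) (S : Finset ℕ) (G : ℕ → ℝ) {g t : ℝ} (hg : ∀ n ∈ S, |G n| ≤ g) (g0 : 0 ≤ g)
    (ht : 0 < t) :
    ∑ v ∈ Tp d lam H, |∑ n ∈ S, G n * (if PVFix_Z z P n v = ∅ then (1 : ℝ) else 0)|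
      ≤ (2 ^ k * Wt d H) * ((t * Real.exp ((k : ℝ) ^ 2 * ∑ p ∈ P, (p : ℝ)⁻¹) +
        (∑ e ∈ Icc 1 D, ∑ c ∈ range e, (∑ n ∈ S.filter (fun n => n % e = c), G n) ^ 2) / t) / 2
          + g * S.card * (((k : ℝ) * ∑ p ∈ P, (p : ℝ)⁻¹) ^ (J + 1) / (J + 1).factorial)) := by
  have W0 := Wt_nonneg d H
  have step : ∀ v ∈ Tp d lam H, |∑ n ∈ S, G n * (if PVFix_Z z P n v = ∅ then (1 : ℝ) else 0)|
      ≤ ∑ T ∈ P.powerset.filter (fun T => T.card ≤ J),
          |∑ n ∈ S, G n * (if T ⊆ PVFix_Z z P n v then (1 : ℝ) else 0)|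
        + g * ∑ n ∈ S, ∑ T ∈ P.powersetCard (J + 1), (if T ⊆ PVFix_Z z P n v then (1 : ℝ) else 0) := by
    intro v _
    have e : ∑ n ∈ S, G n * (if PVFix_Z z P n v = ∅ then (1 : ℝ) else 0)
        = ∑ T ∈ P.powerset.filter (fun T => T.card ≤ J), (-1 : ℝ) ^ T.card *
            ∑ n ∈ S, G n * (if T ⊆ PVFix_Z z P n v then (1 : ℝ) else 0)
          + ∑ n ∈ S, G n * ((if PVFix_Z z P n v = ∅ then (1 : ℝ) else 0)
            - ∑ T ∈ P.powerset.filter (fun T => T.card ≤ J),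
              (-1 : ℝ) ^ T.card * (if T ⊆ PVFix_Z z P n v then (1 : ℝ) else 0)) := by
      simp only [mul_sub, sum_sub_distrib, mul_sum]
      rw [sum_comm (s := S)]
      simp only [mul_left_comm (G _)]
      ring
    rw [e]
    refine (abs_add_le _ _).trans (add_le_add ((abs_sum_le_sum_abs _ _).trans
      (sum_le_sum fun T _ => ?_)) ((abs_sum_le_sum_abs _ _).trans ?_))
    · rw [abs_mul, abs_pow, abs_neg, abs_one, one_pow, one_mul]
    · rw [mul_sum]
      refine sum_le_sum fun n hn => ?_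
      rw [abs_mul]
      exact mul_le_mul (hg n hn) (Fix_bonf (filter_subset _ _) J) (abs_nonneg _) g0
  refine (sum_le_sum step).trans ?_
  rw [sum_add_distrib, mul_add, sum_comm]
  refine add_le_add ?_ ?_
  · refine (sum_le_sum fun T hT => PVFix_main h1
      (fun p hp => hP p (mem_powerset.1 (mem_filter.1 hT).1 hp))
      (hd T (mem_powerset.1 (mem_filter.1 hT).1) ((mem_filter.1 hT).2.trans (Nat.le_succ J))).1
      lam S G ht).trans ?_
    rw [← mul_sum, ← sum_div, sum_add_distrib, ← mul_sum, ← sum_div]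
    refine mul_le_mul_of_nonneg_left (div_le_div_of_nonneg_right (add_le_add
      (mul_le_mul_of_nonneg_left ?_ ht.le) (div_le_div_of_nonneg_right ?_ ht.le)) zero_le_two)
      (by positivity)
    · refine (sum_le_sum_of_subset_of_nonneg (filter_subset _ _)
        fun T _ _ => prod_nonneg fun p _ => by positivity).trans ?_
      rw [← prod_one_add, mul_sum, Real.exp_sum]
      refine prod_le_prod (fun p _ => by positivity) fun p _ => ?_
      rw [add_comm, div_eq_mul_inv]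
      exact Real.add_one_le_exp _
    · rw [← sum_image (s := P.powerset.filter fun T => T.card ≤ J) (g := fun T => ∏ p ∈ T, p)
        (f := fun d => ∑ c ∈ range d, (∑ n ∈ S.filter (fun n => n % d = c), G n) ^ 2)]
      · refine sum_le_sum_of_subset_of_nonneg (fun d hd' => ?_)
          fun d _ _ => sum_nonneg fun c _ => sq_nonneg _
        obtain ⟨T, hT, rfl⟩ := mem_image.1 hd'
        have s := mem_powerset.1 (mem_filter.1 hT).1
        exact mem_Icc.2 ⟨prod_pos fun p hp => (hP p (s hp)).pos,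
          (hd T s ((mem_filter.1 hT).2.trans (Nat.le_succ J))).2⟩
      · intro T hT T' hT' h
        have s := mem_powerset.1 (mem_filter.1 hT).1
        have s' := mem_powerset.1 (mem_filter.1 hT').1
        rw [← Nat.primeFactors_prod fun p hp => hP p (s hp),
          ← Nat.primeFactors_prod fun p hp => hP p (s' hp)]
        exact congrArg _ h
  · rw [← mul_sum, sum_comm, mul_assoc g, mul_left_comm _ g]
    refine mul_le_mul_of_nonneg_left ((sum_le_card_nsmul _ _ ((2 ^ k * Wt d H) *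
      (((k : ℝ) * ∑ p ∈ P, (p : ℝ)⁻¹) ^ (J + 1) / (J + 1).factorial)) fun n _ => ?_).trans_eq ?_) g0
    · rw [sum_comm]
      refine (sum_le_sum fun T hT => PVFix_count h1
        (fun p hp => hP p ((mem_powersetCard.1 hT).1 hp))
        (hd T (mem_powersetCard.1 hT).1 (mem_powersetCard.1 hT).2.le).1 lam n).trans ?_
      rw [← mul_sum]
      refine mul_le_mul_of_nonneg_left ?_ (by positivity)
      have := esym_le_pow (I := P) (ν := fun p : ℕ => (k : ℝ) / p) (fun _ _ => by positivity) (J + 1)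
      rw [mul_sum]
      exact this
    · rw [nsmul_eq_mul]
      ring

lemma PVFix_flat {n : ℕ} {y : ℝ} (hz : ∀ i, 0 ≤ z i ∧ z i ≤ y) (hy : 0 ≤ y)
    {v : (i : Fin k) → Fin (d i + 1) → ℤ} (hv : ∀ i, z i < pe (v i) n) :
    ∏ i, F1 (z i) (pe (v i) n) =
      (∏ i, (Vz (z i))⁻¹) * (if PVFix_Z z (PZ y) n v = ∅ then (1 : ℝ) else 0) := by
  have pos : ∀ i, (((pe (v i) n).toNat : ℕ) : ℤ) = pe (v i) n := fun i =>
    Int.toNat_of_nonneg (by exact_mod_cast (hz i).1.trans (hv i).le)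
  split_ifs with h
  · rw [mul_one]
    refine prod_congr rfl fun i _ => if_pos ⟨fun p hp hd => ?_, hv i⟩
    by_contra hc
    have : p ∈ PVFix_Z z (PZ y) n v := mem_filter.2 ⟨(mem_PZ hy).2
      ⟨hp, (not_lt.1 hc).trans (hz i).2⟩, i, not_lt.1 hc, by rw [← pos i]; exact_mod_cast hd⟩
    rw [h] at this
    exact notMem_empty p this
  · obtain ⟨p, hp⟩ := nonempty_iff_ne_empty.2 h
    obtain ⟨hp1, i, hp3, hi⟩ := mem_filter.1 hp
    rw [mul_zero]
    refine prod_eq_zero (mem_univ i) (if_neg fun hc => ?_)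
    rw [← pos i] at hi
    exact absurd (hc.1 p (PZ_prime hp1) (by exact_mod_cast hi)) (not_lt.2 hp3)

lemma PVFix_log {X Y : ℕ} (h : X ≤ Y) : Real.log X ≤ Real.log Y := by
  rcases X.eq_zero_or_pos with rfl | h0
  · simpa using Real.log_natCast_nonneg Y
  · exact Real.log_le_log (by exact_mod_cast h0) (by exact_mod_cast h)

lemma PVFix_zz {X Y : ℕ} (h : X ≤ Y) : zz X ≤ zz Y :=
  Real.exp_le_exp.2 (Real.rpow_le_rpow (Real.log_natCast_nonneg X) (PVFix_log h) (by norm_num))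

theorem fixed_d {k : ℕ} (d : Fin k → ℕ) (hd : ∀ i, 1 ≤ d i) (f₀ : ℤ × ℤ) (h₀ : 1 ≤ f₀.1) {ε : ℝ}
    (hε : 0 < ε) (B C K : ℕ) : ∀ᶠ N : ℕ in atTop, ∀ (H : Fin k → ℕ) (lam : ℝ),
    (∀ i, (N : ℝ) ^ ε ≤ H i) → Real.log N ≤ lam → lam ≤ Real.log N ^ B → ∀ X : Fin k → ℕ, (∀ i, N ≤ X i ∧ X i ≤ N ^ K) →
      ∑ v ∈ Tp d lam H,
          |∑ n ∈ Ra lam N, G1 (zz N) (ev f₀ n) * ∏ i, F1 (zz (X i)) (pe (v i) n)|
        ≤ Wt d H * N / Real.log N ^ C := by
  have e0 : 0 < min ε (1 / 4) := lt_min hε (by norm_num)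
  have T : Tendsto (fun N : ℕ => N ^ (K + 1)) atTop atTop := tendsto_pow_atTop K.succ_ne_zero
  filter_upwards [bdh f₀ h₀ B (2 * ((k + k ^ 2 + C + 1) + (k + C + 1))), LF_bound,
    eventually_forall_ge_atTop.2 Vz_inv_le,
    zz_big (2 * B), zz_big 1, T.eventually TB_mertens, TB_tend.eventually_ge_atTop 3,
    TB_tend.eventually_ge_atTop (2 ^ (k + 1) * Real.exp (72 * k ^ 2)),
    TB_tend.eventually_ge_atTop ((K + 1 : ℕ) : ℝ),
    TB_tend.eventually_ge_atTop ((2 * ∑ i, d i : ℕ) : ℝ),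
    T.eventually (TB_ev_small (show (0 : ℝ) ≤ 221 * k + C + 5 by positivity)
      (show 0 < min ε (1 / 4) / (K + 1 : ℕ) by positivity)),
    eventually_ge_atTop f₀.1.natAbs, eventually_ge_atTop f₀.2.natAbs, eventually_ge_atTop 2]
    with N hB hL hV hz hz1 hM hl c0 cK cd hs n1 n2 n3 H lam H1 l1 l2 X hX
  have N0 : (0 : ℝ) < N := by exact_mod_cast (show 0 < N by omega)
  have eN : Real.exp (Real.log N) = N := Real.exp_log N0
  have ez : zz (N ^ (K + 1)) = Real.exp (Real.log (N ^ (K + 1) : ℕ) ^ (24 / 25 : ℝ)) := rfl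
  have eL : Real.log (N ^ (K + 1) : ℕ) = (K + 1 : ℕ) * Real.log N := by
    rw [Nat.cast_pow, Real.log_pow]
  have XK : ∀ i, X i ≤ N ^ (K + 1) := fun i =>
    (hX i).2.trans (Nat.pow_le_pow_right (by omega) K.le_succ)
  have zy : zz N ≤ zz (N ^ (K + 1)) := PVFix_zz (Nat.le_self_pow K.succ_ne_zero N)
  have zX : ∀ i, 0 ≤ zz (X i) ∧ zz (X i) ≤ zz (N ^ (K + 1)) := fun i =>
    ⟨(Real.exp_pos _).le, PVFix_zz (XK i)⟩
  simp only [Real.rpow_def_of_pos N0] at H1
  have V0 : ∀ i, 0 ≤ (Vz (zz (X i)))⁻¹ := fun i => inv_nonneg.2 (prod_nonneg fun p hp =>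
    sub_nonneg.2 (inv_le_one_of_one_le₀ (by exact_mod_cast (mem_filter.1 hp).2.one_le)))
  have V1 : ∏ i, (Vz (zz (X i)))⁻¹ ≤ Real.log (N ^ (K + 1) : ℕ) ^ k := by
    refine (prod_le_prod (fun i _ => V0 i) fun i _ =>
      (hV _ (hX i).1).trans (PVFix_log (XK i))).trans_eq ?_
    rw [prod_const, card_univ, Fintype.card_fin]
  have hG : ∀ n ∈ Ra lam N, |G1 (zz N) (ev f₀ n)| ≤ 3 * Real.log N := fun n hn => by
    refine (hL _ ?_).2.2.2.2
    have a : (n : ℤ) ≤ N := by exact_mod_cast (rg_Ra lam N).hi n hn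
    have b : f₀.1 ≤ N := by omega
    have c : f₀.2 ≤ N := by omega
    have d : (2 : ℤ) ≤ N := by exact_mod_cast n3
    have := mul_le_mul b a (Nat.cast_nonneg n) (Nat.cast_nonneg N)
    rw [ev]
    nlinarith only [n3, c, this, d, mul_le_mul_of_nonneg_left d (show (0 : ℤ) ≤ N * N by positivity)]
  replace hB := fun D => hB lam D l1 l2
  have hc : ((Ra lam N).card : ℝ) ≤ N := by exact_mod_cast (rg_Ra lam N).card
  generalize Real.log (N ^ (K + 1) : ℕ) = L at *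
  generalize zz (N ^ (K + 1)) = y at *
  generalize Real.log N = l at *
  generalize zz N = z at *
  have l0 : 0 < l := by linarith only [hl]
  have K1 : (1 : ℝ) ≤ (K + 1 : ℕ) := by exact_mod_cast K.succ_pos
  have lL : l ≤ L := eL ▸ le_mul_of_one_le_left l0.le K1
  have Ll : L ≤ l ^ 2 := by rw [eL, sq]; exact mul_le_mul_of_nonneg_right cK l0.le
  have L0 : 0 < L := by linarith only [hl, lL]
  rw [show min ε (1 / 4) / (K + 1 : ℕ) * L = min ε (1 / 4) * l by rw [eL]; field_simp] at hs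
  have t0 : 0 ≤ Real.log L := Real.log_nonneg (by linarith only [hl, lL])
  have q0 := Real.rpow_nonneg L0.le (1 / 4 : ℝ)
  have s0 := Real.rpow_nonneg L0.le (24 / 25 : ℝ)
  generalize L ^ (1 / 4 : ℝ) = q at *
  generalize L ^ (24 / 25 : ℝ) = s at *
  have ly : l ≤ y := by linarith only [zy, hz1, hz1.1, pow_one l]
  have z3 : 3 ≤ y := by linarith only [hl, zy, hz1]
  have k0 : (0 : ℝ) ≤ k := Nat.cast_nonneg k
  have C0 : (0 : ℝ) ≤ C := Nat.cast_nonneg C
  obtain ⟨J, J1, J2⟩ : ∃ J : ℕ, (4 * k + C + 1) * Real.log L + 217 * k + 3 ≤ (J + 1 : ℕ) ∧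
      ((J + 1 : ℕ) : ℝ) ≤ (4 * k + C + 1) * Real.log L + 217 * k + 5 := by
    refine ⟨⌈(4 * k + C + 1) * Real.log L + 217 * k + 3⌉₊, ?_, ?_⟩
    · push_cast
      linarith only [Nat.le_ceil ((4 * k + C + 1) * Real.log L + 217 * k + 3)]
    · push_cast
      linarith only [t0, Nat.ceil_lt_add_one
        (show 0 ≤ (4 * k + C + 1) * Real.log L + 217 * k + 3 by positivity)]
  have J3 : 3 ≤ J + 1 := by
    have : (3 : ℝ) ≤ (J + 1 : ℕ) := le_trans (by
      linarith only [t0, mul_nonneg (show (0 : ℝ) ≤ 4 * k + C + 1 by positivity) t0]) J1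
    exact_mod_cast this
  have zJ : y ^ (J + 1) ≤ Real.exp (min ε (1 / 4) * l) := by
    rw [ez, ← Real.exp_nat_mul, Real.exp_le_exp]
    refine (mul_le_mul_of_nonneg_right J2 s0).trans (le_trans ?_ hs)
    have ts := mul_nonneg t0 s0
    linarith only [t0, q0, ts, k0, s0, C0, mul_nonneg k0 ts, mul_nonneg C0 ts, mul_nonneg k0 s0, mul_nonneg C0 s0,
      mul_nonneg k0 t0, mul_nonneg C0 t0, mul_nonneg k0 q0, mul_nonneg C0 q0]
  have zH : ∀ i, y ^ (J + 1) ≤ H i := fun i => zJ.trans ((Real.exp_le_exp.2 (by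
    linarith only [l0, mul_le_mul_of_nonneg_right (min_le_left ε (1 / 4)) l0.le])).trans (H1 i))
  have zD : y ^ (J + 1) ≤ Real.exp (l / 4) := zJ.trans (Real.exp_le_exp.2 (by
    linarith only [l0, mul_le_mul_of_nonneg_right (min_le_right ε (1 / 4)) l0.le]))
  have hD : ⌊Real.exp (l / 4)⌋₊ ^ 4 ≤ N := by
    have := pow_le_pow_left₀ (Nat.cast_nonneg _) (Nat.floor_le (Real.exp_pos (l / 4)).le) 4
    rw [← Real.exp_nat_mul, show ((4 : ℕ) : ℝ) * (l / 4) = l by push_cast; ring, eN] at this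
    exact_mod_cast this
  have hT : ∀ T ⊆ PZ y, T.card ≤ J + 1 →
      (∀ i, ∏ p ∈ T, p ≤ H i) ∧ ∏ p ∈ T, p ≤ ⌊Real.exp (l / 4)⌋₊ := by
    intro T hT hc
    have a : ((∏ p ∈ T, p : ℕ) : ℝ) ≤ y ^ (J + 1) := by
      rw [Nat.cast_prod]
      refine (prod_le_prod (g := fun _ => y) (fun p _ => Nat.cast_nonneg p)
        fun p hp => ((mem_PZ (by linarith only [hl, zy, hz1])).1 (hT hp)).2).trans ?_
      rw [prod_const]
      exact pow_le_pow_right₀ (by linarith only [hl, zy, hz1]) hc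
    exact ⟨fun i => by exact_mod_cast a.trans (zH i), Nat.le_floor (a.trans zD)⟩
  have ya : lam ^ 2 ≤ y := by
    refine (pow_le_pow_left₀ (by linarith only [hl, l1]) l2 2).trans (le_trans ?_ zy)
    rw [← pow_mul, mul_comm]
    exact hz.1
  have yb : y ^ 3 ≤ N := ((pow_le_pow_right₀ (by linarith only [hl, zy, hz1]) J3).trans zD).trans
    ((Real.exp_le_exp.2 (by linarith only [hl])).trans eN.le)
  have yc : 3 * y ^ 2 ≤ N := by linarith only [yb, z3, mul_le_mul_of_nonneg_left z3 (sq_nonneg y), sq_nonneg y]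
  have m0 : 0 < lam := by linarith only [hl, l1]
  have yd : lam ≤ y := by linarith only [hl, zy, hz1, ya, l1, mul_nonneg_of_nonpos_of_nonpos (Mathlib.Tactic.Linarith.sub_nonpos_of_le hl) (Mathlib.Tactic.Linarith.sub_nonpos_of_le hl), mul_nonneg_of_nonpos_of_nonpos (Mathlib.Tactic.Linarith.sub_nonpos_of_le hl) (Mathlib.Tactic.Linarith.sub_nonpos_of_le l1), mul_nonneg_of_nonpos_of_nonpos (Mathlib.Tactic.Linarith.sub_nonpos_of_le l1) (Mathlib.Tactic.Linarith.sub_nonpos_of_le l1)]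
  have big : ∀ v ∈ Tp d lam H, ∀ n ∈ Ra lam N, ∀ i, zz (X i) < pe (v i) n := by
    intro v hv n hn i
    have b1 : ((2 * d i : ℕ) : ℝ) ≤ (2 * ∑ i, d i : ℕ) := Nat.cast_le.2 (Nat.mul_le_mul_left 2
      (single_le_sum (f := d) (fun _ _ => Nat.zero_le _) (mem_univ i)))
    have b2 : 2 * d i * lam ^ 2 ≤ N := by
      have := mul_le_mul (b1.trans (cd.trans ly)) ya (sq_nonneg _) (by linarith only [hl, zy, hz1])
      push_cast at this
      linarith only [N0, yc, this]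
    have b3 : (n : ℝ) ≤ 2 * pe (v i) n := by
      exact_mod_cast (pe_range (hd i) (Fintype.mem_piFinset.1 hv i) (rg_Ra lam N) hn m0 b2).1
    have b5 := (rg_Ra lam N).lo n hn
    have b6 : 3 * y ≤ n := le_of_mul_le_mul_left (by
      linarith only [yc, b5, yd, mul_le_mul_of_nonneg_right yd (Nat.cast_nonneg (α := ℝ) n)]) (by linarith only [hl, zy, hz1] : 0 < y)
    linarith only [hl, zy, hz1, b3, b6, zX, (zX i).2]
  have P0 : 0 ≤ ∏ i, (Vz (zz (X i)))⁻¹ := prod_nonneg fun i _ => V0 i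
  rw [sum_congr rfl (g := fun v => (∏ i, (Vz (zz (X i)))⁻¹) * |∑ n ∈ Ra lam N, G1 z (ev f₀ n) *
      (if PVFix_Z (fun i => zz (X i)) (PZ y) n v = ∅ then (1 : ℝ) else 0)|) fun v hv => by
    rw [← abs_of_nonneg P0, ← abs_mul, mul_sum]
    congr 1
    exact sum_congr rfl fun n hn => by
      rw [PVFix_flat zX (by linarith only [hl, zy, hz1]) (big v hv n hn), mul_left_comm], ← mul_sum]
  refine (mul_le_mul V1 (PVFix_core hd (t := N / L ^ (k + k ^ 2 + C + 1)) (g := 3 * L)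
    (fun p hp => PZ_prime hp) hT lam (Ra lam N) (fun n => G1 z (ev f₀ n))
    (fun n hn => (hG n hn).trans (by linarith only [lL])) (by positivity)
    (by positivity)) (sum_nonneg fun _ _ => abs_nonneg _) (by positivity)).trans ?_
  have fin := Fix_num (by linarith only [hl, lL]) N0 L0.le le_rfl (sum_nonneg fun p _ => by positivity) hM
    (c0.trans lL) J1 hc ((hB _ hD).trans (div_le_div_of_nonneg_left (sq_nonneg _) (by positivity)
      (by rw [pow_mul]; exact pow_le_pow_left₀ L0.le Ll _)))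
  rw [mul_div_assoc, mul_comm (2 ^ k) (Wt d H), mul_assoc, mul_left_comm]
  exact mul_le_mul_of_nonneg_left (fin.trans (div_le_div_of_nonneg_left N0.le (by positivity)
    (pow_le_pow_left₀ l0.le lL C))) (Wt_nonneg d H)

end Pool.Agent.Work.MP_51e72e_nt.PV
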