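import Pool.Agent.Work.MP_51e72e_nt.PV.Mult

-- merged part: Pool.Agent.Work.MP_51e72e_nt.PV.Tele
section
/-! Replacing the primes by the model, one random polynomial at a time. -/

set_option autoImplicit false
open Finset Filter MeasureTheory Pool.Agent.Lib.MR Pool.Agent.Lib.LargeSieve
open Pool.Agent.Work.MP_678620_nt Pool.Agent.Work.MP_51e72e_nt.AV

namespace Pool.Agent.Work.MP_51e72e_nt.PV

/-- The other factors. -/
noncomputable def PVTele_R {k : ℕ} {d : Fin k → ℕ} (z : Fin k → ℝ) (i : Fin k)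
    (v : (i : Fin k) → Fin (d i + 1) → ℤ) (n : ℕ) : ℝ :=
  (∏ j ∈ univ.filter (fun j => j < i), L1 (z j) (pe (v j) n)) *
    ∏ j ∈ univ.filter (fun j => i < j), F1 (z j) (pe (v j) n)

lemma PVTele_tel {k : ℕ} {d : Fin k → ℕ} (z : Fin k → ℝ) (v : (i : Fin k) → Fin (d i + 1) → ℤ)
    (n : ℕ) : ∏ i, L1 (z i) (pe (v i) n) - ∏ i, F1 (z i) (pe (v i) n) =
      ∑ i, G1 (z i) (pe (v i) n) * PVTele_R z i v n := by
  have h := prod_add_ordered (univ : Finset (Fin k)) (fun i => F1 (z i) (pe (v i) n))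
    (fun i => G1 (z i) (pe (v i) n))
  have e : ∀ z m, F1 z m + G1 z m = L1 z m := fun z m => by rw [G1]; ring
  simp only [e] at h
  rw [h, add_sub_cancel_left]
  exact sum_congr rfl fun i _ => by rw [PVTele_R, mul_assoc]

lemma PVTele_update {k : ℕ} {d : Fin k → ℕ} (z : Fin k → ℝ) (i : Fin k)
    (v : (i : Fin k) → Fin (d i + 1) → ℤ) (f : Fin (d i + 1) → ℤ) (n : ℕ) :
    PVTele_R z i (Function.update v i f) n = PVTele_R z i v n := by
  unfold PVTele_R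
  rw [prod_congr rfl (g := fun j => L1 (z j) (pe (v j) n)) fun j hj => by
      rw [Function.update_of_ne (mem_filter.1 hj).2.ne],
    prod_congr rfl (s₁ := univ.filter (fun j => i < j)) (g := fun j => F1 (z j) (pe (v j) n))
      fun j hj => by rw [Function.update_of_ne (mem_filter.1 hj).2.ne']]

lemma PVTele_le {m : ℕ} {d : Fin (m + 1) → ℕ} {z : Fin (m + 1) → ℝ} {c : ℝ} (i : Fin (m + 1))
    (v : (i : Fin (m + 1)) → Fin (d i + 1) → ℤ) (n : ℕ)
    (hL : ∀ j, |L1 (z j) (pe (v j) n)| ≤ c) (hF : ∀ j, |F1 (z j) (pe (v j) n)| ≤ c) :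
    |PVTele_R z i v n| ≤ c ^ m := by
  have hc : 0 ≤ c := (abs_nonneg _).trans (hL i)
  have e : (univ.filter (fun j => j < i)).card + (univ.filter (fun j => i < j)).card = m := by
    rw [filter_gt_eq_Iio, filter_lt_eq_Ioi, Fin.card_Iio, Fin.card_Ioi]
    have := i.2
    omega
  rw [PVTele_R, abs_mul, abs_prod, abs_prod]
  calc _ ≤ (∏ _j ∈ univ.filter (fun j => j < i), c) * ∏ _j ∈ univ.filter (fun j => i < j), c :=
        mul_le_mul (prod_le_prod (fun _ _ => abs_nonneg _) fun j _ => hL j)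
          (prod_le_prod (fun _ _ => abs_nonneg _) fun j _ => hF j)
          (prod_nonneg fun _ _ => abs_nonneg _) (prod_nonneg fun _ _ => hc)
    _ = c ^ m := by rw [prod_const, prod_const, ← pow_add, e]

lemma PVTele_var {d N H C X : ℕ} {lam a : ℝ} (ha : 0 < a) (hV : Var d N H lam X C) (r : ℕ → ℝ)
    (hr : ∀ n ∈ Ra lam N, |r n| ≤ a) :
    ∑ f ∈ PX lam d H, (∑ n ∈ Ra lam N, r n * G1 (zz X) (pe f n)) ^ 2 ≤
      (3 * (H : ℝ)) ^ (d + 1) * (a ^ 2 * (N ^ 2 / Real.log N ^ C)) := by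
  have h6 := hV (fun n => if n ∈ Ra lam N then ((r n / a : ℝ) : ℂ) else 0) fun n => by
    split_ifs with hn
    · rw [Complex.norm_real, Real.norm_eq_abs, abs_div, abs_of_pos ha, div_le_one ha]
      exact hr n hn
    · simp
  rw [mul_left_comm, ← mul_div_assoc]
  refine le_trans (le_of_eq ?_) (mul_le_mul_of_nonneg_left h6 (sq_nonneg a))
  rw [mul_sum]
  refine sum_congr rfl fun f _ => ?_
  have e : ∑ n ∈ Ra lam N, (if n ∈ Ra lam N then ((r n / a : ℝ) : ℂ) else 0) *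
      (G1 (zz X) (pe f n) : ℂ) =
      (((∑ n ∈ Ra lam N, r n * G1 (zz X) (pe f n)) / a : ℝ) : ℂ) := by
    rw [sum_div, Complex.ofReal_sum]
    refine sum_congr rfl fun n hn => ?_
    rw [if_pos hn, ← Complex.ofReal_mul]
    exact congrArg _ (by ring)
  rw [e, Complex.norm_real, Real.norm_eq_abs, sq_abs, div_pow,
    mul_div_cancel₀ _ (pow_pos ha _).ne']

theorem tele_d {k : ℕ} (d : Fin k → ℕ) {N C : ℕ} {H : Fin k → ℕ} {lam c : ℝ} (X : Fin k → ℕ)
    (hH : ∀ i, 1 ≤ H i) (hc : 1 ≤ c) (hV : ∀ i, Var (d i) N (H i) lam (X i) C)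
    (hb : ∀ i, ∀ f ∈ PX lam (d i) (H i), ∀ n ∈ Ra lam N,
      |L1 (zz (X i)) (pe f n)| ≤ c ∧ |F1 (zz (X i)) (pe f n)| ≤ c)
    (w : ℕ → ℝ) (hw : ∀ n ∈ Ra lam N, |w n| ≤ c) :
    ∑ v ∈ Tp d lam H, (∑ n ∈ Ra lam N, w n *
        (∏ i, L1 (zz (X i)) (pe (v i) n) - ∏ i, F1 (zz (X i)) (pe (v i) n))) ^ 2
      ≤ k ^ 2 * c ^ (2 * k) * (Wt d H * N ^ 2 / Real.log N ^ C) := by
  rcases k with _ | m
  · simp
  have hc0 : 0 < c := one_pos.trans_le hc
  have hl := Real.log_natCast_nonneg N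
  have hone : ∀ i : Fin (m + 1), ∑ v ∈ Tp d lam H, (∑ n ∈ Ra lam N,
      w n * PVTele_R (fun i => zz (X i)) i v n * G1 (zz (X i)) (pe (v i) n)) ^ 2 ≤
        Wt d H * ((c ^ (m + 1)) ^ 2 * (N ^ 2 / Real.log N ^ C)) := by
    intro i
    refine sum_Tp_le d lam hH i _ (by positivity) fun v hv => ?_
    simp only [PVTele_update, Function.update_self]
    refine PVTele_var (pow_pos hc0 _) (hV i) _ fun n hn => ?_
    have h4 := fun j => hb j (v j) (Fintype.mem_piFinset.1 hv j) n hn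
    rw [abs_mul, pow_succ']
    exact mul_le_mul (hw n hn) (PVTele_le i v n (fun j => (h4 j).1) fun j => (h4 j).2)
      (abs_nonneg _) hc0.le
  have hcs : ∀ v : (i : Fin (m + 1)) → Fin (d i + 1) → ℤ, (∑ n ∈ Ra lam N, w n *
      (∏ i, L1 (zz (X i)) (pe (v i) n) - ∏ i, F1 (zz (X i)) (pe (v i) n))) ^ 2 ≤
      ((m + 1 : ℕ) : ℝ) * ∑ i, (∑ n ∈ Ra lam N,
        w n * PVTele_R (fun i => zz (X i)) i v n * G1 (zz (X i)) (pe (v i) n)) ^ 2 := by
    intro v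
    have e : ∑ n ∈ Ra lam N, w n *
        (∏ i, L1 (zz (X i)) (pe (v i) n) - ∏ i, F1 (zz (X i)) (pe (v i) n)) =
        ∑ i, ∑ n ∈ Ra lam N,
          w n * PVTele_R (fun i => zz (X i)) i v n * G1 (zz (X i)) (pe (v i) n) := by
      rw [sum_comm]
      refine sum_congr rfl fun n _ => ?_
      rw [PVTele_tel (fun i => zz (X i)), mul_sum]
      exact sum_congr rfl fun i _ => by ring
    have := sq_sum_le_card_mul_sum_sq (s := (univ : Finset (Fin (m + 1))))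
      (f := fun i => ∑ n ∈ Ra lam N,
        w n * PVTele_R (fun i => zz (X i)) i v n * G1 (zz (X i)) (pe (v i) n))
    rwa [card_univ, Fintype.card_fin, ← e] at this
  refine (sum_le_sum fun v _ => hcs v).trans ?_
  rw [← mul_sum, sum_comm]
  refine (mul_le_mul_of_nonneg_left (sum_le_sum fun i _ => hone i) (Nat.cast_nonneg _)).trans_eq ?_
  rw [sum_const, card_univ, Fintype.card_fin, nsmul_eq_mul]
  ring


end Pool.Agent.Work.MP_51e72e_nt.PV
end

-- merged part: Pool.Agent.Work.MP_51e72e_nt.PV.CmpP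
section
/-! The first order term is small for most systems. -/

set_option autoImplicit false
open Finset Filter MeasureTheory Pool.Agent.Lib.MR Pool.Agent.Lib.LargeSieve
open Pool.Agent.Work.MP_678620_nt Pool.Agent.Work.MP_51e72e_nt.AV

namespace Pool.Agent.Work.MP_51e72e_nt.PV

/-- The indicator of a divisibility. -/
noncomputable def PVCmpP_i (m : ℕ) (x : ℤ) : ℝ := if (m : ℤ) ∣ x then 1 else 0

/-- The number of roots. -/
noncomputable def PVCmpP_r (f : ℤ → ℤ) (p : ℕ) : ℝ := ∑ n ∈ range p, PVCmpP_i p (f n)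

lemma PVCmpP_i_nonneg (m : ℕ) (x : ℤ) : 0 ≤ PVCmpP_i m x := by
  unfold PVCmpP_i
  split_ifs <;> norm_num

lemma PVCmpP_i_le (m : ℕ) (x : ℤ) : PVCmpP_i m x ≤ 1 := by
  unfold PVCmpP_i
  split_ifs <;> norm_num

lemma PVCmpP_r_eq (f : ℤ → ℤ) (p : ℕ) :
    PVCmpP_r f p = (((range p).filter fun n : ℕ => (p : ℤ) ∣ f n).card : ℝ) := by
  rw [card_filter]
  push_cast
  rfl

lemma PVCmpP_r_nonneg (f : ℤ → ℤ) (p : ℕ) : 0 ≤ PVCmpP_r f p :=
  sum_nonneg fun _ _ => PVCmpP_i_nonneg _ _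

lemma PVCmpP_r_le (f : ℤ → ℤ) (p : ℕ) : PVCmpP_r f p ≤ p :=
  (sum_le_card_nsmul _ _ 1 fun _ _ => PVCmpP_i_le _ _).trans_eq (by simp)

lemma PVCmpP_cnt (H : ℕ) {m : ℕ} (hm : 1 ≤ m) (u : ℤ) :
    |∑ b ∈ Icc (-(H : ℤ)) H, PVCmpP_i m (b + u) - (2 * H + 1) / m| ≤ 1 := by
  have d0 : (0 : ℤ) < m := by exact_mod_cast hm
  have e : (Icc (-(H : ℤ)) H).filter (fun b : ℤ => (m : ℤ) ∣ b + u)
      = (Ico (-(H : ℤ)) (H + 1)).filter fun b : ℤ => b ≡ -u [ZMOD m] := by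
    ext b
    simp only [mem_filter, mem_Icc, mem_Ico, Int.lt_add_one_iff, Int.modEq_iff_dvd]
    refine and_congr_right fun _ => ?_
    rw [← dvd_neg, show -(b + u) = -u - b by ring]
  have h := Int.Ico_filter_modEq_card (-(H : ℤ)) (H + 1) d0 (-u)
  rw [← e] at h
  have dq : (0 : ℚ) < m := by exact_mod_cast hm
  have key : |((((Icc (-(H : ℤ)) H).filter fun b : ℤ => (m : ℤ) ∣ b + u).card : ℤ) : ℚ)
      - (2 * H + 1) / m| ≤ 1 := by
    rw [h]
    push_cast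
    have a1 := Int.ceil_lt_add_one (((H : ℚ) + 1 - -u) / m)
    have a2 := Int.le_ceil ((-(H : ℚ) - -u) / m)
    have a3 := Int.le_ceil (((H : ℚ) + 1 - -u) / m)
    have a4 := Int.ceil_lt_add_one ((-(H : ℚ) - -u) / m)
    have a5 : ((H : ℚ) + 1 - -u) / m - (-(H : ℚ) - -u) / m = (2 * H + 1) / m := by
      field_simp
      ring
    have a6 : (0 : ℚ) ≤ (2 * H + 1) / m := by positivity
    rw [abs_le]
    constructor
    · linarith only [a3, a4, a5, le_max_left ((⌈((H : ℚ) + 1 - -u) / m⌉ : ℚ) - (⌈(-(H : ℚ) - -u) / m⌉ : ℚ)) 0]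
    · rw [sub_le_iff_le_add]
      exact max_le (by linarith only [a1, a2, a5]) (by linarith only [a6])
  have k3 := (Rat.cast_le (K := ℝ)).2 key
  rw [card_filter] at k3
  push_cast at k3
  simpa only [PVCmpP_i, apply_ite (Rat.cast : ℚ → ℝ), Rat.cast_one, Rat.cast_zero] using k3

lemma PVCmpP_pair (H : ℕ) {p q : ℕ} (hp : 1 ≤ p) (hq : 1 ≤ q) (h : Nat.Coprime p q) (u u' : ℤ) :
    ∑ b ∈ Icc (-(H : ℤ)) H, (PVCmpP_i p (b + u) - 1 / p) * (PVCmpP_i q (b + u') - 1 / q) ≤ 3 := by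
  have hc : IsCoprime (p : ℤ) q := Nat.isCoprime_iff_coprime.2 h
  obtain ⟨x, y, hxy⟩ := id hc
  have e : ∀ b : ℤ, PVCmpP_i p (b + u) * PVCmpP_i q (b + u') =
      PVCmpP_i (p * q) (b + (u * y * q + u' * x * p)) := by
    intro b
    have e1 : (p : ℤ) ∣ b + u ↔ (p : ℤ) ∣ b + (u * y * q + u' * x * p) := by
      have : b + (u * y * q + u' * x * p) = b + u + p * (u' * x - u * x) := by
        linear_combination u * hxy
      rw [this, dvd_add_left (dvd_mul_right _ _)]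
    have e2 : (q : ℤ) ∣ b + u' ↔ (q : ℤ) ∣ b + (u * y * q + u' * x * p) := by
      have : b + (u * y * q + u' * x * p) = b + u' + q * (u * y - u' * y) := by
        linear_combination u' * hxy
      rw [this, dvd_add_left (dvd_mul_right _ _)]
    have e3 : ((p * q : ℕ) : ℤ) ∣ b + (u * y * q + u' * x * p) ↔
        (p : ℤ) ∣ b + u ∧ (q : ℤ) ∣ b + u' := by
      rw [e1, e2, Nat.cast_mul]
      exact ⟨fun k => ⟨(dvd_mul_right _ _).trans k, (dvd_mul_left _ _).trans k⟩,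
        fun k => hc.mul_dvd k.1 k.2⟩
    unfold PVCmpP_i
    simp only [e3]
    by_cases k1 : (p : ℤ) ∣ b + u <;> by_cases k2 : (q : ℤ) ∣ b + u' <;> simp [k1, k2]
  have a1 := abs_le.1 (PVCmpP_cnt H (m := p * q) (Nat.mul_pos hp hq) (u * y * q + u' * x * p))
  have a2 := abs_le.1 (PVCmpP_cnt H hp u)
  have a3 := abs_le.1 (PVCmpP_cnt H hq u')
  have p1 : (1 : ℝ) ≤ p := by exact_mod_cast hp
  have q1 : (1 : ℝ) ≤ q := by exact_mod_cast hq
  have hL : ((Icc (-(H : ℤ)) H).card : ℝ) = 2 * H + 1 := by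
    have : (Icc (-(H : ℤ)) H).card = 2 * H + 1 := by
      rw [Int.card_Icc]
      omega
    exact_mod_cast this
  have e4 : ∑ b ∈ Icc (-(H : ℤ)) H, (PVCmpP_i p (b + u) - 1 / p) * (PVCmpP_i q (b + u') - 1 / q) =
      ∑ b ∈ Icc (-(H : ℤ)) H, PVCmpP_i (p * q) (b + (u * y * q + u' * x * p)) -
        1 / q * ∑ b ∈ Icc (-(H : ℤ)) H, PVCmpP_i p (b + u) -
        1 / p * ∑ b ∈ Icc (-(H : ℤ)) H, PVCmpP_i q (b + u') + (2 * H + 1) * (1 / p * (1 / q)) := by
    rw [← hL, ← nsmul_eq_mul, ← sum_const, mul_sum, mul_sum, ← sum_sub_distrib, ← sum_sub_distrib,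
      ← sum_add_distrib]
    refine sum_congr rfl fun b _ => ?_
    rw [← e]
    ring
  rw [e4]
  push_cast at a1
  have s1 : (0 : ℝ) ≤ 1 / p := by positivity
  have s2 : (0 : ℝ) ≤ 1 / q := by positivity
  have s3 : (1 : ℝ) / p ≤ 1 := by rw [div_le_one (by linarith only [p1])]; exact p1
  have s4 : (1 : ℝ) / q ≤ 1 := by rw [div_le_one (by linarith only [q1])]; exact q1
  have t1 := mul_le_mul_of_nonneg_left a2.1 s2
  have t2 := mul_le_mul_of_nonneg_left a3.1 s1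
  have t3 : (2 * (H : ℝ) + 1) / (p * q) = (2 * H + 1) * (1 / p * (1 / q)) := by field_simp
  have t4 : (2 * (H : ℝ) + 1) / p = (2 * H + 1) * (1 / p) := by field_simp
  have t5 : (2 * (H : ℝ) + 1) / q = (2 * H + 1) * (1 / q) := by field_simp
  rw [t3] at a1
  rw [t4] at t1
  rw [t5] at t2
  linarith only [a1, s3, s4, t1, t2, a1.2]

lemma PVCmpP_off (lam : ℝ) {d H p q : ℕ} (hd : 1 ≤ d) (hH : 1 ≤ H) (hp : 1 ≤ p) (hq : 1 ≤ q)
    (h : Nat.Coprime p q) :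
    ∑ c ∈ PX lam d H, (PVCmpP_r (pe c) p - 1) / p * ((PVCmpP_r (pe c) q - 1) / q) ≤
      (3 * (H : ℝ)) ^ d * 3 := by
  have p1 : (0 : ℝ) < p := by exact_mod_cast hp
  have q1 : (0 : ℝ) < q := by exact_mod_cast hq
  refine sum_PX_le lam hH 0 _ (by norm_num) fun c _ => ?_
  have e : ∀ (m : ℕ) (b : ℤ), (0 : ℝ) < m → PVCmpP_r (pe (Function.update c 0 b)) m - 1 =
      ∑ n ∈ range m, (PVCmpP_i m (b + pe (Function.update c 0 0) n) - 1 / m) := by
    intro m b hm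
    rw [sum_sub_distrib, sum_const, card_range, nsmul_eq_mul, mul_one_div_cancel hm.ne', PVCmpP_r]
    congr 1
    refine sum_congr rfl fun n _ => ?_
    rw [pe_update, Fin.val_zero, pow_zero, mul_one]
  rw [Co_zero lam hd]
  simp only [div_mul_div_comm, e p _ p1, e q _ q1, sum_mul_sum]
  rw [← sum_div, div_le_iff₀ (by positivity), sum_comm]
  refine le_of_le_of_eq (sum_le_card_nsmul _ _ ((q : ℝ) * 3) fun n _ => ?_) ?_
  · rw [sum_comm]
    refine le_of_le_of_eq (sum_le_card_nsmul _ _ 3 fun n' _ => PVCmpP_pair H hp hq h _ _) ?_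
    rw [card_range, nsmul_eq_mul]
  · rw [card_range, nsmul_eq_mul]
    ring

lemma PVCmpP_two (lam : ℝ) {d H p : ℕ} (hd : 1 ≤ d) (hp : 1 ≤ p) (hpH : p ≤ H) :
    ∑ c ∈ PX lam d H, PVCmpP_i p (pe c 0) * PVCmpP_i p (pe c 1) ≤
      4 * (3 * (H : ℝ)) ^ (d + 1) / p ^ 2 := by
  classical
  obtain ⟨d, rfl⟩ : ∃ e, d = e + 1 := ⟨d - 1, by omega⟩
  have p1 : (0 : ℝ) < p := by exact_mod_cast hp
  have hH := hp.trans hpH
  have e0 : ∀ c : Fin (d + 1 + 1) → ℤ, pe c 0 = c 0 := fun c => by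
    simp [pe, Fin.sum_univ_succ]
  let B : Fin (d + 1 + 1) → Finset ℤ := fun j =>
    if j = 0 then (Icc (-(H : ℤ)) H).filter fun b : ℤ => (p : ℤ) ∣ 0 + b else Icc (-(H : ℤ)) H
  have h1 : ∑ c ∈ PX lam (d + 1) H, PVCmpP_i p (pe c 0) * PVCmpP_i p (pe c 1) ≤
      ∑ c ∈ Fintype.piFinset B, PVCmpP_i p (pe c 1) := by
    have e1 : ∑ c ∈ PX lam (d + 1) H, PVCmpP_i p (pe c 0) * PVCmpP_i p (pe c 1) =
        ∑ c ∈ (PX lam (d + 1) H).filter fun c => (p : ℤ) ∣ pe c 0, PVCmpP_i p (pe c 1) := by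
      rw [sum_filter]
      refine sum_congr rfl fun c _ => ?_
      rw [PVCmpP_i, ite_mul, one_mul, zero_mul]
    rw [e1]
    refine sum_le_sum_of_subset_of_nonneg (fun c hc => ?_) fun _ _ _ => PVCmpP_i_nonneg _ _
    obtain ⟨c1, c2⟩ := mem_filter.1 hc
    rw [Fintype.mem_piFinset]
    intro j
    have c3 := Co_sub lam _ H j (Fintype.mem_piFinset.1 c1 j)
    by_cases hj : j = 0
    · subst hj
      simp only [B, if_pos]
      exact mem_filter.2 ⟨c3, by rwa [zero_add, ← e0 c]⟩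
    · simp only [B, if_neg hj]
      exact c3
  have h2 := sum_update B (fun j => if j = 0 then 6 * (H : ℝ) / p else 3 * H) (fun j => by
      by_cases hj : j = 0
      · simp only [B, if_pos hj]
        exact Fix_line hp hpH 0
      · simp only [B, if_neg hj]
        exact card_Icc_le hH) 1 (fun c => PVCmpP_i p (pe c 1)) (M := 6 * (H : ℝ) / p)
    (by positivity) fun c _ => by
      have := Fix_line hp hpH (pe (Function.update c 1 0) 1)
      rw [card_filter] at this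
      push_cast at this
      simp only [B, if_neg (show (1 : Fin (d + 1 + 1)) ≠ 0 from one_ne_zero)]
      refine le_of_eq_of_le (sum_congr rfl fun b _ => ?_) this
      rw [pe_update, one_pow, mul_one, add_comm, PVCmpP_i]
  refine h1.trans (h2.trans_eq ?_)
  have m0 : (0 : Fin (d + 1 + 1)) ∈ univ.erase 1 := mem_erase.2 ⟨zero_ne_one, mem_univ _⟩
  rw [← mul_prod_erase _ _ m0, if_pos rfl,
    prod_congr rfl fun j hj => if_neg (ne_of_mem_erase hj), prod_const, card_erase_of_mem m0,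
    card_erase_of_mem (mem_univ _), card_univ, Fintype.card_fin]
  simp only [Nat.add_sub_cancel]
  field_simp
  ring

lemma PVCmpP_r_small {d D p : ℕ} (hD : d ≤ D) (hp : p.Prime) (c : Fin (d + 1) → ℤ)
    (h : PVCmpP_i p (pe c 0) * PVCmpP_i p (pe c 1) < 1) : PVCmpP_r (pe c) p ≤ D := by
  rcases pe_rt c hp with k | k
  · simp [PVCmpP_i, k] at h
  · rw [PVCmpP_r_eq]
    exact_mod_cast k.trans hD

lemma PVCmpP_diag (lam : ℝ) {d D H p : ℕ} (hd : 1 ≤ d) (hD : d ≤ D) (hp : p.Prime) (hpH : p ≤ H) :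
    ∑ c ∈ PX lam d H, (PVCmpP_r (pe c) p - 1) / p * ((PVCmpP_r (pe c) p - 1) / p) ≤
      (D ^ 2 + 5) * (3 * (H : ℝ)) ^ (d + 1) * ((p : ℝ) ^ 2)⁻¹ := by
  have p1 : (0 : ℝ) < p := by exact_mod_cast hp.pos
  have h1 : ∀ c ∈ PX lam d H, (PVCmpP_r (pe c) p - 1) / p * ((PVCmpP_r (pe c) p - 1) / p) ≤
      (D ^ 2 + 1) * ((p : ℝ) ^ 2)⁻¹ + PVCmpP_i p (pe c 0) * PVCmpP_i p (pe c 1) := by
    intro c _
    have r0 := PVCmpP_r_nonneg (pe c) p
    have i0 := mul_nonneg (PVCmpP_i_nonneg p (pe c 0)) (PVCmpP_i_nonneg p (pe c 1))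
    have e : ∀ x : ℝ, (D ^ 2 + 1) * ((p : ℝ) ^ 2)⁻¹ + x = (D ^ 2 + 1 + x * p ^ 2) / (p * p) :=
      fun x => by field_simp
    rw [div_mul_div_comm, e]
    refine div_le_div_of_nonneg_right ?_ (by positivity)
    rcases lt_or_ge (PVCmpP_i p (pe c 0) * PVCmpP_i p (pe c 1)) 1 with k | k
    · have := PVCmpP_r_small hD hp c k
      linarith only [r0, i0, this, mul_nonneg i0 (sq_nonneg (p : ℝ)), sq_nonneg ↑p, mul_nonneg_of_nonpos_of_nonpos (Mathlib.Tactic.Linarith.sub_nonpos_of_le (Mathlib.Tactic.Linarith.natCast_nonneg ℝ D)) (Mathlib.Tactic.Linarith.sub_nonpos_of_le this), mul_nonneg_of_nonpos_of_nonpos (Mathlib.Tactic.Linarith.sub_nonpos_of_le r0) (Mathlib.Tactic.Linarith.sub_nonpos_of_le this)]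
    · have := PVCmpP_r_le (pe c) p
      linarith only [r0, k, this, mul_le_mul_of_nonneg_right k (sq_nonneg (p : ℝ)), sq_nonneg (D : ℝ), sq_nonneg ↑D, sq_nonneg ↑p, mul_nonneg_of_nonpos_of_nonpos (Mathlib.Tactic.Linarith.sub_nonpos_of_le (Mathlib.Tactic.Linarith.natCast_nonneg ℝ p)) (Mathlib.Tactic.Linarith.sub_nonpos_of_le this), mul_nonneg_of_nonpos_of_nonpos (Mathlib.Tactic.Linarith.sub_nonpos_of_le r0) (Mathlib.Tactic.Linarith.sub_nonpos_of_le this)]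
  refine (sum_le_sum h1).trans ?_
  rw [sum_add_distrib, sum_const, nsmul_eq_mul]
  have h2 := PVCmpP_two lam hd hp.pos hpH
  have h3 := mul_le_mul_of_nonneg_right (card_PX lam d (hp.pos.trans_le hpH))
    (show (0 : ℝ) ≤ (D ^ 2 + 1) * ((p : ℝ) ^ 2)⁻¹ by positivity)
  rw [div_eq_mul_inv] at h2
  linarith only [h2, h3]

lemma PVCmpP_inv {w Y : ℕ} (hw : 1 ≤ w) {Q : Finset ℕ} (hQ : Q ⊆ Ioc w Y) :
    ∑ p ∈ Q, ((p : ℝ) ^ 2)⁻¹ ≤ 1 / w := by
  refine (sum_le_sum_of_subset_of_nonneg hQ fun _ _ _ => by positivity).trans ?_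
  rcases le_total w Y with h | h
  · refine (sum_Ioc_inv_sq_le_sub (by omega) h).trans ?_
    rw [one_div]
    exact sub_le_self _ (by positivity)
  · rw [Ioc_eq_empty (by omega), sum_empty]
    positivity

lemma PVCmpP_mom (lam : ℝ) {d D H w Y : ℕ} (hd : 1 ≤ d) (hD : d ≤ D) (hw : 1 ≤ w) (hH : 1 ≤ H)
    (hY : Y ≤ H) {Q : Finset ℕ} (hQ : Q ⊆ (Ioc w Y).filter Nat.Prime) :
    ∑ c ∈ PX lam d H, (∑ p ∈ Q, (PVCmpP_r (pe c) p - 1) / p) ^ 2 ≤
      (3 * (H : ℝ)) ^ (d + 1) * ((D ^ 2 + 5) * (1 / w + (Y : ℝ) ^ 2 / H)) := by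
  have hQ1 : Q ⊆ Ioc w Y := hQ.trans (filter_subset _ _)
  have hP : ∀ p ∈ Q, p.Prime := fun p hp => (mem_filter.1 (hQ hp)).2
  have H0 : (0 : ℝ) < H := by exact_mod_cast hH
  have hc : (Q.card : ℝ) ≤ Y := by
    have := card_le_card hQ1
    rw [Nat.card_Ioc] at this
    exact_mod_cast this.trans (Nat.sub_le _ _)
  simp only [sq, sum_mul_sum]
  rw [sum_comm]
  have h1 : ∀ p ∈ Q, ∑ c ∈ PX lam d H, ∑ q ∈ Q,
      (PVCmpP_r (pe c) p - 1) / p * ((PVCmpP_r (pe c) q - 1) / q) ≤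
      (D ^ 2 + 5) * (3 * (H : ℝ)) ^ (d + 1) * ((p : ℝ) ^ 2)⁻¹ + Y * ((3 * (H : ℝ)) ^ d * 3) := by
    intro p hp
    rw [sum_comm, ← add_sum_erase _ _ hp]
    refine add_le_add (PVCmpP_diag lam hd hD (hP p hp) ((mem_Ioc.1 (hQ1 hp)).2.trans hY)) ?_
    refine (sum_le_card_nsmul _ _ _ fun q hq => PVCmpP_off lam hd hH (hP p hp).pos
      (hP q (mem_of_mem_erase hq)).pos ((Nat.coprime_primes (hP p hp)
        (hP q (mem_of_mem_erase hq))).2 (ne_of_mem_erase hq).symm)).trans ?_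
    rw [nsmul_eq_mul]
    refine mul_le_mul_of_nonneg_right (le_trans ?_ hc) (by positivity)
    exact_mod_cast card_erase_le
  refine (sum_le_sum h1).trans ?_
  rw [sum_add_distrib, ← mul_sum, sum_const, nsmul_eq_mul]
  have h2 := mul_le_mul_of_nonneg_left (PVCmpP_inv hw hQ1)
    (show (0 : ℝ) ≤ (D ^ 2 + 5) * (3 * (H : ℝ)) ^ (d + 1) by positivity)
  have h3 := mul_le_mul_of_nonneg_right hc
    (show (0 : ℝ) ≤ Y * ((3 * (H : ℝ)) ^ d * 3) by positivity)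
  have h4 : (Y : ℝ) * (Y * ((3 * (H : ℝ)) ^ d * 3)) = (3 * (H : ℝ)) ^ (d + 1) * (Y * Y / H) := by
    field_simp
    ring
  have h5 : (0 : ℝ) ≤ (3 * (H : ℝ)) ^ (d + 1) * (Y * Y / H) * (D * D + 4) := by positivity
  linarith only [h2, h3, h4, h5]

/-- Common roots, counted when the first function has few roots. -/
noncomputable def PVCmpP_c (E : ℝ) (f g : ℤ → ℤ) (p : ℕ) : ℝ :=
  if PVCmpP_r f p ≤ E then ∑ n ∈ range p, PVCmpP_i p (f n) * PVCmpP_i p (g n) else 0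

lemma PVCmpP_c_nonneg (E : ℝ) (f g : ℤ → ℤ) (p : ℕ) : 0 ≤ PVCmpP_c E f g p := by
  unfold PVCmpP_c
  split_ifs
  · exact sum_nonneg fun _ _ => mul_nonneg (PVCmpP_i_nonneg _ _) (PVCmpP_i_nonneg _ _)
  · exact le_rfl

lemma PVCmpP_com (lam : ℝ) {d H p : ℕ} (hd : 1 ≤ d) (hp : 1 ≤ p) (hpH : p ≤ H) {E : ℝ}
    (hE : 0 ≤ E) (f : ℤ → ℤ) :
    ∑ c ∈ PX lam d H, PVCmpP_c E f (pe c) p / p ≤
      (3 * (H : ℝ)) ^ (d + 1) * (2 * E * ((p : ℝ) ^ 2)⁻¹) := by
  have p1 : (0 : ℝ) < p := by exact_mod_cast hp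
  unfold PVCmpP_c
  split_ifs with h
  · rw [← sum_div, sum_comm, div_le_iff₀ p1]
    have h1 : ∀ n ∈ range p, ∑ c ∈ PX lam d H, PVCmpP_i p (f n) * PVCmpP_i p (pe c n) ≤
        PVCmpP_i p (f n) * (2 * (3 * (H : ℝ)) ^ (d + 1) / p) := by
      intro n _
      rw [← mul_sum]
      refine mul_le_mul_of_nonneg_left ?_ (PVCmpP_i_nonneg _ _)
      have := card_dvd lam hd hp hpH n
      rw [card_filter] at this
      push_cast at this
      exact this
    refine (sum_le_sum h1).trans ?_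
    rw [← sum_mul]
    refine (mul_le_mul_of_nonneg_right h (by positivity)).trans_eq ?_
    field_simp
  · simp only [zero_div, sum_const_zero]
    positivity

open Classical in
lemma PVCmpP_bon {F₀ : Finset (ℤ × ℤ)} (hF : F₀.card ≤ 1) {k : ℕ} (A : Finset (F₀ ⊕ Fin k))
    (p : ℕ) (x : F₀ ⊕ Fin k → ℤ) :
    0 ≤ ∑ i ∈ A, PVCmpP_i p (x i) - (if ∃ i ∈ A, (p : ℤ) ∣ x i then 1 else 0) ∧
    ∑ i ∈ A, PVCmpP_i p (x i) - (if ∃ i ∈ A, (p : ℤ) ∣ x i then 1 else 0) ≤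
      (k + 1) * ∑ j : Fin k, ∑ i ∈ univ.erase (Sum.inr j),
        PVCmpP_i p (x i) * PVCmpP_i p (x (Sum.inr j)) := by
  have e : ∑ i ∈ A, PVCmpP_i p (x i) = ((A.filter fun i => (p : ℤ) ∣ x i).card : ℝ) := by
    rw [card_filter]
    push_cast
    rfl
  have t0 : ∀ (j : Fin k) (i : F₀ ⊕ Fin k), 0 ≤ PVCmpP_i p (x i) * PVCmpP_i p (x (Sum.inr j)) :=
    fun _ _ => mul_nonneg (PVCmpP_i_nonneg _ _) (PVCmpP_i_nonneg _ _)
  have s0 : ∀ j : Fin k, 0 ≤ ∑ i ∈ univ.erase (Sum.inr j),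
      PVCmpP_i p (x i) * PVCmpP_i p (x (Sum.inr j)) := fun j => sum_nonneg fun i _ => t0 j i
  have r0 := sum_nonneg fun j (_ : j ∈ univ) => s0 j
  rw [e]
  split_ifs with h
  · obtain ⟨a, a1, a2⟩ := h
    have c1 : 1 ≤ (A.filter fun i => (p : ℤ) ∣ x i).card := card_pos.2 ⟨a, mem_filter.2 ⟨a1, a2⟩⟩
    refine ⟨sub_nonneg.2 (by exact_mod_cast c1), ?_⟩
    rcases c1.eq_or_lt with c2 | c2
    · rw [← c2, Nat.cast_one, sub_self]
      positivity
    · have key : ∀ (j : Fin k) (i : F₀ ⊕ Fin k), i ≠ Sum.inr j → (p : ℤ) ∣ x i →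
          (p : ℤ) ∣ x (Sum.inr j) → 1 ≤ ∑ j : Fin k, ∑ i ∈ univ.erase (Sum.inr j),
            PVCmpP_i p (x i) * PVCmpP_i p (x (Sum.inr j)) := by
        intro j i hi d1 d2
        refine le_trans ?_ (single_le_sum (fun j _ => s0 j) (mem_univ j))
        refine le_trans ?_ (single_le_sum (fun i _ => t0 j i) (mem_erase.2 ⟨hi, mem_univ i⟩))
        simp [PVCmpP_i, d1, d2]
      have c3 : ((A.filter fun i => (p : ℤ) ∣ x i).card : ℝ) ≤ k + 1 := by
        have := card_le_univ (A.filter fun i => (p : ℤ) ∣ x i)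
        rw [Fintype.card_sum, Fintype.card_coe, Fintype.card_fin] at this
        exact_mod_cast this.trans (by omega)
      have c4 : 1 ≤ ∑ j : Fin k, ∑ i ∈ univ.erase (Sum.inr j),
          PVCmpP_i p (x i) * PVCmpP_i p (x (Sum.inr j)) := by
        obtain ⟨a, ha, b, hb, hab⟩ := one_lt_card.1 c2
        rcases b with g | j
        · rcases a with f | j
          · exact absurd (congrArg Sum.inl (Subtype.ext (card_le_one.1 hF _ f.2 _ g.2))) hab
          · exact key j _ hab.symm (mem_filter.1 hb).2 (mem_filter.1 ha).2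
        · exact key j _ hab (mem_filter.1 ha).2 (mem_filter.1 hb).2
      have : (0 : ℝ) ≤ k + 1 := by positivity
      linarith only [c3, c4, mul_nonneg_of_nonpos_of_nonpos (Mathlib.Tactic.Linarith.sub_nonpos_of_le (Mathlib.Tactic.Linarith.natCast_nonneg ℝ k)) (Mathlib.Tactic.Linarith.sub_nonpos_of_le c4)]
  · rw [filter_eq_empty_iff.2 fun i hi k => h ⟨i, hi, k⟩, card_empty, Nat.cast_zero, sub_zero]
    exact ⟨le_rfl, by positivity⟩

open Classical in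
lemma PVCmpP_om {F₀ : Finset (ℤ × ℤ)} (hF : F₀.card ≤ 1) {k : ℕ} (A : Finset (F₀ ⊕ Fin k))
    (p : ℕ) (φ : F₀ ⊕ Fin k → ℤ → ℤ) {E : ℝ} (hE : ∀ i, PVCmpP_r (φ i) p ≤ E) :
    0 ≤ ∑ i ∈ A, PVCmpP_r (φ i) p - om φ A p ∧ ∑ i ∈ A, PVCmpP_r (φ i) p - om φ A p ≤
      (k + 1) * ∑ j : Fin k, ∑ i ∈ univ.erase (Sum.inr j), PVCmpP_c E (φ i) (φ (Sum.inr j)) p := by
  have e1 : ∑ i ∈ A, PVCmpP_r (φ i) p - om φ A p = ∑ n ∈ range p,
      (∑ i ∈ A, PVCmpP_i p (φ i n) - (if ∃ i ∈ A, (p : ℤ) ∣ φ i n then 1 else 0)) := by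
    rw [sum_sub_distrib, om, card_filter, sum_comm]
    push_cast
    congr 1
  have e2 : ∑ j : Fin k, ∑ i ∈ univ.erase (Sum.inr j), PVCmpP_c E (φ i) (φ (Sum.inr j)) p =
      ∑ n ∈ range p, ∑ j : Fin k, ∑ i ∈ univ.erase (Sum.inr j),
        PVCmpP_i p (φ i n) * PVCmpP_i p (φ (Sum.inr j) n) := by
    rw [sum_comm]
    refine sum_congr rfl fun j _ => ?_
    rw [sum_comm]
    exact sum_congr rfl fun i _ => if_pos (hE i)
  rw [e1, e2, mul_sum]
  exact ⟨sum_nonneg fun n _ => (PVCmpP_bon hF A p fun i => φ i n).1,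
    sum_le_sum fun n _ => (PVCmpP_bon hF A p fun i => φ i n).2⟩

open Classical in
lemma PVCmpP_pt {k D : ℕ} {d : Fin k → ℕ} (hd : ∀ i, d i ≤ D) {F₀ : Finset (ℤ × ℤ)}
    (h₀ : Prim F₀) (hF : F₀.card ≤ 1) {w Y : ℕ} (z : F₀ ⊕ Fin k → ℝ) (hw : ∀ f ∈ F₀, f.1 ≤ w)
    (v : (i : Fin k) → Fin (d i + 1) → ℤ)
    (h : ∑ j, ∑ p ∈ (Ioc w Y).filter Nat.Prime,
      PVCmpP_i p (pe (v j) 0) * PVCmpP_i p (pe (v j) 1) < 1) :
    Bd (Sys F₀ v) z w Y ((k + 1) * (D + 1)) ∧ |Rs (Sys F₀ v) z w Y| ≤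
      |∑ j, ∑ p ∈ ((Ioc w Y).filter Nat.Prime).filter fun p : ℕ => (p : ℝ) ≤ z (Sum.inr j),
        (PVCmpP_r (pe (v j)) p - 1) / p| +
      (k + 1) * ∑ j : Fin k, ∑ i ∈ univ.erase (Sum.inr j), ∑ p ∈ (Ioc w Y).filter Nat.Prime,
        PVCmpP_c (D + 1) (Sys F₀ v i) (pe (v j)) p / p := by
  have t0 : ∀ j (p : ℕ), 0 ≤ PVCmpP_i p (pe (v j) 0) * PVCmpP_i p (pe (v j) 1) :=
    fun _ _ => mul_nonneg (PVCmpP_i_nonneg _ _) (PVCmpP_i_nonneg _ _)
  have h1 : ∀ p ∈ (Ioc w Y).filter Nat.Prime, ∀ f : F₀, PVCmpP_r (Sys F₀ v (Sum.inl f)) p = 1 := by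
    intro p hp f
    obtain ⟨p1, p2⟩ := mem_filter.1 hp
    rw [PVCmpP_r_eq]
    have f1 := (h₀ f f.2).1
    have f2 := hw f f.2
    have f3 := (mem_Ioc.1 p1).1
    exact_mod_cast TB_root p2 (b := f.1.2) fun k => by
      have := Int.le_of_dvd (by omega) k
      omega
  have h2 : ∀ p ∈ (Ioc w Y).filter Nat.Prime, ∀ i, PVCmpP_r (Sys F₀ v i) p ≤ D + 1 := by
    intro p hp i
    rcases i with f | j
    · rw [h1 p hp f]
      exact le_add_of_nonneg_left (Nat.cast_nonneg _)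
    · refine (PVCmpP_r_small (hd j) (mem_filter.1 hp).2 (v j) (lt_of_le_of_lt ?_ h)).trans
        (le_add_of_nonneg_right zero_le_one)
      exact (single_le_sum (fun p _ => t0 j p) hp).trans
        (single_le_sum (fun j _ => sum_nonneg fun p _ => t0 j p) (mem_univ j))
  constructor
  · intro p p1 p2 p3
    have hp : p ∈ (Ioc w Y).filter Nat.Prime := mem_filter.2 ⟨mem_Ioc.2 ⟨p2, p3⟩, p1⟩
    have a1 := (PVCmpP_om hF (act z p) p (Sys F₀ v) (h2 p hp)).1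
    have a2 := sum_le_card_nsmul (act z p) _ _ fun i _ => h2 p hp i
    have a3 : ((act z p).card : ℝ) ≤ k + 1 := by
      have := card_le_univ (act z p)
      rw [Fintype.card_sum, Fintype.card_coe, Fintype.card_fin] at this
      exact_mod_cast this.trans (by omega)
    rw [nsmul_eq_mul] at a2
    have a4 : (om (Sys F₀ v) (act z p) p : ℝ) ≤ (k + 1) * (D + 1) := by
      have := mul_le_mul_of_nonneg_right a3 (show (0 : ℝ) ≤ D + 1 by positivity)
      linarith only [a1, a2, this]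
    exact_mod_cast a4
  · have e1 : ∑ j, ∑ p ∈ ((Ioc w Y).filter Nat.Prime).filter fun p : ℕ => (p : ℝ) ≤ z (Sum.inr j),
        (PVCmpP_r (pe (v j)) p - 1) / p = ∑ p ∈ (Ioc w Y).filter Nat.Prime,
          (∑ i ∈ act z p, PVCmpP_r (Sys F₀ v i) p - (act z p).card) / p := by
      simp only [sum_filter (s := (Ioc w Y).filter Nat.Prime)]
      rw [sum_comm]
      refine sum_congr rfl fun p hp => ?_
      rw [← mul_one ((act z p).card : ℝ), ← nsmul_eq_mul, ← sum_const, ← sum_sub_distrib, act,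
        sum_filter, Fintype.sum_sum_type, sum_eq_zero (s := (univ : Finset F₀)) fun f _ => by
          rw [h1 p hp f, sub_self, ite_self], zero_add, sum_div]
      refine sum_congr rfl fun j _ => ?_
      rw [ite_div, zero_div]
      rfl
    have e2 : ∑ j : Fin k, ∑ i ∈ univ.erase (Sum.inr j), ∑ p ∈ (Ioc w Y).filter Nat.Prime,
        PVCmpP_c (D + 1) (Sys F₀ v i) (pe (v j)) p / p = ∑ p ∈ (Ioc w Y).filter Nat.Prime,
          (∑ j : Fin k, ∑ i ∈ univ.erase (Sum.inr j),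
            PVCmpP_c (D + 1) (Sys F₀ v i) (Sys F₀ v (Sum.inr j)) p) / p := by
      simp only [sum_div]
      rw [sum_comm (s := (Ioc w Y).filter Nat.Prime)]
      refine sum_congr rfl fun j _ => ?_
      rw [sum_comm]
      rfl
    have e3 : Rs (Sys F₀ v) z w Y = ∑ p ∈ (Ioc w Y).filter Nat.Prime,
        (∑ i ∈ act z p, PVCmpP_r (Sys F₀ v i) p - (act z p).card) / p -
        ∑ p ∈ (Ioc w Y).filter Nat.Prime,
          (∑ i ∈ act z p, PVCmpP_r (Sys F₀ v i) p - om (Sys F₀ v) (act z p) p) / p := by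
      rw [← sum_sub_distrib, Rs]
      refine sum_congr rfl fun p _ => ?_
      ring
    rw [e1, e2, e3, mul_sum]
    refine (abs_sub _ _).trans (add_le_add le_rfl ?_)
    rw [abs_of_nonneg (sum_nonneg fun p hp => div_nonneg
      (PVCmpP_om hF (act z p) p (Sys F₀ v) (h2 p hp)).1 (Nat.cast_nonneg _))]
    refine sum_le_sum fun p hp => ?_
    rw [← mul_div_assoc]
    exact div_le_div_of_nonneg_right (PVCmpP_om hF (act z p) p (Sys F₀ v) (h2 p hp)).2
      (Nat.cast_nonneg _)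

open Classical in
theorem cmp_prob (k D : ℕ) : ∃ C : ℝ, 0 ≤ C ∧ ∀ d : Fin k → ℕ, (∀ i, 1 ≤ d i ∧ d i ≤ D) →
    ∀ F₀ : Finset (ℤ × ℤ), Prim F₀ → F₀.card ≤ 1 → ∀ (H : Fin k → ℕ) (h w Y : ℕ) (lam t : ℝ)
    (z : F₀ ⊕ Fin k → ℝ), 1 ≤ w → (∀ f ∈ F₀, f.1 ≤ w) → 1 ≤ h → (∀ i, h ≤ H i) → Y ≤ h → 0 < t →
      (((Tp d lam H).filter fun v => ¬ (Bd (Sys F₀ v) z w Y ((k + 1) * (D + 1)) ∧
          |Rs (Sys F₀ v) z w Y| ≤ t)).card : ℝ)
        ≤ C * Wt d H * (1 / w + (Y : ℝ) ^ 2 / h) * (1 + 1 / t ^ 2) := by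
  refine ⟨4 * k + 2 * (k + 1) * (k * (k + 1) * (2 * (D + 1))) + 4 * k * (k * (D ^ 2 + 5)),
    by positivity, fun d hd F₀ h₀ hF H h w Y lam t z hw hf hh hh' hY ht => ?_⟩
  have hH : ∀ i, 1 ≤ H i := fun i => hh.trans (hh' i)
  obtain ⟨P, hP⟩ : ∃ P, P = (Ioc w Y).filter Nat.Prime := ⟨_, rfl⟩
  have hP1 : P ⊆ Ioc w Y := hP ▸ filter_subset _ _
  have hP2 : ∀ p ∈ P, p.Prime ∧ ∀ i, p ≤ H i := fun p hp =>
    ⟨(mem_filter.1 (hP ▸ hp)).2, fun i => (mem_Ioc.1 (hP1 hp)).2.trans (hY.trans (hh' i))⟩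
  let A : ((i : Fin k) → Fin (d i + 1) → ℤ) → ℝ := fun v =>
    ∑ j, ∑ p ∈ P, PVCmpP_i p (pe (v j) 0) * PVCmpP_i p (pe (v j) 1)
  let B : ((i : Fin k) → Fin (d i + 1) → ℤ) → ℝ := fun v =>
    ∑ j : Fin k, ∑ i ∈ univ.erase (Sum.inr j), ∑ p ∈ P,
      PVCmpP_c (D + 1) (Sys F₀ v i) (pe (v j)) p / p
  let S : Fin k → ((i : Fin k) → Fin (d i + 1) → ℤ) → ℝ := fun j v =>
    ∑ p ∈ P.filter fun p : ℕ => (p : ℝ) ≤ z (Sum.inr j), (PVCmpP_r (pe (v j)) p - 1) / p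
  have hW := Wt_nonneg d H
  have hA : ∑ v ∈ Tp d lam H, A v ≤ k * (Wt d H * (4 * (1 / w))) := by
    rw [sum_comm]
    refine le_of_le_of_eq (sum_le_card_nsmul _ _ _ fun j _ => ?_) (by
      rw [card_univ, Fintype.card_fin, nsmul_eq_mul])
    refine sum_Tp_le d lam hH j _ (by positivity) fun v _ => ?_
    simp only [Function.update_self]
    rw [sum_comm]
    refine (sum_le_sum fun p hp =>
      PVCmpP_two lam (hd j).1 (hP2 p hp).1.pos ((hP2 p hp).2 j)).trans ?_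
    simp only [div_eq_mul_inv (4 * (3 * (H j : ℝ)) ^ (d j + 1))]
    rw [← mul_sum]
    exact (mul_le_mul_of_nonneg_left (PVCmpP_inv hw hP1) (by positivity)).trans_eq (by ring)
  have hB : ∑ v ∈ Tp d lam H, B v ≤ k * ((k + 1) * (Wt d H * (2 * (D + 1) * (1 / w)))) := by
    rw [sum_comm]
    refine le_of_le_of_eq (sum_le_card_nsmul _ _ _ fun j _ => ?_) (by
      rw [card_univ, Fintype.card_fin, nsmul_eq_mul])
    rw [sum_comm]
    refine (sum_le_card_nsmul _ _ (Wt d H * (2 * (D + 1) * (1 / w))) fun i hi => ?_).trans ?_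
    · refine sum_Tp_le d lam hH j _ (by positivity) fun v _ => ?_
      have e : ∀ f, Sys F₀ (Function.update v j f) i = Sys F₀ v i := by
        intro f
        rcases i with g | l
        · rfl
        · have : l ≠ j := fun k => ne_of_mem_erase hi (by rw [k])
          simp only [Sys, Sum.elim_inr, Function.update_of_ne this]
      simp only [Function.update_self, e]
      rw [sum_comm]
      refine (sum_le_sum fun p hp => PVCmpP_com lam (hd j).1 (hP2 p hp).1.pos ((hP2 p hp).2 j)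
        (by positivity) _).trans ?_
      rw [← mul_sum, ← mul_sum]
      exact mul_le_mul_of_nonneg_left
        (mul_le_mul_of_nonneg_left (PVCmpP_inv hw hP1) (by positivity)) (by positivity)
    · rw [nsmul_eq_mul]
      refine mul_le_mul_of_nonneg_right ?_ (by positivity)
      have := card_le_univ ((univ : Finset (F₀ ⊕ Fin k)).erase (Sum.inr j))
      rw [Fintype.card_sum, Fintype.card_coe, Fintype.card_fin] at this
      exact_mod_cast this.trans (by omega)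
  have hS : ∑ v ∈ Tp d lam H, ∑ j, S j v ^ 2 ≤
      k * (Wt d H * ((D ^ 2 + 5) * (1 / w + (Y : ℝ) ^ 2 / h))) := by
    rw [sum_comm]
    refine le_of_le_of_eq (sum_le_card_nsmul _ _ _ fun j _ => ?_) (by
      rw [card_univ, Fintype.card_fin, nsmul_eq_mul])
    refine sum_Tp_le d lam hH j _ (by positivity) fun v _ => ?_
    simp only [S, Function.update_self]
    refine (PVCmpP_mom lam (hd j).1 (hd j).2 hw (hH j) (hY.trans (hh' j))
      (hP ▸ filter_subset _ _)).trans ?_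
    have h0 : (0 : ℝ) < h := by exact_mod_cast hh
    gcongr
    exact hh' j
  have key : ∀ v ∈ Tp d lam H, (if ¬ (Bd (Sys F₀ v) z w Y ((k + 1) * (D + 1)) ∧
      |Rs (Sys F₀ v) z w Y| ≤ t) then (1 : ℝ) else 0) ≤
      A v + 2 * (k + 1) / t * B v + 4 * k / t ^ 2 * ∑ j, S j v ^ 2 := by
    intro v _
    have A0 : 0 ≤ A v := sum_nonneg fun _ _ => sum_nonneg fun _ _ =>
      mul_nonneg (PVCmpP_i_nonneg _ _) (PVCmpP_i_nonneg _ _)
    have B0 : 0 ≤ 2 * (k + 1) / t * B v := mul_nonneg (by positivity)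
      (sum_nonneg fun _ _ => sum_nonneg fun _ _ => sum_nonneg fun _ _ =>
        div_nonneg (PVCmpP_c_nonneg _ _ _ _) (Nat.cast_nonneg _))
    have S0 : 0 ≤ 4 * k / t ^ 2 * ∑ j, S j v ^ 2 := by positivity
    split_ifs with hn
    · linarith only [A0, B0, S0]
    · by_contra hc
      obtain ⟨k1, k2⟩ := PVCmpP_pt (fun i => (hd i).2) h₀ hF (Y := Y) z hf v (by
        rw [← hP]
        change A v < 1
        linarith only [B0, S0, hc])
      rw [← hP] at k2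
      change _ ≤ |∑ j, S j v| + (k + 1) * B v at k2
      refine hn ⟨k1, k2.trans ?_⟩
      have b1 : 2 * (k + 1) / t * B v ≤ 1 := by linarith only [A0, S0, hc]
      have b2 : 4 * k / t ^ 2 * ∑ j, S j v ^ 2 ≤ 1 := by linarith only [A0, B0, hc]
      rw [div_mul_eq_mul_div, div_le_one (by positivity)] at b1 b2
      have b3 := sq_sum_le_card_mul_sum_sq (s := univ) (f := fun j => S j v)
      rw [card_univ, Fintype.card_fin] at b3
      have b4 : |∑ j, S j v| ≤ t / 2 := abs_le_of_sq_le_sq (by linarith only [b2, b3]) (by positivity)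
      linarith only [b1, b4]
  rw [card_filter]
  push_cast
  refine (sum_le_sum key).trans ?_
  rw [sum_add_distrib, sum_add_distrib, ← mul_sum, ← mul_sum]
  have y0 : (0 : ℝ) ≤ (Y : ℝ) ^ 2 / h := by positivity
  have w0 : (0 : ℝ) ≤ 1 / w := by positivity
  have u0 : 0 ≤ 1 / t ^ 2 := by positivity
  have u1 : 1 / t ≤ 1 + 1 / t ^ 2 := by
    rw [← one_div_pow]
    linarith only [sq_nonneg (1 / t - 1), sq_nonneg (1 / t), sq_nonneg ((1 : ℝ) * ((1 : ℝ) / t)), sq_nonneg ((1 : ℝ) * ((1 : ℝ) / t) - (1 : ℝ) * (1 : ℝ))]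
  generalize (Y : ℝ) ^ 2 / h = y at *
  generalize (1 : ℝ) / w = x at *
  have c1 : k * (Wt d H * (4 * x)) ≤ 4 * k * Wt d H * (x + y) * (1 + 1 / t ^ 2) := by
    calc _ = 4 * k * Wt d H * x * 1 := by ring
      _ ≤ _ := by gcongr <;> linarith only [y0, u0]
  have c2 : 2 * (k + 1) / t * (k * ((k + 1) * (Wt d H * (2 * (D + 1) * x)))) ≤
      2 * (k + 1) * (k * (k + 1) * (2 * (D + 1))) * Wt d H * (x + y) * (1 + 1 / t ^ 2) := by
    calc _ = 2 * (k + 1) * (k * (k + 1) * (2 * (D + 1))) * Wt d H * x * (1 / t) := by ring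
      _ ≤ _ := by gcongr; linarith only [y0]
  have c3 : 4 * k / t ^ 2 * (k * (Wt d H * ((D ^ 2 + 5) * (x + y)))) ≤
      4 * k * (k * (D ^ 2 + 5)) * Wt d H * (x + y) * (1 + 1 / t ^ 2) := by
    calc _ = 4 * k * (k * (D ^ 2 + 5)) * Wt d H * (x + y) * (1 / t ^ 2) := by ring
      _ ≤ _ := by gcongr; linarith only []
  have c4 := mul_le_mul_of_nonneg_left hB (show (0 : ℝ) ≤ 2 * (k + 1) / t by positivity)
  have c5 := mul_le_mul_of_nonneg_left hS (show (0 : ℝ) ≤ 4 * k / t ^ 2 by positivity)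
  linarith only [hA, c1, c2, c3, c4, c5]

end Pool.Agent.Work.MP_51e72e_nt.PV
end

-- merged part: Pool.Agent.Work.MP_51e72e_nt.PV.Tail
section
/-! The tail of the product for linear forms. -/

set_option autoImplicit false
open Finset Filter MeasureTheory Pool.Agent.Lib.MR Pool.Agent.Lib.LargeSieve
open Pool.Agent.Work.MP_678620_nt Pool.Agent.Work.MP_51e72e_nt.AV

namespace Pool.Agent.Work.MP_51e72e_nt.PV

/-- The product of the leading coefficients and of the determinants. -/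
def PVTail_D {ι : Type} [Fintype ι] (a b : ι → ℤ) : ℕ :=
  (∏ i, (a i).natAbs) * ∏ x ∈ (univ : Finset ι).offDiag, (a x.1 * b x.2 - a x.2 * b x.1).natAbs

lemma PVTail_om {ι : Type} [Fintype ι] {φ : ι → ℤ → ℤ} {a b : ι → ℤ}
    (hφ : ∀ i y, φ i y = a i * y + b i) (p : ℕ) : om φ univ p =
    (univ.biUnion fun i => (range p).filter fun n : ℕ => (p : ℤ) ∣ a i * n + b i).card := by
  rw [om]
  congr 1
  ext n
  simp only [mem_filter, mem_biUnion, hφ]
  exact ⟨fun ⟨h1, f, h2, h3⟩ => ⟨f, h2, h1, h3⟩, fun ⟨f, h2, h1, h3⟩ => ⟨h1, f, h2, h3⟩⟩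

lemma PVTail_om_le {ι : Type} [Fintype ι] {φ : ι → ℤ → ℤ} {a b : ι → ℤ}
    (hφ : ∀ i y, φ i y = a i * y + b i) {p : ℕ} (hp : p.Prime)
    (h : ∀ i, (p : ℤ) ∣ a i → ¬ (p : ℤ) ∣ b i) : om φ univ p ≤ Fintype.card ι := by
  rw [PVTail_om hφ]
  refine (card_biUnion_le_card_mul univ _ 1 fun i _ => ?_).trans (by simp)
  by_cases e : (p : ℤ) ∣ a i
  · rw [filter_eq_empty_iff.2 fun n _ k => h i e ((dvd_add_right (e.mul_right _)).1 k)]
    simp
  · exact (TB_root hp e).le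

lemma PVTail_om_eq {ι : Type} [Fintype ι] {φ : ι → ℤ → ℤ} {a b : ι → ℤ}
    (hφ : ∀ i y, φ i y = a i * y + b i) {p : ℕ} (hp : p.Prime) (hd : ¬ p ∣ PVTail_D a b) :
    om φ univ p = Fintype.card ι := by
  rw [PVTail_om hφ, card_biUnion, ← card_univ, card_eq_sum_ones univ]
  · exact sum_congr rfl fun i hi => TB_root hp fun k =>
      hd (((Int.natCast_dvd.1 k).trans
        (dvd_prod_of_mem (fun i => (a i).natAbs) hi)).mul_right _)
  · intro f hf g hg hne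
    refine disjoint_filter.2 fun n _ h1 h2 => hd (Dvd.dvd.mul_left ?_ _)
    have hx : (f, g) ∈ (univ : Finset ι).offDiag := mem_offDiag.2 ⟨hf, hg, hne⟩
    refine (Int.natCast_dvd.1 ?_).trans (dvd_prod_of_mem _ hx)
    have := (h2.mul_left (a f)).sub (h1.mul_left (a g))
    rwa [show a f * (a g * n + b g) - a g * (a f * n + b f) = a f * b g - a g * b f by ring] at this

lemma PVTail_omega {ι : Type} [Fintype ι] {a b : ι → ℤ} {m B : ℕ} (hm : Fintype.card ι ≤ m)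
    (hB : 2 ≤ B) (ha : ∀ i, |a i| ≤ B) (hb : ∀ i, |b i| ≤ B) (h0 : PVTail_D a b ≠ 0) :
    ((PVTail_D a b).primeFactors.card : ℝ) ≤ 2 * (m + 3 * m ^ 2) * Real.log B := by
  have a1 : 2 ^ (PVTail_D a b).primeFactors.card ≤ PVTail_D a b :=
    (pow_card_le_prod _ (fun p => p) 2 fun p hp => (Nat.prime_of_mem_primeFactors hp).two_le).trans
      (Nat.le_of_dvd (Nat.pos_of_ne_zero h0) (Nat.prod_primeFactors_dvd _))
  have b1 : PVTail_D a b ≤ B ^ (m + 3 * m ^ 2) := by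
    rw [pow_add, pow_mul]
    refine Nat.mul_le_mul ((prod_le_pow_card _ _ B fun f _ => ?_).trans
      (Nat.pow_le_pow_right (by omega) hm)) ((prod_le_pow_card _ _ (B ^ 3) fun x _ => ?_).trans
      (Nat.pow_le_pow_right (by positivity) ?_))
    · have := ha f
      zify
      exact this
    · have key : ∀ f g, |a f * b g| ≤ (B : ℤ) * B := fun f g => by
        rw [abs_mul]
        exact mul_le_mul (ha f) (hb g) (abs_nonneg _) (Nat.cast_nonneg _)
      have c := abs_sub (a x.1 * b x.2) (a x.2 * b x.1)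
      have n2 : (2 : ℤ) ≤ B := by exact_mod_cast hB
      zify
      linarith only [c, key, n2, key x.1 x.2, key x.2 x.1, mul_nonneg (sub_nonneg.2 n2) (mul_self_nonneg (B : ℤ)), mul_self_nonneg ↑B]
    · rw [offDiag_card, sq]
      exact (Nat.sub_le _ _).trans (Nat.mul_le_mul hm hm)
  have c : (2 : ℝ) ^ (PVTail_D a b).primeFactors.card ≤ (B : ℝ) ^ (m + 3 * m ^ 2) := by
    exact_mod_cast a1.trans b1
  have d := Real.log_le_log (by positivity) c
  rw [Real.log_pow, Real.log_pow] at d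
  push_cast at d
  linarith only [d, Real.log_two_gt_d9, Nat.cast_nonneg (α := ℝ) (PVTail_D a b).primeFactors.card, mul_nonneg_of_nonpos_of_nonpos (Mathlib.Tactic.Linarith.sub_nonpos_of_le (Mathlib.Tactic.Linarith.natCast_nonneg ℝ #(PVTail_D a b).primeFactors)) (le_of_lt (Mathlib.Tactic.Linarith.sub_neg_of_lt Real.log_two_gt_d9))]

lemma PVTail_act {ι : Type} [Fintype ι] {p y : ℕ} (h : p ≤ y) :
    act (fun _ : ι => (y : ℝ)) p = univ :=
  filter_true_of_mem fun _ _ => Nat.cast_le.2 h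

lemma PVTail_det {ι : Type} [Fintype ι] {φ : ι → ℤ → ℤ} {a b : ι → ℤ}
    (hφ : ∀ i y, φ i y = a i * y + b i) {m w Y y : ℕ} (hm : Fintype.card ι ≤ m) (hw : 1 ≤ w)
    (hY : w ≤ Y) (h0 : PVTail_D a b ≠ 0)
    (h : ∀ i (p : ℕ), p.Prime → w < p → (p : ℤ) ∣ a i → ¬ (p : ℤ) ∣ b i) :
    Bd φ (fun _ => (y : ℝ)) Y y m ∧
      |Rs φ (fun _ => (y : ℝ)) Y y| ≤ m * (PVTail_D a b).primeFactors.card / Y := by
  have h1 : ∀ p : ℕ, p.Prime → Y < p → om φ univ p ≤ Fintype.card ι := fun p hp k =>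
    PVTail_om_le hφ hp fun i => h i p hp (hY.trans_lt k)
  have Y0 : (0 : ℝ) < Y := by exact_mod_cast hw.trans hY
  refine ⟨fun p hp k1 k2 => by rw [PVTail_act k2]; exact (h1 p hp k1).trans hm, ?_⟩
  have h2 : ∀ p ∈ (Ioc Y y).filter Nat.Prime,
      |((om φ (act (fun _ => (y : ℝ)) p) p : ℝ) - (act (fun _ : ι => (y : ℝ)) p).card) / p| ≤
        if p ∣ PVTail_D a b then (m : ℝ) / Y else 0 := by
    intro p hp
    obtain ⟨k, hp⟩ := mem_filter.1 hp
    obtain ⟨k1, k2⟩ := mem_Ioc.1 k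
    rw [PVTail_act k2, card_univ]
    split_ifs with e
    · have c1 : (om φ univ p : ℝ) ≤ Fintype.card ι := by exact_mod_cast h1 p hp k1
      have c2 : (Fintype.card ι : ℝ) ≤ m := by exact_mod_cast hm
      have c3 : (0 : ℝ) ≤ om φ univ p := Nat.cast_nonneg _
      rw [abs_div, Nat.abs_cast]
      exact div_le_div₀ (Nat.cast_nonneg _) (abs_le.2 ⟨by linarith only [c2], by linarith only [c1]⟩) Y0
        (by exact_mod_cast k1.le)
    · rw [PVTail_om_eq hφ hp e, sub_self, zero_div, abs_zero]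
  refine ((abs_sum_le_sum_abs _ _).trans (sum_le_sum h2)).trans ?_
  rw [← sum_filter, sum_const, nsmul_eq_mul, mul_comm, mul_div_right_comm]
  refine mul_le_mul_of_nonneg_left (Nat.cast_le.2 (card_le_card fun p hp => ?_)) (by positivity)
  exact Nat.mem_primeFactors.2 ⟨(mem_filter.1 (mem_filter.1 hp).1).2, (mem_filter.1 hp).2, h0⟩

lemma PVTail_pe {d : ℕ} (hd : d = 1) (c : Fin (d + 1) → ℤ) (y : ℤ) :
    pe c y = c (Fin.last d) * y + c 0 := by
  subst hd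
  rw [pe, Fin.sum_univ_castSucc, add_comm]
  simp

lemma PVTail_gcd1 (lam : ℝ) {d H p : ℕ} (hd : d = 1) (hp : 1 ≤ p) (hH : p ≤ H) :
    (((PX lam d H).filter fun c => (p : ℤ) ∣ c (Fin.last d) ∧ (p : ℤ) ∣ c 0).card : ℝ)
      ≤ 36 * (H : ℝ) ^ 2 * ((p : ℝ) ^ 2)⁻¹ := by
  subst hd
  have h1 := Fix_line hp hH 0
  have h2 : ((PX lam 1 H).filter fun c => (p : ℤ) ∣ c (Fin.last 1) ∧ (p : ℤ) ∣ c 0).card ≤
      (((Icc (-(H : ℤ)) H).filter fun b : ℤ => (p : ℤ) ∣ 0 + b) ×ˢ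
        ((Icc (-(H : ℤ)) H).filter fun b : ℤ => (p : ℤ) ∣ 0 + b)).card := by
    refine card_le_card_of_injOn (fun c => (c (Fin.last 1), c 0)) (fun c hc => ?_)
      fun c _ c' _ e => ?_
    · obtain ⟨k1, k2, k3⟩ := mem_filter.1 (mem_coe.1 hc)
      have k4 := (mem_PX k1).1
      exact mem_coe.2 (mem_product.2 ⟨mem_filter.2 ⟨mem_Icc.2 (abs_le.1 (k4 _)), by simpa using k2⟩,
        mem_filter.2 ⟨mem_Icc.2 (abs_le.1 (k4 _)), by simpa using k3⟩⟩)
    · funext j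
      refine Fin.lastCases (congrArg Prod.fst e) (fun j => ?_) j
      rw [Subsingleton.elim j 0]
      exact congrArg Prod.snd e
  rw [card_product] at h2
  refine le_trans (by exact_mod_cast h2) ((mul_le_mul h1 h1 (Nat.cast_nonneg _)
    (by positivity)).trans_eq ?_)
  ring

open Classical in
lemma PVTail_gcd2 (lam : ℝ) {d H w : ℕ} (hd : d = 1) (hw : 1 ≤ w) :
    (((PX lam d H).filter fun c => ∃ p : ℕ, w < p ∧ (p : ℤ) ∣ c (Fin.last d) ∧ (p : ℤ) ∣ c 0).card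
      : ℝ) ≤ (3 * (H : ℝ)) ^ (d + 1) * (4 / w) := by
  have h1 : ((PX lam d H).filter fun c =>
      ∃ p : ℕ, w < p ∧ (p : ℤ) ∣ c (Fin.last d) ∧ (p : ℤ) ∣ c 0) ⊆ (Ioc w H).biUnion fun p =>
        (PX lam d H).filter fun c => (p : ℤ) ∣ c (Fin.last d) ∧ (p : ℤ) ∣ c 0 := by
    intro c hc
    obtain ⟨k1, p, k2, k3⟩ := mem_filter.1 hc
    obtain ⟨k4, k5, -⟩ := mem_PX k1
    have k6 := (Int.le_of_dvd (by omega) k3.1).trans ((le_abs_self _).trans (k4 _))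
    exact mem_biUnion.2 ⟨p, mem_Ioc.2 ⟨k2, by exact_mod_cast k6⟩, mem_filter.2 ⟨k1, k3⟩⟩
  have h2 := (card_le_card h1).trans card_biUnion_le
  have h3 : ∑ p ∈ Ioc w H, ((p : ℝ) ^ 2)⁻¹ ≤ (w : ℝ)⁻¹ := by
    rcases le_total w H with e | e
    · exact (sum_Ioc_inv_sq_le_sub (by omega) e).trans (sub_le_self _ (by positivity))
    · rw [Ioc_eq_empty_of_le e, sum_empty]
      positivity
  refine le_trans (by exact_mod_cast h2) ((sum_le_sum fun p hp => PVTail_gcd1 lam hd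
    (hw.trans (mem_Ioc.1 hp).1.le) (mem_Ioc.1 hp).2).trans ?_)
  rw [← mul_sum]
  refine (mul_le_mul_of_nonneg_left h3 (by positivity)).trans_eq ?_
  rw [hd]
  ring

lemma PVTail_lin (lam : ℝ) {d H : ℕ} (hd : d = 1) (hH : 1 ≤ H) {A : ℤ} (hA : A ≠ 0) (B : ℤ) :
    (((PX lam d H).filter fun c => A * c 0 - c (Fin.last d) * B = 0).card : ℝ)
      ≤ (3 * (H : ℝ)) ^ (d + 1) * (1 / H) := by
  have H0 : (0 : ℝ) < H := by exact_mod_cast hH
  have hne : Fin.last d ≠ 0 := fun e => by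
    have := congrArg Fin.val e
    rw [Fin.val_last, Fin.val_zero] at this
    omega
  rw [card_filter]
  push_cast
  refine (sum_PX_le lam hH 0 _ (M := 1) zero_le_one fun c _ => ?_).trans ?_
  · simp only [Function.update_self, Function.update_of_ne hne]
    rw [sum_boole]
    refine Nat.cast_le_one.2 (card_le_one.2 fun x hx z hz => mul_left_cancel₀ hA ?_)
    linarith only [hx, hz, (mem_filter.1 hx).2, (mem_filter.1 hz).2]
  · rw [pow_succ, mul_assoc, mul_assoc, mul_one_div_cancel H0.ne']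
    exact mul_le_mul_of_nonneg_left (by norm_num) (by positivity)

lemma PVTail_lift {k : ℕ} (d : Fin k → ℕ) (lam : ℝ) {H : Fin k → ℕ} (hH : ∀ i, 1 ≤ H i) (i : Fin k)
    (P : ((i : Fin k) → Fin (d i + 1) → ℤ) → Prop) [DecidablePred P] {M : ℝ} (hM : 0 ≤ M)
    (h : ∀ v ∈ Tp d lam H,
      (((PX lam (d i) (H i)).filter fun f => P (Function.update v i f)).card : ℝ)
      ≤ (3 * (H i : ℝ)) ^ (d i + 1) * M) : (((Tp d lam H).filter P).card : ℝ) ≤ Wt d H * M := by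
  rw [← sum_boole]
  refine sum_Tp_le d lam hH i (fun v => if P v then 1 else 0) hM fun v hv => ?_
  rw [sum_boole]
  exact h v hv

/-- Leading coefficients. -/
def PVTail_a (F₀ : Finset (ℤ × ℤ)) {k : ℕ} {d : Fin k → ℕ}
    (v : (i : Fin k) → Fin (d i + 1) → ℤ) : F₀ ⊕ Fin k → ℤ :=
  Sum.elim (fun f => f.1.1) fun i => v i (Fin.last (d i))

/-- Constant coefficients. -/
def PVTail_b (F₀ : Finset (ℤ × ℤ)) {k : ℕ} {d : Fin k → ℕ}
    (v : (i : Fin k) → Fin (d i + 1) → ℤ) : F₀ ⊕ Fin k → ℤ :=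
  Sum.elim (fun f => f.1.2) fun i => v i 0

lemma PVTail_a_pos {F₀ : Finset (ℤ × ℤ)} (h₀ : Prim F₀) {k : ℕ} {d H : Fin k → ℕ} {lam : ℝ}
    {v : (i : Fin k) → Fin (d i + 1) → ℤ} (hv : v ∈ Tp d lam H) (x : F₀ ⊕ Fin k) :
    1 ≤ PVTail_a F₀ v x := by
  rcases x with f | i
  · exact (h₀ f f.2).1
  · exact (mem_PX (Fintype.mem_piFinset.1 hv i)).2.1

lemma PVTail_pair {F₀ : Finset (ℤ × ℤ)} (h₀ : Prim F₀) {k h : ℕ} {d H : Fin k → ℕ}
    (hd : ∀ i, d i = 1) (lam : ℝ) (hh : 1 ≤ h) (hH : ∀ i, h ≤ H i) (x : F₀ ⊕ Fin k) (j : Fin k) :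
    (((Tp d lam H).filter fun v => x ≠ Sum.inr j ∧
      PVTail_a F₀ v x * v j 0 - v j (Fin.last (d j)) * PVTail_b F₀ v x = 0).card : ℝ)
      ≤ Wt d H * (1 / h) := by
  refine PVTail_lift d lam (fun i => hh.trans (hH i)) j _ (by positivity) fun v hv => le_trans
    (Nat.cast_le.2 (card_le_card fun f hf => ?_))
    ((PVTail_lin lam (hd j) (hh.trans (hH j)) (A := PVTail_a F₀ v x)
      (by linarith only [h₀, hv, PVTail_a_pos h₀ hv x] : 0 < PVTail_a F₀ v x).ne' (PVTail_b F₀ v x)).trans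
      (mul_le_mul_of_nonneg_left (one_div_le_one_div_of_le (by exact_mod_cast hh)
        (by exact_mod_cast hH j)) (by positivity)))
  obtain ⟨k1, k2, k3⟩ := mem_filter.1 hf
  refine mem_filter.2 ⟨k1, ?_⟩
  rw [Function.update_self] at k3
  rcases x with g | i
  · exact k3
  · have e : i ≠ j := fun e => k2 (congrArg _ e)
    simpa only [PVTail_a, PVTail_b, Sum.elim_inr, Function.update_of_ne e] using k3

open Classical in
theorem tail_lin (k K : ℕ) : ∃ C : ℝ, 0 ≤ C ∧ ∀ d : Fin k → ℕ, (∀ i, d i = 1) →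
    ∀ F₀ : Finset (ℤ × ℤ), Prim F₀ → F₀.card ≤ 1 → ∀ (N h w : ℕ) (H : Fin k → ℕ) (lam : ℝ), 2 ≤ N →
    1 ≤ h → (∀ i, h ≤ H i ∧ H i ≤ N ^ K) → (∀ f ∈ F₀, f.1 ≤ N ∧ |f.2| ≤ N) → 1 ≤ w →
      (((Tp d lam H).filter fun v => ¬ ∀ Y y : ℕ, w ≤ Y → Y ≤ y →
          Bd (Sys F₀ v) (fun _ => (y : ℝ)) Y y (k + 1) ∧
          |Rs (Sys F₀ v) (fun _ => (y : ℝ)) Y y| ≤ C * Real.log N / Y).card : ℝ)
        ≤ C * Wt d H * (1 / w + 1 / h) := by
  refine ⟨4 * k + (k + 1) * k + (k + 1) * (2 * ((k + 1) + 3 * (k + 1) ^ 2) * (K + 1)),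
    by positivity, fun d hd F₀ h₀ hF N h w H lam hN hh hK hf hw => ?_⟩
  have hH : ∀ i, 1 ≤ H i := fun i => hh.trans (hK i).1
  have hm : Fintype.card (F₀ ⊕ Fin k) ≤ k + 1 := by
    rw [Fintype.card_sum, Fintype.card_coe, Fintype.card_fin]
    omega
  have hW := Wt_nonneg d H
  have hl : 0 ≤ Real.log N := Real.log_natCast_nonneg N
  have sub : ((Tp d lam H).filter fun v => ¬ ∀ Y y : ℕ, w ≤ Y → Y ≤ y →
      Bd (Sys F₀ v) (fun _ => (y : ℝ)) Y y (k + 1) ∧ |Rs (Sys F₀ v) (fun _ => (y : ℝ)) Y y| ≤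
        (4 * k + (k + 1) * k + (k + 1) * (2 * ((k + 1) + 3 * (k + 1) ^ 2) * (K + 1))) *
          Real.log N / Y) ⊆
      (univ.biUnion fun i : Fin k => (Tp d lam H).filter fun v =>
        ∃ p : ℕ, w < p ∧ (p : ℤ) ∣ v i (Fin.last (d i)) ∧ (p : ℤ) ∣ v i 0) ∪
      univ.biUnion fun z : (F₀ ⊕ Fin k) × Fin k => (Tp d lam H).filter fun v => z.1 ≠ Sum.inr z.2 ∧
        PVTail_a F₀ v z.1 * v z.2 0 - v z.2 (Fin.last (d z.2)) * PVTail_b F₀ v z.1 = 0 := by
    intro v hv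
    obtain ⟨hv, hb⟩ := mem_filter.1 hv
    by_contra hn
    rw [mem_union, not_or] at hn
    refine hb fun Y y hY hy => ?_
    have n1 : ∀ (i : Fin k) (p : ℕ), w < p → (p : ℤ) ∣ v i (Fin.last (d i)) → ¬ (p : ℤ) ∣ v i 0 :=
      fun i p k1 k2 k3 => hn.1 (mem_biUnion.2 ⟨i, mem_univ _, mem_filter.2 ⟨hv, p, k1, k2, k3⟩⟩)
    have n2 : ∀ (x : F₀ ⊕ Fin k) (j : Fin k), x ≠ Sum.inr j →
        PVTail_a F₀ v x * v j 0 - v j (Fin.last (d j)) * PVTail_b F₀ v x ≠ 0 :=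
      fun x j k1 k2 => hn.2 (mem_biUnion.2 ⟨(x, j), mem_univ _, mem_filter.2 ⟨hv, k1, k2⟩⟩)
    have hφ : ∀ x y, Sys F₀ v x y = PVTail_a F₀ v x * y + PVTail_b F₀ v x := by
      rintro (f | i) y
      · rfl
      · exact PVTail_pe (hd i) (v i) y
    have h0 : PVTail_D (PVTail_a F₀ v) (PVTail_b F₀ v) ≠ 0 := by
      refine mul_ne_zero (prod_ne_zero_iff.2 fun x _ => Int.natAbs_ne_zero.2 ?_)
        (prod_ne_zero_iff.2 fun x hx => Int.natAbs_ne_zero.2 ?_)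
      · have := PVTail_a_pos h₀ hv x
        omega
      obtain ⟨x, x'⟩ := x
      have hne : x ≠ x' := (mem_offDiag.1 hx).2.2
      rcases x' with g | j
      · rcases x with f | i
        · exact absurd (congrArg _ (Subtype.ext (card_le_one.1 hF _ f.2 _ g.2))) hne
        · intro e
          exact n2 (Sum.inl g) i hne.symm (by rw [← neg_sub]; exact neg_eq_zero.2 e)
      · exact n2 x j hne
    have hco : ∀ x (p : ℕ), p.Prime → w < p → (p : ℤ) ∣ PVTail_a F₀ v x →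
        ¬ (p : ℤ) ∣ PVTail_b F₀ v x := by
      rintro (f | i) p hp k1 k2 k3
      · exact (Nat.prime_iff_prime_int.mp hp).not_isUnit ((h₀ f f.2).2.isUnit_of_dvd' k2 k3)
      · exact n1 i p k1 k2 k3
    obtain ⟨r1, r2⟩ := PVTail_det (y := y) hφ hm hw hY h0 hco
    have s1 : N ≤ N ^ (K + 1) := Nat.le_self_pow (by omega) N
    have s2 : ∀ i, H i ≤ N ^ (K + 1) := fun i =>
      (hK i).2.trans (Nat.pow_le_pow_right (by omega) (by omega))
    have s3 : (N : ℤ) ≤ (N ^ (K + 1) : ℕ) := by exact_mod_cast s1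
    have s4 : ∀ i, (H i : ℤ) ≤ (N ^ (K + 1) : ℕ) := fun i => by exact_mod_cast s2 i
    have r3 := PVTail_omega (B := N ^ (K + 1)) hm (hN.trans s1) (fun x => ?_) (fun x => ?_) h0
    · refine ⟨r1, r2.trans (div_le_div_of_nonneg_right ?_ (Nat.cast_nonneg _))⟩
      rw [Nat.cast_pow, Real.log_pow] at r3
      push_cast at r3 ⊢
      have r4 := mul_le_mul_of_nonneg_left r3 (show (0 : ℝ) ≤ k + 1 by positivity)
      have r5 : 0 ≤ (4 * (k : ℝ) + (k + 1) * k) * Real.log N := by positivity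
      linarith only [r4, r5]
    · rcases x with f | i
      · rw [abs_of_nonneg (zero_le_one.trans (PVTail_a_pos h₀ hv _))]
        exact (hf f f.2).1.trans s3
      · exact ((mem_PX (Fintype.mem_piFinset.1 hv i)).1 _).trans (s4 i)
    · rcases x with f | i
      · exact (hf f f.2).2.trans s3
      · exact ((mem_PX (Fintype.mem_piFinset.1 hv i)).1 _).trans (s4 i)
  have c1 := (card_le_card sub).trans ((card_union_le _ _).trans
    (add_le_add card_biUnion_le card_biUnion_le))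
  have c2 : ∀ i : Fin k, (((Tp d lam H).filter fun v => ∃ p : ℕ, w < p ∧
      (p : ℤ) ∣ v i (Fin.last (d i)) ∧ (p : ℤ) ∣ v i 0).card : ℝ) ≤ Wt d H * (4 / w) := by
    intro i
    refine PVTail_lift d lam hH i _ (by positivity) fun v _ => ?_
    simp only [Function.update_self]
    exact PVTail_gcd2 lam (hd i) hw
  have c3 := add_le_add (sum_le_card_nsmul univ _ _ fun i _ => c2 i)
    (sum_le_card_nsmul univ _ _ fun (z : (F₀ ⊕ Fin k) × Fin k) _ =>
      PVTail_pair h₀ hd lam hh (fun i => (hK i).1) z.1 z.2)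
  refine le_trans (by exact_mod_cast c1) (c3.trans ?_)
  rw [nsmul_eq_mul, nsmul_eq_mul, card_univ, card_univ, Fintype.card_prod, Fintype.card_fin,
    Nat.cast_mul]
  have c4 : (Fintype.card (F₀ ⊕ Fin k) : ℝ) ≤ k + 1 := by exact_mod_cast hm
  have u1 : 0 ≤ Wt d H * (1 / w) := by positivity
  have u2 : 0 ≤ Wt d H * (1 / h) := by positivity
  have e : Wt d H * (4 / w) = 4 * (Wt d H * (1 / w)) := by ring
  rw [e, mul_assoc _ (Wt d H), mul_add (Wt d H)]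
  generalize Wt d H * (1 / w) = s at *
  generalize Wt d H * (1 / h) = t at *
  have k0 : (0 : ℝ) ≤ k := Nat.cast_nonneg k
  have u3 := mul_le_mul_of_nonneg_right c4 (mul_nonneg k0 u2)
  have u4 : 0 ≤ ((k : ℝ) + 1) * (2 * ((k + 1) + 3 * (k + 1) ^ 2) * (K + 1)) * (s + t) := by
    positivity
  have u5 : 0 ≤ ((k : ℝ) + 1) * k * s := by positivity
  have u6 : 0 ≤ 4 * (k : ℝ) * t := by positivity
  linarith only [u3, u4, u5, u6]

end Pool.Agent.Work.MP_51e72e_nt.PV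
end
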