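import Pool.Agent.Work.MP_51e72e_nt.PV.Mult
import Pool.Agent.Work.MP_51e72e_nt.AV.Major

-- merged part: Pool.Agent.Work.MP_51e72e_nt.PV.Smooth
section
/-! Smoothing a short window. -/

set_option autoImplicit false
open Finset Filter MeasureTheory Pool.Agent.Lib.MR Pool.Agent.Lib.LargeSieve
open Pool.Agent.Work.MP_678620_nt Pool.Agent.Work.MP_51e72e_nt.AV

namespace Pool.Agent.Work.MP_51e72e_nt.PV

lemma PVSmooth_walk (f : ℤ → ℂ) {g : ℝ} (a : ℤ) (h t : ℕ)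
    (hf : ∀ j, a < j → j ≤ a + t + h → ‖f j‖ ≤ g) :
    ‖∑ j ∈ Ioc a (a + h), f j - ∑ j ∈ Ioc (a + t) (a + t + h), f j‖ ≤ 2 * g * t := by
  induction t with
  | zero => simp
  | succ t ih =>
    have a1 := ih fun j h1 h2 => hf j h1 (by omega)
    have a2 := sum_range_sub (fun i : ℕ => f (a + t + 1 + i)) h
    have a3 := norm_sub_le (f (a + t + 1 + h)) (f (a + t + 1 + (0 : ℕ)))
    have a4 := hf (a + t + 1 + h) (by omega) (by omega)
    have a5 := hf (a + t + 1 + (0 : ℕ)) (by omega) (by omega)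
    rw [← a2, sum_sub_distrib, norm_sub_rev, ← MajA_range] at a3
    have a6 : ∑ j ∈ Ioc (a + (t + 1 : ℕ)) (a + (t + 1 : ℕ) + h), f j =
        ∑ i ∈ range h, f (a + t + 1 + (i + 1 : ℕ)) := by
      rw [MajA_range]
      exact sum_congr rfl fun i _ => congrArg f (by push_cast; ring)
    rw [a6]
    refine (norm_sub_le_norm_sub_add_norm_sub _ _ _).trans ((add_le_add a1 a3).trans ?_)
    rw [Nat.cast_succ t]
    linarith only [a4, a5]

lemma PVSmooth_window (f : ℤ → ℂ) {g : ℝ} (a b : ℤ) (h : ℕ)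
    (hf : ∀ j, min a b < j → j ≤ max a b + h → ‖f j‖ ≤ g) :
    ‖∑ j ∈ Ioc a (a + h), f j - ∑ j ∈ Ioc b (b + h), f j‖ ≤ 2 * g * |(a : ℝ) - b| := by
  wlog hab : a ≤ b generalizing a b
  · rw [norm_sub_rev, abs_sub_comm]
    exact this b a (by rwa [min_comm, max_comm]) (le_of_not_ge hab)
  obtain ⟨t, rfl⟩ := Int.le.dest hab
  rw [min_eq_left hab, max_eq_right hab] at hf
  refine (PVSmooth_walk f a h t hf).trans_eq ?_
  simp

theorem smooth {m h D Y R : ℕ} {x₀ η T g : ℝ} {j₁ : ℤ} (G : ℤ → ℂ) (hT : 0 < T) (hR : 1 ≤ R)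
    (h1 : (m : ℝ) ≤ x₀) (h2 : x₀ ≤ m * (1 + η)) (h3 : (8 : ℝ) * R ≤ η * m) (h4 : η ≤ 1 / 2)
    (hY : m + 4 * R ≤ Y) (hD : D ≤ R) (h5 : 1 ≤ T / x₀ * D) (h6 : 16 * (T / x₀) * η * R ≤ 1)
    (hj : -(2 * (R : ℤ)) ≤ j₁) (hj' : j₁ + h ≤ 3 * R)
    (hG : ∀ n : ℤ, 1 ≤ n → n ≤ Y → ‖G n‖ ≤ g) :
    ‖∑ j ∈ Ioc j₁ (j₁ + h), G (m + j) -
      (nu (T / x₀) D : ℂ) * ∑ j ∈ Ioc j₁ (j₁ + h), ∑ n ∈ Icc 1 Y,
        G n * ((Real.exp (-(T * |Real.log n - Real.log m - j / x₀|)) : ℝ) : ℂ)‖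
      ≤ g * (2 * D + h * (16 * (T / x₀) * η * R +
        3 * (T / x₀) * Y * Real.exp (-(T / x₀ * D / 2)))) := by
  have H1 : (1 : ℝ) ≤ R := by exact_mod_cast hR
  have m0 : (0 : ℝ) ≤ m := Nat.cast_nonneg m
  have m1 : (16 : ℝ) * R ≤ m := by linarith only [h3, h4, m0, mul_le_mul_of_nonneg_right h4 m0]
  have m2 : 16 * R ≤ m := by exact_mod_cast m1
  have m3 : (0 : ℝ) < m := by linarith only [H1, m1]
  have x0 : 0 < x₀ := by linarith only [h1, H1, m1]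
  have hτ : 0 < T / x₀ := div_pos hT x0
  have g0 : 0 ≤ g := (norm_nonneg _).trans (hG 1 le_rfl (by omega))
  obtain ⟨n0, -⟩ := nu_le hτ h5
  have ha : ∀ d : ℤ, -(D : ℤ) ≤ d → d ≤ D → ‖∑ j ∈ Ioc j₁ (j₁ + h), G (m + j) -
      ∑ j ∈ Ioc j₁ (j₁ + h), G (m + j + d)‖ ≤ g * (2 * D) := by
    intro d d0 d1
    have w := PVSmooth_window (fun j => G (m + j)) (g := g) j₁ (j₁ + d) h
      fun j j0 j1 => hG _ (by omega) (by omega)
    have e : ∑ j ∈ Ioc (j₁ + d) (j₁ + d + h), G (m + j) = ∑ j ∈ Ioc j₁ (j₁ + h), G (m + j + d) := by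
      rw [MajA_range, MajA_range]
      exact sum_congr rfl fun i _ => congrArg G (by ring)
    have : |(d : ℝ)| ≤ D := abs_le.2 ⟨by exact_mod_cast d0, by exact_mod_cast d1⟩
    rw [e, Int.cast_add, sub_add_cancel_left, abs_neg] at w
    exact w.trans ((mul_le_mul_of_nonneg_left this (by positivity)).trans_eq (by ring))
  have hb : ∀ j ∈ Ioc j₁ (j₁ + h), ‖(nu (T / x₀) D : ℂ) *
      (∑ d ∈ Icc (-(D : ℤ)) D, G (m + j + d) * (Real.exp (-(T / x₀ * |(d : ℝ)|)) : ℝ) -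
        ∑ n ∈ Icc 1 Y, G n * (Real.exp (-(T * |Real.log n - Real.log m - j / x₀|)) : ℝ))‖ ≤
      g * (16 * (T / x₀) * η * R + 3 * (T / x₀) * Y * Real.exp (-(T / x₀ * D / 2))) := by
    intro j hj2
    obtain ⟨j0, j1⟩ := mem_Ioc.1 hj2
    have := MajA_one (D := D) (Y := Y) (e := 8 * (T / x₀) * η * R) (g := g) (c := m + j) G
      (fun n => T * (Real.log n - Real.log m - j / x₀)) hτ h5 (by linarith only [h6]) (by omega) (by omega)
      (fun d d0 d1 => ?_) (fun n n' a b => ?_) hG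
    · simp only [abs_mul, abs_of_pos hT, Int.cast_natCast] at this
      exact this.trans_eq (by ring)
    · have t1 : |(j : ℝ) + d| ≤ 4 * R := by
        have : |j + d| ≤ 4 * (R : ℤ) := abs_le.2 ⟨by omega, by omega⟩
        exact_mod_cast this
      have t2 := MajA_log m3 h1 h2 (by linarith only [h3]) h4 t1
      have e : T * (Real.log ((m + j + d : ℤ) : ℝ) - Real.log m - j / x₀) - T / x₀ * d =
          T / x₀ * (x₀ * (Real.log (m + (j + d)) - Real.log m) - (j + d)) := by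
        push_cast
        rw [add_assoc]
        field_simp
        ring
      rw [e, abs_mul, abs_of_pos hτ]
      exact (mul_le_mul_of_nonneg_left t2 hτ.le).trans_eq (by ring)
    · have a' : (1 : ℝ) ≤ n := by exact_mod_cast a
      have b' : (n : ℝ) ≤ n' := by exact_mod_cast b
      exact mul_le_mul_of_nonneg_left
        (by linarith only [a', b', Real.log_le_log (by linarith) b']) hT.le
  have one : (nu (T / x₀) D : ℂ) *
      ∑ d ∈ Icc (-(D : ℤ)) D, ((Real.exp (-(T / x₀ * |(d : ℝ)|)) : ℝ) : ℂ) = 1 := by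
    rw [← Complex.ofReal_sum, ← Complex.ofReal_mul, MajA_sum, Complex.ofReal_one]
  have key : ∀ (W I : Finset ℤ) (ν : ℂ) (w B : ℤ → ℂ), ν * ∑ d ∈ I, w d = 1 →
      ∑ j ∈ W, G (m + j) - ν * ∑ j ∈ W, B j =
        ν * ∑ d ∈ I, w d * (∑ j ∈ W, G (m + j) - ∑ j ∈ W, G (m + j + d)) +
          ∑ j ∈ W, ν * (∑ d ∈ I, G (m + j + d) * w d - B j) := by
    intro W I ν w B h
    have a1 : ∑ d ∈ I, w d * ∑ j ∈ W, G (m + j + d) = ∑ j ∈ W, ∑ d ∈ I, G (m + j + d) * w d := by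
      simp only [mul_sum]
      rw [sum_comm]
      exact sum_congr rfl fun _ _ => sum_congr rfl fun _ _ => mul_comm _ _
    simp only [mul_sub (w _), sum_sub_distrib]
    rw [a1, ← mul_sum, sum_sub_distrib, ← sum_mul]
    linear_combination (-∑ j ∈ W, G (m + j)) * h
  rw [key _ _ _ _ _ one, mul_add]
  refine (norm_add_le _ _).trans (add_le_add ?_ ?_)
  · rw [norm_mul, Complex.norm_real, Real.norm_eq_abs, abs_of_nonneg n0]
    refine (mul_le_mul_of_nonneg_left ((norm_sum_le _ _).trans (sum_le_sum (g := fun d : ℤ =>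
      Real.exp (-(T / x₀ * |(d : ℝ)|)) * (g * (2 * D))) fun d hd => ?_)) n0).trans_eq ?_
    · rw [norm_mul, Complex.norm_real, Real.norm_eq_abs, Real.abs_exp]
      exact mul_le_mul_of_nonneg_left (ha d (mem_Icc.1 hd).1 (mem_Icc.1 hd).2) (Real.exp_pos _).le
    · rw [← sum_mul, ← mul_assoc, MajA_sum, one_mul]
  · refine (norm_sum_le _ _).trans ((sum_le_card_nsmul _ _ _ hb).trans_eq ?_)
    rw [Int.card_Ioc, add_sub_cancel_left, Int.toNat_natCast, nsmul_eq_mul]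
    ring

/-- Moving a window. -/
theorem window (f : ℤ → ℂ) {g : ℝ} (a b : ℤ) (h : ℕ)
    (hf : ∀ j, min a b < j → j ≤ max a b + h → ‖f j‖ ≤ g) (hg : 0 ≤ g) :
    ‖∑ j ∈ Ioc a (a + h), f j - ∑ j ∈ Ioc b (b + h), f j‖ ≤ 2 * g * |(a : ℝ) - b| := by
  have _ := hg
  exact PVSmooth_window f a b h hf

/-- The base point of a pair of blocks. -/
theorem base_pt {lam : ℝ} {d H N K i j : ℕ} {A S : Finset ℕ} (hA : Rg lam H A) (hS : Rg lam N S)
    (hl : 1 ≤ lam) (hK : 2 * (d + 1) * lam ≤ K) (hKN : K ≤ N) (hNH : N ≤ H) :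
    ∃ x₀ : ℝ, ∀ a ∈ Blk A H K i, ∀ n ∈ Blk S N K j, ((a * n ^ d : ℕ) : ℝ) ≤ x₀ ∧
      x₀ ≤ (a * n ^ d : ℕ) * (1 + 4 * (d + 1) * lam / K) := by
  have d0 : (0 : ℝ) ≤ d := Nat.cast_nonneg d
  have h0 : (0 : ℝ) < K := lt_of_lt_of_le (by positivity) hK
  have hK1 : 1 ≤ K := by exact_mod_cast h0
  have key : ∀ {M b l : ℕ} {T : Finset ℕ}, Rg lam M T → K ≤ M → b ∈ Blk T M K l →
      (b : ℝ) ≤ ((l + 1) * bl M K : ℕ) ∧ (((l + 1) * bl M K : ℕ) : ℝ) ≤ b * (1 + 2 * lam / K) := by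
    intro M b l T hT hM hb
    obtain ⟨hb1, rfl⟩ := mem_filter.1 hb
    have e1 : b ≤ (b / bl M K + 1) * bl M K := by
      rw [mul_comm]; exact (Nat.lt_mul_div_succ b (bl_pos M K)).le
    have e2 : (b / bl M K + 1) * bl M K ≤ b + bl M K := by
      rw [add_mul, one_mul]; exact Nat.add_le_add_right (Nat.div_mul_le_self _ _) _
    have e4 := bl_le hK1 hM
    have e5 := hT.lo b hb1
    refine ⟨by exact_mod_cast e1, le_trans (b := (b : ℝ) + bl M K) (by exact_mod_cast e2) ?_⟩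
    have : 2 * (M : ℝ) / K ≤ b * (2 * lam / K) := by
      rw [← mul_div_assoc]
      exact div_le_div_of_nonneg_right (by linarith only [e5]) h0.le
    linarith only [e4, this]
  refine ⟨((i + 1) * bl H K : ℕ) * (((j + 1) * bl N K : ℕ) : ℝ) ^ d, fun a ha n hn => ?_⟩
  obtain ⟨p1, p2⟩ := key hA (hKN.trans hNH) ha
  obtain ⟨q1, q2⟩ := key hS hKN hn
  have y0 : 0 ≤ 2 * lam / K := by positivity
  have y1 : (d + 1) * (2 * lam / K) ≤ 1 := by
    rw [← mul_div_assoc, div_le_one h0]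
    linarith only [hK]
  have y2 : (1 + 2 * lam / K) ^ (d + 1) ≤ 1 + 4 * (d + 1) * lam / K := by
    have z := abs_of_nonneg (show 0 ≤ (d + 1) * (2 * lam / K) by positivity)
    have e := (abs_le.1 (Real.abs_exp_sub_one_le (z.trans_le y1))).2
    rw [z, show (d : ℝ) + 1 = (d + 1 : ℕ) by push_cast; rfl, Real.exp_nat_mul] at e
    refine (pow_le_pow_left₀ (by positivity) ((add_comm _ _).trans_le (Real.add_one_le_exp _))
      _).trans ((sub_le_iff_le_add'.1 e).trans_eq ?_)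
    push_cast
    ring
  rw [Nat.cast_mul a, Nat.cast_pow]
  refine ⟨mul_le_mul p1 (pow_le_pow_left₀ (by positivity) q1 _) (by positivity) (by positivity),
    (mul_le_mul p2 (pow_le_pow_left₀ (by positivity) q2 _) (by positivity) (by positivity)).trans
      (le_of_eq_of_le ?_ (mul_le_mul_of_nonneg_left y2 (by positivity)))⟩
  rw [mul_pow]
  ring

theorem blk_dist {N K j n n' : ℕ} {S : Finset ℕ} (hK : 1 ≤ K) (hKN : K ≤ N) (h : n ∈ Blk S N K j)
    (h' : n' ∈ Blk S N K j) : |(n : ℝ) - n'| ≤ 2 * N / K := by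
  have e1 := Nat.div_add_mod n (bl N K)
  have e2 := Nat.div_add_mod n' (bl N K)
  have e3 := Nat.mod_lt n (bl_pos N K)
  have e4 := Nat.mod_lt n' (bl_pos N K)
  rw [(mem_filter.1 h).2] at e1
  rw [(mem_filter.1 h').2] at e2
  have e : |(n : ℤ) - n'| ≤ bl N K := abs_le.2 ⟨by omega, by omega⟩
  exact le_trans (by exact_mod_cast e) (bl_le hK hKN)

end Pool.Agent.Work.MP_51e72e_nt.PV
end

-- merged part: Pool.Agent.Work.MP_51e72e_nt.PV.Tri
section
/-! The integral of three Dirichlet polynomials. -/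

set_option autoImplicit false
open Finset Filter MeasureTheory Pool.Agent.Lib.MR Pool.Agent.Lib.LargeSieve
open Pool.Agent.Work.MP_678620_nt Pool.Agent.Work.MP_51e72e_nt.AV

namespace Pool.Agent.Work.MP_51e72e_nt.PV

lemma PVTri_nit (d n : ℕ) (u : ℝ) : nit n (d * u) = nit (n ^ d) u := by
  rw [nit, nit, Nat.cast_pow, Real.log_pow, mul_comm (d : ℝ) u, mul_assoc]

theorem mellin_d (d : ℕ) (A S : Finset ℕ) (hA : ∀ a ∈ A, 1 ≤ a) (hS : ∀ n ∈ S, 1 ≤ n) (Y : ℕ)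
    (b g G : ℕ → ℂ) {T : ℝ} (hT : 0 < T) (s : ℝ) :
    ‖∑ a ∈ A, ∑ n ∈ S, b a * g n * ∑ m ∈ Icc 1 Y,
        G m * ((Real.exp (-(T * |Real.log m - Real.log (a * n ^ d : ℕ) - s|)) : ℝ) : ℂ)‖
      ≤ (Real.pi * T)⁻¹ * ∫ u, ‖DP (Icc 1 Y) G u‖ * ‖DP A (fun a => (starRingEnd ℂ) (b a)) u‖ *
          ‖DP S (fun n => (starRingEnd ℂ) (g n)) (d * u)‖ ∂(cm T) := by
  have hE : ∀ x : ℝ, Trig fun u => Complex.exp (Complex.I * ((u * x : ℝ) : ℂ)) := fun x =>
    ⟨by fun_prop, 1, fun u => by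
      beta_reduce; rw [mul_comm, Complex.norm_exp_ofReal_mul_I]⟩
  have hp : 0 < Real.pi * T := mul_pos Real.pi_pos hT
  have h1 : ∫ u, ∑ a ∈ A, ∑ n ∈ S, b a * g n * ∑ m ∈ Icc 1 Y, G m *
      Complex.exp (Complex.I * ((u * (Real.log m - Real.log (a * n ^ d : ℕ) - s) : ℝ) : ℂ)) ∂(cm T) =
      ((Real.pi * T : ℝ) : ℂ) * ∑ a ∈ A, ∑ n ∈ S, b a * g n * ∑ m ∈ Icc 1 Y,
        G m * ((Real.exp (-(T * |Real.log m - Real.log (a * n ^ d : ℕ) - s|)) : ℝ) : ℂ) := by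
    rw [integral_finsetSum _ fun a _ => (Trig.sum fun n _ => (Trig.const _).mul
      (Trig.sum fun m _ => (Trig.const _).mul (hE _))).integrable _, mul_sum]
    refine sum_congr rfl fun a _ => ?_
    rw [integral_finsetSum _ fun n _ => ((Trig.const _).mul
      (Trig.sum fun m _ => (Trig.const _).mul (hE _))).integrable _, mul_sum]
    refine sum_congr rfl fun n _ => ?_
    rw [integral_const_mul, integral_finsetSum _ fun m _ =>
      ((Trig.const _).mul (hE _)).integrable _, mul_left_comm, mul_sum _ _ ((_ : ℝ) : ℂ)]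
    refine congrArg _ (sum_congr rfl fun m _ => ?_)
    rw [integral_const_mul, integral_cm_exp hT, Complex.ofReal_mul (Real.pi * T), mul_left_comm]
  rw [le_inv_mul_iff₀ hp, ← abs_of_pos hp, ← Real.norm_eq_abs, ← Complex.norm_real, ← norm_mul,
    ← h1]
  refine (norm_integral_le_integral_norm _).trans (le_of_eq (integral_congr_ae
    (Eventually.of_forall fun u => ?_)))
  have e : ∑ a ∈ A, ∑ n ∈ S, b a * g n * ∑ m ∈ Icc 1 Y, G m *
      Complex.exp (Complex.I * ((u * (Real.log m - Real.log (a * n ^ d : ℕ) - s) : ℝ) : ℂ)) =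
      DP (Icc 1 Y) G u * (starRingEnd ℂ) (DP A (fun a => (starRingEnd ℂ) (b a)) u) *
        (starRingEnd ℂ) (DP S (fun n => (starRingEnd ℂ) (g n)) (d * u)) *
        Complex.exp (Complex.I * ((u * (-s) : ℝ) : ℂ)) := by
    simp only [DP, PVTri_nit, map_sum, map_mul, conj_nit, Complex.conj_conj]
    rw [mul_assoc (∑ m ∈ Icc 1 Y, _), sum_mul_sum A S, mul_right_comm, mul_sum]
    refine sum_congr rfl fun a ha => ?_
    rw [mul_sum]
    refine sum_congr rfl fun n hn => ?_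
    rw [mul_mul_mul_comm (b a), ← nit_mul (Nat.one_le_iff_ne_zero.1 (hA a ha))
      (pow_ne_zero d (Nat.one_le_iff_ne_zero.1 (hS n hn))), mul_left_comm, sum_mul, sum_mul]
    refine congrArg _ (sum_congr rfl fun m _ => ?_)
    rw [mul_assoc, mul_assoc, nit, nit, ← Complex.exp_add, ← Complex.exp_add]
    congr 2
    push_cast
    ring
  beta_reduce
  rw [e, norm_mul, norm_mul, norm_mul, mul_comm Complex.I, Complex.norm_exp_ofReal_mul_I, mul_one,
    Complex.norm_conj, Complex.norm_conj]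

theorem trig_dil (d : ℕ) (S : Finset ℕ) (g : ℕ → ℂ) : Trig fun u => DP S g (d * u) := by
  simp only [DP, PVTri_nit]
  exact Trig.sum fun n _ => (Trig.const _).mul (Trig.nit _)

theorem MS_dil {d N : ℕ} (hd : 1 ≤ d) {S : Finset ℕ} (hS : S ⊆ Icc 1 N) (g : ℕ → ℂ) {T : ℝ}
    (hT : 0 < T) : MS T Set.univ (fun u => DP S g (d * u))
      ≤ Real.pi * (T + 2 * N) * ∑ n ∈ S, ‖g n‖ ^ 2 := by
  have d1 : (1 : ℝ) ≤ d := by exact_mod_cast hd
  have d0 : (0 : ℝ) < d := by linarith only [d1]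
  have k := mean_value hS g (mul_pos d0 hT)
  have e : d * MS T Set.univ (fun u => DP S g (d * u)) = MS (d * T) Set.univ (DP S g) := by
    simp only [DP, PVTri_nit]
    rw [MS_eq S (fun n => n ^ d) g hT, show DP S g = fun u => ∑ i ∈ S, g i * nit (id i) u from rfl,
      MS_eq S id g (mul_pos d0 hT)]
    simp only [Nat.cast_pow, Real.log_pow, ← mul_sub, abs_mul, Nat.abs_cast, id, mul_assoc,
      mul_left_comm T (d : ℝ), mul_left_comm Real.pi (d : ℝ)]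
  refine le_of_mul_le_mul_left (e.trans_le (k.trans ?_)) d0
  rw [← mul_assoc]
  refine mul_le_mul_of_nonneg_right ?_ (sum_nonneg fun _ _ => sq_nonneg _)
  rw [mul_left_comm]
  refine mul_le_mul_of_nonneg_left ?_ Real.pi_pos.le
  linarith only [d1, Nat.cast_nonneg (α := ℝ) N, mul_nonneg_of_nonpos_of_nonpos (Mathlib.Tactic.Linarith.sub_nonpos_of_le (Mathlib.Tactic.Linarith.natCast_nonneg ℝ N)) (Mathlib.Tactic.Linarith.sub_nonpos_of_le d1)]

lemma PVTri_pt {p q r H X y w l : ℝ} (hp : 0 ≤ p) (hr : 0 ≤ r) (hw : 0 < w) (hl : 1 ≤ l)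
    (hq : q ≤ H) (hH : 0 < H) (hX : 0 < X) (hy : 0 < y) :
    (q ≤ H / (w * l) → p * q * r ≤ H * y / X / (w * l) * p ^ 2 + H * X / y / w * r ^ 2) ∧
      p * q * r ≤ H * X / y / w * r ^ 2 + H * y / X * w * p ^ 2 := by
  obtain ⟨k1, k2⟩ := MajB_pt hp (r := r * (X / (H * y))) (by positivity) hw hl hq
  have s0 : 0 ≤ H * y / X := by positivity
  have e : p * q * r = H * y / X * (p * q * (r * (X / (H * y)))) := by field_simp
  rw [e]
  exact ⟨fun h => (mul_le_mul_of_nonneg_left (k1 h) s0).trans_eq (by field_simp),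
    (mul_le_mul_of_nonneg_left k2 s0).trans_eq (by field_simp)⟩

theorem tri {κ : ℝ} (hκ : 0 < κ) (B : ℕ) : ∃ A' : ℕ, ∀ᶠ X : ℕ in atTop, ∀ (H q : ℕ) (T y : ℝ),
    (X : ℝ) ^ κ ≤ H → H ≤ X → 1 ≤ q → (q : ℝ) ≤ Real.log X ^ B → 0 < T → T ≤ X → 0 < y →
    ∀ G : ℤ → ℂ, (∀ m : ℤ, 1 ≤ m → m ≤ 3 * X → ‖G m‖ ≤ 3 * Real.log X) →
    KeyP X X (1 / 2) A' G → ∀ χ : ℕ → ℂ, (∀ n, ‖χ n‖ ≤ 1) → ∀ A : Finset ℕ, A ⊆ Ioc 1 H →
    ∀ b : ℕ → ℂ, (∀ a, ‖b a‖ ≤ 1) → ∀ Γ : ℝ → ℂ, Trig Γ → (∀ u, ‖Γ u‖ ≤ y) →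
    MS T Set.univ Γ ≤ y ^ 2 * Real.log X ^ B →
      ∫ u, ‖DP (Icc 1 (3 * X)) (fun m => G m * χ (m % q)) u‖ * ‖DP A b u‖ * ‖Γ u‖ ∂(cm T)
        ≤ (X : ℝ) * H * y / Real.log X ^ B := by
  obtain ⟨c, c0, c1, j, j1, C, C1, hm⟩ := mom hκ
  refine ⟨5 * B + 2, ?_⟩
  have ev : ∀ᶠ X : ℕ in atTop, Real.log X ^ (1 * B + 2) ≤ (X : ℝ) := by
    have := tendsto_natCast_atTop_atTop (R := ℝ).eventually
      ((isLittleO_log_rpow_rpow_atTop (1 * B + 2 : ℕ) one_pos).bound one_pos)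
    filter_upwards [this] with N h
    rw [Real.rpow_natCast, Real.rpow_one, Real.norm_natCast, one_mul (N : ℝ)] at h
    exact (le_abs_self _).trans h
  filter_upwards [TB_tend.eventually_ge_atTop 1000, ev,
    TB_ev_exp (4 * C) ((2 * B + 3) * (2 * j)) (c := 1 - 1 / 2) (by norm_num),
    eventually_ge_atTop 1] with N hl x2 x3 N1 H q T y hH hHN q1 hq T0 hT y0 G hG hK χ hχ A hA
    b hb Γ tΓ bΓ s2
  have e1 : ∀ i k : ℕ, Real.log N ^ (i * B + k) = (Real.log N ^ B) ^ i * Real.log N ^ k :=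
    fun i k => by ring
  rw [e1, pow_one] at x2
  rw [pow_mul, e1] at x3
  simp only [KeyP, e1] at hK
  have fr : ∀ U : Set ℝ, MeasurableSet U → (∀ u ∈ U, |u| ≤ (N : ℝ) ^ 3) →
      (cm T).real U ≤ 4 * C * ((Real.log N ^ B) ^ 2 * Real.log N ^ 3) ^ (2 * j) →
      Fr N (1 / 2) T U := fun U h1 h2 h3 => ⟨h1, h2, h3.trans x3⟩
  clear x3 e1
  generalize Real.log N = l at *
  have l1 : 1 ≤ l := le_trans (by norm_num) hl
  have m1 : 1 ≤ l ^ B := one_le_pow₀ l1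
  generalize l ^ B = m at *
  have n1 : (1 : ℝ) ≤ N := by exact_mod_cast N1
  have H1 : (1 : ℝ) ≤ H := (Real.one_le_rpow n1 hκ.le).trans hH
  have pi4 := Real.pi_le_four
  have bA : ∀ u, ‖DP A b u‖ ≤ H := fun u => (norm_DP_le_card A hb u).trans (by
    exact_mod_cast (card_le_card hA).trans (by simp))
  have bG : ∀ n ∈ Icc 1 (3 * N), ‖G n * χ (n % q)‖ ≤ 3 * l := fun n hn => by
    rw [norm_mul]
    exact (mul_le_of_le_one_right (norm_nonneg _) (hχ _)).trans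
      (hG n (by exact_mod_cast (mem_Icc.1 hn).1) (by exact_mod_cast (mem_Icc.1 hn).2))
  have tP := Trig.DP (Icc 1 (3 * N)) fun m => G m * χ (m % q)
  have mU : MeasurableSet ({u | H / (m ^ 2 * l * l ^ 2) < ‖DP A b u‖} ∩
      {u : ℝ | |u| ≤ (N : ℝ) ^ 3}) :=
    (isOpen_lt continuous_const (Trig.DP A b).1.norm).measurableSet.inter
      (isClosed_le continuous_abs continuous_const).measurableSet
  have mW : MeasurableSet {u : ℝ | (N : ℝ) ^ 3 < |u|} :=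
    (isOpen_lt continuous_const continuous_abs).measurableSet
  have s1 : MS T Set.univ (DP (Icc 1 (3 * N)) fun m => G m * χ (m % q)) ≤
      4 * (7 * N) * (3 * N * (3 * l) ^ 2) := by
    refine (mean_value (Subset.refl _) _ T0).trans ?_
    gcongr
    · push_cast
      linarith only [hT]
    · refine (sum_le_card_nsmul _ _ ((3 * l) ^ 2) fun n hn =>
        pow_le_pow_left₀ (norm_nonneg _) (bG n hn) 2).trans (le_of_eq ?_)
      simp
  have s3 := shift_cls (N := N) (c := G) q1 mU (fun a y hy => hK q a y q1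
    (hq.trans (by
      calc m = m ^ 1 * 1 := by ring
        _ ≤ m ^ 5 * l ^ 2 := by gcongr; exacts [by norm_num, one_le_pow₀ l1])) hy T _
    (fr _ mU (fun u hu => hu.2) (by
      have k := hm N 1 0 1 H H H T N1 le_rfl le_rfl hH (by simp)
        (by simpa using Real.rpow_le_rpow_of_exponent_le H1 (show 1 - c ≤ 1 by linarith only [c0]))
        (by simp) T0 (hT.trans (by linarith only [n1, mul_nonneg_of_nonpos_of_nonpos (Mathlib.Tactic.Linarith.sub_nonpos_of_le (Mathlib.Tactic.Linarith.natCast_nonneg ℝ N)) (Mathlib.Tactic.Linarith.sub_nonpos_of_le n1)])) A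
        (fun a ha => ⟨(mem_Ioc.1 (hA ha)).1, (mem_Ioc.1 (hA ha)).2, Nat.mod_one a⟩) b hb
      rw [← MS_one]
      refine (MS_le_of_le (Trig.const 1) ((Trig.DP A b).pow j) T mU
        (c := (m ^ 2 * l ^ 3 / H) ^ j) fun u hu => ?_).trans ?_
      · rw [norm_one, norm_pow, ← mul_pow]
        refine one_le_pow₀ ?_
        have h3 : H / (m ^ 2 * l * l ^ 2) < ‖DP A b u‖ := hu.1
        rw [div_lt_iff₀ (by positivity)] at h3
        rw [div_mul_eq_mul_div, one_le_div (by positivity)]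
        linarith only [h3]
      · refine (mul_le_mul_of_nonneg_left
          ((MS_mono ((Trig.DP A b).pow j) T (Set.subset_univ _)).trans k) (sq_nonneg _)).trans
          (le_of_eq ?_)
        rw [div_self (by positivity), ← pow_mul, mul_comm j 2, div_pow]
        field_simp
        ring))) hχ (Nat.zero_le (3 * N)) (by omega)
  rw [show Ioc 0 (3 * N) = Icc 1 (3 * N) from rfl] at s3
  have s4 := cm_tail T (Y := (N : ℝ) ^ 3) (by positivity)
  refine (MajB_split tP (Trig.DP A b) tΓ T mU mW (a := H * y / N / (m ^ 2 * l * l ^ 2))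
    (b := H * N / y / (m ^ 2 * l)) (c := H * y / N * (m ^ 2 * l)) (e := 3 * N * (3 * l) * H * y)
    fun u => ?_).trans ?_
  · obtain ⟨k1, k2⟩ := PVTri_pt (norm_nonneg (DP (Icc 1 (3 * N))
      (fun m => G m * χ (m % q)) u)) (norm_nonneg (Γ u)) (w := m ^ 2 * l) (by positivity)
      (one_le_pow₀ l1 (n := 2)) (bA u) (by linarith only [H1]) (X := N) (by linarith only [T0, hT]) y0
    have z1 := Set.indicator_apply_nonneg (s := {u | H / (m ^ 2 * l * l ^ 2) < ‖DP A b u‖} ∩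
      {u : ℝ | |u| ≤ (N : ℝ) ^ 3}) (a := u) (f := fun u => H * y / N * (m ^ 2 * l) *
        ‖DP (Icc 1 (3 * N)) (fun m => G m * χ (m % q)) u‖ ^ 2) fun _ => by positivity
    have z2 := Set.indicator_apply_nonneg (s := {u : ℝ | (N : ℝ) ^ 3 < |u|}) (a := u)
      (f := fun _ => 3 * N * (3 * l) * H * y) fun _ => by positivity
    have z3 : 0 ≤ H * y / N / (m ^ 2 * l * l ^ 2) *
      ‖DP (Icc 1 (3 * N)) (fun m => G m * χ (m % q)) u‖ ^ 2 := by positivity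
    have z4 : 0 ≤ H * N / y / (m ^ 2 * l) * ‖Γ u‖ ^ 2 := by positivity
    rcases le_or_gt ‖DP A b u‖ (H / (m ^ 2 * l * l ^ 2)) with h | h
    · linarith only [z1, z2, k1, h, k1 h]
    rcases le_or_gt |u| ((N : ℝ) ^ 3) with h' | h'
    · rw [Set.indicator_of_mem (show u ∈ {u | H / (m ^ 2 * l * l ^ 2) < ‖DP A b u‖} ∩
        {u : ℝ | |u| ≤ (N : ℝ) ^ 3} from ⟨h, h'⟩)]
      linarith only [k2, z2, z3]
    · rw [Set.indicator_of_mem (show u ∈ {u : ℝ | (N : ℝ) ^ 3 < |u|} from h')]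
      have : ‖DP (Icc 1 (3 * N)) (fun m => G m * χ (m % q)) u‖ * ‖DP A b u‖ * ‖Γ u‖ ≤
          3 * N * (3 * l) * H * y := by
        gcongr
        · refine (norm_DP_le _ _ u).trans ((sum_le_card_nsmul _ _ _ bG).trans (le_of_eq ?_))
          simp
        · exact bA u
        · exact bΓ u
      linarith only [z1, z3, z4, this]
  · calc _ ≤ H * y / N / (m ^ 2 * l * l ^ 2) * (4 * (7 * N) * (3 * N * (3 * l) ^ 2)) +
          H * N / y / (m ^ 2 * l) * (y ^ 2 * m) +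
          H * y / N * (m ^ 2 * l) * (4 * m ^ 2 * ((N : ℝ) ^ 2 / (m ^ 5 * l ^ 2))) +
          3 * N * (3 * l) * H * y * (2 * N ^ 2 / (N ^ 2 * (m * l ^ 2))) := by
          gcongr
          · refine s3.trans ?_
            gcongr
          · refine s4.trans ?_
            rw [pow_succ (N : ℝ) 2]
            gcongr
      _ = N * H * y / m * ((756 / m + 23) / l) := by
          field_simp
          ring
      _ ≤ _ := mul_le_of_le_one_right (by positivity) ((div_le_one (by positivity)).2 (by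
          linarith only [hl, m1, div_le_self (by norm_num : (0 : ℝ) ≤ 756) m1]))

end Pool.Agent.Work.MP_51e72e_nt.PV
end

-- merged part: Pool.Agent.Work.MP_51e72e_nt.PV.Major
section
/-! The major arc part. -/

set_option autoImplicit false
open Finset Filter MeasureTheory Pool.Agent.Lib.MR Pool.Agent.Lib.LargeSieve
open Pool.Agent.Work.MP_678620_nt Pool.Agent.Work.MP_51e72e_nt.AV

namespace Pool.Agent.Work.MP_51e72e_nt.PV

lemma PVMajor_main (d : ℕ) {s : ℕ} (hs : 1 ≤ s) (r : ℤ) {T W ν : ℝ} (hT : 0 < T) (hν : 0 ≤ ν)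
    (x₀ : ℝ) (J : Finset ℤ) {A S : Finset ℕ} (hA : ∀ a ∈ A, 1 ≤ a) (hS : ∀ n ∈ S, 1 ≤ n) (Y : ℕ)
    (b g G : ℕ → ℂ) (hg : ∀ n, ‖g n‖ ≤ 1)
    (hW : ∀ A' ⊆ A, ∀ g' : ℕ → ℂ, (∀ n, ‖g' n‖ ≤ 1) → ∫ u, ‖DP (Icc 1 Y) G u‖ *
      ‖DP A' (fun a => (starRingEnd ℂ) (b a)) u‖ * ‖DP S g' (d * u)‖ ∂(cm T) ≤ W) :
    ‖∑ a ∈ A, ∑ n ∈ S, b a * g n * ee (a * ((((n : ℤ) ^ d * r : ℤ) : ℝ) / s)) * ((ν : ℂ) *
      ∑ j ∈ J, ∑ m ∈ Icc 1 Y, G m *
        ((Real.exp (-(T * |Real.log m - Real.log (a * n ^ d : ℕ) - j / x₀|)) : ℝ) : ℂ))‖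
      ≤ ν * (J.card * (s * ((Real.pi * T)⁻¹ * W))) := by
  have e : ∀ X : ℕ → ℕ → ℂ, ∑ ρ ∈ range s, ∑ a ∈ A.filter (· % s = ρ), ∑ n ∈ S,
      b a * (g n * ee (ρ * ((((n : ℤ) ^ d * r : ℤ) : ℝ) / s))) * X a n =
      ∑ a ∈ A, ∑ n ∈ S, b a * g n * ee (a * ((((n : ℤ) ^ d * r : ℤ) : ℝ) / s)) * X a n := by
    intro X
    rw [← sum_fiberwise_of_maps_to (s := A) (t := range s) (g := (· % s))
      fun a _ => mem_range.2 (Nat.mod_lt a hs)]
    refine sum_congr rfl fun ρ _ => sum_congr rfl fun a ha => sum_congr rfl fun n _ => ?_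
    rw [Major_mod hs a, (mem_filter.1 ha).2, ← mul_assoc]
  have e' : ∀ X : ℕ → ℕ → ℤ → ℂ, ∑ a ∈ A, ∑ n ∈ S,
      b a * g n * ee (a * ((((n : ℤ) ^ d * r : ℤ) : ℝ) / s)) * ((ν : ℂ) * ∑ j ∈ J, X a n j) =
      ν * ∑ j ∈ J, ∑ ρ ∈ range s, ∑ a ∈ A.filter (· % s = ρ), ∑ n ∈ S,
        b a * (g n * ee (ρ * ((((n : ℤ) ^ d * r : ℤ) : ℝ) / s))) * X a n j := by
    intro X
    simp only [e]
    simp only [mul_sum]
    rw [sum_comm_cycle]
    exact sum_congr rfl fun _ _ => sum_congr rfl fun _ _ => sum_congr rfl fun _ _ => by ring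
  rw [e', norm_mul, Complex.norm_real, Real.norm_of_nonneg hν, ← nsmul_eq_mul]
  refine mul_le_mul_of_nonneg_left ((norm_sum_le _ _).trans
    (sum_le_card_nsmul _ _ _ fun j _ => ?_)) hν
  rw [← nsmul_eq_mul]
  refine (norm_sum_le _ _).trans ((sum_le_card_nsmul _ _ _ fun ρ _ => ?_).trans_eq
    (by rw [card_range]))
  refine (mellin_d d _ S (fun a ha => hA a (mem_filter.1 ha).1) hS Y b _ G hT _).trans
    (mul_le_mul_of_nonneg_left (hW _ (filter_subset _ _) _ fun n => ?_) (by positivity))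
  rw [Complex.norm_conj, norm_mul, AV.norm_ee, mul_one]
  exact hg n

lemma PVMajor_err {q U N τ η D g d h w : ℝ} (hq : 1000 ≤ q) (U0 : 0 ≤ U) (hN0 : 0 ≤ N)
    (hN : N ≤ Real.exp q) (hg : g ≤ q ^ 2) (hτ0 : 0 ≤ τ) (hτ : τ * U ≤ q ^ 20)
    (hτD : q ^ 4 / 4 ≤ τ * D) (hη0 : 0 ≤ η) (hη : η * q ^ 31 ≤ 1) (hD0 : 0 ≤ D)
    (hD : D * q ^ 14 ≤ U) (d0 : 0 ≤ d) (hd : d ≤ q) (h0 : 0 ≤ h) (hU : U ≤ 2 * (q ^ 4 * h))
    (w0 : 0 ≤ w) (hw : w * q ^ 32 ≤ 2 * U) : 16 * τ * η * (d * U) ≤ 1 ∧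
    2 * g * w + g * (2 * D + h * (16 * τ * η * (d * U) +
      3 * τ * (3 * (U * N)) * Real.exp (-(τ * D / 2)))) ≤ h / q ^ 6 / 2 := by
  have l0 : 0 < q := by linarith only [hq]
  have l1 : 1 ≤ q := by linarith only [hq]
  have l2 : 2000 ≤ q ^ 2 := by linarith only [hq, mul_nonneg_of_nonpos_of_nonpos (Mathlib.Tactic.Linarith.sub_nonpos_of_le hq) (Mathlib.Tactic.Linarith.sub_nonpos_of_le hq)]
  have v0 : 0 < q ^ 10 := by positivity
  have h1 : D ≤ 2 * h / q ^ 10 := by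
    rw [le_div_iff₀ v0]
    refine le_of_mul_le_mul_right ?_ (pow_pos l0 4)
    calc _ = D * q ^ 14 := by ring
      _ ≤ 2 * (q ^ 4 * h) := hD.trans hU
      _ = _ := by ring
  have h4 : w ≤ 4 * h / q ^ 10 := by
    rw [le_div_iff₀ v0]
    refine le_of_mul_le_mul_right ?_ (pow_pos l0 4)
    calc _ = w * q ^ 14 := by ring
      _ ≤ w * q ^ 32 := mul_le_mul_of_nonneg_left (pow_le_pow_right₀ l1 (by norm_num)) w0
      _ ≤ 2 * (2 * (q ^ 4 * h)) := by linarith only [hU, hw]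
      _ = _ := by ring
  have h2 : 16 * τ * η * (d * U) ≤ 16 / q ^ 10 := by
    rw [le_div_iff₀ v0]
    refine le_of_mul_le_mul_right ?_ (pow_pos l0 21)
    calc _ = 16 * (τ * U) * (η * q ^ 31) * d := by ring
      _ ≤ 16 * q ^ 20 * 1 * q := by gcongr
      _ = _ := by ring
  have h3 : τ * U * N * Real.exp (-(τ * D / 2)) ≤ 1 / q ^ 10 := by
    rw [le_div_iff₀ v0]
    have e1 : q ≤ Real.exp q := by linarith only [Real.add_one_le_exp q]
    calc _ ≤ q ^ 20 * Real.exp q * Real.exp (-(q ^ 4 / 4 / 2)) * q ^ 10 := by gcongr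
      _ = q ^ 30 * Real.exp q * Real.exp (-(q ^ 4 / 4 / 2)) := by ring
      _ ≤ Real.exp q ^ 30 * Real.exp q * Real.exp (-(q ^ 4 / 4 / 2)) := by gcongr
      _ ≤ 1 := by
        rw [← Real.exp_nat_mul, ← Real.exp_add, ← Real.exp_add, Real.exp_le_one_iff]
        push_cast
        have e2 : q ^ 4 = q ^ 2 * q ^ 2 := by ring
        linarith only [l2, hq, mul_nonneg_of_nonpos_of_nonpos (Mathlib.Tactic.Linarith.sub_nonpos_of_le (sq_nonneg q)) (Mathlib.Tactic.Linarith.sub_nonpos_of_le l2), mul_nonneg_of_nonpos_of_nonpos (Mathlib.Tactic.Linarith.sub_nonpos_of_le hq) (Mathlib.Tactic.Linarith.sub_nonpos_of_le hq)]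
  refine ⟨h2.trans ((div_le_one v0).2 ?_), ?_⟩
  · exact le_trans (by linarith only [l2]) (pow_le_pow_right₀ l1 (show 2 ≤ 10 by norm_num))
  calc _ = g * (2 * w + 2 * D + h * (16 * τ * η * (d * U) +
        9 * (τ * U * N * Real.exp (-(τ * D / 2))))) := by ring
    _ ≤ q ^ 2 * (2 * (4 * h / q ^ 10) + 2 * (2 * h / q ^ 10) +
        h * (16 / q ^ 10 + 9 * (1 / q ^ 10))) := by gcongr
    _ = h / q ^ 6 * (37 / q ^ 2) := by field_simp; ring
    _ ≤ h / q ^ 6 * (1 / 2) := by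
      refine mul_le_mul_of_nonneg_left ?_ (by positivity)
      rw [div_le_iff₀ (by positivity)]
      linarith only [l2]
    _ = _ := by ring

lemma PVMajor_shift (f : ℤ → ℂ) (p : ℤ) (h : ℕ) :
    ∑ j ∈ range h, f (p + j) = ∑ j ∈ Ioc (p - 1) (p - 1 + h), f j := by
  refine sum_bij (fun j _ => p + j) (fun j hj => ?_) (fun _ _ _ _ e => ?_) (fun j hj => ?_)
    fun _ _ => rfl
  · rw [mem_range] at hj
    rw [mem_Ioc]
    omega
  · omega
  · rw [mem_Ioc] at hj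
    exact ⟨(j - p).toNat, mem_range.2 (by omega), by omega⟩

lemma PVMajor_blk {q x₀ η g₀ : ℝ} {d H N U X h s r : ℕ} (hd : 1 ≤ d) (hq : 1000 ≤ q)
    (hdq : d ≤ q) (hN : q ^ 100 ≤ N) (hN' : Real.log N ≤ q) (hNU : N ≤ U) (eX : X = U * N)
    (hh : q ^ 4 * h ≤ U) (hh' : U ≤ 2 * (q ^ 4 * h)) {G : ℤ → ℂ}
    (hG : ∀ m : ℤ, 1 ≤ m → m ≤ 3 * X → ‖G m‖ ≤ g₀) (hg₀ : g₀ ≤ q ^ 2) (hs : 1 ≤ s) (hsq : s ≤ q)
    {A S : Finset ℕ} (hA : ∀ a ∈ A, 1 ≤ a) (hS : ∀ n ∈ S, 1 ≤ n)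
    (lo : ∀ a ∈ A, ∀ n ∈ S, (X : ℝ) ≤ q ^ 2 * (a * n ^ d : ℕ))
    (hi : ∀ a ∈ A, ∀ n ∈ S, a * n ^ d ≤ X) (hη : 1 ≤ η * q ^ 34) (hη' : η * q ^ 31 ≤ 1)
    (hx : ∀ a ∈ A, ∀ n ∈ S, ((a * n ^ d : ℕ) : ℝ) ≤ x₀ ∧ x₀ ≤ (a * n ^ d : ℕ) * (1 + η))
    {b g : ℕ → ℂ} (hb : ∀ a, ‖b a‖ ≤ 1) (hg : ∀ n, ‖g n‖ ≤ 1) {P : ℕ → ℤ}
    (hP : ∀ n ∈ S, |P n| ≤ (d * U : ℕ))
    (hP' : ∀ n ∈ S, ∀ n' ∈ S, |(P n : ℝ) - P n'| * q ^ 32 ≤ 2 * U)
    (hW : ∀ A' ⊆ A, ∀ g' : ℕ → ℂ, (∀ n, ‖g' n‖ ≤ 1) →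
      ∫ u, ‖DP (Icc 1 (3 * X)) (fun m => G m * ee (-((m % s : ℕ) * ((r : ℝ) / s)))) u‖ *
      ‖DP A' (fun a => (starRingEnd ℂ) (b a)) u‖ * ‖DP S g' (d * u)‖ ∂(cm (N * q ^ 18)) ≤
        (X : ℝ) * H * N / q ^ 78) :
    ‖∑ a ∈ A, ∑ n ∈ S, b a * g n * ∑ j ∈ range h,
        G ((a : ℤ) * (n : ℤ) ^ d + P n + j) * ee (-(j * ((r : ℝ) / s)))‖
      ≤ A.card * S.card * (h / q ^ 6 / 2) + (H : ℝ) * N * h / q ^ 75 := by
  have l0 : 0 < q := by linarith only [hq]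
  have l1 : 1 ≤ q := by linarith only [hq]
  rcases A.eq_empty_or_nonempty with rfl | ⟨a0, ha0⟩
  · simp only [sum_empty, norm_zero]; positivity
  rcases S.eq_empty_or_nonempty with rfl | ⟨n0, hn0⟩
  · simp only [sum_empty, sum_const_zero, norm_zero]; positivity
  have pw : ∀ {i k : ℕ}, i < k → 1000 * q ^ i ≤ q ^ k := fun {i k} h =>
    (mul_le_mul_of_nonneg_right hq (by positivity)).trans
      (by rw [← pow_succ']; exact pow_le_pow_right₀ l1 h)
  have hNU' : (N : ℝ) ≤ U := by exact_mod_cast hNU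
  have N0 : (0 : ℝ) < N := lt_of_lt_of_le (by positivity) hN
  have U0 : (0 : ℝ) < U := by linarith only [hNU', N0]
  have eX' : (X : ℝ) = U * N := by exact_mod_cast eX
  have η0 : 0 ≤ η := (pos_of_mul_pos_right (by linarith only [hη]) (pow_pos l0 34).le).le
  have η1 : η ≤ 1 / 2 := by
    have := pw (show 0 < 31 by norm_num)
    rw [pow_zero] at this
    linarith only [hη', η0, this, mul_nonneg_of_nonpos_of_nonpos (Mathlib.Tactic.Linarith.sub_nonpos_of_le η0) (Mathlib.Tactic.Linarith.sub_nonpos_of_le this)]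
  obtain ⟨x1, x3⟩ := hx a0 ha0 n0 hn0
  have x2 : (U : ℝ) * N ≤ q ^ 2 * x₀ := eX' ▸ (lo a0 ha0 n0 hn0).trans (by gcongr)
  have x4 : x₀ ≤ 2 * (U * N) := by
    have : ((a0 * n0 ^ d : ℕ) : ℝ) ≤ X := by exact_mod_cast hi a0 ha0 n0 hn0
    calc _ ≤ _ := x3
      _ ≤ (X : ℝ) * (1 + 1) := by gcongr; linarith only [η1]
      _ = _ := by rw [eX']; ring
  have x0 : 0 < x₀ := pos_of_mul_pos_right ((mul_pos U0 N0).trans_le x2) (by positivity)
  have T0 : 0 < N * q ^ 18 := by positivity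
  have hD : (⌊U / q ^ 14⌋₊ : ℝ) * q ^ 14 ≤ U :=
    (le_div_iff₀ (by positivity)).1 (Nat.floor_le (by positivity))
  have hD' : (U : ℝ) ≤ 2 * (⌊U / q ^ 14⌋₊ * q ^ 14) := by
    have h1 := (div_lt_iff₀ (by positivity)).1 (Nat.lt_floor_add_one (U / q ^ 14))
    have h2 := pw (show 14 < 100 by norm_num)
    have := pow_pos l0 14
    linarith only [hN, hNU', hD, h1, h2]
  generalize ⌊U / q ^ 14⌋₊ = D at hD hD'
  have hτ : N * q ^ 18 / x₀ * U ≤ q ^ 20 := by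
    rw [div_mul_eq_mul_div, div_le_iff₀ x0]
    calc _ = q ^ 18 * (U * N) := by ring
      _ ≤ q ^ 18 * (q ^ 2 * x₀) := by gcongr
      _ = _ := by ring
  have hτD : q ^ 4 / 4 ≤ N * q ^ 18 / x₀ * D := by
    rw [div_mul_eq_mul_div, le_div_iff₀ x0]
    calc _ ≤ q ^ 4 / 4 * (2 * (2 * (D * q ^ 14) * N)) := by
          refine mul_le_mul_of_nonneg_left (x4.trans ?_) (by positivity)
          gcongr
      _ = _ := by ring
  have h5 : 1 ≤ N * q ^ 18 / x₀ * D := by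
    have := pw (show 0 < 4 by norm_num)
    rw [pow_zero] at this
    linarith only [hτD, this]
  obtain ⟨ν0, ν1⟩ := nu_le (D := D) (div_pos T0 x0) h5
  have key := PVMajor_main d hs r T0 ν0 x₀ (Ioc (P n0 - 1) (P n0 - 1 + h)) hA hS (3 * X) b
    (fun n => g n * ee (P n * ((r : ℝ) / s))) _
    (fun n => by rw [norm_mul, AV.norm_ee, mul_one]; exact hg n) hW
  have fin : nu (N * q ^ 18 / x₀) D * ((Ioc (P n0 - 1) (P n0 - 1 + h)).card * (s * ((Real.pi *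
      (N * q ^ 18))⁻¹ * ((X : ℝ) * H * N / q ^ 78)))) ≤ H * N * h / q ^ 75 := by
    have c : ((Ioc (P n0 - 1) (P n0 - 1 + h)).card : ℝ) = h := by
      rw [Int.card_Ioc, add_sub_cancel_left, Int.toNat_natCast]
    have := Real.pi_gt_three
    calc _ ≤ 3 * (N * q ^ 18 / x₀) * (h * (q * ((3 * (N * q ^ 18))⁻¹ *
          ((X : ℝ) * H * N / q ^ 78)))) := by rw [c]; gcongr
      _ = H * N * h / q ^ 75 * (U * N / (q ^ 2 * x₀)) := by rw [eX']; field_simp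
      _ ≤ _ := mul_le_of_le_one_right (by positivity) ((div_le_one (by positivity)).2 x2)
  refine (norm_le_norm_sub_add _ _).trans (add_le_add ?_ (key.trans fin))
  rw [← sum_sub_distrib, mul_assoc (A.card : ℝ)]
  refine (norm_sum_le _ _).trans ((sum_le_card_nsmul _ _ _ fun a ha => ?_).trans_eq
    (nsmul_eq_mul _ _))
  rw [← sum_sub_distrib]
  refine (norm_sum_le _ _).trans ((sum_le_card_nsmul _ _ _ fun n hn => ?_).trans_eq
    (nsmul_eq_mul _ _))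
  obtain ⟨y1, y2⟩ := hx a ha n hn
  obtain ⟨h6, hE⟩ := PVMajor_err hq U0.le N0.le ((Real.log_le_iff_le_exp N0).1 hN') hg₀
    (by positivity) hτ hτD η0 hη' (Nat.cast_nonneg D) hD (Nat.cast_nonneg d) hdq
    (Nat.cast_nonneg h) hh' (abs_nonneg _) (hP' n hn n0 hn0)
  have big : 8 * ((d * U : ℕ) : ℝ) ≤ η * (a * n ^ d : ℕ) := by
    refine le_of_mul_le_mul_right ?_ (pow_pos l0 36)
    have := pw (show 37 < 100 by norm_num)
    have := pow_pos l0 37
    calc _ = U * (8 * (d * q ^ 36)) := by push_cast; ring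
      _ ≤ U * (8 * (q * q ^ 36)) := by gcongr
      _ ≤ U * N := mul_le_mul_of_nonneg_left (by rw [show q * q ^ 36 = q ^ 37 by ring]; linarith) U0.le
      _ = 1 * (X : ℝ) := by rw [eX', one_mul]
      _ ≤ η * q ^ 34 * (q ^ 2 * (a * n ^ d : ℕ)) :=
        mul_le_mul hη (lo a ha n hn) (by positivity) (by positivity)
      _ = _ := by ring
  have big' : 16 * (d * U) ≤ a * n ^ d := by
    have : η * (a * n ^ d : ℕ) ≤ 1 / 2 * (a * n ^ d : ℕ) := by gcongr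
    exact_mod_cast (show 16 * ((d * U : ℕ) : ℝ) ≤ (a * n ^ d : ℕ) by linarith only [big, this])
  have UR : U ≤ d * U := Nat.le_mul_of_pos_left U hd
  have hU : h ≤ U := by
    have := mul_le_mul_of_nonneg_right (one_le_pow₀ (n := 4) l1) (Nat.cast_nonneg (α := ℝ) h)
    exact_mod_cast (show (h : ℝ) ≤ U by linarith only [hh, this])
  have DU : D ≤ U := by
    have := mul_le_mul_of_nonneg_left (one_le_pow₀ (n := 14) l1) (Nat.cast_nonneg (α := ℝ) D)
    exact_mod_cast (show (D : ℝ) ≤ U by linarith only [hD, this])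
  have U1 : 1 ≤ U := by exact_mod_cast U0
  have m1 := hi a ha n hn
  have p1 := abs_le.1 (hP n hn)
  have p2 := abs_le.1 (hP n0 hn0)
  have hG' : ∀ m : ℤ, 1 ≤ m → m ≤ (3 * X : ℕ) → ‖G m * ee (-(m * ((r : ℝ) / s)))‖ ≤ g₀ :=
    fun m h1 h2 => by
      rw [norm_mul, AV.norm_ee, mul_one]
      exact hG m h1 (by exact_mod_cast h2)
  have eR : ((d * U : ℕ) : ℝ) = d * U := Nat.cast_mul _ _
  generalize d * U = R at *
  have M := smooth (m := a * n ^ d) (h := h) (D := D) (Y := 3 * X) (R := R) (j₁ := P n0 - 1)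
    (fun m => G m * ee (-(m * ((r : ℝ) / s)))) T0 (by omega) y1 y2 big η1 (by omega) (by omega) h5
    (eR ▸ h6) (by omega) (by omega) hG'
  have M' := window (fun j => G ((a * n ^ d : ℕ) + j) *
    ee (-((((a * n ^ d : ℕ) + j : ℤ) : ℝ) * ((r : ℝ) / s)))) (g := g₀) (P n - 1) (P n0 - 1) h
    (fun j h1 h2 => hG' _ (by omega) (by omega))
    ((norm_nonneg _).trans (hG 1 le_rfl (by omega)))
  have e1 : ∑ j ∈ range h, G ((a : ℤ) * (n : ℤ) ^ d + P n + j) * ee (-(j * ((r : ℝ) / s))) =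
      ee (P n * ((r : ℝ) / s)) * ee (a * ((((n : ℤ) ^ d * r : ℤ) : ℝ) / s)) *
        ∑ j ∈ Ioc (P n - 1) (P n - 1 + h), G ((a * n ^ d : ℕ) + j) *
          ee (-((((a * n ^ d : ℕ) + j : ℤ) : ℝ) * ((r : ℝ) / s))) := by
    rw [← PVMajor_shift (fun j => G ((a * n ^ d : ℕ) + j) *
      ee (-((((a * n ^ d : ℕ) + j : ℤ) : ℝ) * ((r : ℝ) / s)))), mul_sum]
    refine sum_congr rfl fun j _ => ?_
    rw [mul_left_comm, ← ee_add, ← ee_add]
    push_cast
    rw [add_assoc]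
    refine congrArg (fun x => _ * ee x) ?_
    ring
  have e2 : ∀ m : ℕ, ee (-((m % s : ℕ) * ((r : ℝ) / s))) = ee (-(((m : ℤ) : ℝ) * (r / s))) :=
    fun m => by
      have := Major_mod hs m r
      rw [Int.cast_natCast] at this
      rw [← conj_ee, ← conj_ee, ← this, Int.cast_natCast]
  have e3 : ∀ x y u v z w : ℂ, x * y * (u * v * z) - x * (y * u) * v * w =
      x * y * (u * v) * (z - w) := fun _ _ _ _ _ _ => by ring
  simp only [e2]
  rw [e1, e3, norm_mul, norm_mul, norm_mul, norm_mul, AV.norm_ee, AV.norm_ee, mul_one, mul_one]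
  refine (mul_le_of_le_one_left (norm_nonneg _)
    (mul_le_one₀ (hb a) (norm_nonneg _) (hg n))).trans ((norm_sub_le_norm_sub_add_norm_sub _ _ _).trans
      ((add_le_add M' M).trans (le_of_eq_of_le ?_ hE)))
  rw [eR]
  push_cast
  rw [eX', sub_sub_sub_cancel_right]

lemma PVMajor_fin {q x h : ℝ} (hq : 1000 ≤ q) (hx : 0 ≤ x) (h0 : 0 ≤ h) :
    x * (h / q ^ 6 / 2) + q ^ 34 * (q ^ 34 * (x * h / q ^ 75)) ≤ x * h / q ^ 6 := by
  have q0 : 0 < q := by linarith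
  calc _ = x * h / q ^ 6 * (1 / 2 + 1 / q) := by field_simp
    _ ≤ _ := by
      refine mul_le_of_le_one_right (by positivity) ?_
      have : 1 / q ≤ 1 / 2 := by rw [div_le_iff₀ q0]; linarith only [hq]
      linarith only [this]

theorem major_d (d : ℕ) (hd : 1 ≤ d) (B K : ℕ) : ∃ A' : ℕ, ∀ᶠ N : ℕ in atTop,
    ∀ (H Q h : ℕ) (lam : ℝ), N ≤ H → H ≤ N ^ K → Real.log N ≤ lam → lam ^ d ≤ Q →
    (Q : ℝ) ≤ Real.log N ^ B → Q ^ 4 * h ≤ H * N ^ (d - 1) → H * N ^ (d - 1) ≤ 2 * (Q ^ 4 * h) →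
    ∀ G : ℤ → ℂ, (∀ m : ℤ, 1 ≤ m → m ≤ 3 * (H * N ^ d) → ‖G m‖ ≤ 3 * Real.log (H * N ^ d : ℕ)) →
    KeyP (H * N ^ d) (H * N ^ d) (1 / 2) A' G → ∀ s r : ℕ, 1 ≤ s → s ≤ Q →
    ∀ A S : Finset ℕ, Rg lam H A → Rg lam N S → ∀ b g : ℕ → ℂ, (∀ a, ‖b a‖ ≤ 1) →
    (∀ n, ‖g n‖ ≤ 1) → ∀ P : ℕ → ℤ, (∀ n ∈ S, |P n| ≤ d * (H * (N : ℤ) ^ (d - 1))) →
    (∀ n ∈ S, ∀ n' ∈ S,
      (N : ℝ) * |(P n : ℝ) - P n'| ≤ d ^ 2 * (H * (N : ℝ) ^ (d - 1)) * |(n : ℝ) - n'|) →
      ‖∑ a ∈ A, ∑ n ∈ S, b a * g n * ∑ j ∈ range h,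
          G ((a : ℤ) * (n : ℤ) ^ d + P n + j) * ee (-(j * ((r : ℝ) / s)))‖
        ≤ (H : ℝ) * N * h / (Q : ℝ) ^ 6 := by
  obtain ⟨A', hA'⟩ := tri (κ := 1 / (d + 1)) (by positivity) (78 * B)
  obtain ⟨N₀, h3⟩ := eventually_atTop.1 hA'
  refine ⟨A', ?_⟩
  filter_upwards [eventually_ge_atTop N₀, Major_ev one_pos (B * 100),
    TB_tend.eventually_ge_atTop 1000, TB_tend.eventually_ge_atTop (4 * (K + d + 1))]
    with N hN₀ hev hL hL'
  intro H Q h lam hNH hHN hl hlQ hQ hh hh' G hG hK s r hs hsQ A S hA hS b g hb hg P hP hP'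
  have K0 : (0 : ℝ) ≤ K := Nat.cast_nonneg K
  have d0 : (0 : ℝ) ≤ d := Nat.cast_nonneg d
  have l1 : 1 ≤ lam := by linarith only [hL, hl]
  have lq : lam ≤ Q := (le_self_pow₀ l1 (by omega)).trans hlQ
  have hq : (1000 : ℝ) ≤ Q := by linarith only [hL, hl, lq]
  have dq : (d : ℝ) ≤ Q := by linarith only [hL, hL', hl, lq]
  have q0 : (0 : ℝ) < Q := by linarith only [hL, hl, lq]
  have q1 : (1 : ℝ) ≤ Q := by linarith only [hL, hl, lq]
  have hN : (Q : ℝ) ^ 100 ≤ N := by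
    rw [pow_mul, Real.rpow_one] at hev
    exact (pow_le_pow_left₀ q0.le hQ _).trans hev
  have pw : ∀ {i k : ℕ}, i < k → 1000 * (Q : ℝ) ^ i ≤ (Q : ℝ) ^ k := fun {i k} h =>
    (mul_le_mul_of_nonneg_right hq (by positivity)).trans
      (by rw [← pow_succ']; exact pow_le_pow_right₀ q1 h)
  have N0 : (0 : ℝ) < N := lt_of_lt_of_le (by positivity) hN
  have N1 : 1 ≤ N := by exact_mod_cast N0
  have hNH' : (N : ℝ) ≤ H := by exact_mod_cast hNH
  have eX : H * N ^ d = H * N ^ (d - 1) * N := by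
    rw [mul_assoc, ← pow_succ, Nat.sub_add_cancel hd]
  have HU : H ≤ H * N ^ (d - 1) := Nat.le_mul_of_pos_right H (by positivity)
  have NX : N * N ≤ H * N ^ d := eX ▸ Nat.mul_le_mul_right N (hNH.trans HU)
  have NX' : N ≤ H * N ^ d := (Nat.le_mul_self N).trans NX
  have lX : Real.log N ≤ Real.log (H * N ^ d : ℕ) := Real.log_le_log N0 (by exact_mod_cast NX')
  have h78 : (Q : ℝ) ^ 78 ≤ Real.log (H * N ^ d : ℕ) ^ (78 * B) := by
    rw [pow_mul']
    exact pow_le_pow_left₀ q0.le (hQ.trans (pow_le_pow_left₀ (by linarith only [hL]) lX _)) _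
  have g0 : 3 * Real.log (H * N ^ d : ℕ) ≤ (Q : ℝ) ^ 2 := by
    have : Real.log (H * N ^ d : ℕ) ≤ Real.log ((N : ℝ) ^ (K + d)) :=
      Real.log_le_log (N0.trans_le (by exact_mod_cast NX')) (by
        rw [pow_add]
        exact_mod_cast Nat.mul_le_mul_right _ hHN)
    rw [Real.log_pow] at this
    push_cast at this ⊢
    calc _ ≤ 3 * ((K + d) * Real.log N) := by linarith only [this]
      _ = 3 * (K + d) * Real.log N := by ring
      _ ≤ Q * Q := mul_le_mul (by linarith only [hL, hL', hl, lq]) (by linarith only [hl, lq]) (by linarith only [hL]) q0.le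
      _ = _ := by ring
  have hκ : ((H * N ^ d : ℕ) : ℝ) ^ (1 / (d + 1) : ℝ) ≤ H := by
    have e : (1 / (d + 1) : ℝ) = ((d + 1 : ℕ) : ℝ)⁻¹ := by rw [one_div, Nat.cast_succ]
    rw [e]
    refine le_of_le_of_eq (Real.rpow_le_rpow (Nat.cast_nonneg _) ?_ (by positivity))
      (Real.pow_rpow_inv_natCast (Nat.cast_nonneg H) (Nat.succ_ne_zero d))
    rw [pow_succ']
    exact_mod_cast Nat.mul_le_mul_left H (Nat.pow_le_pow_left hNH d)
  have eK : ((Q ^ 34 : ℕ) : ℝ) = (Q : ℝ) ^ 34 := Nat.cast_pow _ _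
  have K1 : 1 ≤ Q ^ 34 := by exact_mod_cast one_le_pow₀ (n := 34) q1
  have KN : Q ^ 34 ≤ N := by
    exact_mod_cast (pow_le_pow_right₀ q1 (show 34 ≤ 100 by norm_num)).trans hN
  have dl : 4 * (d + 1) * lam ≤ (Q : ℝ) ^ 3 :=
    (mul_le_mul (by linarith only [hL', hl, lq]) lq (by linarith only [hL, hl]) q0.le).trans
      (by rw [← sq]; exact pow_le_pow_right₀ q1 (by norm_num))
  have T0 : 0 < N * (Q : ℝ) ^ 18 := by positivity
  generalize Q ^ 34 = L at eK K1 KN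
  have blk : ∀ i j, ‖∑ a ∈ Blk A H L i, ∑ n ∈ Blk S N L j, b a * g n *
      ∑ j ∈ range h, G ((a : ℤ) * (n : ℤ) ^ d + P n + j) * ee (-(j * ((r : ℝ) / s)))‖ ≤
      (Blk A H L i).card * (Blk S N L j).card * (h / (Q : ℝ) ^ 6 / 2) +
        (H : ℝ) * N * h / (Q : ℝ) ^ 75 := fun i j => by
    have hA1 : Rg lam H (Blk A H L i) := hA.mono (filter_subset _ _)
    have hS1 : Rg lam N (Blk S N L j) := hS.mono (filter_subset _ _)
    obtain ⟨x₀, hx⟩ := base_pt (d := d) (K := L) (i := i) (j := j) hA hS l1 (by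
      have := pow_le_pow_right₀ q1 (show 3 ≤ 34 by norm_num)
      have : 0 ≤ (d + 1) * lam := by positivity
      rw [eK]
      linarith) KN hNH
    refine PVMajor_blk hd hq dq hN (hl.trans lq) (hNH.trans HU) eX
      (by exact_mod_cast hh) (by exact_mod_cast hh') (fun m h1 h2 => hG m h1 (by exact_mod_cast h2))
      g0 hs (by exact_mod_cast hsQ) hA1.pos hS1.pos (fun a ha n hn => ?_)
      (fun a ha n hn => Nat.mul_le_mul (hA1.hi a ha) (Nat.pow_le_pow_left (hS1.hi n hn) d))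
      ?_ ?_ hx hb hg (fun n hn => by exact_mod_cast hP n (filter_subset _ _ hn))
      (fun n hn n' hn' => ?_) fun A'' hs' g' hg' => ?_
    · have a1 := hA1.lo a ha
      have a2 := pow_le_pow_left₀ N0.le (hS1.lo n hn) d
      push_cast
      calc _ ≤ lam * a * (lam * n) ^ d := mul_le_mul a1 a2 (by positivity) (by positivity)
        _ = lam * lam ^ d * (a * n ^ d) := by ring
        _ ≤ Q * Q * (a * n ^ d) := by gcongr
        _ = _ := by ring
    · rw [eK, div_mul_cancel₀ _ (by positivity)]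
      linarith only [hL, hl, mul_nonneg_of_nonpos_of_nonpos (Mathlib.Tactic.Linarith.sub_nonpos_of_le (Mathlib.Tactic.Linarith.natCast_nonneg ℝ d)) (Mathlib.Tactic.Linarith.sub_nonpos_of_le hL), mul_nonneg_of_nonpos_of_nonpos (Mathlib.Tactic.Linarith.sub_nonpos_of_le (Mathlib.Tactic.Linarith.natCast_nonneg ℝ d)) (Mathlib.Tactic.Linarith.sub_nonpos_of_le hl)]
    · rw [eK, div_mul_eq_mul_div, div_le_one (by positivity)]
      exact (mul_le_mul_of_nonneg_right dl (by positivity)).trans_eq (by ring)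
    · have a1 := hP' n (filter_subset _ _ hn) n' (filter_subset _ _ hn')
      have a2 := blk_dist K1 KN hn hn'
      rw [eK] at a2
      refine le_of_mul_le_mul_left ?_ N0
      push_cast
      calc _ = N * |(P n : ℝ) - P n'| * (Q : ℝ) ^ 32 := by ring
        _ ≤ (Q : ℝ) ^ 2 * (H * (N : ℝ) ^ (d - 1)) * (2 * N / (Q : ℝ) ^ 34) * (Q : ℝ) ^ 32 := by
          refine mul_le_mul_of_nonneg_right (a1.trans ?_) (by positivity)
          gcongr
        _ = _ := by field_simp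
    · have c1 : ((Blk S N L j).card : ℝ) ≤ N := by exact_mod_cast hS1.card
      have p18 := pw (show 18 < 78 by norm_num)
      have o18 := one_le_pow₀ (n := 18) q1
      refine (h3 (H * N ^ d) (hN₀.trans NX') H s _ N hκ (Nat.le_mul_of_pos_right H (by positivity)) hs
        (le_trans (by exact_mod_cast hsQ) ((le_self_pow₀ q1 (by norm_num)).trans h78)) T0 ?_ N0 G
        (fun m h1 h2 => hG m h1 (by exact_mod_cast h2)) hK (fun x => ee (-(x * ((r : ℝ) / s))))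
        (fun _ => (AV.norm_ee _).le) A'' (fun a ha => ?_) _
        (fun a => (Complex.norm_conj _).trans_le (hb a)) _ (trig_dil d _ g')
        (fun u => (norm_DP_le_card _ hg' _).trans c1) ?_).trans
        (div_le_div_of_nonneg_left (by positivity) (by positivity) h78)
      · refine le_trans ?_ (show ((N * N : ℕ) : ℝ) ≤ _ by exact_mod_cast NX)
        rw [Nat.cast_mul]
        exact mul_le_mul_of_nonneg_left
          ((pow_le_pow_right₀ q1 (show 18 ≤ 100 by norm_num)).trans hN) N0.le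
      · have ha := hs' ha
        refine mem_Ioc.2 ⟨(hA1.pos a ha).lt_of_ne fun e => ?_, hA1.hi a ha⟩
        have a1 := hA1.lo a ha
        have a2 := pw (show 1 < 100 by norm_num)
        rw [← e, Nat.cast_one] at a1
        rw [pow_one] at a2
        linarith only [hL, hl, lq, hN, hNH', a1, a2]
      · have a1 : ∑ n ∈ Blk S N L j, ‖g' n‖ ^ 2 ≤ N :=
          ((sum_le_card_nsmul _ _ 1 fun n _ => pow_le_one₀ (norm_nonneg _) (hg' n)).trans_eq
            (by rw [nsmul_eq_mul, mul_one])).trans c1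
        have := Real.pi_le_four
        calc _ ≤ _ := MS_dil hd hS1.sub g' T0
          _ ≤ 4 * (N * (Q : ℝ) ^ 18 + 2 * N) * N := by gcongr
          _ = (N : ℝ) ^ 2 * (4 * (Q : ℝ) ^ 18 + 8) := by ring
          _ ≤ _ := mul_le_mul_of_nonneg_left (le_trans (by linarith only [p18, o18]) h78) (by positivity)
  have cd : ∀ {T : Finset ℕ} {M : ℕ}, Rg lam M T →
      ∑ i ∈ range L, ((Blk T M L i).card : ℝ) ≤ M := fun {T M} hT => by
    have := sum_Blk K1 hT.hi fun _ => 1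
    simp only [sum_const, smul_eq_mul, mul_one] at this
    exact_mod_cast this ▸ hT.card
  have e : ∀ f : ℕ → ℕ → ℂ, ∑ a ∈ A, ∑ n ∈ S, f a n = ∑ i ∈ range L, ∑ j ∈ range L,
      ∑ a ∈ Blk A H L i, ∑ n ∈ Blk S N L j, f a n := fun f => by
    rw [sum_Blk K1 hA.hi]
    exact sum_congr rfl fun i _ => (sum_congr rfl fun a _ => sum_Blk K1 hS.hi _).trans sum_comm
  rw [e]
  refine (norm_sum_le_of_le _ fun i _ => norm_sum_le_of_le _ fun j _ => blk i j).trans ?_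
  simp only [sum_add_distrib, ← sum_mul, ← mul_sum, sum_const, card_range, nsmul_eq_mul]
  have c1 := cd hA
  have c2 := cd hS
  calc _ ≤ (H : ℝ) * N * (h / (Q : ℝ) ^ 6 / 2) +
        (Q : ℝ) ^ 34 * ((Q : ℝ) ^ 34 * ((H : ℝ) * N * h / (Q : ℝ) ^ 75)) := by
        rw [← eK, mul_assoc (L : ℝ) L]
        exact add_le_add (mul_le_mul_of_nonneg_right (mul_le_mul c1 c2
          (sum_nonneg fun _ _ => Nat.cast_nonneg _) (Nat.cast_nonneg _)) (by positivity)) le_rfl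
    _ ≤ _ := PVMajor_fin hq (by positivity) (Nat.cast_nonneg h)

end Pool.Agent.Work.MP_51e72e_nt.PV
end
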