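import Pool.Agent.Work.MP_51e72e_nt.PV.Mult
import Pool.Agent.Work.MP_51e72e_nt.PV.Count
import Pool.Agent.Work.MP_51e72e_nt.PV.Major
import Pool.Agent.Work.MP_51e72e_nt.AV.Tele

-- merged part: Pool.Agent.Work.MP_51e72e_nt.PV.Schur
section
/-! The Schur test on the frequency side. -/

set_option autoImplicit false
open Finset Filter MeasureTheory Pool.Agent.Lib.MR Pool.Agent.Lib.LargeSieve
open Pool.Agent.Work.MP_678620_nt Pool.Agent.Work.MP_51e72e_nt.AV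

namespace Pool.Agent.Work.MP_51e72e_nt.PV

/-- The additive character. -/
noncomputable def PVSchur_E (M : ℕ) (c y : ℤ) : ℂ := ee ((c : ℝ) * y / M)

lemma PVSchur_add (M : ℕ) (c y y' : ℤ) :
    PVSchur_E M c (y + y') = PVSchur_E M c y * PVSchur_E M c y' := by
  rw [PVSchur_E, PVSchur_E, PVSchur_E, ← ee_add, Int.cast_add, mul_add, add_div]

lemma PVSchur_sub (M : ℕ) (c y y' : ℤ) :
    PVSchur_E M c y * (starRingEnd ℂ) (PVSchur_E M c y') = PVSchur_E M c (y - y') := by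
  rw [PVSchur_E, PVSchur_E, PVSchur_E, conj_ee, ← ee_add, Int.cast_sub, mul_sub, sub_div,
    sub_eq_add_neg]

lemma PVSchur_orth {M : ℕ} (hM : 0 < M) (b y : ℤ) :
    ‖∑ c ∈ Ico b (b + M), PVSchur_E M c y‖ ≤ if (M : ℤ) ∣ y then (M : ℝ) else 0 := by
  have M0 : (0 : ℤ) < M := by exact_mod_cast hM
  have M1 : (M : ℝ) ≠ 0 := by exact_mod_cast hM.ne'
  have h := Four_orth hM (u := y % M) (by have := Int.emod_nonneg y M0.ne'; omega)
    (Int.emod_lt_of_pos y M0)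
  have e : ∑ c ∈ Ico b (b + M), PVSchur_E M c y =
      ee (b * y / M) * ∑ t ∈ range M, ee ((y % M : ℤ) * ((t : ℝ) / M)) := by
    rw [Int.Ico_eq_finset_map, sum_map, add_sub_cancel_left, Int.toNat_natCast, mul_sum]
    refine sum_congr rfl fun t _ => ?_
    have e1 : (y : ℝ) = (y % M : ℤ) + M * (y / M : ℤ) := by
      exact_mod_cast (Int.emod_add_mul_ediv y M).symm
    rw [← ee_add, ← ee_add_int _ (t * (y / M))]
    refine congrArg ee ?_
    simp only [Function.Embedding.trans_apply, Nat.castEmbedding_apply, addLeftEmbedding_apply,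
      Int.cast_add, Int.cast_mul, Int.cast_natCast]
    generalize ((y % M : ℤ) : ℝ) = r at *
    generalize ((y / M : ℤ) : ℝ) = q at *
    rw [e1]
    field_simp
    ring
  rw [e, h, norm_mul, Pool.Agent.Lib.LargeSieve.norm_ee, one_mul]
  simp only [← Int.dvd_iff_emod_eq_zero]
  split_ifs <;> simp

/-- The weight. -/
noncomputable def PVSchur_w (M L : ℕ) (c : ℤ) : ℝ :=
  4 / ((L : ℝ) + 1) ^ 2 * ‖∑ s ∈ range (L + 1), PVSchur_E M c s‖ ^ 2

lemma PVSchur_w0 (M L : ℕ) (c : ℤ) : 0 ≤ PVSchur_w M L c := by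
  unfold PVSchur_w
  positivity

lemma PVSchur_w1 {M L H : ℕ} (hM : 0 < M) (hL : 8 * H * L ≤ M) {c : ℤ} (hc : |c| ≤ H) :
    1 ≤ PVSchur_w M L c := by
  have M1 : (0 : ℝ) < M := by exact_mod_cast hM
  have h1 : ∀ s ∈ range (L + 1), (1 / 2 : ℝ) ≤ (PVSchur_E M c s).re := fun s hs => by
    have s1 : (s : ℝ) ≤ L := by exact_mod_cast Nat.lt_succ_iff.1 (mem_range.1 hs)
    have c1 : |(c : ℝ)| ≤ H := by exact_mod_cast hc
    have l1 : 8 * (H : ℝ) * L ≤ M := by exact_mod_cast hL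
    have x1 : |(c : ℝ) * (s : ℤ) / M| ≤ 1 / 8 := by
      rw [abs_div, abs_mul, Int.cast_natCast, Nat.abs_cast, Nat.abs_cast, div_le_iff₀ M1]
      have := mul_le_mul c1 s1 (Nat.cast_nonneg _) (Nat.cast_nonneg _)
      linarith only [l1, this]
    rw [PVSchur_E, ee, mul_comm, Complex.exp_ofReal_mul_I_re]
    generalize (c : ℝ) * (s : ℤ) / M = x at x1
    refine le_trans ?_ Real.one_sub_sq_div_two_le_cos
    have x2 : |2 * Real.pi * x| ≤ 1 := by
      rw [abs_mul, abs_of_pos Real.two_pi_pos]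
      linarith only [x1, Real.pi_le_four, Real.pi_pos, abs_nonneg x, mul_nonneg_of_nonpos_of_nonpos (Mathlib.Tactic.Linarith.sub_nonpos_of_le x1) (le_of_lt (Mathlib.Tactic.Linarith.sub_neg_of_lt Real.pi_pos))]
    have x3 := (sq_le_one_iff_abs_le_one _).2 x2
    linarith only [x3]
  have h2 : ((L : ℝ) + 1) / 2 ≤ ‖∑ s ∈ range (L + 1), PVSchur_E M c s‖ := by
    refine le_trans ?_ (Complex.re_le_norm _)
    rw [Complex.re_sum]
    refine le_trans (le_of_eq ?_) (card_nsmul_le_sum _ _ _ h1)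
    rw [card_range, nsmul_eq_mul]
    push_cast
    ring
  refine le_trans (le_of_eq ?_) (mul_le_mul_of_nonneg_left
    (pow_le_pow_left₀ (by positivity) h2 2) (by positivity))
  field_simp
  norm_num

open Classical in
lemma PVSchur_F {M L : ℕ} (hL : L < M) (b x : ℤ) :
    ‖∑ c ∈ Ico b (b + M), (PVSchur_w M L c : ℂ) * PVSchur_E M c x‖ ≤
      if Cl M L x then 4 * (M : ℝ) / (L + 1) else 0 := by
  have e : ∑ c ∈ Ico b (b + M), (PVSchur_w M L c : ℂ) * PVSchur_E M c x =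
      ((4 / ((L : ℝ) + 1) ^ 2 : ℝ) : ℂ) * ∑ s ∈ range (L + 1), ∑ s' ∈ range (L + 1),
        ∑ c ∈ Ico b (b + M), PVSchur_E M c (s - s' + x) := by
    simp only [sum_comm (t := Ico b (b + M))]
    rw [mul_sum]
    refine sum_congr rfl fun c _ => ?_
    rw [PVSchur_w, Complex.ofReal_mul, Complex.ofReal_pow, ← Complex.mul_conj', map_sum,
      sum_mul_sum, mul_assoc, sum_mul]
    refine congrArg _ (sum_congr rfl fun s _ => ?_)
    rw [sum_mul]
    exact sum_congr rfl fun s' _ => by rw [PVSchur_sub, PVSchur_add]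
  have h1 : ∀ s ∈ range (L + 1), ‖∑ s' ∈ range (L + 1), ∑ c ∈ Ico b (b + M),
      PVSchur_E M c (s - s' + x)‖ ≤ if Cl M L x then (M : ℝ) else 0 := fun s hs => by
    refine (norm_sum_le_of_le _ fun s' _ => PVSchur_orth (by omega) b _).trans ?_
    rw [← sum_filter, sum_const, nsmul_eq_mul]
    split_ifs with h
    · refine mul_le_of_le_one_left (Nat.cast_nonneg _) ?_
      have : ((range (L + 1)).filter fun s' : ℕ => (M : ℤ) ∣ s - s' + x).card ≤ 1 := by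
        refine card_le_one.2 fun u hu v hv => ?_
        obtain ⟨u1, u2⟩ := mem_filter.1 hu
        obtain ⟨v1, v2⟩ := mem_filter.1 hv
        have := Int.eq_zero_of_abs_lt_dvd (dvd_sub u2 v2) (by
          rw [mem_range] at u1 v1
          rw [abs_lt]
          omega)
        omega
      exact_mod_cast this
    · rw [filter_false_of_mem, card_empty, Nat.cast_zero, zero_mul]
      refine fun s' hs' k => h ⟨s' - s, ?_, by rwa [show x - (s' - s) = s - s' + x by ring]⟩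
      rw [mem_range] at hs hs'
      rw [abs_le]
      omega
  rw [e, norm_mul, Complex.norm_real, Real.norm_of_nonneg (by positivity)]
  refine (mul_le_mul_of_nonneg_left (norm_sum_le_of_le _ h1) (by positivity)).trans_eq ?_
  rw [sum_const, card_range, nsmul_eq_mul]
  push_cast
  split_ifs
  · field_simp
  · simp

lemma PVSchur_exp {ι : Type} {k : ℕ} (M : ℕ) (I : Finset ι) (b : ι → ℂ) (y : ι → Fin k → ℤ)
    (w : ℤ → ℝ) (R : Finset ℤ) :
    ∑ c ∈ Fintype.piFinset fun _ : Fin k => R,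
      (∏ i, w (c i)) * ‖∑ p ∈ I, b p * ∏ i, PVSchur_E M (c i) (y p i)‖ ^ 2 ≤
      ∑ p ∈ I, ∑ q ∈ I, ‖b p‖ * ‖b q‖ *
        ∏ i, ‖∑ c ∈ R, (w c : ℂ) * PVSchur_E M c (y p i - y q i)‖ := by
  have e : ((∑ c ∈ Fintype.piFinset fun _ : Fin k => R,
      (∏ i, w (c i)) * ‖∑ p ∈ I, b p * ∏ i, PVSchur_E M (c i) (y p i)‖ ^ 2 : ℝ) : ℂ) =
      ∑ p ∈ I, ∑ q ∈ I, b p * (starRingEnd ℂ) (b q) *
        ∏ i, ∑ c ∈ R, (w c : ℂ) * PVSchur_E M c (y p i - y q i) := by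
    simp only [prod_univ_sum, mul_sum, sum_comm (t := Fintype.piFinset fun _ : Fin k => R)]
    rw [Complex.ofReal_sum]
    refine sum_congr rfl fun c _ => ?_
    rw [Complex.ofReal_mul, Complex.ofReal_pow, ← Complex.mul_conj', map_sum, sum_mul_sum, mul_sum]
    refine sum_congr rfl fun p _ => ?_
    rw [mul_sum]
    refine sum_congr rfl fun q _ => ?_
    simp only [← PVSchur_sub, prod_mul_distrib, map_mul, map_prod, Complex.ofReal_prod]
    ring
  refine (le_abs_self _).trans ?_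
  rw [← Real.norm_eq_abs, ← Complex.norm_real, e]
  refine norm_sum_le_of_le _ fun p _ => norm_sum_le_of_le _ fun q _ => le_of_eq ?_
  rw [norm_mul, norm_mul, Complex.norm_conj, norm_prod]

lemma PVSchur_even {M L : ℕ} {x y : ℤ} (h : Cl M L (x - y)) : Cl M L (y - x) := by
  obtain ⟨u, h1, h2⟩ := h
  exact ⟨-u, by rwa [abs_neg], by
    rw [show y - x - -u = -(x - y - u) by ring]
    exact h2.neg_right⟩

theorem schur {d M L H : ℕ} (hH : 1 ≤ H) (hM : 2 * H + 1 ≤ M) (hL : 8 * H * L ≤ M)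
    (S : Finset ℕ) (a g : ℕ → ℂ) (hg : ∀ n, ‖g n‖ ≤ 1) :
    ∑ c ∈ Cube d H, ‖∑ n ∈ S, g n * ∑ t ∈ range M, a t * ee (t * (pe c n : ℝ) / M)‖ ^ 2
      ≤ (4 * (M : ℝ) / (L + 1)) ^ (d + 1) * ∑ t ∈ range M, ‖a t‖ ^ 2 * cn d M L S t := by
  classical
  have M0 : 0 < M := by omega
  have LM : L < M := by nlinarith only [hH, hL, hM]
  set y : ℕ × ℕ → Fin (d + 1) → ℤ := fun p i => (p.1 : ℤ) ^ (i : ℕ) * p.2 with hy
  set χ : ℕ × ℕ → ℕ × ℕ → ℝ := fun p q => if ∀ i, Cl M L (y p i - y q i) then 1 else 0 with hχ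
  set B : ℝ := 4 * (M : ℝ) / (L + 1) with hB
  have χs : ∀ p q, χ p q = χ q p := fun p q =>
    if_congr ⟨fun h i => PVSchur_even (h i), fun h i => PVSchur_even (h i)⟩ rfl rfl
  have e1 : ∀ c : Fin (d + 1) → ℤ,
      ∑ n ∈ S, g n * ∑ t ∈ range M, a t * ee (t * (pe c n : ℝ) / M) =
      ∑ p ∈ S ×ˢ range M, g p.1 * a p.2 * ∏ i, PVSchur_E M (c i) (y p i) := fun c => by
    rw [sum_product]
    refine sum_congr rfl fun n _ => ?_
    rw [mul_sum]
    refine sum_congr rfl fun t _ => ?_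
    rw [mul_assoc]
    congr 2
    simp only [PVSchur_E, ee, ← Complex.exp_sum, ← mul_sum, ← Complex.ofReal_sum, ← sum_div, pe, hy]
    congr 5
    push_cast
    rw [mul_sum]
    exact sum_congr rfl fun i _ => by ring
  have s1 : Cube d H ⊆ Fintype.piFinset fun _ : Fin (d + 1) => Ico (-(H : ℤ)) (-(H : ℤ) + M) :=
    Fintype.piFinset_subset _ _ fun _ => Icc_subset_Ico_right (by omega)
  simp only [e1]
  refine le_trans ((sum_le_sum fun c hc => le_mul_of_one_le_left (sq_nonneg _)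
    (a := ∏ i, PVSchur_w M L (c i)) (one_le_prod fun i _ => PVSchur_w1 M0 hL
      (abs_le.2 (mem_Icc.1 (Fintype.mem_piFinset.1 hc i))))).trans
    (sum_le_sum_of_subset_of_nonneg s1 fun c _ _ =>
      mul_nonneg (prod_nonneg fun i _ => PVSchur_w0 M L _) (sq_nonneg _)))
    ((PVSchur_exp M _ _ y _ _).trans ?_)
  have h1 : ∀ p q : ℕ × ℕ, ‖g p.1 * a p.2‖ * ‖g q.1 * a q.2‖ *
      ∏ i, ‖∑ c ∈ Ico (-(H : ℤ)) (-(H : ℤ) + M),
        (PVSchur_w M L c : ℂ) * PVSchur_E M c (y p i - y q i)‖ ≤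
      B ^ (d + 1) / 2 * (‖a p.2‖ ^ 2 * χ p q) + B ^ (d + 1) / 2 * (‖a q.2‖ ^ 2 * χ q p) := by
    intro p q
    have k1 : ∀ p : ℕ × ℕ, ‖g p.1 * a p.2‖ ≤ ‖a p.2‖ := fun p => by
      rw [norm_mul]
      exact mul_le_of_le_one_left (norm_nonneg _) (hg _)
    have k2 : ‖g p.1 * a p.2‖ * ‖g q.1 * a q.2‖ ≤ (‖a p.2‖ ^ 2 + ‖a q.2‖ ^ 2) / 2 :=
      (mul_le_mul (k1 p) (k1 q) (norm_nonneg _) (norm_nonneg _)).trans
        (by linarith only [sq_nonneg (‖a p.2‖ - ‖a q.2‖), sq_nonneg (‖a p.2‖ - ‖a q.2‖)])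
    have k3 : ∏ i, ‖∑ c ∈ Ico (-(H : ℤ)) (-(H : ℤ) + M),
        (PVSchur_w M L c : ℂ) * PVSchur_E M c (y p i - y q i)‖ ≤ B ^ (d + 1) * χ p q := by
      refine (prod_le_prod (fun _ _ => norm_nonneg _) fun i _ => PVSchur_F LM _ _).trans_eq ?_
      rw [Fintype.prod_ite_zero, prod_const, card_univ, Fintype.card_fin]
      simp only [hχ, mul_ite, mul_one, mul_zero, hB]
      split_ifs <;> rfl
    refine (mul_le_mul k2 k3 (prod_nonneg fun _ _ => norm_nonneg _) (by positivity)).trans_eq ?_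
    rw [χs q p]
    ring
  refine (sum_le_sum fun p _ => sum_le_sum fun q _ => h1 p q).trans_eq ?_
  simp only [sum_add_distrib]
  rw [sum_comm (f := fun p q => B ^ (d + 1) / 2 * (‖a q.2‖ ^ 2 * χ q p)), ← two_mul]
  simp only [← mul_sum]
  rw [← mul_assoc, mul_div_cancel₀ _ two_ne_zero, sum_product_right]
  refine congrArg _ (sum_congr rfl fun t _ => ?_)
  rw [cn, card_filter, sum_product, Nat.cast_sum, mul_sum]
  refine sum_congr rfl fun n _ => congrArg _ ?_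
  rw [Nat.cast_sum]
  refine sum_congr rfl fun q _ => ?_
  simp only [hχ, hy, Nat.cast_ite, Nat.cast_one, Nat.cast_zero]

end Pool.Agent.Work.MP_51e72e_nt.PV
end

-- merged part: Pool.Agent.Work.MP_51e72e_nt.PV.Minor
section
/-! The minor arc part. -/

set_option autoImplicit false
open Finset Filter MeasureTheory Pool.Agent.Lib.MR Pool.Agent.Lib.LargeSieve
open Pool.Agent.Work.MP_678620_nt Pool.Agent.Work.MP_51e72e_nt.AV

namespace Pool.Agent.Work.MP_51e72e_nt.PV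

theorem PVMinor_pt {d Q N H h : ℕ} {lam : ℝ} {S : Finset ℕ} (hd : 1 ≤ d) (hS : Rg lam N S)
    (hl : 1 ≤ lam) (hQ : lam ^ d ≤ Q) (hQN : Q ≤ N) (hH : Q ^ 6 * N ≤ H) (hN : 2 ≤ N)
    (hh : Q ^ 4 * h ≤ H * N ^ (d - 1)) (hh' : Q ^ 5 ≤ h) (t : ℕ) :
    ‖psi Q h ((t : ℝ) / (3 * (H * N ^ d) : ℕ))‖ ^ 2 *
      (cn d (3 * (H * N ^ d)) (3 * (H * N ^ d) / (8 * H)) S t : ℝ) ≤ 810 * lam ^ d * N ^ 2 / Q := by
  have q1 : (1 : ℝ) ≤ Q := (one_le_pow₀ hl).trans hQ
  have q1' : 1 ≤ Q := by exact_mod_cast q1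
  have h1 : 1 ≤ h := (Nat.one_le_pow _ _ q1').trans hh'
  have l0 : 0 ≤ lam ^ d * N ^ 2 := by positivity
  by_cases hα : Mj Q ((Q : ℝ) ^ 3 / (H * (N : ℝ) ^ (d - 1))) ((t : ℝ) / (3 * (H * N ^ d) : ℕ))
  · have u1 : 2 * Q ^ 5 ≤ H * N ^ (d - 1) :=
      calc 2 * Q ^ 5 ≤ N * Q ^ 6 := Nat.mul_le_mul hN (Nat.pow_le_pow_right q1' (by norm_num))
        _ ≤ H := by rwa [mul_comm]
        _ ≤ _ := Nat.le_mul_of_pos_right _ (by positivity)
    have u2 : 2 * (Q : ℝ) ^ 5 ≤ H * (N : ℝ) ^ (d - 1) := by exact_mod_cast u1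
    have u3 : (Q : ℝ) ^ 4 * h ≤ H * (N : ℝ) ^ (d - 1) := by exact_mod_cast hh
    have u4 : (Q : ℝ) ^ 5 ≤ h := by exact_mod_cast hh'
    have u0 : (0 : ℝ) < H * (N : ℝ) ^ (d - 1) := lt_of_lt_of_le (by positivity) u2
    have h0 : (0 : ℝ) < h := by exact_mod_cast h1
    have p := psi_maj h1 (by
      rw [← mul_div_assoc, div_le_one u0]
      exact le_of_eq_of_le (by ring) u2) hα
    have a1 : h * ((Q : ℝ) ^ 3 / (H * (N : ℝ) ^ (d - 1))) ≤ 1 / Q := by
      rw [← mul_div_assoc, div_le_div_iff₀ u0 (by positivity)]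
      exact le_of_eq_of_le (by ring) (u3.trans_eq (one_mul _).symm)
    have a2 : (Q : ℝ) ^ 4 / h ≤ 1 / Q := by
      rw [div_le_div_iff₀ h0 (by positivity)]
      exact le_of_eq_of_le (by ring) (u4.trans_eq (one_mul _).symm)
    have a3 : (1 : ℝ) / Q ≤ 1 := by rw [div_le_one (by positivity)]; exact q1
    have a0 : (0 : ℝ) ≤ 1 / Q := by positivity
    have p2 : ‖psi Q h ((t : ℝ) / (3 * (H * N ^ d) : ℕ))‖ ^ 2 ≤ 64 * (1 / Q) :=
      (pow_le_pow_left₀ (norm_nonneg _) (p.trans (show _ ≤ 8 * (1 / (Q : ℝ)) by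
        rw [mul_assoc]; linarith only [a1, a2])) 2).trans (by linarith only [a3, a0, mul_nonneg_of_nonpos_of_nonpos (Mathlib.Tactic.Linarith.sub_nonpos_of_le a3) (Mathlib.Tactic.Linarith.sub_nonpos_of_le a0)])
    refine (mul_le_mul p2 (cn_le hS hl (by omega)
      ((Nat.le_mul_of_pos_left _ (by positivity)).trans hH) t) (by positivity)
      (by positivity)).trans ?_
    rw [div_eq_mul_one_div (810 * lam ^ d * N ^ 2) (Q : ℝ)]
    linarith only [l0, a0, mul_nonneg l0 a0]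
  · refine (mul_le_mul (pow_le_pow_left₀ (norm_nonneg _)
      (psi_le h1 ((Nat.pow_le_pow_right q1' (by norm_num)).trans hh') _) 2)
      (cn_minor hd hS hl hQ hQN hH t hα) (by positivity) (by positivity)).trans_eq ?_
    ring

theorem minor_d {d Q N H h : ℕ} {lam g₀ : ℝ} {S : Finset ℕ} (hd : 1 ≤ d) (hS : Rg lam N S)
    (hl : 1 ≤ lam) (hQ : lam ^ d ≤ Q) (hQN : Q ≤ N) (hH : Q ^ 6 * N ≤ H)
    (hN : 2 * d * lam ^ 2 ≤ N) (hh : Q ^ 4 * h ≤ H * N ^ (d - 1)) (hh' : Q ^ 5 ≤ h)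
    (G : ℤ → ℂ) (hg₀ : 0 ≤ g₀) (hG : ∀ m : ℤ, 1 ≤ m → m ≤ 3 * (H * N ^ d) → ‖G m‖ ≤ g₀)
    (g : ℕ → ℂ) (hg : ∀ n, ‖g n‖ ≤ 1) :
    ∑ c ∈ PX lam d H, ‖∑ n ∈ S, g n * (G (pe c n) - Gm Q h G (pe c n))‖ ^ 2
      ≤ 1000 * (32 * (H : ℝ)) ^ (d + 1) * g₀ ^ 2 * lam ^ d * N ^ 2 / Q := by
  have d1 : (1 : ℝ) ≤ d := by exact_mod_cast hd
  have n2 : 2 ≤ N := by
    have : (2 : ℝ) ≤ N := by linarith only [hN, hl, d1, one_le_pow₀ (n := 2) hl, mul_nonneg_of_nonpos_of_nonpos (Mathlib.Tactic.Linarith.sub_nonpos_of_le (sq_nonneg lam)) (Mathlib.Tactic.Linarith.sub_nonpos_of_le d1)]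
    exact_mod_cast this
  have q1 : (1 : ℝ) ≤ Q := (one_le_pow₀ hl).trans hQ
  have q1' : 1 ≤ Q := by exact_mod_cast q1
  have h1 : 1 ≤ h := (Nat.one_le_pow _ _ q1').trans hh'
  have H1 : 1 ≤ H := le_trans (by have : 0 < Q ^ 6 * N := by positivity
                                  omega) hH
  have X1 : H ≤ H * N ^ d := Nat.le_mul_of_pos_right _ (by positivity)
  have X2 : h ≤ H * N ^ d := ((Nat.le_mul_of_pos_left _ (by positivity)).trans hh).trans
    (Nat.mul_le_mul_left _ (Nat.pow_le_pow_right (by omega) (by omega)))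
  obtain ⟨a, a1, a2⟩ := dft (M := 3 * (H * N ^ d)) Q (by omega) h1 G hg₀
    fun m m1 m2 => hG m m1 (by exact_mod_cast m2.le)
  have s := schur (d := d) (M := 3 * (H * N ^ d)) (L := 3 * (H * N ^ d) / (8 * H)) H1 (by omega)
    (Nat.mul_div_le _ _) S (fun t => a t * psi Q h ((t : ℝ) / (3 * (H * N ^ d) : ℕ))) g hg
  refine (le_of_eq_of_le (sum_congr rfl fun c hc => ?_) ((sum_le_sum_of_subset_of_nonneg
    (PX_sub lam d H) fun _ _ _ => by positivity).trans s)).trans ?_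
  · refine congrArg (fun z : ℂ => ‖z‖ ^ 2) (sum_congr rfl fun n hn => ?_)
    obtain ⟨-, p1, p2⟩ := pe_range hd hc hS hn (by linarith only [hl]) hN
    have X3 : (h : ℤ) ≤ H * N ^ d := by exact_mod_cast X2
    rw [a2 _ p1 (by push_cast; linarith only [X2, p2])]
  · have b1 : 4 * ((3 * (H * N ^ d) : ℕ) : ℝ) / ((3 * (H * N ^ d) / (8 * H) : ℕ) + 1) ≤ 32 * H := by
      have : ((3 * (H * N ^ d) : ℕ) : ℝ) ≤ (8 * H * (3 * (H * N ^ d) / (8 * H) + 1) : ℕ) := by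
        exact_mod_cast (Nat.lt_mul_div_succ _ (by omega)).le
      rw [div_le_iff₀ (by positivity)]
      rw [Nat.cast_mul (8 * H), Nat.cast_add, Nat.cast_mul 8] at this
      simp only [Nat.cast_ofNat, Nat.cast_one] at this ⊢
      linarith only [this]
    have b2 : ∑ t ∈ range (3 * (H * N ^ d)),
        ‖a t * psi Q h ((t : ℝ) / (3 * (H * N ^ d) : ℕ))‖ ^ 2 *
          (cn d (3 * (H * N ^ d)) (3 * (H * N ^ d) / (8 * H)) S t : ℝ) ≤
        g₀ ^ 2 * (810 * lam ^ d * N ^ 2 / Q) := by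
      refine le_trans (sum_le_sum fun t _ => ?_) ((sum_mul _ _ _).symm.trans_le
        (mul_le_mul_of_nonneg_right a1 (by positivity)))
      rw [norm_mul, mul_pow, mul_assoc]
      exact mul_le_mul_of_nonneg_left (PVMinor_pt hd hS hl hQ hQN hH n2 hh hh' t) (by positivity)
    refine (mul_le_mul (pow_le_pow_left₀ (by positivity) b1 _) b2
      (sum_nonneg fun _ _ => by positivity) (by positivity)).trans ?_
    have : 0 ≤ (32 * (H : ℝ)) ^ (d + 1) * g₀ ^ 2 * lam ^ d * N ^ 2 / Q := by positivity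
    calc _ = 810 * ((32 * (H : ℝ)) ^ (d + 1) * g₀ ^ 2 * lam ^ d * N ^ 2 / Q) := by ring
      _ ≤ 1000 * ((32 * (H : ℝ)) ^ (d + 1) * g₀ ^ 2 * lam ^ d * N ^ 2 / Q) := by linarith only [this]
      _ = _ := by ring

end Pool.Agent.Work.MP_51e72e_nt.PV
end

-- merged part: Pool.Agent.Work.MP_51e72e_nt.PV.Var
section
/-! The variance for one random polynomial. -/

set_option autoImplicit false
open Finset Filter MeasureTheory Pool.Agent.Lib.MR Pool.Agent.Lib.LargeSieve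
open Pool.Agent.Work.MP_678620_nt Pool.Agent.Work.MP_51e72e_nt.AV

namespace Pool.Agent.Work.MP_51e72e_nt.PV

lemma PVVar_pow {d j N n n' : ℕ} (hj : j < d) (hn : n ≤ N) (hn' : n' ≤ N) (hN : 1 ≤ N) :
    (N : ℝ) * |(n : ℝ) ^ j - (n' : ℝ) ^ j| ≤ d * (N : ℝ) ^ (d - 1) * |(n : ℝ) - n'| := by
  rcases j with _ | j
  · simp only [pow_zero, sub_self, abs_zero, mul_zero]
    positivity
  have N1 : (1 : ℝ) ≤ N := by exact_mod_cast hN
  have h1 := abs_pow_sub_pow_le (a := (n : ℝ)) (b := n') (n := j + 1)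
  rw [Nat.add_sub_cancel, Nat.abs_cast, Nat.abs_cast] at h1
  have h2 : max (n : ℝ) n' ^ j ≤ (N : ℝ) ^ j :=
    pow_le_pow_left₀ (by positivity) (max_le (by exact_mod_cast hn) (by exact_mod_cast hn')) j
  have h3 : (N : ℝ) * N ^ j ≤ N ^ (d - 1) := by
    rw [← pow_succ']
    exact pow_le_pow_right₀ N1 (by omega)
  have h4 : ((j + 1 : ℕ) : ℝ) ≤ d := by exact_mod_cast hj.le
  calc _ ≤ (N : ℝ) * (|(n : ℝ) - n'| * ((j + 1 : ℕ) : ℝ) * N ^ j) := by
        refine mul_le_mul_of_nonneg_left (h1.trans ?_) (by positivity)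
        gcongr
    _ = ((j + 1 : ℕ) : ℝ) * (N * N ^ j) * |(n : ℝ) - n'| := by ring
    _ ≤ _ := by gcongr

lemma PVVar_lip {d H N n n' : ℕ} {c : Fin (d + 1) → ℤ} (hc : ∀ j, |c j| ≤ H) (hn : n ≤ N)
    (hn' : n' ≤ N) (hN : 1 ≤ N) :
    (N : ℝ) * |(pe (Function.update c (Fin.last d) 0) n : ℝ) -
      pe (Function.update c (Fin.last d) 0) n'| ≤
      d ^ 2 * (H * (N : ℝ) ^ (d - 1)) * |(n : ℝ) - n'| := by
  have e : ∀ y : ℕ, (pe (Function.update c (Fin.last d) 0) y : ℝ) =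
      ∑ j : Fin d, (c j.castSucc : ℝ) * (y : ℝ) ^ (j : ℕ) := fun y => by
    rw [pe, Fin.sum_univ_castSucc, Function.update_self, zero_mul, add_zero]
    push_cast
    exact sum_congr rfl fun j _ => by
      rw [Function.update_of_ne (Fin.castSucc_ne_last j), Fin.val_castSucc]
  rw [e, e, ← sum_sub_distrib]
  refine (mul_le_mul_of_nonneg_left (abs_sum_le_sum_abs _ _) (Nat.cast_nonneg _)).trans ?_
  rw [mul_sum]
  refine (sum_le_card_nsmul _ _ (H * (d * (N : ℝ) ^ (d - 1) * |(n : ℝ) - n'|))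
    fun j _ => ?_).trans_eq ?_
  · rw [← mul_sub, abs_mul, mul_left_comm]
    refine mul_le_mul ?_ (PVVar_pow j.2 hn hn' hN) (by positivity) (by positivity)
    exact_mod_cast hc _
  · rw [card_univ, Fintype.card_fin, nsmul_eq_mul]
    ring

lemma PVVar_far (Q : ℕ) : ((Far Q).card : ℝ) ≤ (Q : ℝ) ^ 2 := by
  have h := card_le_card (filter_subset (fun x : ℕ × ℕ => x.2 < x.1 ∧ Nat.Coprime x.2 x.1)
    (Icc 1 Q ×ˢ range Q))
  rw [card_product, Nat.card_Icc, card_range, Nat.add_sub_cancel, ← sq] at h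
  exact_mod_cast h

/-- The major arc part, for given bounds of the bilinear sums. -/
lemma PVVar_major {d Q N H h : ℕ} {lam g₀ D : ℝ} {S : Finset ℕ} (hH : 1 ≤ H) (hS : Rg lam N S)
    (hh : 1 ≤ h) (G : ℤ → ℂ) (hg₀ : 0 ≤ g₀) (hD : 0 ≤ D)
    (hG : ∀ c ∈ PX lam d H, ∀ n ∈ S, ∀ j ∈ range h, ‖G (pe c n + j)‖ ≤ g₀)
    (g : ℕ → ℂ) (hg : ∀ n, ‖g n‖ ≤ 1)
    (hb : ∀ x ∈ Far Q, ∀ c ∈ PX lam d H, ∀ b : ℕ → ℂ, (∀ a, ‖b a‖ ≤ 1) →
      ‖∑ a ∈ Ra lam H, ∑ n ∈ S, b a * g n * ∑ j ∈ range h,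
        G ((a : ℤ) * (n : ℤ) ^ d + pe (Function.update c (Fin.last d) 0) n + j) *
          ee (-(j * ((x.2 : ℝ) / x.1)))‖ ≤ h * D) :
    ∑ c ∈ PX lam d H, ‖∑ n ∈ S, g n * Gm Q h G (pe c n)‖ ^ 2
      ≤ (Q : ℝ) ^ 4 * ((3 * (H : ℝ)) ^ d * (N * g₀ * D)) := by
  have h0 : (0 : ℝ) < h := by exact_mod_cast hh
  set T : ℕ × ℕ → (Fin (d + 1) → ℤ) → ℂ := fun x c => ∑ n ∈ S, g n * ((h : ℂ)⁻¹ *
    ∑ j ∈ range h, G (pe c n + j) * ee (-(j * ((x.2 : ℝ) / x.1)))) with hT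
  have e1 : ∀ c, ∑ n ∈ S, g n * Gm Q h G (pe c n) = ∑ x ∈ Far Q, T x c := fun c => by
    simp only [hT, Gm]
    rw [sum_comm]
    exact sum_congr rfl fun n _ => mul_sum _ _ _
  have b1 : ∀ x, ∀ c ∈ PX lam d H, ‖T x c‖ ≤ N * g₀ := fun x c hc => by
    refine (norm_sum_le _ _).trans ((sum_le_card_nsmul _ _ g₀ fun n hn => ?_).trans ?_)
    · rw [norm_mul, norm_mul, norm_inv, Complex.norm_natCast]
      refine (mul_le_of_le_one_left (by positivity) (hg n)).trans ?_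
      rw [inv_mul_le_iff₀ h0]
      refine (norm_sum_le _ _).trans ((sum_le_card_nsmul _ _ g₀ fun j hj => ?_).trans_eq ?_)
      · rw [norm_mul, AV.norm_ee, mul_one]
        exact hG c hc n hn j hj
      · rw [card_range, nsmul_eq_mul]
    · rw [nsmul_eq_mul]
      exact mul_le_mul_of_nonneg_right (by exact_mod_cast hS.card) hg₀
  have b2 : ∀ x ∈ Far Q, ∑ c ∈ PX lam d H, ‖T x c‖ ^ 2 ≤ (3 * (H : ℝ)) ^ d * (N * g₀ * D) := by
    intro x hx
    refine sum_PX_le lam hH (Fin.last d) _ (by positivity) fun c hc => ?_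
    have mem : ∀ a ∈ Ra lam H, Function.update c (Fin.last d) (a : ℤ) ∈ PX lam d H := by
      intro a ha
      rw [PX, Fintype.mem_piFinset] at hc ⊢
      intro j
      by_cases e : j = Fin.last d
      · rw [e, Function.update_self, Co_last]
        exact mem_image_of_mem _ ha
      · rw [Function.update_of_ne e]
        exact hc j
    rw [Co_last, sum_image fun a _ b _ k => Int.natCast_inj.1 k]
    refine Four_dual (fun a => T x (Function.update c (Fin.last d) (a : ℤ))) (by positivity)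
      (fun a ha => b1 x _ (mem a ha)) fun b hb' => ?_
    have k := hb x hx c hc b hb'
    have e2 : ∑ a ∈ Ra lam H, b a * T x (Function.update c (Fin.last d) (a : ℤ)) =
        (h : ℂ)⁻¹ * ∑ a ∈ Ra lam H, ∑ n ∈ S, b a * g n * ∑ j ∈ range h,
          G ((a : ℤ) * (n : ℤ) ^ d + pe (Function.update c (Fin.last d) 0) n + j) *
            ee (-(j * ((x.2 : ℝ) / x.1))) := by
      rw [mul_sum]
      refine sum_congr rfl fun a _ => ?_
      simp only [hT]
      rw [mul_sum, mul_sum]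
      refine sum_congr rfl fun n _ => ?_
      rw [pe_update c (Fin.last d) a n, Fin.val_last]
      ring
    rw [e2, norm_mul, norm_inv, Complex.norm_natCast, inv_mul_le_iff₀ h0]
    exact k
  have b3 : ∀ c, ‖∑ x ∈ Far Q, T x c‖ ^ 2 ≤ (Q : ℝ) ^ 2 * ∑ x ∈ Far Q, ‖T x c‖ ^ 2 := fun c =>
    (pow_le_pow_left₀ (norm_nonneg _) (norm_sum_le _ _) 2).trans (sq_sum_le_card_mul_sum_sq.trans
      (mul_le_mul_of_nonneg_right (PVVar_far Q) (sum_nonneg fun _ _ => by positivity)))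
  simp only [e1]
  refine (sum_le_sum fun c _ => b3 c).trans ?_
  rw [← mul_sum, sum_comm, show (Q : ℝ) ^ 4 = Q ^ 2 * Q ^ 2 by ring, mul_assoc]
  refine mul_le_mul_of_nonneg_left ((sum_le_card_nsmul _ _ _ b2).trans ?_) (by positivity)
  rw [nsmul_eq_mul]
  exact mul_le_mul_of_nonneg_right (PVVar_far Q) (by positivity)

lemma PVVar_sq (x y : ℂ) : ‖x + y‖ ^ 2 ≤ 2 * ‖x‖ ^ 2 + 2 * ‖y‖ ^ 2 := by
  have h := pow_le_pow_left₀ (norm_nonneg _) (norm_add_le x y) 2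
  linarith only [h, sq_nonneg (‖x‖ - ‖y‖), sq_nonneg (‖x‖ - ‖y‖)]

lemma PVVar_num {d B C : ℕ} {l lam Q g₀ κ H N : ℝ} (hl : 1 ≤ l) (hH : 0 ≤ H) (hκ : 0 ≤ κ)
    (hlam : lam ^ d ≤ l ^ (B * d)) (hlam0 : 0 ≤ lam) (hQ : l ^ (B * d + C + 4) ≤ Q) (hg₀ : 0 ≤ g₀)
    (hg : g₀ ≤ κ * l) (h1 : 4000 * 11 ^ (d + 1) * κ ^ 2 ≤ l) (h2 : 4 * κ ≤ l) (hN : 0 ≤ N) :
    2 * (1000 * (32 * H) ^ (d + 1) * g₀ ^ 2 * lam ^ d * N ^ 2 / Q) +
      2 * (Q ^ 4 * ((3 * H) ^ d * (N * g₀ * (H * N / Q ^ 6)))) ≤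
      (3 * H) ^ (d + 1) * N ^ 2 / l ^ C := by
  have l0 : 0 < l := by linarith
  have Q1 : 1 ≤ Q := (one_le_pow₀ hl).trans hQ
  have Q0 : 0 < Q := by linarith
  have a1 : (32 * H) ^ (d + 1) ≤ 11 ^ (d + 1) * (3 * H) ^ (d + 1) := by
    rw [← mul_pow]
    exact pow_le_pow_left₀ (by positivity) (by linarith) _
  have a2 : 1000 * (32 * H) ^ (d + 1) * g₀ ^ 2 * lam ^ d * N ^ 2 / Q ≤
      (3 * H) ^ (d + 1) * N ^ 2 / l ^ C / 4 := by
    calc _ ≤ 1000 * (11 ^ (d + 1) * (3 * H) ^ (d + 1)) * (κ * l) ^ 2 * l ^ (B * d) * N ^ 2 /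
          l ^ (B * d + C + 4) := by gcongr
      _ = (3 * H) ^ (d + 1) * N ^ 2 / l ^ C / 4 * (4000 * 11 ^ (d + 1) * κ ^ 2 / l ^ 2) := by
          field_simp
          ring
      _ ≤ _ := by
          refine mul_le_of_le_one_right (by positivity) ((div_le_one (by positivity)).2 ?_)
          linarith only [hl, h1, mul_nonneg_of_nonpos_of_nonpos (Mathlib.Tactic.Linarith.sub_nonpos_of_le hl) (Mathlib.Tactic.Linarith.sub_nonpos_of_le hl)]
  have a3 : l ^ (C + 2) ≤ Q ^ 2 :=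
    ((pow_le_pow_right₀ hl (by omega)).trans hQ).trans (le_self_pow₀ Q1 two_ne_zero)
  have a4 : Q ^ 4 * ((3 * H) ^ d * (N * g₀ * (H * N / Q ^ 6))) ≤
      (3 * H) ^ (d + 1) * N ^ 2 / l ^ C / 4 := by
    calc _ = (3 * H) ^ d * H * N ^ 2 * g₀ / Q ^ 2 := by
          field_simp
      _ ≤ (3 * H) ^ d * (3 * H) * N ^ 2 * (κ * l) / l ^ (C + 2) := by
          gcongr
          linarith only [hH]
      _ = (3 * H) ^ (d + 1) * N ^ 2 / l ^ C / 4 * (4 * κ / l) := by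
          field_simp
          ring
      _ ≤ _ := mul_le_of_le_one_right (by positivity) ((div_le_one l0).2 h2)
  linarith only [a2, a4]

theorem var_big (d : ℕ) (hd : 1 ≤ d) (B C K : ℕ) : ∃ E : ℕ, ∀ᶠ N : ℕ in atTop,
    ∀ (H : ℕ) (lam : ℝ), N * Real.log N ^ E ≤ H → H ≤ N ^ K → Real.log N ≤ lam →
    lam ≤ Real.log N ^ B → Var d N H lam (H * N ^ d) C := by
  obtain ⟨A', hA⟩ := major_d d hd (B * d + C + 5) K
  refine ⟨(B * d + C + 5) * 6, ?_⟩
  filter_upwards [hA, eventually_forall_ge_atTop.2 (G1_key A'),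
    eventually_forall_ge_atTop.2 LF_bound, Core_ev one_pos ((B * d + C + 5) * 3),
    Core_ev one_pos (B * 2 + 1), TB_tend.eventually_ge_atTop 2,
    TB_tend.eventually_ge_atTop (2 * d), eventually_ge_atTop 2,
    TB_tend.eventually_ge_atTop (4000 * 11 ^ (d + 1) * (3 * ((K + d : ℕ) : ℝ)) ^ 2),
    TB_tend.eventually_ge_atTop (4 * (3 * ((K + d : ℕ) : ℝ)))]
    with N hA hK hL e1 e2 l2 ld N2 k1 k2 H lam H1 H2 m1 m2 g hg
  rw [Real.rpow_one] at e1 e2
  have l1 : 1 ≤ Real.log N := by linarith only [l2]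
  have lam1 : 1 ≤ lam := l1.trans m1
  set Q : ℕ := ⌈Real.log N ^ (B * d + C + 4)⌉₊ with hQ
  have Q1 : Real.log N ^ (B * d + C + 4) ≤ Q := Nat.le_ceil _
  have p1 : 1 ≤ Real.log N ^ (B * d + C + 4) := one_le_pow₀ l1
  have Q2 : (Q : ℝ) ≤ Real.log N ^ (B * d + C + 5) := by
    have := (Nat.ceil_lt_add_one (zero_le_one.trans p1)).le
    rw [pow_succ]
    linarith only [l2, p1, this, mul_nonneg_of_nonpos_of_nonpos (Mathlib.Tactic.Linarith.sub_nonpos_of_le l2) (Mathlib.Tactic.Linarith.sub_nonpos_of_le p1)]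
  have Q0 : 1 ≤ Q := by exact_mod_cast p1.trans Q1
  have Q3 : Q ^ 3 ≤ N := by
    have := pow_le_pow_left₀ (Nat.cast_nonneg Q) Q2 3
    rw [← pow_mul] at this
    exact_mod_cast this.trans e1
  have Q6 : Q ^ 6 * N ≤ H := by
    have := mul_le_mul_of_nonneg_left (pow_le_pow_left₀ (Nat.cast_nonneg Q) Q2 6)
      (Nat.cast_nonneg (α := ℝ) N)
    rw [← pow_mul, mul_comm] at this
    exact_mod_cast this.trans H1
  have NH : N ≤ H := (Nat.le_mul_of_pos_left N (by positivity)).trans Q6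
  have ld1 : lam ^ d ≤ Real.log N ^ (B * d) := by
    rw [pow_mul]
    exact pow_le_pow_left₀ (by linarith only [l2, m1]) m2 d
  have ld2 : lam ^ d ≤ Q := (ld1.trans (pow_le_pow_right₀ l1 (by omega))).trans Q1
  have hN : 2 * d * lam ^ 2 ≤ N := by
    refine le_trans ?_ e2
    rw [pow_succ' (Real.log N), pow_mul]
    exact mul_le_mul ld (pow_le_pow_left₀ (by linarith only [l2, m1]) m2 2) (by positivity) (by linarith only [l2])
  set h : ℕ := H * N ^ (d - 1) / Q ^ 4 with hh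
  have q4 : 0 < Q ^ 4 := by positivity
  have h1 : Q ^ 4 * h ≤ H * N ^ (d - 1) := Nat.mul_div_le _ _
  have h2 : Q ^ 5 ≤ h := by
    refine (Nat.le_div_iff_mul_le q4).2 ?_
    calc Q ^ 5 * Q ^ 4 = Q ^ 6 * Q ^ 3 := by ring
      _ ≤ Q ^ 6 * N := Nat.mul_le_mul_left _ Q3
      _ ≤ H := Q6
      _ ≤ _ := Nat.le_mul_of_pos_right H (by positivity)
  have h0 : 1 ≤ h := (Nat.one_le_pow _ _ Q0).trans h2
  have h3 : H * N ^ (d - 1) ≤ 2 * (Q ^ 4 * h) := by
    have a := Nat.lt_mul_div_succ (H * N ^ (d - 1)) q4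
    have b : Q ^ 4 * (h + 1) ≤ Q ^ 4 * (2 * h) := Nat.mul_le_mul_left _ (by omega)
    calc _ ≤ Q ^ 4 * (h + 1) := a.le
      _ ≤ Q ^ 4 * (2 * h) := b
      _ = _ := by ring
  have hX : h ≤ H * N ^ d := ((Nat.le_mul_of_pos_left h q4).trans h1).trans
    (Nat.mul_le_mul_left _ (Nat.pow_le_pow_right (by omega) (by omega)))
  have NX : N ≤ H * N ^ d := NH.trans (Nat.le_mul_of_pos_right H (by positivity))
  have XX : H * N ^ d ≤ (H * N ^ d) ^ 2 := Nat.le_self_pow two_ne_zero _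
  set G : ℤ → ℂ := fun m => (G1 (zz (H * N ^ d)) m : ℂ) with hGd
  have hG : ∀ m : ℤ, 1 ≤ m → m ≤ 3 * (H * N ^ d) → ‖G m‖ ≤ 3 * Real.log (H * N ^ d : ℕ) := by
    intro m _ hm
    rw [hGd, Complex.norm_real, Real.norm_eq_abs]
    refine (hL _ NX m (hm.trans ?_)).2.2.2.2
    have a : (2 : ℤ) ≤ (H * N ^ d : ℕ) := by exact_mod_cast N2.trans NX
    push_cast at a ⊢
    generalize (H : ℤ) * (N : ℤ) ^ d = x at a ⊢
    linarith only [a, mul_nonneg (sub_nonneg.2 a) (sq_nonneg x), sq_nonneg x, mul_nonneg_of_nonpos_of_nonpos (Mathlib.Tactic.Linarith.sub_nonpos_of_le a) (Mathlib.Tactic.Linarith.sub_nonpos_of_le a)]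
  have g0 : 0 ≤ 3 * Real.log (H * N ^ d : ℕ) := by
    have := Real.log_natCast_nonneg (H * N ^ d)
    positivity
  have g1 : 3 * Real.log (H * N ^ d : ℕ) ≤ 3 * ((K + d : ℕ) : ℝ) * Real.log N := by
    rw [mul_assoc, ← Real.log_pow]
    refine mul_le_mul_of_nonneg_left (Real.log_le_log ?_ ?_) (by norm_num)
    · exact_mod_cast (by omega : 0 < H * N ^ d)
    · rw [pow_add]
      exact_mod_cast Nat.mul_le_mul_right _ H2
  have mi := minor_d hd (rg_Ra lam N) lam1 ld2 ((Nat.le_self_pow three_ne_zero Q).trans Q3) Q6 hN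
    h1 h2 G g0 hG g hg
  have ma := PVVar_major (d := d) (Q := Q) (D := (H : ℝ) * N / (Q : ℝ) ^ 6) (lam := lam)
    (by omega : 1 ≤ H) (rg_Ra lam N) h0 G g0 (by positivity)
    (fun c hc n hn j hj => by
      obtain ⟨-, a1, a2⟩ := pe_range hd hc (rg_Ra lam N) hn (by linarith only [l2, m1]) hN
      have a3 : (j : ℤ) ≤ H * N ^ d := by exact_mod_cast (mem_range.1 hj).le.trans hX
      exact hG _ (by omega) (by linarith only [a2, a3])) g hg
    (fun x hx c hc b hb => by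
      obtain ⟨x1, -⟩ := mem_product.1 (mem_filter.1 hx).1
      refine (hA H Q h lam NH H2 m1 ld2 Q2 h1 h3 G hG (hK _ NX _ XX XX) x.1 x.2 (mem_Icc.1 x1).1
        (mem_Icc.1 x1).2 _ _ (rg_Ra lam H) (rg_Ra lam N) b g hb hg
        (fun n => pe (Function.update c (Fin.last d) 0) n)
        (fun n hn => pe_low (mem_PX hc).1 ((rg_Ra lam N).hi n hn) (by omega))
        (fun n hn n' hn' => PVVar_lip (mem_PX hc).1 ((rg_Ra lam N).hi n hn)
          ((rg_Ra lam N).hi n' hn') (by omega))).trans_eq ?_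
      ring)
  refine le_trans ?_ (PVVar_num (B := B) l1 (Nat.cast_nonneg H) (by positivity) ld1 (by linarith only [l2, m1])
    Q1 g0 g1 k1 k2 (Nat.cast_nonneg N))
  refine le_trans ?_ (add_le_add (mul_le_mul_of_nonneg_left mi zero_le_two)
    (mul_le_mul_of_nonneg_left ma zero_le_two))
  rw [mul_sum, mul_sum, ← sum_add_distrib]
  refine sum_le_sum fun c _ => le_trans (le_of_eq ?_) (PVVar_sq _ _)
  rw [← sum_add_distrib]
  refine congrArg (fun z : ℂ => ‖z‖ ^ 2) (sum_congr rfl fun n _ => ?_)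
  rw [← mul_add, sub_add_cancel]

end Pool.Agent.Work.MP_51e72e_nt.PV
end

-- merged part: Pool.Agent.Work.MP_51e72e_nt.PV.VarS
section
/-! The variance for one random linear form of small height. -/

set_option autoImplicit false
open Finset Filter MeasureTheory Pool.Agent.Lib.MR Pool.Agent.Lib.LargeSieve
open Pool.Agent.Work.MP_678620_nt Pool.Agent.Work.MP_51e72e_nt.AV

namespace Pool.Agent.Work.MP_51e72e_nt.PV

lemma PVVarS_sum (lam : ℝ) (H : ℕ) (φ : ℤ → ℤ → ℝ) :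
    ∑ c ∈ PX lam 1 H, φ (c 1) (c 0) = ∑ a ∈ Ra lam H, ∑ b ∈ Icc (-(H : ℤ)) H, φ a b := by
  refine Eq.trans ?_ (Tele_sum_Box lam H fun f => φ f.1 f.2)
  refine sum_nbij' (fun c => (c 1, c 0)) (fun f => ![f.2, f.1]) (fun c hc => ?_) (fun f hf => ?_)
    (fun c _ => ?_) (fun f _ => rfl) fun c _ => rfl
  · exact mem_product.2 ⟨Fintype.mem_piFinset.1 hc 1, Fintype.mem_piFinset.1 hc 0⟩
  · exact Fintype.mem_piFinset.2 (Fin.forall_fin_two.2 ⟨(mem_product.1 hf).2, (mem_product.1 hf).1⟩)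
  · exact funext (Fin.forall_fin_two.2 ⟨rfl, rfl⟩)

lemma PVVarS_pe (c : Fin (1 + 1) → ℤ) (y : ℤ) : pe c y = c 1 * y + c 0 := by
  rw [pe, Fin.sum_univ_two, add_comm]
  simp

theorem var_small {ε : ℝ} (hε : 0 < ε) (B C E : ℕ) : ∀ᶠ N : ℕ in atTop,
    ∀ (H : ℕ) (lam : ℝ), (N : ℝ) ^ ε ≤ H → H ≤ N * Real.log N ^ E → Real.log N ≤ lam →
    lam ≤ Real.log N ^ B → Var 1 N H lam (max N H) C := by
  obtain ⟨A', hcore⟩ := core (half_pos hε) (B + 2 * E + C + 4)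
  filter_upwards [eventually_forall_ge_atTop.2 ((hcore.and (G1_key A')).and LF_bound),
    Core_ev one_pos E, eventually_ge_atTop 3,
    (Real.tendsto_log_atTop.comp tendsto_natCast_atTop_atTop).eventually_ge_atTop 4]
    with N h1 h2 hN h4 H lam a1 a2 a3 a4 g hg
  obtain ⟨X, hX⟩ : ∃ X, X = max N H := ⟨_, rfl⟩
  have x1 : N ≤ X := hX ▸ le_max_left _ _
  have x2 : H ≤ X := hX ▸ le_max_right _ _
  obtain ⟨⟨b1, b2⟩, b3⟩ := h1 X x1
  have hN' : (3 : ℝ) ≤ N := by exact_mod_cast hN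
  have l1 : 4 ≤ Real.log N := h4
  have l2 : Real.log N ≤ Real.log X := Real.log_le_log (by linarith only [hN']) (by exact_mod_cast x1)
  have l3 : 1 ≤ Real.log X := by linarith only [l1, l2]
  have hH : 1 ≤ H := by
    have : (0 : ℝ) < H := (Real.rpow_pos_of_pos (by linarith only [hN']) ε).trans_le a1
    exact_mod_cast this
  have x3 : (X : ℝ) ≤ N * Real.log N ^ E := by
    rw [hX, Nat.cast_max]
    exact max_le (le_mul_of_one_le_right (by positivity) (one_le_pow₀ (by linarith only [l1]))) a2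
  have x4 : (X : ℝ) ≤ N * Real.log X ^ E := x3.trans (by gcongr)
  have p1 : (X : ℝ) ^ (ε / 2) ≤ H := by
    rw [Real.rpow_one] at h2
    refine le_trans (Real.rpow_le_rpow (by positivity) (x3.trans (mul_le_mul_of_nonneg_left h2
      (by positivity))) (half_pos hε).le) (le_of_eq_of_le ?_ a1)
    rw [Real.mul_rpow (by positivity) (by positivity), ← Real.rpow_add (by linarith only [hN']), add_halves]
  have p2 : lam ≤ Real.log X ^ B := a4.trans (by gcongr)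
  have p3 : Real.log X ^ B * Real.log X ^ E ≤ Real.log X ^ (B + 2 * E + C + 4) := by
    rw [← pow_add]
    exact pow_le_pow_right₀ l3 (by omega)
  have key := b1 H _ ⟨p1, x2, le_self_pow₀ l3 (by omega), le_rfl⟩ _ (fun x _ hx => by
      rw [Complex.norm_real, Real.norm_eq_abs]
      refine (b3 x (hx.trans ?_)).2.2.2.2
      have h6 : (H : ℤ) ≤ X := by exact_mod_cast x2
      have h7 : (3 : ℤ) ≤ X := by exact_mod_cast hN.trans x1
      calc (3 : ℤ) * H * X ≤ X * X * X := by gcongr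
        _ = (X : ℤ) ^ 3 := by ring)
    (b2 (H * X) (by nlinarith only [hN, x1, hH, Nat.mul_le_mul_right X hH, Nat.zero_le (H * X)])
      (by rw [sq]; exact Nat.mul_le_mul_right X x2)) (Ra lam H) (Ra lam N)
    ⟨(rg_Ra lam H).pos, (rg_Ra lam H).hi, fun a ha => ((rg_Ra lam H).lo a ha).trans
      (mul_le_mul_of_nonneg_right (p2.trans (pow_le_pow_right₀ l3 (by omega))) a.cast_nonneg)⟩
    ⟨(rg_Ra lam N).pos, fun a ha => ((rg_Ra lam N).hi a ha).trans x1, fun a ha => by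
      have := (rg_Ra lam N).lo a ha
      calc (X : ℝ) ≤ Real.log X ^ B * a * Real.log X ^ E := x4.trans (by
            gcongr
            exact this.trans (by gcongr))
        _ = Real.log X ^ B * Real.log X ^ E * a := by ring
        _ ≤ _ := by gcongr⟩ g hg
  rw [← hX]
  refine le_of_eq_of_le ?_ (key.trans ?_)
  · refine Eq.trans ?_ ((PVVarS_sum lam H fun a b =>
      ‖∑ n ∈ Ra lam N, g n * (G1 (zz X) (a * n + b) : ℂ)‖ ^ 2).trans (by simp only [Nat.cast_mul]))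
    simp only [PVVarS_pe]
  · have q1 : Real.log N ^ C * 4 ^ 2 ≤ Real.log X ^ (B + C + 2) := by
      rw [pow_add]
      gcongr
      · exact le_trans (by gcongr) (pow_le_pow_right₀ l3 (Nat.le_add_left C B))
      · linarith only [l1, l2]
    rw [div_le_div_iff₀ (by positivity) (by positivity)]
    calc _ ≤ 100 * Real.log X ^ 2 * H ^ 2 * (N * Real.log X ^ E) ^ 2 * Real.log N ^ C := by gcongr
      _ = 25 / 4 * (Real.log X ^ (2 * E + 2) * H ^ 2 * N ^ 2) * (Real.log N ^ C * 4 ^ 2) := by ring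
      _ ≤ 9 * (Real.log X ^ (2 * E + 2) * H ^ 2 * N ^ 2) * Real.log X ^ (B + C + 2) := by
          gcongr
          norm_num
      _ = _ := by ring

end Pool.Agent.Work.MP_51e72e_nt.PV
end
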