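import Pool.Agent.Work.MP_51e72e_nt.PV.Good
import Pool.Agent.Work.MP_51e72e_nt.PV.VarS
import Pool.Agent.Work.MP_51e72e_nt.PV.Tail
import Pool.Agent.Work.MP_51e72e_nt.PV.Fix

-- merged part: Pool.Agent.Work.MP_51e72e_nt.PV.Main
section
/-! The main theorem. -/

set_option autoImplicit false
open Finset Filter MeasureTheory Pool.Agent.Lib.MR Pool.Agent.Lib.LargeSieve
open Pool.Agent.Work.MP_678620_nt Pool.Agent.Work.MP_51e72e_nt.AV

namespace Pool.Agent.Work.MP_51e72e_nt.PV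

theorem var_all (D B C K : ℕ) {ε : ℝ} (hε : 0 < ε) : ∃ E : ℕ, ∀ᶠ N : ℕ in atTop,
    ∀ (H d : ℕ) (lam : ℝ), (N : ℝ) ^ ε ≤ H → H ≤ N ^ K → (2 ≤ d → N * Real.log N ^ E ≤ H) →
    Real.log N ≤ lam → lam ≤ Real.log N ^ B → 1 ≤ d → d ≤ D →
      ∃ X, (N ≤ X ∧ X ≤ N ^ (K + D + 1) ∧ 2 * (H * N ^ d) ≤ X ^ 3) ∧ Var d N H lam X C := by
  choose E hE using fun d => var_big (d + 1) (Nat.le_add_left 1 d) B C K
  refine ⟨(range D).sup E, ?_⟩
  filter_upwards [(eventually_all_finset (range D)).2 fun d _ => hE d,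
    var_small hε B C ((range D).sup E), TB_tend.eventually_ge_atTop 1, eventually_ge_atTop 2]
    with N h1 h2 l1 N2 H d lam a1 a2 a3 a4 a5 d1 d2
  have H1 : 1 ≤ H := by
    have := (Real.one_le_rpow (show (1 : ℝ) ≤ N by exact_mod_cast (by omega : 1 ≤ N)) hε.le).trans a1
    exact_mod_cast this
  by_cases h : N * Real.log N ^ (range D).sup E ≤ H
  · obtain ⟨e, rfl⟩ := Nat.exists_eq_add_of_le' d1
    have he : e ∈ range D := mem_range.2 (by omega)
    have b1 : N ≤ H * N ^ (e + 1) :=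
      (Nat.le_self_pow (by omega) N).trans (Nat.le_mul_of_pos_left _ H1)
    refine ⟨H * N ^ (e + 1), ⟨b1, ?_, ?_⟩, h1 e he H lam (le_trans ?_ h) a2 a4 a5⟩
    · rw [add_assoc K, pow_add N K]
      exact Nat.mul_le_mul a2 (Nat.pow_le_pow_right (by omega) (by omega))
    · generalize H * N ^ (e + 1) = X at b1
      have : 2 ≤ X * X := by nlinarith only [N2, b1]
      calc 2 * X ≤ X * X * X := Nat.mul_le_mul_right X this
        _ = X ^ 3 := by ring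
    · exact mul_le_mul_of_nonneg_left (pow_le_pow_right₀ l1 (le_sup he)) (Nat.cast_nonneg N)
  · obtain rfl : d = 1 := by
      by_contra hc
      exact h (a3 (by omega))
    refine ⟨max N H, ⟨le_max_left _ _, max_le (Nat.le_self_pow (by omega) N)
      (a2.trans (Nat.pow_le_pow_right (by omega) (by omega))), ?_⟩,
      h2 H lam a1 (not_le.1 h).le a4 a5⟩
    have b1 := le_max_left N H
    have b2 := le_max_right N H
    generalize max N H = X at b1 b2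
    calc 2 * (H * N ^ 1) ≤ X * (X * X ^ 1) := by gcongr; omega
      _ = X ^ 3 := by ring

/-- All polynomials of degree `d` and height at most `H` with positive leading coefficient. -/
noncomputable def PB (d H : ℕ) : Finset (Fin (d + 1) → ℤ) :=
  Fintype.piFinset fun j => if j = Fin.last d then Icc (1 : ℤ) H else Icc (-(H : ℤ)) H

lemma Main_cardPB {d H : ℕ} (hH : 1 ≤ H) : ((PB d H).card : ℝ) ≤ (3 * (H : ℝ)) ^ (d + 1) := by
  rw [PB, Fintype.card_piFinset, Nat.cast_prod]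
  refine (prod_le_prod (fun _ _ => Nat.cast_nonneg _) fun j _ => le_trans ?_
    (card_Icc_le hH)).trans_eq (by rw [prod_const, card_univ, Fintype.card_fin])
  refine Nat.cast_le.2 (card_le_card ?_)
  split_ifs
  · exact Icc_subset_Icc (by omega) le_rfl
  · exact Subset.refl _

lemma Main_outPB {lam : ℝ} (hl : 0 < lam) {d H : ℕ} (hH : 1 ≤ H) :
    ((PB d H \ PX lam d H).card : ℝ) ≤ (3 * (H : ℝ)) ^ (d + 1) * lam⁻¹ := by
  have h : PB d H \ PX lam d H ⊆ Fintype.piFinset fun j => if j = Fin.last d then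
      (Icc (1 : ℤ) H).filter fun a : ℤ => ¬ (H : ℝ) ≤ lam * a else Icc (-(H : ℤ)) H := by
    intro c hc
    obtain ⟨h1, h2⟩ := mem_sdiff.1 hc
    rw [PB, Fintype.mem_piFinset] at h1
    refine Fintype.mem_piFinset.2 fun j => ?_
    have h3 := h1 j
    split_ifs at h3 ⊢ with e
    · refine mem_filter.2 ⟨h3, fun k => h2 (Fintype.mem_piFinset.2 fun i => ?_)⟩
      have h4 := h1 i
      unfold Co
      split_ifs at h4 ⊢ with e'
      · exact mem_filter.2 ⟨h4, by rw [e', ← e]; exact k⟩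
      · exact h4
    · exact h3
  refine (Nat.cast_le.2 (card_le_card h)).trans ?_
  rw [Fintype.card_piFinset, Nat.cast_prod]
  refine (prod_le_prod (g := fun j => 3 * (H : ℝ) * if j = Fin.last d then lam⁻¹ else 1)
    (fun _ _ => Nat.cast_nonneg _) fun j _ => ?_).trans_eq ?_
  · split_ifs
    · refine (Main_small hl H).trans ?_
      rw [div_eq_mul_inv]
      gcongr
      linarith only [Nat.cast_nonneg (α := ℝ) H]
    · rw [mul_one]
      exact card_Icc_le hH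
  · rw [prod_mul_distrib, prod_const, prod_ite_eq', if_pos (mem_univ _), card_univ,
      Fintype.card_fin]

lemma Main_out {k : ℕ} (d : Fin k → ℕ) {lam : ℝ} (hl : 0 < lam) {H : Fin k → ℕ}
    (hH : ∀ i, 1 ≤ H i) :
    (((Fintype.piFinset fun i => PB (d i) (H i)) \ Tp d lam H).card : ℝ) ≤ k * (Wt d H / lam) := by
  let X : (i : Fin k) → (j : Fin k) → Finset (Fin (d j + 1) → ℤ) := fun i j =>
    if j = i then PB (d j) (H j) \ PX lam (d j) (H j) else PB (d j) (H j)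
  have h1 : (Fintype.piFinset fun i => PB (d i) (H i)) \ Tp d lam H ⊆
      univ.biUnion fun i => Fintype.piFinset (X i) := fun v hv => by
    obtain ⟨h2, h3⟩ := mem_sdiff.1 hv
    rw [Fintype.mem_piFinset] at h2
    rw [Tp, Fintype.mem_piFinset, not_forall] at h3
    obtain ⟨i, hi⟩ := h3
    refine mem_biUnion.2 ⟨i, mem_univ i, Fintype.mem_piFinset.2 fun j => ?_⟩
    simp only [X]
    split_ifs with h
    · subst h
      exact mem_sdiff.2 ⟨h2 j, hi⟩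
    · exact h2 j
  have h2 : ∀ i, ((Fintype.piFinset (X i)).card : ℝ) ≤ Wt d H / lam := by
    intro i
    rw [Fintype.card_piFinset, Nat.cast_prod]
    refine (prod_le_prod (g := fun j => (3 * (H j : ℝ)) ^ (d j + 1) * if j = i then lam⁻¹ else 1)
      (fun _ _ => Nat.cast_nonneg _) fun j _ => ?_).trans_eq ?_
    · simp only [X]
      split_ifs
      · exact Main_outPB hl (hH j)
      · rw [mul_one]
        exact Main_cardPB (hH j)
    · rw [prod_mul_distrib, prod_ite_eq', if_pos (mem_univ i), Wt, div_eq_mul_inv]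
  have h3 := (card_le_card h1).trans card_biUnion_le
  refine le_trans (b := ∑ i, ((Fintype.piFinset (X i)).card : ℝ)) (by exact_mod_cast h3) ?_
  refine (sum_le_card_nsmul _ _ _ fun i _ => h2 i).trans_eq ?_
  rw [card_univ, Fintype.card_fin, nsmul_eq_mul]

lemma Main_fix (F₀ : Finset (ℤ × ℤ)) (h₀ : Prim F₀) (h₁ : F₀.card ≤ 1) {k : ℕ} (d : Fin k → ℕ)
    (hd : ∀ i, 1 ≤ d i) {ε : ℝ} (hε : 0 < ε) (B C K : ℕ) : ∀ᶠ N : ℕ in atTop,
    ∀ (H : Fin k → ℕ) (lam : ℝ), (∀ i, (N : ℝ) ^ ε ≤ H i) → Real.log N ≤ lam →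
    lam ≤ Real.log N ^ B → ∀ X : Fin k → ℕ, (∀ i, N ≤ X i ∧ X i ≤ N ^ K) →
      ∑ v ∈ Tp d lam H, |∑ n ∈ Ra lam N, (∏ f ∈ F₀, L1 (zz N) (ev f n) -
        ∏ f ∈ F₀, F1 (zz N) (ev f n)) * ∏ i, F1 (zz (X i)) (pe (v i) n)|
        ≤ Wt d H * N / Real.log N ^ C := by
  rcases F₀.eq_empty_or_nonempty with rfl | hne
  · refine Eventually.of_forall fun N H lam _ _ _ X _ => ?_
    simp only [prod_empty, sub_self, zero_mul, sum_const_zero, abs_zero]
    exact div_nonneg (mul_nonneg (Wt_nonneg d H) (Nat.cast_nonneg N))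
      (pow_nonneg (Real.log_natCast_nonneg N) C)
  obtain ⟨f, rfl⟩ := card_eq_one.1 (le_antisymm h₁ hne.card_pos)
  simp only [prod_singleton]
  exact fixed_d d hd f (h₀ f (mem_singleton_self f)).1 hε B C K

open Classical in
/-- The systems for which the two truncations differ are rare. -/
lemma Main_cmp (F₀ : Finset (ℤ × ℤ)) (h₀ : Prim F₀) (h₁ : F₀.card ≤ 1) {k D : ℕ} (d : Fin k → ℕ)
    (hd : ∀ i, 1 ≤ d i ∧ d i ≤ D) (A K : ℕ) {ε : ℝ} (hε : 0 < ε) : ∀ᶠ N : ℕ in atTop,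
    ∀ (H : Fin k → ℕ) (y : ℕ) (lam : ℝ) (z : F₀ ⊕ Fin k → ℝ),
    (∀ i, (N : ℝ) ^ ε ≤ H i ∧ H i ≤ N ^ K) → Real.exp (√(Real.log N)) ≤ y →
    ((∃ i, 2 ≤ d i) → ∀ i, y ^ 3 ≤ H i) → (∀ i, zz N ≤ z i) →
      (((Tp d lam H).filter fun v => ¬ (0 ≤ EZ (Sys F₀ v) (fun _ => (y : ℝ)) y ∧
        EZ (Sys F₀ v) (fun _ => (y : ℝ)) y ≤ √(Real.log N) ∧
        |EZ (Sys F₀ v) z ⌈zz (N ^ (K + D + 1))⌉₊ - EZ (Sys F₀ v) (fun _ => (y : ℝ)) y|
          ≤ 1 / Real.log N)).card : ℝ) ≤ Wt d H / Real.log N ^ A := by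
  obtain ⟨C₁, c1, h1⟩ := cmp_prob k D
  obtain ⟨C₂, c2, h2⟩ := tail_lin k K
  have e0 : ∀ᶠ N : ℕ in atTop, ∀ f ∈ F₀, (f.1 ≤ N ∧ |f.2| ≤ N) ∧ (f.1 : ℝ) ≤ Real.log N :=
    (eventually_all_finset F₀).2 fun f _ => by
      filter_upwards [eventually_ge_atTop (f.1.natAbs + f.2.natAbs),
        TB_tend.eventually_ge_atTop (f.1 : ℝ)] with N a b
      exact ⟨⟨by omega, by rw [Int.abs_eq_natAbs]; omega⟩, b⟩
  obtain ⟨c, c0, hc⟩ : ∃ c : ℝ, 0 < c ∧ c = 9 * (Real.exp 73 * (A + 6 : ℕ)) ^ (k + 1) :=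
    ⟨_, by positivity, rfl⟩
  filter_upwards [e0, TB_tend.eventually ((Real.isLittleO_pow_log_id_atTop (n := (k + 1) * 2)).bound
      (c := (c ^ 2)⁻¹) (by positivity)), zz_big (A + 6), TB_ev_exp 1 (A + 6) (c := 1 / 2) (by norm_num),
    zz_small (K + D) (A + 5) (half_pos hε),
    TB_tend.eventually_ge_atTop (3 + 8 * ((k + 1) * (D + 1) : ℕ) ^ 2 + 2 * C₂ + 20 * C₁),
    eventually_ge_atTop 2] with N e0 a1 a2 a3 a4 a5 N2 H y lam z hH hy hD hz
  have N0 : (0 : ℝ) < N := by exact_mod_cast (show 0 < N by omega)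
  have z1 := zz_mono (Nat.le_self_pow (show K + D + 1 ≠ 0 by omega) N) (by omega)
  have Y0 := Nat.le_ceil (zz (N ^ (K + D + 1)))
  have Y1 := (Nat.ceil_lt_add_one (show 0 ≤ zz (N ^ (K + D + 1)) from (Real.exp_pos _).le)).le
  rw [one_mul, ← Real.sqrt_eq_rpow] at a3
  obtain ⟨h, hh, sq, hD⟩ : ∃ h : ℕ, (∀ i, h ≤ H i) ∧ ((N : ℝ) ^ (ε / 2)) ^ 2 ≤ h ∧
      ((∃ i, 2 ≤ d i) → y ^ 3 ≤ h) := by
    rw [← Real.rpow_natCast, ← Real.rpow_mul N0.le, Nat.cast_ofNat, div_mul_cancel₀ _ two_ne_zero]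
    by_cases h : ∃ i, 2 ≤ d i
    · exact ⟨max ⌈(N : ℝ) ^ ε⌉₊ (y ^ 3), fun i => max_le (Nat.ceil_le.2 (hH i).1) (hD h i),
        Nat.ceil_le.1 (le_max_left _ _), fun _ => le_max_right _ _⟩
    · exact ⟨⌈(N : ℝ) ^ ε⌉₊, fun i => Nat.ceil_le.2 (hH i).1, Nat.le_ceil _, fun k => absurd k h⟩
  generalize (N : ℝ) ^ (ε / 2) = u at a4 sq
  generalize ⌈zz (N ^ (K + D + 1))⌉₊ = Y at *
  generalize zz (N ^ (K + D + 1)) = Z at *
  replace a2 := a2.1
  set E := (k + 1) * (D + 1) with hE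
  generalize hl : Real.log N = l at *
  have E0 : (0 : ℝ) ≤ (E : ℝ) ^ 2 := by positivity
  have l3 : 3 ≤ l := by linarith only [c1, c2, a5, E0]
  have l1 : 1 ≤ l := by linarith only [c1, c2, a5, E0]
  have w1 := Nat.le_ceil (l ^ (A + 5))
  have p1 : l ≤ l ^ (A + 5) := le_self_pow₀ l1 (by omega)
  have w2 : (⌈l ^ (A + 5)⌉₊ : ℝ) ≤ l ^ (A + 6) := by
    have := Nat.ceil_lt_add_one (show 0 ≤ l ^ (A + 5) by positivity)
    rw [pow_succ l (A + 5)]
    nlinarith only [c1, c2, a5, p1, this]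
  generalize ⌈l ^ (A + 5)⌉₊ = w at w1 w2
  have p0 : 0 < l ^ (A + 5) := by positivity
  have w3 : 3 ≤ w := by exact_mod_cast (show (3 : ℝ) ≤ w by linarith only [c1, c2, a5, E0, p1, w1])
  have wy : w ≤ y := by exact_mod_cast w2.trans (a3.trans hy)
  have wY : w ≤ Y := by exact_mod_cast w2.trans (a2.trans (z1.trans Y0))
  have Z1 : 1 ≤ Z := by linarith only [c1, c2, z1, a2, a5, E0, p1, w1, w2, w2.trans (a2.trans z1)]
  have YH : (Y : ℝ) ^ 2 * l ^ (A + 5) ≤ h := by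
    refine le_trans ?_ ((pow_le_pow_left₀ (by positivity) a4 2).trans sq)
    calc _ ≤ (2 * Z) ^ 2 * (l ^ (A + 5)) ^ 2 :=
          mul_le_mul (pow_le_pow_left₀ (by positivity) (by linarith only [c1, c2, z1, Y1, a2, a5, E0, p1, w1, w2]) 2)
            (le_self_pow₀ (by linarith only [c1, c2, a5, E0, p1]) (by omega)) p0.le (by positivity)
      _ = _ := by ring
  obtain ⟨Y₁, b1, b2, b3, b4⟩ : ∃ Y₁ : ℕ, w ≤ Y₁ ∧ Y₁ ≤ y ∧ (Y₁ : ℝ) ^ 2 * l ^ (A + 5) ≤ h ∧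
      ((∃ i, 2 ≤ d i) → Y₁ = y) := by
    by_cases hn : ∃ i, 2 ≤ d i
    · refine ⟨y, wy, le_rfl, le_trans ?_ (show (y : ℝ) ^ 3 ≤ h by exact_mod_cast hD hn),
        fun _ => rfl⟩
      rw [pow_succ (y : ℝ) 2]
      exact mul_le_mul_of_nonneg_left (w1.trans (by exact_mod_cast wy)) (sq_nonneg _)
    · refine ⟨min y Y, le_min wy wY, min_le_left _ _, le_trans ?_ YH, fun k => absurd k hn⟩
      gcongr
      exact min_le_right _ _
  have H0 : l ^ (A + 5) ≤ h := by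
    have : (1 : ℝ) ≤ Y := by exact_mod_cast (show 1 ≤ Y by omega)
    exact (le_mul_of_one_le_left p0.le (one_le_pow₀ this)).trans YH
  have H1 : 1 ≤ h := by exact_mod_cast (show (1 : ℝ) ≤ h by linarith only [c1, c2, a5, E0, p1, H0])
  have H2 : (0 : ℝ) < h := by linarith only [c1, c2, a5, E0, p1, H0]
  have W0 := Wt_nonneg d H
  have iw : 1 / (w : ℝ) ≤ 1 / l ^ (A + 5) := one_div_le_one_div_of_le p0 w1
  have pb : ∀ (U : ℕ) (x : F₀ ⊕ Fin k → ℝ), (U : ℝ) ^ 2 * l ^ (A + 5) ≤ h →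
      (((Tp d lam H).filter fun v => ¬ (Bd (Sys F₀ v) x w U E ∧
        |Rs (Sys F₀ v) x w U| ≤ 1 / (2 * l ^ 2))).card : ℝ) ≤ 10 * C₁ * (Wt d H / l ^ (A + 1)) := by
    intro U x hU
    have u1 : U ≤ h := by
      have : (U : ℝ) ^ 2 ≤ h := (le_mul_of_one_le_right (by positivity) (by linarith only [c1, c2, a5, E0, p1])).trans hU
      exact (Nat.le_self_pow two_ne_zero U).trans (by exact_mod_cast this)
    refine (h1 d hd F₀ h₀ h₁ H h w U lam _ x (by omega) (fun f hf => ?_) H1 hh u1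
      (by positivity)).trans ?_
    · exact_mod_cast ((e0 f hf).2.trans p1).trans w1
    · have u2 : (U : ℝ) ^ 2 / h ≤ 1 / l ^ (A + 5) := by
        rw [div_le_div_iff₀ H2 p0]
        linarith only [hU]
      have u3 : 1 + 1 / (1 / (2 * l ^ 2)) ^ 2 ≤ 5 * l ^ 4 := by
        have : 1 / (1 / (2 * l ^ 2)) ^ 2 = 4 * l ^ 4 := by field_simp; ring
        linarith only [this, l1, one_le_pow₀ (n := 4) l1]
      calc _ ≤ C₁ * Wt d H * (1 / l ^ (A + 5) + 1 / l ^ (A + 5)) * (5 * l ^ 4) := by gcongr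
        _ = _ := by field_simp; ring
  obtain ⟨T, t1, t2⟩ : ∃ T : Finset ((i : Fin k) → Fin (d i + 1) → ℤ),
      (T.card : ℝ) ≤ 2 * C₂ * (Wt d H / l ^ (A + 1)) ∧ ∀ v ∈ Tp d lam H, v ∉ T →
        Bd (Sys F₀ v) (fun _ => (y : ℝ)) Y₁ y E ∧
          |Rs (Sys F₀ v) (fun _ => (y : ℝ)) Y₁ y| ≤ 1 / (2 * l ^ 2) := by
    by_cases hn : ∃ i, 2 ≤ d i
    · refine ⟨∅, by rw [card_empty, Nat.cast_zero]; positivity, fun v _ _ => ?_⟩
      rw [b4 hn]
      refine ⟨fun p _ a b => absurd b (not_le.2 a), ?_⟩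
      rw [Rs, Ioc_self, filter_empty, sum_empty, abs_zero]
      positivity
    · refine ⟨_, (h2 d (fun i => le_antisymm (not_lt.1 fun k => hn ⟨i, k⟩) (hd i).1) F₀ h₀ h₁ N h w
        H lam N2 H1 (fun i => ⟨hh i, (hH i).2⟩) (fun f hf => (e0 f hf).1) (by omega)).trans ?_,
        fun v hv hn => ?_⟩
      · have := one_div_le_one_div_of_le p0 H0
        calc _ ≤ C₂ * Wt d H * (1 / l ^ (A + 1) + 1 / l ^ (A + 1)) := by
              have := one_div_le_one_div_of_le (by positivity)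
                (pow_le_pow_right₀ l1 (show A + 1 ≤ A + 5 by omega))
              exact mul_le_mul_of_nonneg_left (by linarith) (by positivity)
          _ = _ := by ring
      · obtain ⟨q1, q2⟩ := not_not.1 (fun k => hn (mem_filter.2 ⟨hv, k⟩)) Y₁ y b1 b2
        refine ⟨q1.mono (Nat.le_mul_of_pos_right _ (by omega)), q2.trans ?_⟩
        have q3 : (w : ℝ) ≤ Y₁ := by exact_mod_cast b1
        rw [hl, div_le_div_iff₀ (by linarith only [c1, c2, a5, E0, p1, w1, q3]) (by positivity), one_mul]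
        refine le_trans ?_ ((pow_le_pow_right₀ l1 (show 4 ≤ A + 5 by omega)).trans (w1.trans q3))
        calc _ = 2 * C₂ * l ^ 3 := by ring
          _ ≤ l * l ^ 3 := mul_le_mul_of_nonneg_right (by linarith only [c1, a5, E0]) (by positivity)
          _ = _ := by ring
  have hsub : (Tp d lam H).filter (fun v => ¬ (0 ≤ EZ (Sys F₀ v) (fun _ => (y : ℝ)) y ∧
        EZ (Sys F₀ v) (fun _ => (y : ℝ)) y ≤ √l ∧
        |EZ (Sys F₀ v) z Y - EZ (Sys F₀ v) (fun _ => (y : ℝ)) y| ≤ 1 / l)) ⊆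
      ((Tp d lam H).filter fun v => ¬ (Bd (Sys F₀ v) z w Y E ∧
        |Rs (Sys F₀ v) z w Y| ≤ 1 / (2 * l ^ 2))) ∪
      ((Tp d lam H).filter fun v => ¬ (Bd (Sys F₀ v) (fun _ => (y : ℝ)) w Y₁ E ∧
        |Rs (Sys F₀ v) (fun _ => (y : ℝ)) w Y₁| ≤ 1 / (2 * l ^ 2))) ∪ T := fun v hv => by
    obtain ⟨v1, v2⟩ := mem_filter.1 hv
    by_contra hc'
    simp only [mem_union, not_or, mem_filter, v1, true_and, not_not] at hc'
    have cd : Fintype.card (F₀ ⊕ Fin k) ≤ k + 1 := by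
      rw [Fintype.card_sum, Fintype.card_coe, Fintype.card_fin]
      omega
    have q1 : 8 * (E : ℝ) ^ 2 * l ^ 2 ≤ w := by
      refine le_trans ?_ ((pow_le_pow_right₀ l1 (show 3 ≤ A + 5 by omega)).trans w1)
      rw [pow_succ' l 2]
      exact mul_le_mul_of_nonneg_right (by linarith only [c1, c2, a5]) (by positivity)
    refine v2 (Good_cmp _ z (by linarith only [c1, c2, a5, E0]) (by omega) ?_
      (cd.trans (Nat.le_mul_of_pos_right _ (by omega))) q1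
      (fun i => w2.trans (a2.trans (hz i))) wY b1 b2 ?_ hc'.1.1 hc'.1.2 (t2 v v1 hc'.2))
    · have : (E : ℝ) ≤ (E : ℝ) ^ 2 := by exact_mod_cast Nat.le_self_pow two_ne_zero E
      exact_mod_cast (show 2 * (E : ℝ) ≤ w by linarith only [c1, c2, a5, p1, w1, this, sq_nonneg ↑E])
    · have w0 : (3 : ℝ) ≤ w := by exact_mod_cast w3
      have r1 : 1 ≤ Real.log w := by
        rw [Real.le_log_iff_exp_le (by linarith only [c1, c2, a5, E0, p1, w1])]
        linarith only [c1, c2, a5, E0, p1, w1, Real.exp_one_lt_d9]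
      have r2 : Real.log w ≤ (A + 6 : ℕ) * Real.log l := by
        rw [← Real.log_pow]
        exact Real.log_le_log (by linarith only [c1, c2, a5, E0, p1, w1]) w2
      have r3 := Real.one_le_exp (show (0 : ℝ) ≤ 73 by norm_num)
      have r4 : 9 * (Real.exp 73 * Real.log w) ^ Fintype.card (F₀ ⊕ Fin k)
          ≤ c * Real.log l ^ (k + 1) := by
        rw [hc, mul_assoc, ← mul_pow, mul_assoc]
        refine mul_le_mul_of_nonneg_left ((pow_le_pow_right₀ (by linarith only [r1, r3, mul_nonneg_of_nonpos_of_nonpos (Mathlib.Tactic.Linarith.sub_nonpos_of_le r1) (Mathlib.Tactic.Linarith.sub_nonpos_of_le r3)]) cd).trans ?_)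
          (by norm_num)
        gcongr
      refine r4.trans (Real.le_sqrt_of_sq_le ?_)
      rw [Real.norm_eq_abs, Real.norm_eq_abs, id, abs_of_nonneg (show 0 ≤ l by linarith only [c1, c2, a5, E0]),
        le_inv_mul_iff₀ (by positivity), pow_mul] at a1
      rw [mul_pow]
      exact (mul_le_mul_of_nonneg_left (le_abs_self _) (sq_nonneg _)).trans a1
  have c := (card_le_card hsub).trans ((card_union_le _ _).trans
    (Nat.add_le_add_right (card_union_le _ _) _))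
  refine le_trans (Nat.cast_le.2 c) ?_
  push_cast
  refine (add_le_add (add_le_add (pb Y z YH) (pb Y₁ _ b3)) t1).trans ?_
  rw [← add_mul, ← add_mul]
  refine (mul_le_mul_of_nonneg_right (show _ ≤ l by linarith only [a5, E0]) (by positivity)).trans_eq ?_
  rw [pow_succ]
  field_simp

lemma Main_Wt {k : ℕ} (d H : Fin k → ℕ) :
    Wt d H = 3 ^ (∑ i, (d i + 1)) * ∏ i, (H i : ℝ) ^ (d i + 1) := by
  simp only [Wt, mul_pow]
  rw [prod_mul_distrib, prod_pow_eq_pow_sum]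

open Classical in
theorem main (F₀ : Finset (ℤ × ℤ)) (h₀ : Prim F₀) (h₁ : F₀.card ≤ 1) {k D : ℕ} (d : Fin k → ℕ)
    (hd : ∀ i, 1 ≤ d i ∧ d i ≤ D) (A K : ℕ) {ε η : ℝ} (hε : 0 < ε) (hη : 0 < η) :
    ∃ E : ℕ, ∀ᶠ N : ℕ in atTop, ∀ (H : Fin k → ℕ) (y : ℕ),
      (∀ i, (N : ℝ) ^ ε ≤ H i ∧ H i ≤ N ^ K ∧ (2 ≤ d i → N * Real.log N ^ E ≤ H i)) →
      Real.exp (√(Real.log N)) ≤ y → ((∃ i, 2 ≤ d i) → ∀ i, y ^ 3 ≤ H i) →
      (((Fintype.piFinset fun i => PB (d i) (H i)).filter fun v =>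
        η < |cz (Sys F₀ v) N - EZ (Sys F₀ v) (fun _ => (y : ℝ)) y|).card : ℝ)
        ≤ (∏ i, (H i : ℝ) ^ (d i + 1)) / Real.log N ^ A := by
  set B := A + k + 2 with hB
  obtain ⟨E, hE⟩ := var_all D B (A + 1 + 2 * k) K hε
  refine ⟨E, ?_⟩
  filter_upwards [hE, good F₀ h₀ h₁ d hd B (K + D) (by omega) hη,
    Main_fixed F₀ h₀ h₁ 0 hε 0 0, Main_fix F₀ h₀ h₁ d (fun i => (hd i).1) hε B (A + 1) (K + D + 1),
    Main_cmp F₀ h₀ h₁ d hd (A + 1) K hε, eventually_forall_ge_atTop.2 LF_bound,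
    Core_ev one_pos (2 * B + 1), TB_tend.eventually_ge_atTop (2 * D + 1), eventually_ge_atTop 1,
    TB_tend.eventually_ge_atTop (3 ^ (∑ i, (d i + 1)) *
      (k + 64 * k ^ 2 * (3 * (K + D + 1 : ℕ)) ^ (2 * k) / η ^ 2 + 8 / η + 1))]
    with N h1 h2 ⟨h3, _⟩ h4 h5 h6 l4 l3 N1 l2 H y hH hy hD
  set lam := Real.log N ^ B with hlam
  have D0 : (0 : ℝ) ≤ D := Nat.cast_nonneg D
  have l1 : 1 ≤ Real.log N := by linarith only [l3]
  have N0 : (0 : ℝ) < N := by exact_mod_cast N1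
  have m3 : Real.log N ≤ lam := le_self_pow₀ l1 (by omega)
  have l0 : 0 < lam := by linarith only [l3, m3]
  rw [Real.rpow_one, pow_succ, pow_mul', ← hlam] at l4
  have m4 : 2 * D * lam ^ 2 ≤ N := le_trans (by linarith only [l3, sq_nonneg lam, sq_nonneg lam, mul_nonneg_of_nonpos_of_nonpos (Mathlib.Tactic.Linarith.sub_nonpos_of_le (sq_nonneg lam)) (Mathlib.Tactic.Linarith.sub_nonpos_of_le l3)]) l4
  have H1 : ∀ i, 1 ≤ H i := fun i => by
    have := (Real.one_le_rpow (show (1 : ℝ) ≤ N by exact_mod_cast N1) hε.le).trans (hH i).1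
    exact_mod_cast this
  choose X hX hV using fun i => h1 (H i) (d i) lam (hH i).1 (hH i).2.1 (hH i).2.2 m3 le_rfl
    (hd i).1 (hd i).2
  have W0 := Wt_nonneg d H
  let D1 : ((i : Fin k) → Fin (d i + 1) → ℤ) → ℝ := fun v =>
    (∑ n ∈ Ra lam N, (∏ f ∈ F₀, L1 (zz N) (ev f n)) *
      (∏ i, L1 (zz (X i)) (pe (v i) n) - ∏ i, F1 (zz (X i)) (pe (v i) n))) ^ 2
  let D2 : ((i : Fin k) → Fin (d i + 1) → ℤ) → ℝ := fun v =>
    |∑ n ∈ Ra lam N, (∏ f ∈ F₀, L1 (zz N) (ev f n) -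
      ∏ f ∈ F₀, F1 (zz N) (ev f n)) * ∏ i, F1 (zz (X i)) (pe (v i) n)|
  let T0 := (Fintype.piFinset fun i => PB (d i) (H i)) \ Tp d lam H
  let T1 := (Tp d lam H).filter fun v => (η / 8 * N) ^ 2 < D1 v
  let T2 := (Tp d lam H).filter fun v => η / 8 * N < D2 v
  let T3 := (Tp d lam H).filter fun v => ¬ (0 ≤ EZ (Sys F₀ v) (fun _ => (y : ℝ)) y ∧
    EZ (Sys F₀ v) (fun _ => (y : ℝ)) y ≤ √(Real.log N) ∧
    |EZ (Sys F₀ v) (fun i => zz (Sum.elim (fun _ => N) X i)) ⌈zz (N ^ (K + D + 1))⌉₊ -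
      EZ (Sys F₀ v) (fun _ => (y : ℝ)) y| ≤ 1 / Real.log N)
  have hsub : ((Fintype.piFinset fun i => PB (d i) (H i)).filter fun v =>
      η < |cz (Sys F₀ v) N - EZ (Sys F₀ v) (fun _ => (y : ℝ)) y|) ⊆ T0 ∪ T1 ∪ T2 ∪ T3 := by
    intro v hF
    obtain ⟨a1, a2⟩ := mem_filter.1 hF
    by_contra hc
    simp only [mem_union, not_or] at hc
    obtain ⟨⟨⟨c0, c1⟩, c2⟩, c3⟩ := hc
    have hv : v ∈ Tp d lam H := by
      by_contra h
      exact c0 (mem_sdiff.2 ⟨a1, h⟩)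
    obtain ⟨b1, b2, b3⟩ := not_not.1 fun h => c3 (mem_filter.2 ⟨hv, h⟩)
    exact absurd a2 (not_lt.2 (h2 H X hX v hv _ _ (Nat.le_ceil _)
      (abs_le_of_sq_le_sq (not_lt.1 fun h => c1 (mem_filter.2 ⟨hv, h⟩)) (by positivity))
      (not_lt.1 fun h => c2 (mem_filter.2 ⟨hv, h⟩)) b1 b2 b3))
  have c := (card_le_card hsub).trans ((card_union_le _ _).trans (Nat.add_le_add_right
    ((card_union_le _ _).trans (Nat.add_le_add_right (card_union_le _ _) _)) _))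
  refine le_trans (b := (T0.card : ℝ) + T1.card + T2.card + T3.card) (by exact_mod_cast c) ?_
  have K1 : (1 : ℝ) ≤ (K + D + 1 : ℕ) := by exact_mod_cast Nat.le_add_left 1 _
  have c0 : (T0.card : ℝ) ≤ _ := Main_out d l0 H1
  have c1 : (T1.card : ℝ) ≤ _ :=
    (Main_markov _ D1 (fun _ => sq_nonneg _) (by positivity)).trans
      (div_le_div_of_nonneg_right (tele_d d X H1 (c := 3 * (K + D + 1 : ℕ) * Real.log N)
        (by linarith only [K1, l3, mul_nonneg_of_nonpos_of_nonpos (Mathlib.Tactic.Linarith.sub_nonpos_of_le (Mathlib.Tactic.Linarith.natCast_nonneg ℝ D)) (Mathlib.Tactic.Linarith.sub_nonpos_of_le (Mathlib.Tactic.Linarith.natCast_nonneg ℝ (K + D + (1 : ℕ)))), mul_nonneg_of_nonpos_of_nonpos (Mathlib.Tactic.Linarith.sub_nonpos_of_le (Mathlib.Tactic.Linarith.natCast_nonneg ℝ (K + D + (1 : ℕ)))) (Mathlib.Tactic.Linarith.sub_nonpos_of_le l3)]) hV (fun i f hf n hn => by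
          have q1 := (pe_range (hd i).1 hf (rg_Ra lam N) hn l0
            (le_trans (by gcongr; exact (hd i).2) m4)).2.2
          obtain ⟨q2, q3, q4, q5, -⟩ := h6 (X i) (hX i).1 (pe f n)
            (q1.trans (by exact_mod_cast (hX i).2.2))
          have q6 : Real.log (X i) ≤ (K + D + 1 : ℕ) * Real.log N := by
            rw [← Real.log_pow]
            exact Real.log_le_log (by exact_mod_cast N1.trans (hX i).1)
              (by exact_mod_cast (hX i).2.1)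
          have q7 := Real.log_natCast_nonneg (X i)
          rw [abs_of_nonneg q2, abs_of_nonneg q4]
          constructor <;> linarith only [q3, q6, q2, q5]) _
        fun n hn => (h3 n ((rg_Ra lam N).hi n hn)).trans (by linarith only [K1, l3, mul_nonneg_of_nonpos_of_nonpos (Mathlib.Tactic.Linarith.sub_nonpos_of_le (Mathlib.Tactic.Linarith.natCast_nonneg ℝ D)) (Mathlib.Tactic.Linarith.sub_nonpos_of_le K1), mul_nonneg_of_nonpos_of_nonpos (Mathlib.Tactic.Linarith.sub_nonpos_of_le l3) (Mathlib.Tactic.Linarith.sub_nonpos_of_le K1)])) (by positivity))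
  have c2 : (T2.card : ℝ) ≤ _ :=
    (Main_markov _ D2 (fun _ => abs_nonneg _) (by positivity)).trans
      (div_le_div_of_nonneg_right (h4 H lam (fun i => (hH i).1) m3 le_rfl X
        fun i => ⟨(hX i).1, (hX i).2.1⟩) (by positivity))
  have c3 : (T3.card : ℝ) ≤ _ := h5 H y lam _ (fun i => ⟨(hH i).1, (hH i).2.1⟩) hy hD (by
      rintro (f | i)
      · exact le_rfl
      · exact zz_mono (hX i).1 N1)
  refine (add_le_add (add_le_add (add_le_add c0 c1) c2) c3).trans ?_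
  have eW := Main_Wt d H
  have P0 : 0 ≤ ∏ i, (H i : ℝ) ^ (d i + 1) := prod_nonneg fun _ _ => by positivity
  rw [hlam, hB]
  generalize Real.log N = l at *
  have l0' : 0 < l := by linarith only [l3]
  have d0 : (k : ℝ) * (Wt d H / l ^ (A + k + 2)) ≤ k * (Wt d H / l ^ (A + 1)) :=
    mul_le_mul_of_nonneg_left (div_le_div_of_nonneg_left W0 (by positivity)
      (pow_le_pow_right₀ l1 (by omega))) (Nat.cast_nonneg k)
  have d1 : (k : ℝ) ^ 2 * (3 * (K + D + 1 : ℕ) * l) ^ (2 * k) *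
      (Wt d H * N ^ 2 / l ^ (A + 1 + 2 * k)) / (η / 8 * N) ^ 2 =
      64 * k ^ 2 * (3 * (K + D + 1 : ℕ)) ^ (2 * k) / η ^ 2 * (Wt d H / l ^ (A + 1)) := by
    rw [mul_pow _ l, pow_add l (A + 1)]
    field_simp
    ring
  have d2 : Wt d H * N / l ^ (A + 1) / (η / 8 * N) = 8 / η * (Wt d H / l ^ (A + 1)) := by
    field_simp
  rw [d1, d2]
  refine (add_le_add_left (add_le_add_left (add_le_add_left d0 _) _) _).trans ?_
  rw [← add_mul, ← add_mul, ← add_one_mul, eW, mul_div_assoc (3 ^ _ : ℝ), mul_left_comm,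
    ← mul_assoc]
  refine (mul_le_mul_of_nonneg_right l2 (by positivity)).trans_eq ?_
  rw [pow_succ]
  field_simp

end Pool.Agent.Work.MP_51e72e_nt.PV
end

-- merged part: Pool.Agent.Work.MP_51e72e_nt.PV.Fin
section
/-! The limit of the ordered products. -/

set_option autoImplicit false
open Finset Filter MeasureTheory Pool.Agent.Lib.MR Pool.Agent.Lib.LargeSieve
open Pool.Agent.Work.MP_678620_nt Pool.Agent.Work.MP_51e72e_nt.AV

namespace Pool.Agent.Work.MP_51e72e_nt.PV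

/-- The ordered products. -/
noncomputable def PP {ι : Type} [Fintype ι] (φ : ι → ℤ → ℤ) (y : ℕ∞) (x : ℕ) : ℝ :=
  ∏ p ∈ (range (x + 1)).filter (fun p : ℕ => p.Prime ∧ (p : ℕ∞) ≤ y),
    (1 - (om φ univ p : ℝ) / p) / (1 - 1 / (p : ℝ)) ^ Fintype.card ι

lemma Fin_EZ {ι : Type} [Fintype ι] (φ : ι → ℤ → ℤ) (y : ℕ) :
    EZ φ (fun _ => (y : ℝ)) y = PP φ ⊤ y := by
  simp only [EZ, PP, le_top, and_true]
  refine prod_congr rfl fun p hp => ?_
  rw [lz, PVTail_act (Nat.lt_succ_iff.1 (mem_range.1 (mem_filter.1 hp).1)), card_univ]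

lemma Fin_PP {ι : Type} [Fintype ι] (φ : ι → ℤ → ℤ) {x y : ℕ} (h : y ≤ x) :
    PP φ y x = PP φ ⊤ y := by
  refine prod_congr ?_ fun _ _ => rfl
  ext p
  simp only [mem_filter, mem_range, Nat.lt_succ_iff, le_top, and_true, Nat.cast_le]
  exact ⟨fun k => ⟨k.2.2, k.2.1⟩, fun k => ⟨k.1.trans h, k.2, k.1⟩⟩

lemma Fin_conv {ι : Type} [Fintype ι] (φ : ι → ℤ → ℤ) {w E : ℕ} {c : ℝ} (hc : 0 ≤ c)
    (hE : Fintype.card ι ≤ E) (h : ∀ Y y : ℕ, w ≤ Y → Y ≤ y →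
      Bd φ (fun _ => (y : ℝ)) Y y E ∧ |Rs φ (fun _ => (y : ℝ)) Y y| ≤ c / Y) :
    ∃ C, Tendsto (PP φ ⊤) atTop (nhds C) := by
  obtain ⟨u, u1, u2, u3, u4⟩ : ∃ u : ℕ, w ≤ u ∧ 2 ≤ u ∧ 2 * E ≤ u ∧ c + 4 * (E : ℝ) ^ 2 ≤ u :=
    ⟨w + 2 + 2 * E + ⌈c + 4 * (E : ℝ) ^ 2⌉₊, by omega, by omega, by omega,
      Nat.ceil_le.1 (by omega)⟩
  have key : ∀ Y y : ℕ, u ≤ Y → Y ≤ y →
      |PP φ ⊤ y - PP φ ⊤ Y| ≤ 2 * ((c + 4 * (E : ℝ) ^ 2) / Y) * PP φ ⊤ Y := by
    intro Y y h1 h2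
    have Y0 : (u : ℝ) ≤ Y := by exact_mod_cast h1
    have u0 : (2 : ℝ) ≤ u := by exact_mod_cast u2
    have := cmp_det φ (fun _ => (y : ℝ)) (s := (c + 4 * (E : ℝ) ^ 2) / Y) (by omega) h2
      (u3.trans h1) hE (h Y y (u1.trans h1) h2).1
      (by rw [add_div]; exact add_le_add (h Y y (u1.trans h1) h2).2 le_rfl)
      ((div_le_one (by linarith only [Y0, u0])).2 (u4.trans Y0))
    rwa [EZ_congr φ (z' := fun _ => (Y : ℝ)) (w := Y) (fun _ => by exact_mod_cast h2)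
      fun _ => le_rfl, Fin_EZ, Fin_EZ] at this
  have u0 : (0 : ℝ) < u := by exact_mod_cast (show 0 < u by omega)
  have p0 : 0 ≤ PP φ ⊤ u := Fin_EZ φ u ▸ (EZ_head φ _ u2).1
  have bd : ∀ Y, u ≤ Y → PP φ ⊤ Y ≤ 3 * PP φ ⊤ u := fun Y hY => by
    have a := (abs_le.1 (key u Y le_rfl hY)).2
    have b := mul_le_mul_of_nonneg_right ((div_le_one u0).2 u4) p0
    linarith only [a, b]
  have cs : CauchySeq fun n => PP φ ⊤ (n + u) := by
    refine cauchySeq_of_le_tendsto_0'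
      (fun n : ℕ => 2 * (c + 4 * (E : ℝ) ^ 2) * (3 * PP φ ⊤ u) / ((n + u : ℕ) : ℝ)) (fun n m hm => ?_)
      ((tendsto_const_div_atTop_nhds_zero_nat _).comp (tendsto_add_atTop_nat u))
    rw [dist_comm, Real.dist_eq]
    refine (key (n + u) (m + u) (by omega) (by omega)).trans
      ((mul_le_mul_of_nonneg_left (bd _ (by omega)) (by positivity)).trans_eq (by ring))
  obtain ⟨C, hC⟩ := cauchySeq_tendsto_of_complete cs
  exact ⟨C, (tendsto_add_atTop_iff_nat u).1 hC⟩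

open Classical in
theorem final (F₀ : Finset (ℤ × ℤ)) (h₀ : Prim F₀) (h₁ : F₀.card ≤ 1) {k : ℕ} (d : Fin k → ℕ)
    (hd : ∀ i, 1 ≤ d i) (A K : ℕ) {ε η : ℝ} (hε : 0 < ε) (hη : 0 < η) :
    ∃ E : ℕ, ∀ᶠ N : ℕ in atTop, ∀ (H : Fin k → ℕ) (y : ℕ∞),
      (∀ i, (N : ℝ) ^ ε ≤ H i ∧ H i ≤ N ^ K ∧ (2 ≤ d i → N * Real.log N ^ E ≤ H i)) →
      (⌈Real.exp (√(Real.log N))⌉₊ : ℕ∞) ≤ y → ((∃ i, 2 ≤ d i) → ∀ i, y ^ 3 ≤ (H i : ℕ∞)) →
      (((Fintype.piFinset fun i => PB (d i) (H i)).filter fun v => ¬ ∃ C : ℝ,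
        Tendsto (PP (Sys F₀ v) y) atTop (nhds C) ∧ |cz (Sys F₀ v) N - C| ≤ η).card : ℝ)
        ≤ (∏ i, (H i : ℝ) ^ (d i + 1)) / Real.log N ^ A := by
  obtain ⟨E, hE⟩ := main F₀ h₀ h₁ (D := univ.sup d) d (fun i => ⟨hd i, le_sup (mem_univ i)⟩)
    (A + 1) K hε hη
  obtain ⟨C₂, c2, h2⟩ := tail_lin k K
  have e0 : ∀ᶠ N : ℕ in atTop, ∀ f ∈ F₀, f.1 ≤ N ∧ |f.2| ≤ N :=
    (eventually_all_finset F₀).2 fun f _ => by
      filter_upwards [eventually_ge_atTop (f.1.natAbs + f.2.natAbs)] with N a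
      exact ⟨by omega, by rw [Int.abs_eq_natAbs]; omega⟩
  refine ⟨E, ?_⟩
  filter_upwards [hE, e0, Core_ev hε (A + 1), eventually_ge_atTop 2,
    TB_tend.eventually_ge_atTop (1 + 3 ^ (∑ i, (d i + 1)) * (k + 2 * C₂))]
    with N h1 e0 a1 N2 l2 H y hH hy hD
  have P0 : 0 ≤ ∏ i, (H i : ℝ) ^ (d i + 1) := prod_nonneg fun _ _ => by positivity
  have l1 : 1 ≤ Real.log N := le_trans (le_add_of_nonneg_right (by positivity)) l2
  have p0 : 0 < Real.log N ^ (A + 1) := by positivity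
  induction y using ENat.recTopCoe with
  | coe y =>
    refine le_trans (Nat.cast_le.2 (card_le_card fun v hv => ?_)) ((h1 H y hH
      (Nat.ceil_le.1 (by exact_mod_cast hy)) fun h i => by exact_mod_cast hD h i).trans
      (div_le_div_of_nonneg_left P0 (by positivity) (pow_le_pow_right₀ l1 A.le_succ)))
    obtain ⟨v1, v2⟩ := mem_filter.1 hv
    refine mem_filter.2 ⟨v1, not_le.1 fun h => v2 ⟨_, ?_, h⟩⟩
    rw [Fin_EZ]
    exact tendsto_const_nhds.congr' ((eventually_ge_atTop y).mono fun x hx => (Fin_PP _ hx).symm)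
  | top =>
    have d1 : ¬ ∃ i, 2 ≤ d i := fun h => by
      obtain ⟨i, hi⟩ := id h
      simpa using hD h i
    have w1 := Nat.le_ceil (Real.log N ^ (A + 1))
    have w2 : ∀ i, ⌈Real.log N ^ (A + 1)⌉₊ ≤ H i := fun i => Nat.ceil_le.2 (a1.trans (hH i).1)
    have w3 : 1 ≤ ⌈Real.log N ^ (A + 1)⌉₊ := Nat.ceil_pos.2 p0
    generalize ⌈Real.log N ^ (A + 1)⌉₊ = w at w1 w2 w3
    have c1 := Main_out d p0 fun i => w3.trans (w2 i)
    have c2' := h2 d (fun i => le_antisymm (not_lt.1 fun k => d1 ⟨i, k⟩) (hd i)) F₀ h₀ h₁ N w w H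
      (Real.log N ^ (A + 1)) N2 w3 (fun i => ⟨w2 i, (hH i).2.1⟩) e0 w3
    have ev : ∀ᶠ y : ℕ in atTop, ∀ v ∈ Fintype.piFinset fun i => PB (d i) (H i),
        (∃ C, Tendsto (PP (Sys F₀ v) ⊤) atTop (nhds C)) → (¬ ∃ C : ℝ,
          Tendsto (PP (Sys F₀ v) ⊤) atTop (nhds C) ∧ |cz (Sys F₀ v) N - C| ≤ η) →
        η < |cz (Sys F₀ v) N - PP (Sys F₀ v) ⊤ y| := (eventually_all_finset _).2 fun v _ => by
      by_cases h : ∃ C, Tendsto (PP (Sys F₀ v) ⊤) atTop (nhds C)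
      · obtain ⟨C, hC⟩ := h
        by_cases h' : |cz (Sys F₀ v) N - C| ≤ η
        · exact Eventually.of_forall fun _ _ k => absurd ⟨C, hC, h'⟩ k
        · exact (((hC.const_sub _).abs).eventually_const_lt (not_le.1 h')).mono fun _ k _ _ => k
      · exact Eventually.of_forall fun _ k => absurd k h
    obtain ⟨y, y1, y2⟩ := (ev.and (eventually_ge_atTop ⌈Real.exp (√(Real.log N))⌉₊)).exists
    have c3 := h1 H y hH (Nat.ceil_le.1 y2) fun h => absurd h d1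
    refine le_trans (Nat.cast_le.2 ((card_le_card fun v hv => ?_).trans ((card_union_le _ _).trans
      (Nat.add_le_add_right (card_union_le _ _) _)))) ((Nat.cast_add _ _).trans_le
        ((add_le_add ((Nat.cast_add _ _).trans_le (add_le_add c1 c2')) c3).trans ?_))
    · obtain ⟨v1, v2⟩ := mem_filter.1 hv
      by_contra hc
      simp only [mem_union, not_or, mem_filter, Finset.mem_sdiff, v1, true_and, not_not, not_and] at hc
      refine hc.2 ?_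
      rw [Fin_EZ]
      refine y1 v v1 (Fin_conv _ (mul_nonneg c2 (by linarith only [l1])) ?_ (hc.1.2 hc.1.1)) v2
      rw [Fintype.card_sum, Fintype.card_coe, Fintype.card_fin]
      omega
    · have iw : 1 / (w : ℝ) ≤ 1 / Real.log N ^ (A + 1) := one_div_le_one_div_of_le p0 w1
      have W0 := Wt_nonneg d H
      refine (add_le_add_left (add_le_add_right (mul_le_mul_of_nonneg_left (add_le_add iw iw)
        (by positivity)) _) _).trans ?_
      rw [Main_Wt]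
      refine le_of_eq_of_le (b := (1 + 3 ^ (∑ i, (d i + 1)) * (k + 2 * C₂)) *
        ((∏ i, (H i : ℝ) ^ (d i + 1)) / Real.log N ^ (A + 1))) (by ring)
        ((mul_le_mul_of_nonneg_right l2 (by positivity)).trans_eq ?_)
      rw [pow_succ]
      field_simp

lemma Fin_om (F₀ : Finset (ℤ × ℤ)) {k : ℕ} {d : Fin k → ℕ} (v : (i : Fin k) → Fin (d i + 1) → ℤ)
    {p : ℕ} (hp : p.Prime) : om (Sys F₀ v) univ p = ((range p).filter fun n : ℕ => (p : ℤ) ∣
      (∏ f ∈ F₀, (f.1 * (n : ℤ) + f.2)) * ∏ i, ∑ j, v i j * (n : ℤ) ^ (j : ℕ)).card := by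
  refine congrArg _ (filter_congr fun n _ => ?_)
  rw [← (Nat.prime_iff_prime_int.1 hp).dvd_finsetProd_iff, Fintype.prod_sum_type,
    ← prod_coe_sort F₀]
  rfl

lemma Fin_PP' (F₀ : Finset (ℤ × ℤ)) {k : ℕ} {d : Fin k → ℕ} (v : (i : Fin k) → Fin (d i + 1) → ℤ)
    (y : ℕ∞) : PP (Sys F₀ v) y = fun x : ℕ =>
      ∏ p ∈ (range (x + 1)).filter (fun p : ℕ => p.Prime ∧ (p : ℕ∞) ≤ y),
        (1 - (((range p).filter fun n : ℕ => (p : ℤ) ∣ (∏ f ∈ F₀, (f.1 * (n : ℤ) + f.2)) *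
          ∏ i, ∑ j, v i j * (n : ℤ) ^ (j : ℕ)).card : ℝ) / p) /
          (1 - 1 / (p : ℝ)) ^ (F₀.card + k) := by
  funext x
  refine prod_congr rfl fun p hp => ?_
  rw [Fin_om F₀ v (mem_filter.1 hp).2.1, Fintype.card_sum, Fintype.card_coe, Fintype.card_fin]

lemma Fin_cz (F₀ : Finset (ℤ × ℤ)) {k : ℕ} {d : Fin k → ℕ} (v : (i : Fin k) → Fin (d i + 1) → ℤ)
    (N : ℕ) : cz (Sys F₀ v) N =
      (((Icc 1 N).filter fun n : ℕ => (∀ f ∈ F₀, (f.1 * (n : ℤ) + f.2).natAbs.Prime) ∧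
        ∀ i, (∑ j, v i j * (n : ℤ) ^ (j : ℕ)).natAbs.Prime).card : ℝ) *
      ((∏ f ∈ F₀, Real.log |((f.1 * (N : ℤ) + f.2 : ℤ) : ℝ)|) *
        ∏ i, Real.log |((∑ j, v i j * (N : ℤ) ^ (j : ℕ) : ℤ) : ℝ)|) / N := by
  rw [cz, Fintype.prod_sum_type, ← prod_coe_sort F₀, filter_congr fun n _ =>
    Sum.forall.trans (and_congr_left' Subtype.forall)]
  rfl

end Pool.Agent.Work.MP_51e72e_nt.PV
end
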