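import Pool.Agent.Work.MP_51e72e_nt.AV.MinA
import Pool.Agent.Work.MP_678620_nt.TBBox
import Pool.Agent.Work.MP_51e72e_nt.PV.Mult

-- merged part: Pool.Agent.Work.MP_51e72e_nt.AV.Model
section
/-! The count in the model. -/

set_option autoImplicit false
open Finset Filter MeasureTheory Pool.Agent.Lib.MR Pool.Agent.Lib.LargeSieve
open Pool.Agent.Work.MP_678620_nt

namespace Pool.Agent.Work.MP_51e72e_nt.AV

lemma Model_om {F : Finset (ℤ × ℤ)} (h : Prim F) {p : ℕ} (hp : p.Prime) : omF F p ≤ F.card := by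
  have s : ((range p).filter fun n : ℕ => (p : ℤ) ∣ ∏ f ∈ F, ev f n) ⊆
      F.biUnion fun f => (range p).filter fun n : ℕ => (p : ℤ) ∣ f.1 * n + f.2 := fun n hn => by
    obtain ⟨h1, h2⟩ := mem_filter.1 hn
    obtain ⟨f, f1, f2⟩ := ((Nat.prime_iff_prime_int.1 hp).dvd_finsetProd_iff _).1 h2
    exact mem_biUnion.2 ⟨f, f1, mem_filter.2 ⟨h1, f2⟩⟩
  exact (card_le_card s).trans ((card_biUnion_le_card_mul _ _ 1 fun f hf =>
    TB_root_le hp (h f hf).2).trans (mul_one _).le)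

lemma Model_rho (F : Finset (ℤ × ℤ)) (p : ℕ) :
    (rhoP (fun (p : ℕ) (y : ℤ) => ¬ (p : ℤ) ∣ ∏ f ∈ F, (f.1 * y + f.2)) p : ℝ) = p - omF F p := by
  have := card_filter_add_card_filter_not (s := range p) fun n : ℕ => (p : ℤ) ∣ ∏ f ∈ F, ev f n
  rw [card_range] at this
  rw [eq_sub_iff_add_eq', ← Nat.cast_add, Nat.cast_inj]
  exact this

lemma Model_EP (F : Finset (ℤ × ℤ)) (z : ℝ) :
    EP F ⌊z⌋₊ = (Vz z)⁻¹ ^ F.card * ∏ p ∈ PZ z, (1 - (omF F p : ℝ) / p) := by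
  rw [EP, ← PZ_eq]
  simp only [loc, one_div]
  rw [prod_div_distrib, prod_pow, div_eq_inv_mul, inv_pow]
  rfl

lemma Model_F1 {z : ℝ} (hz : 0 ≤ z) {F : Finset (ℤ × ℤ)} {n : ℕ} (h : ∀ f ∈ F, z < ev f n) :
    ∏ f ∈ F, F1 z (ev f n) = (Vz z)⁻¹ ^ F.card *
      if ∀ p ∈ PZ z, ¬ (p : ℤ) ∣ ∏ f ∈ F, (f.1 * n + f.2) then 1 else 0 := by
  have e : ∀ f ∈ F, ((ev f n).toNat : ℤ) = ev f n := fun f hf =>
    Int.toNat_of_nonneg (by exact_mod_cast hz.trans (h f hf).le)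
  split_ifs with k
  · rw [mul_one, ← prod_const]
    refine prod_congr rfl fun f hf => if_pos ⟨fun p hp hd => not_le.1 fun hz' => ?_, h f hf⟩
    refine k p ((mem_PZ hz).2 ⟨hp, hz'⟩) (dvd_trans ?_ (dvd_prod_of_mem _ hf))
    exact (Int.natCast_dvd_natCast.2 hd).trans (e f hf).dvd
  · rw [mul_zero]
    push Not at k
    obtain ⟨p, p1, p2⟩ := k
    obtain ⟨p3, p4⟩ := (mem_PZ hz).1 p1
    obtain ⟨f, f1, f2⟩ := ((Nat.prime_iff_prime_int.1 p3).dvd_finsetProd_iff _).1 p2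
    refine prod_eq_zero f1 (if_neg fun k => not_lt.2 p4 (k.1 p p3 ?_))
    rw [← Int.natCast_dvd_natCast, e f f1]
    exact f2

/-- The sieve on an interval. -/
lemma Model_box {k : ℕ} {F : Finset (ℤ × ℤ)} (h : Prim F) (hk : F.card ≤ k) {z : ℝ} (hz : 0 ≤ z)
    {a N : ℕ} (ha : a ≤ N) (J : ℕ) :
    |(((Ioc a N).filter fun n : ℕ => ∀ p ∈ PZ z, ¬ (p : ℤ) ∣ ∏ f ∈ F, (f.1 * n + f.2)).card : ℝ)
        - (Ioc a N).card * ∏ p ∈ PZ z, (1 - (omF F p : ℝ) / p)|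
      ≤ 2 * N * ((k * ∑ p ∈ PZ z, (p : ℝ)⁻¹) ^ (J + 1) / (J + 1).factorial) +
        (1 + k * z) ^ (J + 1) := by
  have b := box_int (PZ z) (fun _ => PZ_prime)
    (fun (p : ℕ) (y : ℤ) => ¬ (p : ℤ) ∣ ∏ f ∈ F, (f.1 * y + f.2))
    (fun p x y e k1 k2 => k1 ((Int.ModEq.prod fun f _ =>
      (e.mul_left f.1).add_right f.2).dvd_iff.2 k2)) (empty_subset _) J a (N - a)
  have om : ∀ p ∈ PZ z, (omF F p : ℝ) ≤ k := fun p hp => by
    exact_mod_cast (Model_om h (PZ_prime hp)).trans hk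
  have e1 : ((Ioc a N).filter fun n : ℕ => ∀ p ∈ PZ z, ¬ (p : ℤ) ∣ ∏ f ∈ F, (f.1 * n + f.2)).card =
      ((Ioc (a : ℤ) (a + (N - a : ℕ))).filter
        fun y : ℤ => ∀ p ∈ PZ z, ¬ (p : ℤ) ∣ ∏ f ∈ F, (f.1 * y + f.2)).card := by
    refine card_bij (fun n _ => (n : ℤ)) (fun n hn => ?_) (fun _ _ _ _ e => Nat.cast_injective e)
      fun y hy => ?_
    · obtain ⟨h1, h2⟩ := mem_filter.1 hn
      rw [mem_Ioc] at h1
      exact mem_filter.2 ⟨mem_Ioc.2 (by omega), h2⟩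
    · obtain ⟨h1, h2⟩ := mem_filter.1 hy
      rw [mem_Ioc] at h1
      obtain ⟨n, rfl⟩ := Int.eq_ofNat_of_zero_le (show 0 ≤ y by omega)
      exact ⟨n, mem_filter.2 ⟨mem_Ioc.2 (by omega), h2⟩, rfl⟩
  have e2 : ∏ p ∈ PZ z, (1 - (omF F p : ℝ) / p) = ∏ p ∈ PZ z,
      (rhoP (fun (p : ℕ) (y : ℤ) => ¬ (p : ℤ) ∣ ∏ f ∈ F, (f.1 * y + f.2)) p : ℝ) / p :=
    prod_congr rfl fun p hp => by
      rw [Model_rho, sub_div, div_self (Nat.cast_ne_zero.2 (PZ_prime hp).ne_zero)]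
  rw [e1, e2, Nat.card_Ioc]
  refine b.trans ?_
  simp only [Model_rho, sub_sub_cancel, prod_empty, mul_one, one_mul, sdiff_empty]
  have c1 : ∑ p ∈ PZ z, (omF F p : ℝ) / p ≤ k * ∑ p ∈ PZ z, (p : ℝ)⁻¹ := by
    rw [mul_sum]
    exact sum_le_sum fun p hp => by
      rw [div_eq_mul_inv]
      exact mul_le_mul_of_nonneg_right (om p hp) (by positivity)
  have c2 : ∑ p ∈ PZ z, (omF F p : ℝ) ≤ k * z := by
    refine (sum_le_card_nsmul _ _ _ om).trans ?_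
    rw [nsmul_eq_mul, mul_comm]
    exact mul_le_mul_of_nonneg_left (PZ_card hz) (Nat.cast_nonneg k)
  have c3 : ((N - a : ℕ) : ℝ) ≤ N := by exact_mod_cast Nat.sub_le N a
  gcongr

/-- The two error terms. -/
lemma Model_err (k : ℕ) : ∀ᶠ N : ℕ in atTop, ∃ J : ℕ, Real.log N ^ k *
    (2 * N * ((k * ∑ p ∈ PZ (zz N), (p : ℝ)⁻¹) ^ (J + 1) / (J + 1).factorial) +
      (1 + k * zz N) ^ (J + 1)) ≤ N / Real.log N := by
  filter_upwards [TB_mertens, TB_tend.eventually_ge_atTop 1, eventually_gt_atTop 0,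
    TB_ev_small (C := 74 * (4 * k + 1) * (k + 1)) (by positivity) one_pos] with N h1 h2 h3 h4
  have N0 : (0 : ℝ) < N := by exact_mod_cast h3
  have eN := Real.exp_log N0
  have S0 : 0 ≤ ∑ p ∈ PZ (zz N), (p : ℝ)⁻¹ := by positivity
  generalize ∑ p ∈ PZ (zz N), (p : ℝ)⁻¹ = S at *
  rw [zz]
  generalize Real.log N = l at *
  have l0 : 0 < l := by linarith only [h2]
  have s0 := Real.rpow_nonneg l0.le (24 / 25 : ℝ)
  have q0 := Real.rpow_nonneg l0.le (1 / 4 : ℝ)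
  have L0 := Real.log_nonneg h2
  have eA : l ^ k * l = Real.exp ((k + 1) * Real.log l) := by
    rw [← Nat.cast_succ, Real.exp_nat_mul, Real.exp_log l0, pow_succ]
  generalize l ^ (24 / 25 : ℝ) = s at *
  generalize l ^ (1 / 4 : ℝ) = q at *
  generalize Real.log l = L at *
  have k0 : (0 : ℝ) ≤ k := Nat.cast_nonneg k
  have x0 : 0 < (4 * (k : ℝ) + 1) * (L + 72) := by positivity
  obtain ⟨J, hJ⟩ := Nat.exists_eq_add_of_le' (Nat.ceil_pos.2 x0)
  have n1 := Nat.le_ceil ((4 * (k : ℝ) + 1) * (L + 72))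
  have n2 := (Nat.ceil_lt_add_one x0.le).le
  rw [hJ] at n1 n2
  refine ⟨J, ?_⟩
  generalize J + 1 = n at *
  have t1 : Real.exp ((k + 1) * L) * ((k * S) ^ n / n.factorial) ≤ 1 / 4 := by
    refine (mul_le_mul_of_nonneg_left (TB_tail (by positivity) n) (Real.exp_pos _).le).trans ?_
    rw [← Real.exp_add, one_div]
    refine (Real.exp_le_exp.2 (show _ ≤ -3 by linarith only [n1, h1, k0, mul_le_mul_of_nonneg_left h1 k0])).trans ?_
    rw [Real.exp_neg]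
    exact inv_anti₀ (by norm_num) (by linarith only [Real.add_one_le_exp 3])
  have t2 : Real.exp ((k + 1) * L) * (1 + k * Real.exp s) ^ n ≤ N / 2 := by
    have a1 : 1 + k * Real.exp s ≤ Real.exp (k + s) := by
      rw [Real.exp_add]
      linarith only [s0, Real.add_one_le_exp (k : ℝ), Real.one_le_exp s0, mul_nonneg_of_nonpos_of_nonpos (Mathlib.Tactic.Linarith.sub_nonpos_of_le (Real.add_one_le_exp ↑k)) (Mathlib.Tactic.Linarith.sub_nonpos_of_le (Real.one_le_exp s0))]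
    refine (mul_le_mul_of_nonneg_left (pow_le_pow_left₀ (by positivity) a1 n)
      (Real.exp_pos _).le).trans ?_
    rw [← Real.exp_nat_mul, ← Real.exp_add, le_div_iff₀ two_pos, ← eN]
    refine (mul_le_mul_of_nonneg_left (show (2 : ℝ) ≤ Real.exp 1 by
      linarith only [Real.add_one_le_exp 1]) (Real.exp_pos _).le).trans ?_
    rw [← Real.exp_add, Real.exp_le_exp]
    have W : (1 + L) * (1 + s) ≤ 1 + L + q + s + L * s := by linarith only [q0]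
    have W' : 1 + L ≤ 1 + L + q + s + L * s := by linarith only [s0, q0, L0, mul_nonneg L0 s0]
    generalize 1 + L + q + s + L * s = w at *
    have a2 : (n : ℝ) ≤ 73 * (4 * k + 1) * (1 + L) := by linarith only [L0, n2, k0, mul_nonneg k0 L0]
    have a3 : k + s ≤ (k + 1) * (1 + s) := by linarith only [k0, s0, mul_nonneg k0 s0]
    have a4 := mul_le_mul a2 a3 (by positivity) (by positivity)
    have a5 := mul_le_mul_of_nonneg_left W (show 0 ≤ 73 * (4 * (k : ℝ) + 1) * (k + 1) by positivity)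
    have a6 := mul_le_mul_of_nonneg_left W' (show 0 ≤ (4 * (k : ℝ) + 1) * (k + 1) by positivity)
    have a7 : 0 ≤ k * ((k + 1) * (1 + L)) := by positivity
    linarith only [h4, a4, a5, a6, a7]
  rw [le_div_iff₀ l0, mul_right_comm, eA, mul_add, mul_left_comm]
  linarith only [t2, t1, mul_nonneg_of_nonpos_of_nonpos (Mathlib.Tactic.Linarith.sub_nonpos_of_le (Mathlib.Tactic.Linarith.natCast_nonneg ℝ N)) (Mathlib.Tactic.Linarith.sub_nonpos_of_le t1)]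

theorem model (k B : ℕ) : ∀ᶠ N : ℕ in atTop, ∀ lam : ℝ, Real.log N ≤ lam →
    lam ≤ Real.log N ^ B → ∀ F : Finset (ℤ × ℤ), Sy k N lam F →
      |∑ n ∈ Ra lam N, ∏ f ∈ F, F1 (zz N) (ev f n) - (Ra lam N).card * EP F ⌊zz N⌋₊|
        ≤ N / Real.log N := by
  filter_upwards [Model_err k, Vz_inv_le, zz_big B, TB_tend.eventually_ge_atTop 1,
    eventually_gt_atTop 0] with N ⟨J, hJ⟩ h1 ⟨h2, h3, h4⟩ h5 h6 lam l1 l2 F hF
  have N0 : (0 : ℝ) < N := by exact_mod_cast h6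
  have l0 : 0 < lam := by linarith only [h5, l1]
  have z2 : 2 ≤ zz N := by
    linarith only [h3, Real.one_le_exp (Real.rpow_nonneg (Real.log_natCast_nonneg N) (4 / 5 : ℝ))]
  have z0 : 0 ≤ zz N := by linarith only [z2]
  have big : (lam + zz N) * lam < N := by
    have e : ((N : ℝ) ^ (1 / 100 : ℝ)) ^ 100 = N := by
      rw [← Real.rpow_natCast, ← Real.rpow_mul N0.le]; norm_num
    have e1 : zz N ^ 4 ≤ N :=
      ((pow_le_pow_right₀ (by linarith only [z2]) (by norm_num)).trans (pow_le_pow_left₀ z0 h4 100)).trans_eq e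
    have e2 : lam ≤ zz N := l2.trans h2
    have e3 : (lam + zz N) * lam ≤ 2 * zz N ^ 2 := by linarith only [h2, l2, h5, l1, mul_nonneg_of_nonpos_of_nonpos (Mathlib.Tactic.Linarith.sub_nonpos_of_le h2) (Mathlib.Tactic.Linarith.sub_nonpos_of_le h2), mul_nonneg_of_nonpos_of_nonpos (Mathlib.Tactic.Linarith.sub_nonpos_of_le h2) (Mathlib.Tactic.Linarith.sub_nonpos_of_le h5), mul_nonneg_of_nonpos_of_nonpos (Mathlib.Tactic.Linarith.sub_nonpos_of_le h2) (Mathlib.Tactic.Linarith.sub_nonpos_of_le l1), mul_nonneg_of_nonpos_of_nonpos (Mathlib.Tactic.Linarith.sub_nonpos_of_le h2) (Mathlib.Tactic.Linarith.sub_nonpos_of_le l2), mul_nonneg_of_nonpos_of_nonpos (Mathlib.Tactic.Linarith.sub_nonpos_of_le h5) (Mathlib.Tactic.Linarith.sub_nonpos_of_le l2), mul_nonneg_of_nonpos_of_nonpos (Mathlib.Tactic.Linarith.sub_nonpos_of_le l1) (Mathlib.Tactic.Linarith.sub_nonpos_of_le l2), mul_nonneg_of_nonpos_of_nonpos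 (Mathlib.Tactic.Linarith.sub_nonpos_of_le l2) (Mathlib.Tactic.Linarith.sub_nonpos_of_le l2)]
    have e4 : 4 ≤ zz N ^ 2 := by linarith only [z2, h2, h5, l1, l2, mul_nonneg_of_nonpos_of_nonpos (Mathlib.Tactic.Linarith.sub_nonpos_of_le h2) (Mathlib.Tactic.Linarith.sub_nonpos_of_le z2), mul_nonneg_of_nonpos_of_nonpos (Mathlib.Tactic.Linarith.sub_nonpos_of_le h5) (Mathlib.Tactic.Linarith.sub_nonpos_of_le z2), mul_nonneg_of_nonpos_of_nonpos (Mathlib.Tactic.Linarith.sub_nonpos_of_le l1) (Mathlib.Tactic.Linarith.sub_nonpos_of_le z2), mul_nonneg_of_nonpos_of_nonpos (Mathlib.Tactic.Linarith.sub_nonpos_of_le l2) (Mathlib.Tactic.Linarith.sub_nonpos_of_le z2)]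
    linarith only [e1, e3, e4, mul_nonneg_of_nonpos_of_nonpos (Mathlib.Tactic.Linarith.sub_nonpos_of_le (sq_nonneg (zz N))) (Mathlib.Tactic.Linarith.sub_nonpos_of_le e4)]
  have c1 : 1 ≤ ⌈(N : ℝ) / lam⌉₊ := Nat.ceil_pos.2 (by positivity)
  have c2 : ⌈(N : ℝ) / lam⌉₊ ≤ N := Nat.ceil_le.2 (div_le_self N0.le (by linarith only [h5, l1]))
  have eR : Ra lam N = Ioc (⌈(N : ℝ) / lam⌉₊ - 1) N := by
    ext n
    rw [Ra, mem_filter, mem_Icc, mem_Ioc, ← div_le_iff₀' l0, ← Nat.ceil_le]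
    omega
  have e1 : ∀ n ∈ Ra lam N, ∀ f ∈ F, zz N < ev f n := fun n hn f hf => by
    have a1 : (1 : ℝ) ≤ f.1 := by exact_mod_cast (hF.prim f hf).1
    have a2 := (abs_le.1 (hF.b_a f hf)).1
    have a3 : lam + zz N < n :=
      lt_of_mul_lt_mul_right (big.trans_le ((rg_Ra lam N).lo n hn |>.trans_eq (mul_comm _ _))) l0.le
    rw [ev]
    push_cast
    linarith only [a2, a3, a1, h2, l2, mul_nonneg_of_nonpos_of_nonpos (Mathlib.Tactic.Linarith.sub_nonpos_of_le (Mathlib.Tactic.Linarith.natCast_nonneg ℝ n)) (Mathlib.Tactic.Linarith.sub_nonpos_of_le a1), mul_nonneg_of_nonpos_of_nonpos (Mathlib.Tactic.Linarith.sub_nonpos_of_le h2) (Mathlib.Tactic.Linarith.sub_nonpos_of_le a1), mul_nonneg_of_nonpos_of_nonpos (Mathlib.Tactic.Linarith.sub_nonpos_of_le l2) (Mathlib.Tactic.Linarith.sub_nonpos_of_le a1), mul_nonneg_of_nonpos_of_nonpos (Mathlib.Tactic.Linarith.sub_nonpos_of_le a1) (le_of_lt (Mathlib.Tactic.Linarith.sub_neg_of_lt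 a3))]
  rw [sum_congr rfl fun n hn => Model_F1 z0 (e1 n hn), ← mul_sum, sum_boole, Model_EP,
    mul_left_comm, ← mul_sub, abs_mul, eR]
  have v0 : 0 ≤ (Vz (zz N))⁻¹ := (inv_pos.2 (Vz_pos _)).le
  refine (mul_le_mul ?_ (Model_box hF.prim hF.card z0 (by omega) J) (abs_nonneg _)
    (by positivity)).trans hJ
  rw [abs_of_nonneg (pow_nonneg v0 _)]
  exact (pow_le_pow_left₀ v0 h1 _).trans (pow_le_pow_right₀ h5 hF.card)

end Pool.Agent.Work.MP_51e72e_nt.AV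
end

-- merged part: Pool.Agent.Work.MP_51e72e_nt.PV.Model
section
/-! The count in the model. -/

set_option autoImplicit false
open Finset Filter MeasureTheory Pool.Agent.Lib.MR Pool.Agent.Lib.LargeSieve
open Pool.Agent.Work.MP_678620_nt Pool.Agent.Work.MP_51e72e_nt.AV

namespace Pool.Agent.Work.MP_51e72e_nt.PV

lemma PVModel_act {ι : Type} [Fintype ι] {z : ι → ℝ} {p : ℕ} {i : ι} :
    i ∈ act z p ↔ (p : ℝ) ≤ z i := by
  rw [act, mem_filter, and_iff_right (mem_univ i)]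

lemma PVModel_om {ι : Type} [Fintype ι] {φ : ι → ℤ → ℤ} {D : ℕ} (h : Gd φ D) (I : Finset ι)
    {p : ℕ} (hp : p.Prime) : om φ I p = p ∨ om φ I p ≤ Fintype.card ι * D := by
  classical
  by_cases k : ∃ i ∈ I, ∀ y, (p : ℤ) ∣ φ i y
  · obtain ⟨i, i1, i2⟩ := k
    refine Or.inl ?_
    rw [om, filter_true_of_mem fun n _ => ⟨i, i1, i2 n⟩, card_range]
  refine Or.inr ?_
  have s : ((range p).filter fun n : ℕ => ∃ i ∈ I, (p : ℤ) ∣ φ i n) ⊆
      I.biUnion fun i => (range p).filter fun n : ℕ => (p : ℤ) ∣ φ i n := fun n hn => by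
    obtain ⟨h1, i, i1, i2⟩ := mem_filter.1 hn
    exact mem_biUnion.2 ⟨i, i1, mem_filter.2 ⟨h1, i2⟩⟩
  exact (card_le_card s).trans ((card_biUnion_le_card_mul _ _ D fun i hi =>
    (h.rt i p hp).resolve_left fun k' => k ⟨i, hi, k'⟩).trans
      (Nat.mul_le_mul_right _ (card_le_univ I)))

lemma PVModel_rho {ι : Type} [Fintype ι] (φ : ι → ℤ → ℤ) (z : ι → ℝ) (p : ℕ) :
    (rhoP (fun (p : ℕ) (y : ℤ) => ¬ ∃ i ∈ act z p, (p : ℤ) ∣ φ i y) p : ℝ)
      = p - om φ (act z p) p := by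
  have := card_filter_add_card_filter_not (s := range p)
    fun n : ℕ => ∃ i ∈ act z p, (p : ℤ) ∣ φ i n
  rw [card_range] at this
  rw [eq_sub_iff_add_eq', ← Nat.cast_add, Nat.cast_inj]
  exact this

lemma PVModel_EZ {ι : Type} [Fintype ι] (φ : ι → ℤ → ℤ) {z : ι → ℝ} {Z : ℝ} {Y : ℕ}
    (hZ : 0 ≤ Z) (h0 : ∀ i, 0 ≤ z i) (h1 : ∀ i, z i ≤ Z) (h2 : ∀ i, z i ≤ Y) :
    EZ φ z Y = (∏ i, (Vz (z i))⁻¹) * ∏ p ∈ PZ Z, (1 - (om φ (act z p) p : ℝ) / p) := by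
  have one : ∀ p : ℕ, (∀ i, z i < p) → lz φ z p = 1 := fun p hp => by
    have e : act z p = ∅ := eq_empty_of_forall_notMem fun i hi =>
      not_le.2 (hp i) (PVModel_act.1 hi)
    simp [lz, e, om]
  have e1 : EZ φ z Y = ∏ p ∈ PZ Z, lz φ z p := by
    refine prod_congr_of_eq_on_inter (fun p p1 p2 => one p fun i => ?_)
      (fun p p1 p2 => one p fun i => ?_) fun _ _ _ => rfl
    · exact (h1 i).trans_lt (not_le.1 fun k => p2 ((mem_PZ hZ).2 ⟨(mem_filter.1 p1).2, k⟩))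
    · refine (h2 i).trans_lt (Nat.cast_lt.2 (not_le.1 fun k => p2 ?_))
      exact mem_filter.2 ⟨mem_range.2 (Nat.lt_succ_of_le k), PZ_prime p1⟩
  have e2 : ∏ p ∈ PZ Z, (1 - 1 / (p : ℝ)) ^ (act z p).card = ∏ i, Vz (z i) := by
    simp only [← prod_const]
    refine (prod_comm' (t' := univ) (s' := fun i => PZ (z i)) fun p i => ?_).trans
      (prod_congr rfl fun i _ => ?_)
    · rw [PVModel_act, mem_PZ hZ, mem_PZ (h0 i)]
      exact ⟨fun k => ⟨⟨k.1.1, k.2⟩, mem_univ i⟩, fun k => ⟨⟨k.1.1, k.1.2.trans (h1 i)⟩, k.1.2⟩⟩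
    · simp only [one_div]
      rfl
  rw [e1]
  simp only [lz]
  rw [prod_div_distrib, e2, div_eq_inv_mul, prod_inv_distrib]

lemma PVModel_F1 {ι : Type} [Fintype ι] {φ : ι → ℤ → ℤ} {z : ι → ℝ} {Z : ℝ} (hZ : 0 ≤ Z)
    (h0 : ∀ i, 0 ≤ z i) (h1 : ∀ i, z i ≤ Z) {n : ℕ} (h : ∀ i, z i < φ i n) :
    ∏ i, F1 (z i) (φ i n) = (∏ i, (Vz (z i))⁻¹) *
      if ∀ p ∈ PZ Z, ¬ ∃ i ∈ act z p, (p : ℤ) ∣ φ i n then 1 else 0 := by
  have e : ∀ i, ((φ i n).toNat : ℤ) = φ i n := fun i =>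
    Int.toNat_of_nonneg (by exact_mod_cast (h0 i).trans (h i).le)
  split_ifs with k
  · rw [mul_one]
    refine prod_congr rfl fun i _ => if_pos ⟨fun p hp hd => not_le.1 fun hz' => ?_, h i⟩
    exact k p ((mem_PZ hZ).2 ⟨hp, hz'.trans (h1 i)⟩)
      ⟨i, PVModel_act.2 hz', (Int.natCast_dvd_natCast.2 hd).trans (e i).dvd⟩
  · rw [mul_zero]
    push Not at k
    obtain ⟨p, p1, i, i1, i2⟩ := k
    refine prod_eq_zero (mem_univ i) (if_neg fun k =>
      not_lt.2 (PVModel_act.1 i1) (k.1 p (PZ_prime p1) ?_))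
    rw [← Int.natCast_dvd_natCast, e i]
    exact i2

/-- The sieve on an interval. -/
lemma PVModel_box {ι : Type} [Fintype ι] {φ : ι → ℤ → ℤ} {D k : ℕ} (h : Gd φ D)
    (hk : Fintype.card ι * D ≤ k) (z : ι → ℝ) {Z : ℝ} (hz : 0 ≤ Z) {a N : ℕ} (ha : a ≤ N) (J : ℕ) :
    |(((Ioc a N).filter fun n : ℕ => ∀ p ∈ PZ Z, ¬ ∃ i ∈ act z p, (p : ℤ) ∣ φ i n).card : ℝ)
        - (Ioc a N).card * ∏ p ∈ PZ Z, (1 - (om φ (act z p) p : ℝ) / p)|
      ≤ 2 * N * ((k * ∑ p ∈ PZ Z, (p : ℝ)⁻¹) ^ (J + 1) / (J + 1).factorial) +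
        (1 + k * Z) ^ (J + 1) := by
  by_cases dg : ∃ p ∈ PZ Z, om φ (act z p) p = p
  · obtain ⟨p, p1, p2⟩ := dg
    have p0 := (PZ_prime p1).pos
    have p3 : ∀ n ∈ range p, ∃ i ∈ act z p, (p : ℤ) ∣ φ i n :=
      card_filter_eq_iff.1 (p2.trans (card_range p).symm)
    have p4 : ∀ n : ℕ, ∃ i ∈ act z p, (p : ℤ) ∣ φ i n := fun n => by
      obtain ⟨i, i1, i2⟩ := p3 (n % p) (mem_range.2 (Nat.mod_lt n p0))
      refine ⟨i, i1, (h.per i p _ _ ?_).dvd_iff.1 i2⟩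
      rw [Int.natCast_mod]
      exact Int.mod_modEq _ _
    rw [prod_eq_zero p1 (by rw [p2, div_self (Nat.cast_ne_zero.2 p0.ne'), sub_self]),
      filter_false_of_mem fun n _ k => k p p1 (p4 n)]
    simp only [card_empty, Nat.cast_zero, mul_zero, sub_self, abs_zero]
    positivity
  have b := box_int (PZ Z) (fun _ => PZ_prime)
    (fun (p : ℕ) (y : ℤ) => ¬ ∃ i ∈ act z p, (p : ℤ) ∣ φ i y)
    (fun p x y e k1 ⟨i, i1, i2⟩ => k1 ⟨i, i1, (h.per i p x y e).dvd_iff.2 i2⟩)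
    (empty_subset _) J a (N - a)
  have om' : ∀ p ∈ PZ Z, (om φ (act z p) p : ℝ) ≤ k := fun p hp => by
    exact_mod_cast ((PVModel_om h _ (PZ_prime hp)).resolve_left fun e => dg ⟨p, hp, e⟩).trans hk
  have e1 : ((Ioc a N).filter fun n : ℕ => ∀ p ∈ PZ Z, ¬ ∃ i ∈ act z p, (p : ℤ) ∣ φ i n).card =
      ((Ioc (a : ℤ) (a + (N - a : ℕ))).filter
        fun y : ℤ => ∀ p ∈ PZ Z, ¬ ∃ i ∈ act z p, (p : ℤ) ∣ φ i y).card := by
    refine card_bij (fun n _ => (n : ℤ)) (fun n hn => ?_) (fun _ _ _ _ e => Nat.cast_injective e)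
      fun y hy => ?_
    · obtain ⟨h1, h2⟩ := mem_filter.1 hn
      rw [mem_Ioc] at h1
      exact mem_filter.2 ⟨mem_Ioc.2 (by omega), h2⟩
    · obtain ⟨h1, h2⟩ := mem_filter.1 hy
      rw [mem_Ioc] at h1
      obtain ⟨n, rfl⟩ := Int.eq_ofNat_of_zero_le (show 0 ≤ y by omega)
      exact ⟨n, mem_filter.2 ⟨mem_Ioc.2 (by omega), h2⟩, rfl⟩
  have e2 : ∏ p ∈ PZ Z, (1 - (om φ (act z p) p : ℝ) / p) = ∏ p ∈ PZ Z,
      (rhoP (fun (p : ℕ) (y : ℤ) => ¬ ∃ i ∈ act z p, (p : ℤ) ∣ φ i y) p : ℝ) / p :=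
    prod_congr rfl fun p hp => by
      rw [PVModel_rho, sub_div, div_self (Nat.cast_ne_zero.2 (PZ_prime hp).ne_zero)]
  rw [e1, e2, Nat.card_Ioc]
  refine b.trans ?_
  simp only [PVModel_rho, sub_sub_cancel, prod_empty, mul_one, one_mul, sdiff_empty]
  have c1 : ∑ p ∈ PZ Z, (om φ (act z p) p : ℝ) / p ≤ k * ∑ p ∈ PZ Z, (p : ℝ)⁻¹ := by
    rw [mul_sum]
    exact sum_le_sum fun p hp => by
      rw [div_eq_mul_inv]
      exact mul_le_mul_of_nonneg_right (om' p hp) (by positivity)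
  have c2 : ∑ p ∈ PZ Z, (om φ (act z p) p : ℝ) ≤ k * Z := by
    refine (sum_le_card_nsmul _ _ _ om').trans ?_
    rw [nsmul_eq_mul, mul_comm]
    exact mul_le_mul_of_nonneg_left (PZ_card hz) (Nat.cast_nonneg k)
  have c3 : ((N - a : ℕ) : ℝ) ≤ N := by exact_mod_cast Nat.sub_le N a
  gcongr

lemma PVModel_tend (K : ℕ) : Tendsto (fun N : ℕ => N ^ (K + 1)) atTop atTop :=
  tendsto_pow_atTop (Nat.succ_ne_zero K)

lemma PVModel_small (K : ℕ) {C : ℝ} (hC : 0 ≤ C) : ∀ᶠ N : ℕ in atTop,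
    C * (1 + Real.log (Real.log (N ^ (K + 1) : ℕ)) + Real.log (N ^ (K + 1) : ℕ) ^ (1 / 4 : ℝ) +
      Real.log (N ^ (K + 1) : ℕ) ^ (24 / 25 : ℝ) + Real.log (Real.log (N ^ (K + 1) : ℕ)) *
        Real.log (N ^ (K + 1) : ℕ) ^ (24 / 25 : ℝ)) ≤ Real.log N := by
  filter_upwards [(PVModel_tend K).eventually
    (TB_ev_small hC (δ := ((K + 1 : ℕ) : ℝ)⁻¹) (by positivity))] with N h
  refine h.trans_eq ?_
  rw [Nat.cast_pow, Real.log_pow, inv_mul_cancel_left₀ (by positivity)]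

lemma PVModel_log {N M : ℕ} (h0 : 0 < N) (h : N ≤ M) : Real.log N ≤ Real.log M :=
  Real.log_le_log (by exact_mod_cast h0) (by exact_mod_cast h)

lemma PVModel_zz {N M : ℕ} (h0 : 0 < N) (h : N ≤ M) : zz N ≤ zz M :=
  Real.exp_le_exp.2 (Real.rpow_le_rpow (Real.log_natCast_nonneg N) (PVModel_log h0 h) (by norm_num))

/-- The two error terms. -/
lemma PVModel_err (k K : ℕ) : ∀ᶠ N : ℕ in atTop, ∃ J : ℕ, Real.log (N ^ (K + 1) : ℕ) ^ k *
    (2 * N * ((k * ∑ p ∈ PZ (zz (N ^ (K + 1))), (p : ℝ)⁻¹) ^ (J + 1) / (J + 1).factorial) +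
      (1 + k * zz (N ^ (K + 1))) ^ (J + 1)) ≤ N / Real.log N := by
  filter_upwards [(PVModel_tend K).eventually TB_mertens, TB_tend.eventually_ge_atTop 1,
    eventually_gt_atTop 0,
    PVModel_small K (C := 74 * (4 * k + 1) * (k + 1)) (by positivity)] with N h1 h2' h3 h4
  have hm := PVModel_log h3 (Nat.le_self_pow (Nat.succ_ne_zero K) N)
  generalize N ^ (K + 1) = M at *
  have N0 : (0 : ℝ) < N := by exact_mod_cast h3
  have eN := Real.exp_log N0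
  have S0 : 0 ≤ ∑ p ∈ PZ (zz M), (p : ℝ)⁻¹ := by positivity
  generalize ∑ p ∈ PZ (zz M), (p : ℝ)⁻¹ = S at *
  rw [zz]
  generalize Real.log M = l at *
  generalize Real.log N = m at *
  have h2 : 1 ≤ l := h2'.trans hm
  have l0 : 0 < l := by linarith only [h2', hm]
  have m0 : 0 < m := by linarith only [h2']
  have s0 := Real.rpow_nonneg l0.le (24 / 25 : ℝ)
  have q0 := Real.rpow_nonneg l0.le (1 / 4 : ℝ)
  have L0 := Real.log_nonneg h2
  have eA : l ^ k * m ≤ Real.exp ((k + 1) * Real.log l) := by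
    rw [← Nat.cast_succ, Real.exp_nat_mul, Real.exp_log l0, pow_succ]
    exact mul_le_mul_of_nonneg_left hm (by positivity)
  generalize l ^ (24 / 25 : ℝ) = s at *
  generalize l ^ (1 / 4 : ℝ) = q at *
  generalize Real.log l = L at *
  have k0 : (0 : ℝ) ≤ k := Nat.cast_nonneg k
  have x0 : 0 < (4 * (k : ℝ) + 1) * (L + 72) := by positivity
  obtain ⟨J, hJ⟩ := Nat.exists_eq_add_of_le' (Nat.ceil_pos.2 x0)
  have n1 := Nat.le_ceil ((4 * (k : ℝ) + 1) * (L + 72))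
  have n2 := (Nat.ceil_lt_add_one x0.le).le
  rw [hJ] at n1 n2
  refine ⟨J, ?_⟩
  generalize J + 1 = n at *
  have t1 : Real.exp ((k + 1) * L) * ((k * S) ^ n / n.factorial) ≤ 1 / 4 := by
    refine (mul_le_mul_of_nonneg_left (TB_tail (by positivity) n) (Real.exp_pos _).le).trans ?_
    rw [← Real.exp_add, one_div]
    refine (Real.exp_le_exp.2 (show _ ≤ -3 by linarith only [n1, h1, k0, mul_le_mul_of_nonneg_left h1 k0])).trans ?_
    rw [Real.exp_neg]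
    exact inv_anti₀ (by norm_num) (by linarith only [Real.add_one_le_exp 3])
  have t2 : Real.exp ((k + 1) * L) * (1 + k * Real.exp s) ^ n ≤ N / 2 := by
    have a1 : 1 + k * Real.exp s ≤ Real.exp (k + s) := by
      rw [Real.exp_add]
      linarith only [s0, Real.add_one_le_exp (k : ℝ), Real.one_le_exp s0, mul_nonneg_of_nonpos_of_nonpos (Mathlib.Tactic.Linarith.sub_nonpos_of_le (Real.add_one_le_exp ↑k)) (Mathlib.Tactic.Linarith.sub_nonpos_of_le (Real.one_le_exp s0))]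
    refine (mul_le_mul_of_nonneg_left (pow_le_pow_left₀ (by positivity) a1 n)
      (Real.exp_pos _).le).trans ?_
    rw [← Real.exp_nat_mul, ← Real.exp_add, le_div_iff₀ two_pos, ← eN]
    refine (mul_le_mul_of_nonneg_left (show (2 : ℝ) ≤ Real.exp 1 by
      linarith only [Real.add_one_le_exp 1]) (Real.exp_pos _).le).trans ?_
    rw [← Real.exp_add, Real.exp_le_exp]
    have W : (1 + L) * (1 + s) ≤ 1 + L + q + s + L * s := by linarith only [q0]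
    have W' : 1 + L ≤ 1 + L + q + s + L * s := by linarith only [s0, q0, L0, mul_nonneg L0 s0]
    generalize 1 + L + q + s + L * s = w at *
    have a2 : (n : ℝ) ≤ 73 * (4 * k + 1) * (1 + L) := by linarith only [L0, n2, k0, mul_nonneg k0 L0]
    have a3 : k + s ≤ (k + 1) * (1 + s) := by linarith only [k0, s0, mul_nonneg k0 s0]
    have a4 := mul_le_mul a2 a3 (by positivity) (by positivity)
    have a5 := mul_le_mul_of_nonneg_left W (show 0 ≤ 73 * (4 * (k : ℝ) + 1) * (k + 1) by positivity)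
    have a6 := mul_le_mul_of_nonneg_left W' (show 0 ≤ (4 * (k : ℝ) + 1) * (k + 1) by positivity)
    have a7 : 0 ≤ k * ((k + 1) * (1 + L)) := by positivity
    linarith only [h4, a4, a5, a6, a7]
  rw [le_div_iff₀ m0, mul_right_comm]
  refine (mul_le_mul_of_nonneg_right eA (by positivity)).trans ?_
  rw [mul_add, mul_left_comm]
  linarith only [t2, t1, mul_nonneg_of_nonpos_of_nonpos (Mathlib.Tactic.Linarith.sub_nonpos_of_le (Mathlib.Tactic.Linarith.natCast_nonneg ℝ N)) (Mathlib.Tactic.Linarith.sub_nonpos_of_le t1)]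

theorem model_d (ι : Type) [Fintype ι] (D B K : ℕ) : ∀ᶠ N : ℕ in atTop, ∀ lam : ℝ,
    Real.log N ≤ lam → lam ≤ Real.log N ^ B → ∀ φ : ι → ℤ → ℤ, Gd φ D → ∀ X : ι → ℕ,
    (∀ i, N ≤ X i ∧ X i ≤ N ^ K) → (∀ i, ∀ n ∈ Ra lam N, (n : ℤ) ≤ 2 * φ i n) →
    ∀ Y : ℕ, (∀ i, zz (X i) ≤ Y) →
      |∑ n ∈ Ra lam N, ∏ i, F1 (zz (X i)) (φ i n) -
        (Ra lam N).card * EZ φ (fun i => zz (X i)) Y| ≤ N / Real.log N := by
  filter_upwards [PVModel_err (Fintype.card ι * (D + 1)) K,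
    eventually_forall_ge_atTop.2 Vz_inv_le, zz_big B, TB_tend.eventually_ge_atTop 1,
    eventually_gt_atTop 0, PVModel_small K (C := 4) (by norm_num)]
    with N ⟨J, hJ⟩ h1 ⟨h2, h3, _⟩ h5 h6 h4 lam l1 l2 φ hφ X hX hv Y hY
  have hM : N ≤ N ^ (K + 1) := Nat.le_self_pow (Nat.succ_ne_zero K) N
  have hX' : ∀ i, X i ≤ N ^ (K + 1) := fun i =>
    (hX i).2.trans (Nat.pow_le_pow_right h6 (Nat.le_succ K))
  generalize N ^ (K + 1) = M at *
  have N0 : (0 : ℝ) < N := by exact_mod_cast h6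
  have l0 : 0 < lam := by linarith only [h5, l1]
  have m1 : 1 ≤ Real.log M := h5.trans (PVModel_log h6 hM)
  have zM := PVModel_zz h6 hM
  have z2 : 2 ≤ zz M := by
    linarith only [h3, zM, Real.one_le_exp (Real.rpow_nonneg (Real.log_natCast_nonneg N) (4 / 5 : ℝ))]
  have z0 : 0 ≤ zz M := by linarith only [z2]
  have x0 : ∀ i, 0 ≤ zz (X i) := fun i => (Real.exp_pos _).le
  have x1 : ∀ i, zz (X i) ≤ zz M := fun i => PVModel_zz (h6.trans_le (hX i).1) (hX' i)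
  have big : lam * (2 * zz M) < N := by
    have e1 : zz M ^ 4 ≤ N := by
      rw [zz, ← Real.exp_nat_mul, ← Real.exp_log N0, Real.exp_le_exp]
      have s0 := Real.rpow_nonneg (Real.log_natCast_nonneg M) (24 / 25 : ℝ)
      have q0 := Real.rpow_nonneg (Real.log_natCast_nonneg M) (1 / 4 : ℝ)
      have L0 := Real.log_nonneg m1
      push_cast
      linarith only [h4, q0, L0, s0, mul_nonneg L0 s0]
    have e2 : lam ≤ zz M := (l2.trans h2).trans zM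
    have e3 : lam * (2 * zz M) ≤ 2 * zz M ^ 2 := by linarith only [h2, l2, zM, h5, l1, mul_nonneg_of_nonpos_of_nonpos (Mathlib.Tactic.Linarith.sub_nonpos_of_le h2) (Mathlib.Tactic.Linarith.sub_nonpos_of_le h2), mul_nonneg_of_nonpos_of_nonpos (Mathlib.Tactic.Linarith.sub_nonpos_of_le h2) (Mathlib.Tactic.Linarith.sub_nonpos_of_le h5), mul_nonneg_of_nonpos_of_nonpos (Mathlib.Tactic.Linarith.sub_nonpos_of_le h2) (Mathlib.Tactic.Linarith.sub_nonpos_of_le l1), mul_nonneg_of_nonpos_of_nonpos (Mathlib.Tactic.Linarith.sub_nonpos_of_le h2) (Mathlib.Tactic.Linarith.sub_nonpos_of_le l2), mul_nonneg_of_nonpos_of_nonpos (Mathlib.Tactic.Linarith.sub_nonpos_of_le h2) (Mathlib.Tactic.Linarith.sub_nonpos_of_le zM), mul_nonneg_of_nonpos_of_nonpos (Mathlib.Tactic.Linarith.sub_nonpos_of_le h5) (Mathlib.Tactic.Linarith.sub_nonpos_of_le l2), mul_nonneg_of_nonpos_of_nonpos (Mathlib.Tactic.Linarith.sub_nonpos_of_le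 h5) (Mathlib.Tactic.Linarith.sub_nonpos_of_le zM), mul_nonneg_of_nonpos_of_nonpos (Mathlib.Tactic.Linarith.sub_nonpos_of_le l1) (Mathlib.Tactic.Linarith.sub_nonpos_of_le l2), mul_nonneg_of_nonpos_of_nonpos (Mathlib.Tactic.Linarith.sub_nonpos_of_le l1) (Mathlib.Tactic.Linarith.sub_nonpos_of_le zM), mul_nonneg_of_nonpos_of_nonpos (Mathlib.Tactic.Linarith.sub_nonpos_of_le l2) (Mathlib.Tactic.Linarith.sub_nonpos_of_le l2), mul_nonneg_of_nonpos_of_nonpos (Mathlib.Tactic.Linarith.sub_nonpos_of_le l2) (Mathlib.Tactic.Linarith.sub_nonpos_of_le zM), mul_nonneg_of_nonpos_of_nonpos (Mathlib.Tactic.Linarith.sub_nonpos_of_le zM) (Mathlib.Tactic.Linarith.sub_nonpos_of_le zM)]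
    have e4 : 4 ≤ zz M ^ 2 := by linarith only [z2, h2, h5, l1, l2, zM, mul_nonneg_of_nonpos_of_nonpos (Mathlib.Tactic.Linarith.sub_nonpos_of_le h2) (Mathlib.Tactic.Linarith.sub_nonpos_of_le z2), mul_nonneg_of_nonpos_of_nonpos (Mathlib.Tactic.Linarith.sub_nonpos_of_le h5) (Mathlib.Tactic.Linarith.sub_nonpos_of_le z2), mul_nonneg_of_nonpos_of_nonpos (Mathlib.Tactic.Linarith.sub_nonpos_of_le l1) (Mathlib.Tactic.Linarith.sub_nonpos_of_le z2), mul_nonneg_of_nonpos_of_nonpos (Mathlib.Tactic.Linarith.sub_nonpos_of_le l2) (Mathlib.Tactic.Linarith.sub_nonpos_of_le z2), mul_nonneg_of_nonpos_of_nonpos (Mathlib.Tactic.Linarith.sub_nonpos_of_le zM) (Mathlib.Tactic.Linarith.sub_nonpos_of_le z2)]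
    linarith only [e1, e3, e4, mul_nonneg_of_nonpos_of_nonpos (Mathlib.Tactic.Linarith.sub_nonpos_of_le (sq_nonneg (zz M))) (Mathlib.Tactic.Linarith.sub_nonpos_of_le e4)]
  have c1 : 1 ≤ ⌈(N : ℝ) / lam⌉₊ := Nat.ceil_pos.2 (by positivity)
  have c2 : ⌈(N : ℝ) / lam⌉₊ ≤ N := Nat.ceil_le.2 (div_le_self N0.le (by linarith only [h5, l1]))
  have eR : Ra lam N = Ioc (⌈(N : ℝ) / lam⌉₊ - 1) N := by
    ext n
    rw [Ra, mem_filter, mem_Icc, mem_Ioc, ← div_le_iff₀' l0, ← Nat.ceil_le]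
    omega
  have e1 : ∀ n ∈ Ra lam N, ∀ i, zz (X i) < φ i n := fun n hn i => by
    have a1 : (n : ℝ) ≤ 2 * φ i n := by exact_mod_cast hv i n hn
    have a3 : 2 * zz M < n := lt_of_mul_lt_mul_left (big.trans_le ((rg_Ra lam N).lo n hn)) l0.le
    linarith only [a1, a3, x1, x1 i]
  rw [sum_congr rfl fun n hn => PVModel_F1 z0 x0 x1 (e1 n hn), ← mul_sum, sum_boole,
    PVModel_EZ φ z0 x0 x1 hY, mul_left_comm, ← mul_sub, abs_mul, eR]
  have v0 : ∀ i, 0 ≤ (Vz (zz (X i)))⁻¹ := fun i => (inv_pos.2 (Vz_pos _)).le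
  refine (mul_le_mul ?_ (PVModel_box hφ (Nat.mul_le_mul_left _ (Nat.le_succ D)) _ z0 (by omega) J)
    (abs_nonneg _) (by positivity)).trans hJ
  rw [abs_of_nonneg (prod_nonneg fun i _ => v0 i)]
  refine (prod_le_prod (fun i _ => v0 i) fun i _ => (h1 _ (hX i).1).trans
    (PVModel_log (h6.trans_le (hX i).1) (hX' i))).trans ?_
  rw [prod_const, card_univ]
  exact pow_le_pow_right₀ m1 (Nat.le_mul_of_pos_right _ (Nat.succ_pos D))

end Pool.Agent.Work.MP_51e72e_nt.PV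
end
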