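import Pool.Agent.Work.MP_51e72e_nt.AV.MinA
import Pool.Agent.Work.MP_51e72e_nt.PV.Mult

-- merged part: Pool.Agent.Work.MP_51e72e_nt.AV.Weight
section
/-! From weighted sums to counts. -/

set_option autoImplicit false
open Finset Filter MeasureTheory Pool.Agent.Lib.MR Pool.Agent.Lib.LargeSieve
open Pool.Agent.Work.MP_678620_nt

namespace Pool.Agent.Work.MP_51e72e_nt.AV

lemma Weight_pt {k N : ℕ} {lam s : ℝ} {F : Finset (ℤ × ℤ)} (hF : Sy k N lam F) (h1 : 1 ≤ lam)
    (hs : lam ≤ s) (hN : 4 * s ^ 2 ≤ N) {n : ℕ} (hn : n ∈ Ra lam N) {f : ℤ × ℤ} (hf : f ∈ F) :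
    s < (ev f n : ℝ) ∧ (N : ℝ) ≤ (ev f n : ℝ) ^ 2 ∧ (ev f n : ℝ) ≤ ev f N ∧
      (ev f N : ℝ) ≤ 4 * lam * ev f n := by
  have a1 : (1 : ℝ) ≤ f.1 := by exact_mod_cast (hF.prim f hf).1
  obtain ⟨b1, b2⟩ := abs_le.1 (hF.b_a f hf)
  have n1 : (n : ℝ) ≤ N := by exact_mod_cast (rg_Ra lam N).hi n hn
  have n2 : (N : ℝ) ≤ lam * n := (rg_Ra lam N).lo n hn
  have n0 : (0 : ℝ) ≤ n := Nat.cast_nonneg n
  have s1 : 1 ≤ s := h1.trans hs
  have n3 : (N : ℝ) ≤ s * n := n2.trans (mul_le_mul_of_nonneg_right hs n0)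
  have n4 : 4 * s ≤ n := by
    by_contra h
    linarith only [hs, hN, n2, h, h1, not_le.1 h, mul_nonneg_of_nonpos_of_nonpos (Mathlib.Tactic.Linarith.sub_nonpos_of_le h1) (Mathlib.Tactic.Linarith.sub_nonpos_of_le hs), mul_nonneg_of_nonpos_of_nonpos (Mathlib.Tactic.Linarith.sub_nonpos_of_le h1) (le_of_lt (Mathlib.Tactic.Linarith.sub_neg_of_lt (lt_of_not_ge h))), mul_nonneg_of_nonpos_of_nonpos (Mathlib.Tactic.Linarith.sub_nonpos_of_le hs) (Mathlib.Tactic.Linarith.sub_nonpos_of_le hs)]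
  simp only [ev]
  push_cast
  generalize (f.1 : ℝ) = a at *
  generalize (f.2 : ℝ) = b at *
  have e1 : lam * a ≤ n / 4 * a := mul_le_mul_of_nonneg_right (by linarith only [hs, n4]) (by linarith)
  have e2 : (n : ℝ) ≤ a * n := le_mul_of_one_le_left n0 a1
  have e3 : a * n / 2 ≤ a * n + b := by linarith only [h1, hs, n4, b1, e1, e2]
  have e4 : a * n ≤ a * N := mul_le_mul_of_nonneg_left n1 (by linarith only [a1])
  have e5 : a * N ≤ lam * (a * n) := by linarith only [n2, a1, mul_nonneg_of_nonpos_of_nonpos (Mathlib.Tactic.Linarith.sub_nonpos_of_le n2) (Mathlib.Tactic.Linarith.sub_nonpos_of_le a1)]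
  refine ⟨by linarith only [h1, hs, n4, b1, e1, e2], ?_, by linarith only [e4], ?_⟩
  · have : (n : ℝ) / 2 ≤ a * n + b := by linarith only [h1, hs, n4, b1, e1, e2]
    have := pow_le_pow_left₀ (by positivity) this 2
    linarith only [n3, this, n4, mul_nonneg_of_nonpos_of_nonpos (Mathlib.Tactic.Linarith.sub_nonpos_of_le (Mathlib.Tactic.Linarith.natCast_nonneg ℝ n)) (Mathlib.Tactic.Linarith.sub_nonpos_of_le n4)]
  · have : lam * (a * n / 2) ≤ lam * (a * n + b) := mul_le_mul_of_nonneg_left e3 (by linarith only [h1])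
    linarith only [h1, hs, n4, b2, e1, e2, e4, e5, this]

lemma Weight_top {k N : ℕ} {lam s : ℝ} {F : Finset (ℤ × ℤ)} (hF : Sy k N lam F) (h1 : 1 ≤ lam)
    (hs : lam ≤ s) (hN : 4 * s ^ 2 ≤ N) {f : ℤ × ℤ} (hf : f ∈ F) :
    0 ≤ Real.log |((ev f N : ℤ) : ℝ)| ∧ Real.log |((ev f N : ℤ) : ℝ)| ≤ 3 * Real.log N := by
  have s1 : 1 ≤ s := h1.trans hs
  have N4 : (4 : ℝ) ≤ N := by linarith only [h1, hs, hN, mul_nonneg_of_nonpos_of_nonpos (Mathlib.Tactic.Linarith.sub_nonpos_of_le h1) (Mathlib.Tactic.Linarith.sub_nonpos_of_le h1), mul_nonneg_of_nonpos_of_nonpos (Mathlib.Tactic.Linarith.sub_nonpos_of_le h1) (Mathlib.Tactic.Linarith.sub_nonpos_of_le hs), mul_nonneg_of_nonpos_of_nonpos (Mathlib.Tactic.Linarith.sub_nonpos_of_le hs) (Mathlib.Tactic.Linarith.sub_nonpos_of_le hs)]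
  have hm : N ∈ Ra lam N := by
    refine mem_filter.2 ⟨mem_Icc.2 ⟨?_, le_rfl⟩, le_mul_of_one_le_left (by linarith) h1⟩
    exact_mod_cast (show (1 : ℝ) ≤ N by linarith)
  have p := (Weight_pt hF h1 hs hN hm hf).1
  rw [abs_of_pos (by linarith)]
  refine ⟨Real.log_nonneg (by linarith), ?_⟩
  have a1 : (f.1 : ℝ) ≤ N := by exact_mod_cast hF.a_le f hf
  have b1 : (f.2 : ℝ) ≤ N := by exact_mod_cast (abs_le.1 (hF.b_le f hf)).2
  have e : ((ev f N : ℤ) : ℝ) ≤ (N : ℝ) ^ 3 := by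
    simp only [ev]
    push_cast
    have : (f.1 : ℝ) * N ≤ N * N := mul_le_mul_of_nonneg_right a1 (by linarith only [N4])
    linarith only [N4, b1, this, mul_nonneg_of_nonpos_of_nonpos (Mathlib.Tactic.Linarith.sub_nonpos_of_le (mul_self_nonneg ↑N)) (Mathlib.Tactic.Linarith.sub_nonpos_of_le N4), mul_nonneg_of_nonpos_of_nonpos (Mathlib.Tactic.Linarith.sub_nonpos_of_le (Mathlib.Tactic.Linarith.natCast_nonneg ℝ N)) (Mathlib.Tactic.Linarith.sub_nonpos_of_le N4)]
  have := Real.log_le_log (by linarith) e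
  rwa [Real.log_pow] at this

lemma Weight_core {k N : ℕ} {lam s z ρ : ℝ} {F : Finset (ℤ × ℤ)} (hF : Sy k N lam F) (h1 : 1 ≤ lam)
    (hs : lam ≤ s) (hz : z ≤ s) (hN : 4 * s ^ 2 ≤ N) (hl : 1 ≤ Real.log N) (hρ0 : 0 ≤ ρ)
    (hρ : Real.log (4 * lam) ≤ ρ * (Real.log N / 2)) :
    ∑ n ∈ Ra lam N, ∏ f ∈ F, L1 z (ev f n) ≤ cnt F N * N ∧
      cnt F N * N ≤ (1 + ρ) ^ k * ∑ n ∈ Ra lam N, ∏ f ∈ F, L1 z (ev f n) +
        (3 * Real.log N) ^ k * (N / lam) := by
  have s1 : 1 ≤ s := h1.trans hs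
  have N0 : (0 : ℝ) < N := by linarith only [h1, hs, hN, mul_nonneg_of_nonpos_of_nonpos (Mathlib.Tactic.Linarith.sub_nonpos_of_le h1) (Mathlib.Tactic.Linarith.sub_nonpos_of_le h1), mul_nonneg_of_nonpos_of_nonpos (Mathlib.Tactic.Linarith.sub_nonpos_of_le h1) (Mathlib.Tactic.Linarith.sub_nonpos_of_le hs), mul_nonneg_of_nonpos_of_nonpos (Mathlib.Tactic.Linarith.sub_nonpos_of_le hs) (Mathlib.Tactic.Linarith.sub_nonpos_of_le hs)]
  rw [cnt, div_mul_cancel₀ _ N0.ne']
  set P := ∏ f ∈ F, Real.log |((ev f N : ℤ) : ℝ)| with hP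
  set c : ℕ → Prop := fun n => ∀ f ∈ F, (ev f n).natAbs.Prime with hc
  have P0 : 0 ≤ P := prod_nonneg fun f hf => (Weight_top hF h1 hs hN hf).1
  have P1 : P ≤ (3 * Real.log N) ^ k := by
    refine (prod_le_prod (fun f hf => (Weight_top hF h1 hs hN hf).1)
      fun f hf => (Weight_top hF h1 hs hN hf).2).trans ?_
    rw [prod_const]
    exact pow_le_pow_right₀ (by linarith only [hl]) hF.card
  have hW : ∑ n ∈ Ra lam N, ∏ f ∈ F, L1 z (ev f n) =
      ∑ n ∈ (Ra lam N).filter c, ∏ f ∈ F, Real.log (ev f n) := by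
    rw [sum_filter]
    refine sum_congr rfl fun n hn => ?_
    have e : ∀ f ∈ F, (ev f n).toNat = (ev f n).natAbs ∧ z < ev f n := fun f hf => by
      have p := (Weight_pt hF h1 hs hN hn hf).1
      have : (0 : ℤ) ≤ ev f n := by exact_mod_cast (show (0 : ℝ) ≤ ev f n by linarith only [h1, hs, p])
      exact ⟨by omega, by linarith only [hz, p]⟩
    split_ifs with h
    · exact prod_congr rfl fun f hf => if_pos ⟨(e f hf).1 ▸ h f hf, (e f hf).2⟩
    · simp only [hc, not_forall] at h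
      obtain ⟨f, hf, h⟩ := h
      exact prod_eq_zero hf (if_neg fun h' => h ((e f hf).1 ▸ h'.1))
  have hQ : ∀ n ∈ (Ra lam N).filter c, ∏ f ∈ F, Real.log (ev f n) ≤ P ∧
      P ≤ (1 + ρ) ^ k * ∏ f ∈ F, Real.log (ev f n) := fun n hn => by
    have hn' := (mem_filter.1 hn).1
    have q : ∀ f ∈ F, 0 ≤ Real.log (ev f n) ∧
        Real.log (ev f n) ≤ Real.log |((ev f N : ℤ) : ℝ)| ∧
        Real.log |((ev f N : ℤ) : ℝ)| ≤ (1 + ρ) * Real.log (ev f n) := fun f hf => by
      obtain ⟨p1, p2, p3, p4⟩ := Weight_pt hF h1 hs hN hn' hf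
      have q1 := Real.log_le_log N0 p2
      rw [Real.log_pow] at q1
      push_cast at q1
      have q2 := Real.log_le_log (by linarith only [h1, hs, p1, p3]) p4
      rw [Real.log_mul (by linarith only [h1]) (by linarith only [h1, hs, p1])] at q2
      rw [abs_of_pos (by linarith only [h1, hs, p1, p3])]
      refine ⟨by linarith only [hl, q1], Real.log_le_log (by linarith only [h1, hs, p1]) p3, ?_⟩
      have : ρ * (Real.log N / 2) ≤ ρ * Real.log (ev f n) :=
        mul_le_mul_of_nonneg_left (by linarith only [q1]) hρ0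
      linarith only [hρ, q2, this]
    refine ⟨prod_le_prod (fun f hf => (q f hf).1) fun f hf => (q f hf).2.1, ?_⟩
    refine (prod_le_prod (fun f hf => (q f hf).1.trans (q f hf).2.1)
      fun f hf => (q f hf).2.2).trans ?_
    rw [prod_mul_distrib, prod_const]
    exact mul_le_mul_of_nonneg_right (pow_le_pow_right₀ (by linarith) hF.card)
      (prod_nonneg fun f hf => (q f hf).1)
  have c1 : ((Ra lam N).filter c).card ≤ ((Icc 1 N).filter c).card :=
    card_le_card (filter_subset_filter _ (filter_subset _ _))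
  have c2 : ((Icc 1 N).filter c).card ≤ ((Ra lam N).filter c).card + (Icc 1 ⌊N / lam⌋₊).card := by
    refine le_trans (card_le_card fun n hn => ?_) (card_union_le _ _)
    obtain ⟨h2, h3⟩ := mem_filter.1 hn
    by_cases h : (N : ℝ) ≤ lam * n
    · exact mem_union_left _ (mem_filter.2 ⟨mem_filter.2 ⟨h2, h⟩, h3⟩)
    · refine mem_union_right _ (mem_Icc.2 ⟨(mem_Icc.1 h2).1, Nat.le_floor ?_⟩)
      rw [le_div_iff₀ (by linarith only [h1])]
      linarith only [h, not_le.1 h]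
  have c3 : (((Icc 1 N).filter c).card : ℝ) ≤ ((Ra lam N).filter c).card + N / lam := by
    have c4 : (⌊N / lam⌋₊ : ℝ) ≤ N / lam := Nat.floor_le (by positivity)
    rw [Nat.card_Icc, Nat.add_sub_cancel] at c2
    have c5 : (((Icc 1 N).filter c).card : ℝ) ≤ ((Ra lam N).filter c).card + (⌊N / lam⌋₊ : ℝ) := by
      exact_mod_cast c2
    linarith only [c4, c5]
  rw [hW]
  constructor
  · refine (sum_le_sum fun n hn => (hQ n hn).1).trans ?_
    rw [sum_const, nsmul_eq_mul]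
    exact mul_le_mul_of_nonneg_right (by exact_mod_cast c1) P0
  · have d1 := sum_le_sum fun n hn => (hQ n hn).2
    rw [sum_const, nsmul_eq_mul, ← mul_sum] at d1
    have d2 : N / lam * P ≤ N / lam * (3 * Real.log N) ^ k :=
      mul_le_mul_of_nonneg_left P1 (by positivity)
    have d3 := mul_le_mul_of_nonneg_right c3 P0
    linarith only [d1, d2, d3]

lemma Weight_ev (B : ℕ) {δ : ℝ} (hδ : 0 < δ) :
    ∀ᶠ l : ℝ in atTop, Real.log (4 * l ^ B) ≤ δ * √l := by
  have h := (isLittleO_log_rpow_atTop (r := 1 / 2) (by norm_num)).bound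
    (show 0 < δ / (B + 2) by positivity)
  filter_upwards [h, eventually_ge_atTop 4] with l h1 h2
  have l1 : Real.log 4 ≤ Real.log l := Real.log_le_log (by norm_num) h2
  have l0 : 0 ≤ Real.log l := Real.log_nonneg (by linarith only [h2])
  rw [Real.norm_of_nonneg l0, Real.norm_of_nonneg (by positivity), ← Real.sqrt_eq_rpow,
    div_mul_eq_mul_div, le_div_iff₀ (by positivity)] at h1
  rw [Real.log_mul (by norm_num) (by positivity), Real.log_pow]
  linarith only [h1, l1, l0]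

theorem weight (k B : ℕ) {η : ℝ} (hη : 0 < η) : ∀ᶠ N : ℕ in atTop, ∀ lam : ℝ,
    Real.log N ^ (k + 1) ≤ lam → lam ≤ Real.log N ^ B → ∀ F : Finset (ℤ × ℤ), Sy k N lam F →
    ∀ C : ℝ, 0 ≤ C → C ≤ √(Real.log N) →
    |∑ n ∈ Ra lam N, ∏ f ∈ F, L1 (zz N) (ev f n) - C * N| ≤ η / 2 * N → |cnt F N - C| ≤ η := by
  obtain ⟨δ, hδ, d1, d2⟩ : ∃ δ : ℝ, 0 < δ ∧ k * (2 * δ) ≤ 1 ∧ 4 * k * δ * (1 + η / 2) ≤ η / 4 := by
    have k0 : (0 : ℝ) ≤ k := Nat.cast_nonneg k
    refine ⟨η / (16 * (k + 1) * (1 + η / 2)), by positivity, ?_, ?_⟩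
    · rw [← mul_div_assoc, ← mul_div_assoc, div_le_one (by positivity)]
      linarith only [hη, k0, mul_nonneg k0 hη.le]
    · rw [← mul_div_assoc, div_mul_eq_mul_div, div_le_iff₀ (by positivity)]
      linarith only [hη, mul_nonneg k0 hη.le, mul_pos hη hη, mul_self_nonneg η]
  filter_upwards [zz_big B, zz_big 1, TB_tend.eventually (Weight_ev B hδ),
    TB_tend.eventually_ge_atTop 2, TB_tend.eventually_ge_atTop (4 * 3 ^ k / η),
    eventually_gt_atTop 0] with N z1 z2 e1 l2 l3 N0 lam h1 h2 F hF C C0 C1 hW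
  have N0' : (0 : ℝ) < N := by exact_mod_cast N0
  generalize hl : Real.log N = l at *
  have s2 : 2 ≤ (N : ℝ) ^ (1 / 100 : ℝ) := by linarith only [z1, z2, l2, z2.1, z2.2.2, pow_one l]
  have hN : 4 * ((N : ℝ) ^ (1 / 100 : ℝ)) ^ 2 ≤ N := by
    have e : ((N : ℝ) ^ (1 / 100 : ℝ)) ^ 100 = N := by
      rw [← Real.rpow_natCast, ← Real.rpow_mul N0'.le]
      norm_num
    generalize (N : ℝ) ^ (1 / 100 : ℝ) = s at *
    have e1 : s ^ 4 ≤ s ^ 100 := pow_le_pow_right₀ (by linarith only [l2, z1, z2]) (by norm_num)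
    have e2 : 4 ≤ s ^ 2 := by linarith only [l2, z1, z2, mul_nonneg_of_nonpos_of_nonpos (Mathlib.Tactic.Linarith.sub_nonpos_of_le l2) (Mathlib.Tactic.Linarith.sub_nonpos_of_le l2), mul_nonneg_of_nonpos_of_nonpos (Mathlib.Tactic.Linarith.sub_nonpos_of_le l2) (Mathlib.Tactic.Linarith.sub_nonpos_of_le z1.right.right), mul_nonneg_of_nonpos_of_nonpos (Mathlib.Tactic.Linarith.sub_nonpos_of_le l2) (Mathlib.Tactic.Linarith.sub_nonpos_of_le z2.left), mul_nonneg_of_nonpos_of_nonpos (Mathlib.Tactic.Linarith.sub_nonpos_of_le z1.right.right) (Mathlib.Tactic.Linarith.sub_nonpos_of_le z1.right.right), mul_nonneg_of_nonpos_of_nonpos (Mathlib.Tactic.Linarith.sub_nonpos_of_le z1.right.right) (Mathlib.Tactic.Linarith.sub_nonpos_of_le z2.left), mul_nonneg_of_nonpos_of_nonpos (Mathlib.Tactic.Linarith.sub_nonpos_of_le z2.left) (Mathlib.Tactic.Linarith.sub_nonpos_of_le z2.left)]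
    linarith only [e, e1, e2, mul_nonneg_of_nonpos_of_nonpos (Mathlib.Tactic.Linarith.sub_nonpos_of_le (sq_nonneg s)) (Mathlib.Tactic.Linarith.sub_nonpos_of_le e2)]
  have lam1 : 1 ≤ lam := (one_le_pow₀ (by linarith only [l2])).trans h1
  have r1 : 1 ≤ √l := Real.one_le_sqrt.2 (by linarith only [l2])
  have r2 : √l * √l = l := Real.mul_self_sqrt (by linarith only [l2])
  have hρ : Real.log (4 * lam) ≤ 2 * δ / √l * (l / 2) := by
    have e : 2 * δ / √l * (l / 2) = δ * √l := by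
      field_simp
      nlinarith
    rw [e]
    exact (Real.log_le_log (by linarith only [lam1]) (by linarith only [h2])).trans e1
  obtain ⟨w1, w2⟩ := Weight_core (z := zz N) (ρ := 2 * δ / √l) hF lam1
    (h2.trans (z1.1.trans z1.2.2)) z1.2.2 hN (by rw [hl]; linarith only [l2]) (by positivity) (by rw [hl]; exact hρ)
  rw [hl] at w2
  generalize ∑ n ∈ Ra lam N, ∏ f ∈ F, L1 (zz N) (ev f n) = W at *
  obtain ⟨u1, u2⟩ := abs_le.1 hW
  have ρ1 : k * (2 * δ / √l) ≤ 1 :=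
    (mul_le_mul_of_nonneg_left (div_le_self (by positivity) r1) (Nat.cast_nonneg k)).trans d1
  have ρ2 : (1 + 2 * δ / √l) ^ k ≤ 1 + 2 * (k * (2 * δ / √l)) := by
    have a1 : (1 + 2 * δ / √l) ^ k ≤ Real.exp (2 * δ / √l) ^ k :=
      pow_le_pow_left₀ (by positivity) (by linarith only [Real.add_one_le_exp (2 * δ / √l)]) k
    rw [← Real.exp_nat_mul] at a1
    have a0 : 0 ≤ k * (2 * δ / √l) := by positivity
    have a2 := Real.abs_exp_sub_one_le (x := k * (2 * δ / √l)) (by rwa [abs_of_nonneg a0])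
    rw [abs_of_nonneg a0] at a2
    linarith only [a1, a2, (abs_le.1 a2).2]
  have t1 : (3 * l) ^ k * (N / lam) ≤ η / 4 * N := by
    have a1 : (3 * l) ^ k / lam ≤ (3 * l) ^ k / l ^ (k + 1) :=
      div_le_div_of_nonneg_left (by positivity) (by positivity) h1
    have a2 : (3 * l) ^ k / l ^ (k + 1) = 3 ^ k / l := by
      rw [mul_pow, pow_succ]
      field_simp
    have a3 : 3 ^ k / l ≤ η / 4 := by
      rw [div_le_iff₀ hη] at l3
      rw [div_le_iff₀ (by linarith only [l2])]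
      linarith only [l3]
    rw [mul_div_left_comm, mul_comm]
    exact mul_le_mul_of_nonneg_right (by linarith only [a1, a2, a3]) N0'.le
  have t2 : (1 + 2 * δ / √l) ^ k * W ≤ W + η / 4 * N := by
    have p1 : 1 ≤ (1 + 2 * δ / √l) ^ k := one_le_pow₀ (le_add_of_nonneg_right (by positivity))
    have b1 : W ≤ √l * (1 + η / 2) * N := by
      have : C * N ≤ √l * N := mul_le_mul_of_nonneg_right C1 N0'.le
      have : η / 2 * N ≤ √l * (η / 2 * N) := le_mul_of_one_le_left (by positivity) r1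
      linarith
    have b2 : ((1 + 2 * δ / √l) ^ k - 1) * W ≤
        2 * (k * (2 * δ / √l)) * (√l * (1 + η / 2) * N) :=
      (mul_le_mul_of_nonneg_left b1 (by linarith only [p1])).trans
        (mul_le_mul_of_nonneg_right (by linarith only [ρ2]) (by positivity))
    have b3 : 2 * (k * (2 * δ / √l)) * (√l * (1 + η / 2) * N) = 4 * k * δ * (1 + η / 2) * N := by
      field_simp
      ring
    have b4 := mul_le_mul_of_nonneg_right d2 N0'.le
    linarith only [b2, b3, b4]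
  rw [abs_le]
  constructor
  · refine le_of_mul_le_mul_right ?_ N0'
    linarith only [w1, u1, u2]
  · refine le_of_mul_le_mul_right ?_ N0'
    linarith only [w2, u2, t1, t2]

end Pool.Agent.Work.MP_51e72e_nt.AV
end

-- merged part: Pool.Agent.Work.MP_51e72e_nt.PV.Weight
section
/-! From weighted sums to counts. -/

set_option autoImplicit false
open Finset Filter MeasureTheory Pool.Agent.Lib.MR Pool.Agent.Lib.LargeSieve
open Pool.Agent.Work.MP_678620_nt Pool.Agent.Work.MP_51e72e_nt.AV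

namespace Pool.Agent.Work.MP_51e72e_nt.PV

lemma PVWeight_core {ι : Type} [Fintype ι] {E K N : ℕ} {lam ρ : ℝ} {φ : ι → ℤ → ℤ} {z : ι → ℝ}
    (hφ : ∀ i, ∀ n ∈ Ra lam N, z i < φ i n ∧ (n : ℤ) ≤ 2 * φ i n ∧
      (φ i n : ℝ) ≤ lam ^ E * φ i N ∧ (φ i N : ℝ) ≤ lam ^ E * φ i n)
    (hK : ∀ i, φ i N ≤ (N : ℤ) ^ K) (h1 : 1 ≤ lam) (hN : 4 * lam ^ 2 ≤ N) (hρ0 : 0 ≤ ρ)
    (hρ : Real.log (lam ^ E) ≤ ρ * (Real.log N / 2)) :
    0 ≤ cz φ N * N ∧
    ∑ n ∈ Ra lam N, ∏ i, L1 (z i) (φ i n) ≤ (1 + ρ) ^ Fintype.card ι * (cz φ N * N) ∧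
      cz φ N * N ≤ (1 + ρ) ^ Fintype.card ι * ∑ n ∈ Ra lam N, ∏ i, L1 (z i) (φ i n) +
        (K * Real.log N) ^ Fintype.card ι * (N / lam) := by
  have N4 : (4 : ℝ) ≤ N := by linarith only [h1, hN, mul_nonneg_of_nonpos_of_nonpos (Mathlib.Tactic.Linarith.sub_nonpos_of_le h1) (Mathlib.Tactic.Linarith.sub_nonpos_of_le h1)]
  have N0 : (0 : ℝ) < N := by linarith only [N4]
  have l0 : 0 ≤ Real.log N := Real.log_nonneg (by linarith only [N4])
  have hm : N ∈ Ra lam N := by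
    refine mem_filter.2 ⟨mem_Icc.2 ⟨?_, le_rfl⟩, le_mul_of_one_le_left (by linarith only [N4]) h1⟩
    exact_mod_cast (show (1 : ℝ) ≤ N by linarith only [N4])
  have pt : ∀ i, ∀ n ∈ Ra lam N, 0 < φ i n ∧ Real.log N / 2 ≤ Real.log (φ i n) := fun i n hn => by
    have a1 : (n : ℝ) ≤ 2 * φ i n := by exact_mod_cast (hφ i n hn).2.1
    have a2 := (rg_Ra lam N).lo n hn
    have a3 := (rg_Ra lam N).pos n hn
    have a4 := (hφ i n hn).2.1
    refine ⟨by omega, ?_⟩
    have a5 : (N : ℝ) ≤ 2 * lam * φ i n := by linarith only [a1, a2, h1, mul_nonneg_of_nonpos_of_nonpos (Mathlib.Tactic.Linarith.sub_nonpos_of_le h1) (Mathlib.Tactic.Linarith.sub_nonpos_of_le a1)]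
    have a6 : (N : ℝ) ≤ (φ i n : ℝ) ^ 2 := by
      have := pow_le_pow_left₀ N0.le a5 2
      refine le_of_mul_le_mul_left ?_ N0
      linarith only [this, hN, mul_le_mul_of_nonneg_right hN (sq_nonneg (φ i n : ℝ)), sq_nonneg ↑(φ i ↑n)]
    have a7 := Real.log_le_log N0 a6
    rw [Real.log_pow] at a7
    push_cast at a7
    linarith only [a7]
  have cmp : ∀ a b : ℝ, 0 < a → 0 < b → a ≤ lam ^ E * b → Real.log N / 2 ≤ Real.log b →
      Real.log a ≤ (1 + ρ) * Real.log b := fun a b ha hb h h' => by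
    have q := Real.log_le_log ha h
    rw [Real.log_mul (by positivity) hb.ne'] at q
    linarith only [hρ, q, h', hρ0, mul_le_mul_of_nonneg_left h' hρ0]
  have ab : ∀ i, |(φ i N : ℝ)| = φ i N := fun i => abs_of_pos (by exact_mod_cast (pt i N hm).1)
  rw [cz, div_mul_cancel₀ _ N0.ne']
  simp only [ab]
  set P := ∏ i, Real.log (φ i N : ℝ) with hP
  set c : ℕ → Prop := fun n => ∀ i, (φ i n).natAbs.Prime with hc
  have P0 : 0 ≤ P := prod_nonneg fun i _ => by linarith only [l0, pt, hm, (pt i N hm).2]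
  have P1 : P ≤ (K * Real.log N) ^ Fintype.card ι := by
    refine (prod_le_prod (g := fun _ => K * Real.log N) (fun i _ => by linarith only [l0, pt, hm, (pt i N hm).2])
      fun i _ => ?_).trans_eq (by rw [prod_const, card_univ])
    rw [← Real.log_pow]
    exact Real.log_le_log (by exact_mod_cast (pt i N hm).1) (by exact_mod_cast hK i)
  have hW : ∑ n ∈ Ra lam N, ∏ i, L1 (z i) (φ i n) =
      ∑ n ∈ (Ra lam N).filter c, ∏ i, Real.log (φ i n) := by
    rw [sum_filter]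
    refine sum_congr rfl fun n hn => ?_
    have e : ∀ i, (φ i n).toNat = (φ i n).natAbs := fun i => by
      have := (pt i n hn).1
      omega
    split_ifs with h
    · exact prod_congr rfl fun i _ => if_pos ⟨e i ▸ h i, (hφ i n hn).1⟩
    · simp only [not_forall] at h
      obtain ⟨i, h⟩ := h
      exact prod_eq_zero (mem_univ i) (if_neg fun h' => h (e i ▸ h'.1))
  have hQ : ∀ n ∈ (Ra lam N).filter c,
      ∏ i, Real.log (φ i n) ≤ (1 + ρ) ^ Fintype.card ι * P ∧
      P ≤ (1 + ρ) ^ Fintype.card ι * ∏ i, Real.log (φ i n) := fun n hn => by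
    have hn' := (mem_filter.1 hn).1
    have p1 : ∀ i, (0 : ℝ) < φ i n := fun i => by exact_mod_cast (pt i n hn').1
    have p2 : ∀ i, (0 : ℝ) < φ i N := fun i => by exact_mod_cast (pt i N hm).1
    constructor
    · refine (prod_le_prod (fun i _ => by linarith only [l0, pt, hn', (pt i n hn').2]) fun i _ =>
        cmp _ _ (p1 i) (p2 i) (hφ i n hn').2.2.1 (pt i N hm).2).trans_eq ?_
      rw [prod_mul_distrib, prod_const, card_univ]
    · refine (prod_le_prod (fun i _ => by linarith only [l0, pt, hm, (pt i N hm).2]) fun i _ =>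
        cmp _ _ (p2 i) (p1 i) (hφ i n hn').2.2.2 (pt i n hn').2).trans_eq ?_
      rw [prod_mul_distrib, prod_const, card_univ]
  have c1 : (((Ra lam N).filter c).card : ℝ) ≤ ((Icc 1 N).filter c).card := by
    exact_mod_cast card_le_card (filter_subset_filter _ (filter_subset _ _))
  have c2 : ((Icc 1 N).filter c).card ≤ ((Ra lam N).filter c).card + (Icc 1 ⌊N / lam⌋₊).card := by
    refine le_trans (card_le_card fun n hn => ?_) (card_union_le _ _)
    obtain ⟨h2, h3⟩ := mem_filter.1 hn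
    by_cases h : (N : ℝ) ≤ lam * n
    · exact mem_union_left _ (mem_filter.2 ⟨mem_filter.2 ⟨h2, h⟩, h3⟩)
    · refine mem_union_right _ (mem_Icc.2 ⟨(mem_Icc.1 h2).1, Nat.le_floor ?_⟩)
      rw [le_div_iff₀ (by linarith only [h1])]
      linarith only [h, not_le.1 h]
  have c3 : (((Icc 1 N).filter c).card : ℝ) ≤ ((Ra lam N).filter c).card + N / lam := by
    have c4 : (⌊N / lam⌋₊ : ℝ) ≤ N / lam := Nat.floor_le (by positivity)
    rw [Nat.card_Icc, Nat.add_sub_cancel] at c2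
    have c5 : (((Icc 1 N).filter c).card : ℝ) ≤ ((Ra lam N).filter c).card + (⌊N / lam⌋₊ : ℝ) := by
      exact_mod_cast c2
    linarith only [c4, c5]
  rw [hW]
  refine ⟨by positivity, ?_, ?_⟩
  · refine (sum_le_sum fun n hn => (hQ n hn).1).trans ?_
    rw [sum_const, nsmul_eq_mul, mul_left_comm]
    exact mul_le_mul_of_nonneg_left (mul_le_mul_of_nonneg_right c1 P0) (by positivity)
  · have d1 := sum_le_sum fun n hn => (hQ n hn).2
    rw [sum_const, nsmul_eq_mul, ← mul_sum] at d1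
    have d2 : N / lam * P ≤ N / lam * (K * Real.log N) ^ Fintype.card ι :=
      mul_le_mul_of_nonneg_left P1 (by positivity)
    have d3 := mul_le_mul_of_nonneg_right c3 P0
    linarith only [d1, d2, d3]

lemma PVWeight_fin {W X C η τ s N : ℝ} (hN : 0 < N) (hη : 0 < η) (hτ : 0 ≤ τ)
    (C1 : C ≤ s) (s1 : 1 ≤ s) (h : τ * (s * (1 + η / 2)) ≤ η / 4) (w1 : W ≤ (1 + τ) * (X * N))
    (w2 : X * N ≤ (1 + τ) * W + η / 4 * N) (hW : |W - C * N| ≤ η / 2 * N) : |X - C| ≤ η := by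
  obtain ⟨u1, u2⟩ := abs_le.1 hW
  have b0 : C * N ≤ s * N := mul_le_mul_of_nonneg_right C1 hN.le
  have b1 : η / 2 * N ≤ s * (η / 2 * N) := le_mul_of_one_le_left (by positivity) s1
  have b2 := mul_le_mul_of_nonneg_right h hN.le
  rw [abs_le]
  constructor
  · by_contra h1
    have b3 : X * N ≤ (C - η) * N := mul_le_mul_of_nonneg_right (by linarith only [h1]) hN.le
    have b4 : τ * (X * N) ≤ τ * (s * (1 + η / 2) * N) :=
      mul_le_mul_of_nonneg_left (by linarith only [u1, u2, b0, b1, b3, mul_pos hη hN]) hτ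
    linarith only [w1, u1, b2, b3, b4, hη, hN, mul_pos hη hN]
  · have b4 : τ * W ≤ τ * (s * (1 + η / 2) * N) := mul_le_mul_of_nonneg_left (by linarith only [u2, b0, b1]) hτ
    refine le_of_mul_le_mul_right ?_ hN
    linarith only [w2, u2, b2, b4]

theorem weight_d (ι : Type) [Fintype ι] (B E K : ℕ) {η : ℝ} (hη : 0 < η) : ∀ᶠ N : ℕ in atTop,
    ∀ lam : ℝ, Real.log N ^ (Fintype.card ι + 1) ≤ lam → lam ≤ Real.log N ^ B →
    ∀ (φ : ι → ℤ → ℤ) (z : ι → ℝ), (∀ i, ∀ n ∈ Ra lam N, z i < φ i n ∧ (n : ℤ) ≤ 2 * φ i n ∧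
      (φ i n : ℝ) ≤ lam ^ E * φ i N ∧ (φ i N : ℝ) ≤ lam ^ E * φ i n) →
    (∀ i, φ i N ≤ (N : ℤ) ^ K) → ∀ C : ℝ, 0 ≤ C → C ≤ √(Real.log N) →
    |∑ n ∈ Ra lam N, ∏ i, L1 (z i) (φ i n) - C * N| ≤ η / 2 * N → |cz φ N - C| ≤ η := by
  set k := Fintype.card ι with hk
  obtain ⟨δ, hδ, d1, d2⟩ : ∃ δ : ℝ, 0 < δ ∧ k * (2 * δ) ≤ 1 ∧ 4 * k * δ * (1 + η / 2) ≤ η / 4 := by
    have k0 : (0 : ℝ) ≤ k := Nat.cast_nonneg k
    refine ⟨η / (16 * (k + 1) * (1 + η / 2)), by positivity, ?_, ?_⟩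
    · rw [← mul_div_assoc, ← mul_div_assoc, div_le_one (by positivity)]
      linarith only [hη, k0, mul_nonneg k0 hη.le]
    · rw [← mul_div_assoc, div_mul_eq_mul_div, div_le_iff₀ (by positivity)]
      linarith only [hη, mul_nonneg k0 hη.le, mul_pos hη hη, mul_self_nonneg η]
  filter_upwards [TB_tend.eventually (Weight_ev (B * 2) one_pos),
    TB_tend.eventually (Weight_ev (B * E) hδ), TB_tend.eventually_ge_atTop 2,
    TB_tend.eventually_ge_atTop (4 * K ^ k / η), eventually_gt_atTop 0]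
    with N e0 e1 l2 l3 N0 lam h1 h2 φ z hφ hK C _ C1 hW
  have N0' : (0 : ℝ) < N := by exact_mod_cast N0
  have lam1 : 1 ≤ lam := (one_le_pow₀ (by linarith only [l2])).trans h1
  have r1 : 1 ≤ √(Real.log N) := Real.one_le_sqrt.2 (by linarith only [l2])
  have r2 : √(Real.log N) * √(Real.log N) = Real.log N := Real.mul_self_sqrt (by linarith only [l2])
  have hN : 4 * lam ^ 2 ≤ N := by
    have a1 : lam ^ 2 ≤ Real.log N ^ (B * 2) := by
      rw [pow_mul]
      exact pow_le_pow_left₀ (by linarith only [lam1]) h2 2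
    have a2 : Real.log (4 * Real.log N ^ (B * 2)) ≤ Real.log N := e0.trans (by nlinarith)
    rw [Real.log_le_log_iff (by positivity) N0'] at a2
    linarith only [a1, a2]
  have hρ : Real.log (lam ^ E) ≤ 2 * δ / √(Real.log N) * (Real.log N / 2) := by
    have e : 2 * δ / √(Real.log N) * (Real.log N / 2) = δ * √(Real.log N) := by
      field_simp
      nlinarith
    have a1 : lam ^ E ≤ Real.log N ^ (B * E) := by
      rw [pow_mul]
      exact pow_le_pow_left₀ (by linarith only [lam1]) h2 E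
    have a2 : 0 < lam ^ E := by positivity
    rw [e]
    exact (Real.log_le_log a2 (by linarith only [a1, a2])).trans e1
  obtain ⟨w0, w1, w2⟩ := PVWeight_core hφ hK lam1 hN (by positivity) hρ
  have W0 : 0 ≤ ∑ n ∈ Ra lam N, ∏ i, L1 (z i) (φ i n) := sum_nonneg fun n _ =>
    prod_nonneg fun i _ => by
      rw [L1]
      split_ifs
      · exact Real.log_intCast_nonneg _
      · exact le_rfl
  rw [← hk] at w1 w2
  generalize Real.log N = l at *
  generalize ∑ n ∈ Ra lam N, ∏ i, L1 (z i) (φ i n) = W at *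
  have a0 : 0 ≤ k * (2 * δ / √l) := by positivity
  have ρ1 : k * (2 * δ / √l) ≤ 1 :=
    (mul_le_mul_of_nonneg_left (div_le_self (by positivity) r1) (Nat.cast_nonneg k)).trans d1
  have ρ2 : (1 + 2 * δ / √l) ^ k ≤ 1 + 2 * (k * (2 * δ / √l)) := by
    have a1 : (1 + 2 * δ / √l) ^ k ≤ Real.exp (2 * δ / √l) ^ k :=
      pow_le_pow_left₀ (by positivity) (by linarith only [Real.add_one_le_exp (2 * δ / √l)]) k
    rw [← Real.exp_nat_mul] at a1
    have a2 := Real.abs_exp_sub_one_le (x := k * (2 * δ / √l)) (by rwa [abs_of_nonneg a0])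
    rw [abs_of_nonneg a0] at a2
    linarith only [a1, a2, (abs_le.1 a2).2]
  have t1 : (K * l) ^ k * (N / lam) ≤ η / 4 * N := by
    have a1 : (K * l) ^ k / lam ≤ (K * l) ^ k / l ^ (k + 1) :=
      div_le_div_of_nonneg_left (by positivity) (by positivity) h1
    have a2 : (K * l) ^ k / l ^ (k + 1) = K ^ k / l := by
      rw [mul_pow, pow_succ]
      field_simp
    have a3 : K ^ k / l ≤ η / 4 := by
      rw [div_le_iff₀ hη] at l3
      rw [div_le_iff₀ (by linarith only [l2])]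
      linarith only [l3]
    rw [mul_div_left_comm, mul_comm]
    exact mul_le_mul_of_nonneg_right (by linarith only [a1, a2, a3]) N0'.le
  refine PVWeight_fin (τ := 2 * (k * (2 * δ / √l))) N0' hη (by positivity) C1 r1
    (le_of_eq_of_le ?_ d2) (w1.trans (mul_le_mul_of_nonneg_right ρ2 w0))
    (w2.trans (add_le_add (mul_le_mul_of_nonneg_right ρ2 W0) t1)) hW
  field_simp
  ring

end Pool.Agent.Work.MP_51e72e_nt.PV
end
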