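import Pool.Agent.Work.MP_51e72e_nt.AV.Tele
import Pool.Agent.Work.MP_51e72e_nt.AV.Fix
import Pool.Agent.Work.MP_51e72e_nt.PV.Model
import Pool.Agent.Work.MP_51e72e_nt.PV.Mult
import Pool.Agent.Work.MP_51e72e_nt.PV.Weight

-- merged part: Pool.Agent.Work.MP_51e72e_nt.AV.Main
section
/-! The main theorem. -/

set_option autoImplicit false
open Finset Filter MeasureTheory Pool.Agent.Lib.MR Pool.Agent.Lib.LargeSieve
open Pool.Agent.Work.MP_678620_nt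

namespace Pool.Agent.Work.MP_51e72e_nt.AV

lemma Main_small {lam : ℝ} (hl : 0 < lam) (M : ℕ) :
    (((Icc (1 : ℤ) M).filter fun a : ℤ => ¬ (M : ℝ) ≤ lam * a).card : ℝ) ≤ M / lam := by
  have h : ((Icc (1 : ℤ) M).filter fun a : ℤ => ¬ (M : ℝ) ≤ lam * a) ⊆
      Icc (1 : ℤ) (⌊(M : ℝ) / lam⌋₊ : ℕ) := fun a ha => by
    obtain ⟨h1, h2⟩ := mem_filter.1 ha
    refine mem_Icc.2 ⟨(mem_Icc.1 h1).1, ?_⟩
    rw [Int.natCast_floor_eq_floor (by positivity), Int.le_floor, le_div_iff₀ hl]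
    linarith [not_le.1 h2]
  have h2 := card_le_card h
  rw [Int.card_Icc, add_sub_cancel_right, Int.toNat_natCast] at h2
  exact le_trans (by exact_mod_cast h2) (Nat.floor_le (by positivity))

lemma Main_Ra {lam : ℝ} (hl : 0 < lam) (M : ℕ) : (M : ℝ) - M / lam ≤ (Ra lam M).card := by
  have h : ((Icc 1 M).filter fun a : ℕ => ¬ (M : ℝ) ≤ lam * a) ⊆ Icc 1 ⌊(M : ℝ) / lam⌋₊ :=
    fun a ha => by
      obtain ⟨h1, h2⟩ := mem_filter.1 ha
      refine mem_Icc.2 ⟨(mem_Icc.1 h1).1, Nat.le_floor ?_⟩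
      rw [le_div_iff₀ hl]
      linarith [not_le.1 h2]
  have h2 := card_le_card h
  have h3 := card_filter_add_card_filter_not (s := Icc 1 M) fun a : ℕ => (M : ℝ) ≤ lam * a
  rw [Nat.card_Icc, Nat.add_sub_cancel] at h2 h3
  have h4 : (M : ℝ) ≤ (Ra lam M).card + (⌊(M : ℝ) / lam⌋₊ : ℕ) := by
    rw [Ra]
    exact_mod_cast h3.ge.trans (Nat.add_le_add_left h2 _)
  linarith only [h4, hl, Nat.floor_le (show 0 ≤ (M : ℝ) / lam by positivity)]

lemma Main_out {lam : ℝ} (hl : 0 < lam) {H : ℕ} (hH : 1 ≤ H) (k : ℕ) :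
    (((Fintype.piFinset fun _ : Fin k => Icc (1 : ℤ) H ×ˢ Icc (-(H : ℤ)) H) \ Tup k lam H).card : ℝ)
      ≤ k * ((3 * (H : ℝ) ^ 2) ^ k / lam) := by
  have H1 : (1 : ℝ) ≤ H := by exact_mod_cast hH
  have c1 : ((Icc (-(H : ℤ)) H).card : ℝ) ≤ 3 * H := by
    rw [Int.card_Icc, show (H : ℤ) + 1 - -H = ((2 * H + 1 : ℕ) : ℤ) by push_cast; ring,
      Int.toNat_natCast]
    push_cast
    linarith only [H1]
  have c2 : ((Icc (1 : ℤ) H).card : ℝ) = H := by simp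
  let X : Fin k → Fin k → Finset (ℤ × ℤ) := fun i j =>
    (if j = i then (Icc (1 : ℤ) H).filter fun a : ℤ => ¬ (H : ℝ) ≤ lam * a else Icc (1 : ℤ) H) ×ˢ
      Icc (-(H : ℤ)) H
  have h1 : (Fintype.piFinset fun _ : Fin k => Icc (1 : ℤ) H ×ˢ Icc (-(H : ℤ)) H) \ Tup k lam H ⊆
      univ.biUnion fun i => Fintype.piFinset (X i) := fun v hv => by
    obtain ⟨h2, h3⟩ := mem_sdiff.1 hv
    rw [Fintype.mem_piFinset] at h2
    rw [Tup, Fintype.mem_piFinset, not_forall] at h3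
    obtain ⟨i, hi⟩ := h3
    refine mem_biUnion.2 ⟨i, mem_univ i, Fintype.mem_piFinset.2 fun j => ?_⟩
    obtain ⟨a1, a2⟩ := mem_product.1 (h2 j)
    refine mem_product.2 ⟨?_, a2⟩
    split_ifs with h
    · subst h
      exact mem_filter.2 ⟨a1, fun h => hi (mem_product.2 ⟨mem_filter.2 ⟨a1, h⟩, a2⟩)⟩
    · exact a1
  have h2 : ∀ i, ((Fintype.piFinset (X i)).card : ℝ) ≤ (3 * (H : ℝ) ^ 2) ^ k / lam := by
    intro i
    rw [Fintype.card_piFinset, Nat.cast_prod]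
    calc _ ≤ ∏ j : Fin k, 3 * (H : ℝ) ^ 2 * (if j = i then lam⁻¹ else 1) := by
          refine prod_le_prod (fun _ _ => Nat.cast_nonneg _) fun j _ => ?_
          simp only [X]
          rw [card_product, Nat.cast_mul]
          split_ifs
          · exact (mul_le_mul (Main_small hl H) c1 (Nat.cast_nonneg _) (by positivity)).trans_eq
              (by ring)
          · rw [c2]
            exact (mul_le_mul_of_nonneg_left c1 (by positivity)).trans_eq (by ring)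
      _ = _ := by
          rw [prod_mul_distrib, prod_const, prod_ite_eq', if_pos (mem_univ i), card_univ,
            Fintype.card_fin, div_eq_mul_inv]
  have h3 := (card_le_card h1).trans card_biUnion_le
  refine le_trans (b := ∑ i, ((Fintype.piFinset (X i)).card : ℝ)) (by exact_mod_cast h3) ?_
  refine (sum_le_card_nsmul _ _ _ fun i _ => h2 i).trans_eq ?_
  rw [card_univ, Fintype.card_fin, nsmul_eq_mul]

lemma Main_markov {α : Type*} (T : Finset α) (φ : α → ℝ) (h0 : ∀ v, 0 ≤ φ v) {t : ℝ}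
    (ht : 0 < t) : ((T.filter fun v => t < φ v).card : ℝ) ≤ (∑ v ∈ T, φ v) / t := by
  rw [le_div_iff₀ ht, ← nsmul_eq_mul]
  refine (card_nsmul_le_sum _ φ t fun v hv => (mem_filter.1 hv).2.le).trans ?_
  exact sum_le_sum_of_subset_of_nonneg (filter_subset _ _) fun v _ _ => h0 v

lemma Main_fixed (F₀ : Finset (ℤ × ℤ)) (h₀ : Prim F₀) (h₁ : F₀.card ≤ 1) (k : ℕ) {ε : ℝ}
    (hε : 0 < ε) (B C : ℕ) : ∀ᶠ N : ℕ in atTop,
    (∀ n ≤ N, |∏ f ∈ F₀, L1 (zz N) (ev f n)| ≤ 3 * Real.log N) ∧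
    ∀ (H : ℕ) (lam : ℝ), Par ε B N H lam →
      ∑ v ∈ Tup k lam H, |∑ n ∈ Ra lam N, (∏ f ∈ F₀, L1 (zz N) (ev f n) -
        ∏ f ∈ F₀, F1 (zz N) (ev f n)) * ∏ i, F1 (zz N) (ev (v i) n)|
        ≤ (3 * (H : ℝ) ^ 2) ^ k * N / Real.log N ^ C := by
  rcases F₀.eq_empty_or_nonempty with rfl | hne
  · filter_upwards [TB_tend.eventually_ge_atTop 1] with N hl
    refine ⟨fun n _ => by rw [prod_empty, abs_one]; linarith only [hl], fun H lam _ => ?_⟩
    simp only [prod_empty, sub_self, zero_mul, sum_const_zero, abs_zero]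
    positivity
  obtain ⟨f, rfl⟩ := card_eq_one.1 (le_antisymm h₁ hne.card_pos)
  have hf := (h₀ f (mem_singleton_self f)).1
  filter_upwards [fixed k f hf hε B C, LF_bound, eventually_ge_atTop (f.1.natAbs + f.2.natAbs + 2)]
    with N h1 h2 h3
  simp only [prod_singleton]
  refine ⟨fun n hn => ?_, h1⟩
  have h4 : ev f n ≤ (N : ℤ) ^ 3 := by
    have a1 : f.1 ≤ N := by omega
    have a2 : f.2 ≤ N := by omega
    have a3 : (2 : ℤ) ≤ N := by omega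
    have a4 : (n : ℤ) ≤ N := by exact_mod_cast hn
    have a5 : f.1 * n ≤ N * N := mul_le_mul a1 a4 (by positivity) (by positivity)
    rw [ev]
    linarith only [a2, a5, a3, hf, a1, mul_nonneg_of_nonpos_of_nonpos (Mathlib.Tactic.Linarith.sub_nonpos_of_le (mul_self_nonneg ↑N)) (Mathlib.Tactic.Linarith.sub_nonpos_of_le a3), mul_nonneg_of_nonpos_of_nonpos (Mathlib.Tactic.Linarith.sub_nonpos_of_le (Mathlib.Tactic.Linarith.natCast_nonneg ℤ N)) (Mathlib.Tactic.Linarith.sub_nonpos_of_le hf), mul_nonneg_of_nonpos_of_nonpos (Mathlib.Tactic.Linarith.sub_nonpos_of_le (Mathlib.Tactic.Linarith.natCast_nonneg ℤ N)) (Mathlib.Tactic.Linarith.sub_nonpos_of_le a1)]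
  obtain ⟨a, b, -⟩ := h2 _ h4
  rwa [abs_of_nonneg a]

lemma Main_good (F₀ : Finset (ℤ × ℤ)) (h₀ : Prim F₀) (h₁ : F₀.card ≤ 1) (k B : ℕ)
    (hB : k + 2 ≤ B) {η : ℝ} (hη : 0 < η) : ∀ᶠ N : ℕ in atTop, ∀ H : ℕ, H ≤ N →
    ∀ v ∈ Tup k (Real.log N ^ B) H, Function.Injective v → (∀ i, IsCoprime (v i).1 (v i).2) →
    (∀ i, v i ∉ F₀) →
    |∑ n ∈ Ra (Real.log N ^ B) N, (∏ f ∈ F₀, L1 (zz N) (ev f n)) *
      (∏ i, L1 (zz N) (ev (v i) n) - ∏ i, F1 (zz N) (ev (v i) n))| ≤ η / 8 * N →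
    |∑ n ∈ Ra (Real.log N ^ B) N, (∏ f ∈ F₀, L1 (zz N) (ev f n) -
      ∏ f ∈ F₀, F1 (zz N) (ev f n)) * ∏ i, F1 (zz N) (ev (v i) n)| ≤ η / 8 * N →
    |cnt (F₀ ∪ univ.image v) N - CF (F₀ ∪ univ.image v)| ≤ η := by
  have e0 : ∀ᶠ N : ℕ in atTop, ∀ f ∈ F₀, f.1 ≤ N ∧ |f.2| ≤ N ∧ |(f.2 : ℝ)| ≤ Real.log N :=
    (eventually_all_finset F₀).2 fun f _ => by
      filter_upwards [eventually_ge_atTop (f.1.natAbs + f.2.natAbs),
        TB_tend.eventually_ge_atTop |(f.2 : ℝ)|] with N a b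
      exact ⟨by omega, by rw [Int.abs_eq_natAbs]; omega, b⟩
  filter_upwards [e0, model (k + 1) B, sing (k + 1), weight (k + 1) B hη,
    TB_tend.eventually_ge_atTop 1, TB_tend.eventually_ge_atTop (12 / η)]
    with N e0 h1 h2 h3 l1 l2 H hH v hv hi hc hn d1 d2
  set lam := Real.log N ^ B with hlam
  have m1 : Real.log N ^ (k + 1 + 1) ≤ lam := pow_le_pow_right₀ l1 hB
  have m2 : Real.log N ^ 2 ≤ lam := pow_le_pow_right₀ l1 (by omega)
  have m3 : Real.log N ≤ lam := le_trans (by linarith only [l1, mul_nonneg_of_nonpos_of_nonpos (Mathlib.Tactic.Linarith.sub_nonpos_of_le l1) (Mathlib.Tactic.Linarith.sub_nonpos_of_le l1)]) m2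
  have l0 : 0 < lam := by linarith only [l1, m3]
  have hb : ∀ i, 1 ≤ (v i).1 ∧ (v i).1 ≤ H ∧ (H : ℝ) ≤ lam * (v i).1 ∧ |(v i).2| ≤ H := fun i => by
    obtain ⟨a1, a2⟩ := mem_product.1 (Fintype.mem_piFinset.1 hv i)
    obtain ⟨a3, a4⟩ := mem_filter.1 a1
    exact ⟨(mem_Icc.1 a3).1, (mem_Icc.1 a3).2, a4, abs_le.2 (mem_Icc.1 a2)⟩
  have hHN : (H : ℤ) ≤ N := by exact_mod_cast hH
  have cs : ∀ {P : ℤ × ℤ → Prop}, (∀ f ∈ F₀, P f) → (∀ i, P (v i)) →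
      ∀ f ∈ F₀ ∪ univ.image v, P f := fun a b f hf => by
    rcases mem_union.1 hf with h | h
    · exact a f h
    · obtain ⟨i, -, rfl⟩ := mem_image.1 h
      exact b i
  have hS : Sy (k + 1) N lam (F₀ ∪ univ.image v) :=
    { prim := cs h₀ fun i => ⟨(hb i).1, hc i⟩
      card := (card_union_le _ _).trans (by
        have := card_image_le (s := univ) (f := v)
        rw [card_univ, Fintype.card_fin] at this
        omega)
      a_le := cs (fun f hf => (e0 f hf).1) fun i => (hb i).2.1.trans hHN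
      b_le := cs (fun f hf => (e0 f hf).2.1) fun i => (hb i).2.2.2.trans hHN
      b_a := cs (fun f hf => ((e0 f hf).2.2.trans m3).trans
          (le_mul_of_one_le_right l0.le (by exact_mod_cast (h₀ f hf).1)))
        fun i => le_trans (by exact_mod_cast (hb i).2.2.2) (hb i).2.2.1 }
  have hd : Disjoint F₀ (univ.image v) := disjoint_right.2 fun f hf => by
    obtain ⟨i, -, rfl⟩ := mem_image.1 hf
    exact hn i
  have pr : ∀ φ : ℤ × ℤ → ℝ, ∏ f ∈ F₀ ∪ univ.image v, φ f = (∏ f ∈ F₀, φ f) * ∏ i, φ (v i) :=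
    fun φ => by rw [prod_union hd, prod_image fun a _ b _ h => hi h]
  have a1 := h1 lam m3 le_rfl _ hS
  obtain ⟨a2, a3, a4⟩ := h2 lam _ hS
  refine h3 lam m1 le_rfl _ hS _ a3 a4 ?_
  have e : ∑ n ∈ Ra lam N, ∏ f ∈ F₀ ∪ univ.image v, L1 (zz N) (ev f n) =
      ∑ n ∈ Ra lam N, (∏ f ∈ F₀, L1 (zz N) (ev f n)) *
        (∏ i, L1 (zz N) (ev (v i) n) - ∏ i, F1 (zz N) (ev (v i) n)) +
      ∑ n ∈ Ra lam N, (∏ f ∈ F₀, L1 (zz N) (ev f n) -
        ∏ f ∈ F₀, F1 (zz N) (ev f n)) * ∏ i, F1 (zz N) (ev (v i) n) +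
      ∑ n ∈ Ra lam N, ∏ f ∈ F₀ ∪ univ.image v, F1 (zz N) (ev f n) := by
    rw [← sum_add_distrib, ← sum_add_distrib]
    refine sum_congr rfl fun n _ => ?_
    rw [pr fun f => L1 (zz N) (ev f n), pr fun f => F1 (zz N) (ev f n)]
    ring
  rw [e]
  have r1 : ((Ra lam N).card : ℝ) ≤ N := by exact_mod_cast (rg_Ra lam N).card
  have r2 := Main_Ra l0 N
  have r0 : (0 : ℝ) ≤ (Ra lam N).card := Nat.cast_nonneg _
  have N0 : (0 : ℝ) ≤ N := Nat.cast_nonneg _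
  generalize ((Ra lam N).card : ℝ) = R at *
  generalize CF (F₀ ∪ univ.image v) = C at *
  generalize EP (F₀ ∪ univ.image v) ⌊zz N⌋₊ = E at *
  generalize Real.log N = l at *
  have b1 : |R * E - R * C| ≤ N / l := by
    rw [← mul_sub, abs_mul, abs_of_nonneg r0]
    exact (mul_le_mul r1 a2 (abs_nonneg _) N0).trans_eq (by ring)
  have b2 : |R * C - C * N| ≤ N / l := by
    rw [abs_sub_comm, mul_comm R, ← mul_sub, abs_of_nonneg (mul_nonneg a3 (by linarith only [r1]))]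
    have s1 : C ≤ l := a4.trans (Real.sqrt_le_iff.2 ⟨by linarith only [l1], by linarith only [l1, mul_nonneg_of_nonpos_of_nonpos (Mathlib.Tactic.Linarith.sub_nonpos_of_le l1) (Mathlib.Tactic.Linarith.sub_nonpos_of_le l1)]⟩)
    calc _ ≤ l * (N / lam) := mul_le_mul s1 (by linarith only [r2]) (by linarith only [r1]) (by linarith only [l1])
      _ ≤ l * (N / l ^ 2) := by gcongr
      _ = _ := by field_simp
  have b3 : 3 * ((N : ℝ) / l) ≤ η / 4 * N := by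
    rw [div_le_iff₀ hη] at l2
    rw [← mul_div_assoc, div_le_iff₀ (by linarith only [l1])]
    linarith only [l2, mul_nonneg_of_nonpos_of_nonpos (Mathlib.Tactic.Linarith.sub_nonpos_of_le (Mathlib.Tactic.Linarith.natCast_nonneg ℝ N)) (Mathlib.Tactic.Linarith.sub_nonpos_of_le l2)]
  rw [abs_le] at *
  constructor <;> linarith only [d1, d2, a1, b1, b2, b3, a1.1, a1.2, b1.1, b1.2, b2.1, b2.2, d1.1, d1.2, d2.1, d2.2]

open Classical in
theorem main (F₀ : Finset (ℤ × ℤ)) (h₀ : Prim F₀) (h₁ : F₀.card ≤ 1) (k A : ℕ) {ε η : ℝ}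
    (hε : 0 < ε) (hη : 0 < η) : ∀ᶠ N : ℕ in atTop, ∀ H : ℕ, (N : ℝ) ^ ε ≤ H → H ≤ N →
      ((((((Icc (1 : ℤ) H ×ˢ Icc (-(H : ℤ)) H).filter fun f => IsCoprime f.1 f.2) \ F₀).powersetCard
        k).filter fun F => η < |cnt (F₀ ∪ F) N - CF (F₀ ∪ F)|).card : ℝ)
        ≤ (H : ℝ) ^ (2 * k) / Real.log N ^ A := by
  set B := A + 2 * k + 3 with hB
  filter_upwards [Main_good F₀ h₀ h₁ k B (by omega) hη, Main_fixed F₀ h₀ h₁ k hε B (A + 1),
    tele k hε B, TB_tend.eventually_ge_atTop 1, eventually_ge_atTop 1,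
    TB_tend.eventually_ge_atTop
      (k * 3 ^ k + 6400 * k ^ 2 * 3 ^ (2 * k + 2) * 3 ^ k / η ^ 2 + 8 * 3 ^ k / η)]
    with N h1 ⟨h2, h3⟩ h4 l1 N1 l2 H hH hHN
  set lam := Real.log N ^ B with hlam
  have N0 : (0 : ℝ) < N := by exact_mod_cast N1
  have m3 : Real.log N ≤ lam := le_self_pow₀ l1 (by omega)
  have l0 : 0 < lam := by linarith only [l1, m3]
  have hP : Par ε B N H lam := ⟨hH, hHN, m3, le_rfl⟩
  have H1 : 1 ≤ H := by
    have := (Real.one_le_rpow (show (1 : ℝ) ≤ N by exact_mod_cast N1) hε.le).trans hH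
    exact_mod_cast this
  let D1 : (Fin k → ℤ × ℤ) → ℝ := fun v => (∑ n ∈ Ra lam N, (∏ f ∈ F₀, L1 (zz N) (ev f n)) *
    (∏ i, L1 (zz N) (ev (v i) n) - ∏ i, F1 (zz N) (ev (v i) n))) ^ 2
  let D2 : (Fin k → ℤ × ℤ) → ℝ := fun v => |∑ n ∈ Ra lam N, (∏ f ∈ F₀, L1 (zz N) (ev f n) -
    ∏ f ∈ F₀, F1 (zz N) (ev f n)) * ∏ i, F1 (zz N) (ev (v i) n)|
  let T0 := (Fintype.piFinset fun _ : Fin k => Icc (1 : ℤ) H ×ˢ Icc (-(H : ℤ)) H) \ Tup k lam H
  let T1 := (Tup k lam H).filter fun v => (η / 8 * N) ^ 2 < D1 v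
  let T2 := (Tup k lam H).filter fun v => η / 8 * N < D2 v
  have hsub : ((((Icc (1 : ℤ) H ×ˢ Icc (-(H : ℤ)) H).filter fun f => IsCoprime f.1 f.2) \
      F₀).powersetCard k).filter (fun F => η < |cnt (F₀ ∪ F) N - CF (F₀ ∪ F)|) ⊆
      (T0 ∪ T1 ∪ T2).image fun v => univ.image v := fun F hF => by
    obtain ⟨a1, a2⟩ := mem_filter.1 hF
    obtain ⟨a3, a4⟩ := mem_powersetCard.1 a1
    let e := F.equivFinOfCardEq a4
    let v : Fin k → ℤ × ℤ := fun i => (e.symm i : ℤ × ℤ)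
    have vi : Function.Injective v := fun i j h => e.symm.injective (Subtype.ext h)
    have vF : univ.image v = F := by
      ext f
      refine ⟨fun h => ?_, fun h => mem_image.2 ⟨e ⟨f, h⟩, mem_univ _, by simp [v]⟩⟩
      obtain ⟨i, -, rfl⟩ := mem_image.1 h
      exact (e.symm i).2
    have vm := fun i => mem_sdiff.1 (a3 (e.symm i).2)
    refine mem_image.2 ⟨v, ?_, vF⟩
    by_contra hc
    simp only [mem_union, not_or] at hc
    obtain ⟨⟨c0, c1⟩, c2⟩ := hc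
    have hv : v ∈ Tup k lam H := by
      by_contra h
      exact c0 (mem_sdiff.2 ⟨Fintype.mem_piFinset.2 fun i => (mem_filter.1 (vm i).1).1, h⟩)
    have := h1 H hHN v hv vi (fun i => (mem_filter.1 (vm i).1).2) (fun i => (vm i).2)
      (abs_le_of_sq_le_sq (not_lt.1 fun h => c1 (mem_filter.2 ⟨hv, h⟩)) (by positivity))
      (not_lt.1 fun h => c2 (mem_filter.2 ⟨hv, h⟩))
    rw [vF] at this
    exact absurd a2 (not_lt.2 this)
  have c := ((card_le_card hsub).trans card_image_le).trans ((card_union_le _ _).trans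
    (Nat.add_le_add_right (card_union_le _ _) _))
  refine le_trans (b := (T0.card : ℝ) + T1.card + T2.card) (by exact_mod_cast c) ?_
  have c0 : (T0.card : ℝ) ≤ _ := Main_out l0 H1 k
  have c1 : (T1.card : ℝ) ≤ _ :=
    (Main_markov _ D1 (fun _ => sq_nonneg _) (by positivity)).trans
      (div_le_div_of_nonneg_right (h4 H lam hP _ fun n hn => h2 n ((rg_Ra lam N).hi n hn))
        (by positivity))
  have c2 : (T2.card : ℝ) ≤ _ :=
    (Main_markov _ D2 (fun _ => abs_nonneg _) (by positivity)).trans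
      (div_le_div_of_nonneg_right (h3 H lam hP) (by positivity))
  refine (add_le_add (add_le_add c0 c1) c2).trans ?_
  rw [hlam, hB]
  generalize Real.log N = l at *
  have l0' : 0 < l := by linarith only [l1]
  have d0 : (k : ℝ) * ((3 * (H : ℝ) ^ 2) ^ k / l ^ (A + 2 * k + 3))
      ≤ k * 3 ^ k * ((H : ℝ) ^ (2 * k) / l ^ (A + 1)) := by
    rw [mul_pow, ← pow_mul, mul_div_assoc, ← mul_assoc]
    refine mul_le_mul_of_nonneg_left ?_ (by positivity)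
    exact div_le_div_of_nonneg_left (by positivity) (by positivity)
      (pow_le_pow_right₀ l1 (by omega))
  have d1 : 100 * (k : ℝ) ^ 2 * (3 * l) ^ (2 * k + 2) * (3 * (H : ℝ) ^ 2) ^ k * N ^ 2 /
      l ^ (A + 2 * k + 3) / (η / 8 * N) ^ 2 = 6400 * k ^ 2 * 3 ^ (2 * k + 2) * 3 ^ k / η ^ 2 *
        ((H : ℝ) ^ (2 * k) / l ^ (A + 1)) := by
    rw [mul_pow, mul_pow 3, ← pow_mul, show A + 2 * k + 3 = (2 * k + 2) + (A + 1) by ring,
      pow_add l (2 * k + 2)]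
    field_simp
    ring
  have d2 : (3 * (H : ℝ) ^ 2) ^ k * N / l ^ (A + 1) / (η / 8 * N)
      = 8 * 3 ^ k / η * ((H : ℝ) ^ (2 * k) / l ^ (A + 1)) := by
    rw [mul_pow, ← pow_mul]
    field_simp
  rw [d1, d2]
  refine (add_le_add_left (add_le_add_left d0 _) _).trans ?_
  rw [← add_mul, ← add_mul]
  refine (mul_le_mul_of_nonneg_right l2 (by positivity)).trans_eq ?_
  rw [pow_succ]
  field_simp

end Pool.Agent.Work.MP_51e72e_nt.AV
end

-- merged part: Pool.Agent.Work.MP_51e72e_nt.PV.Good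
section
/-! The good systems. -/

set_option autoImplicit false
open Finset Filter MeasureTheory Pool.Agent.Lib.MR Pool.Agent.Lib.LargeSieve
open Pool.Agent.Work.MP_678620_nt Pool.Agent.Work.MP_51e72e_nt.AV

namespace Pool.Agent.Work.MP_51e72e_nt.PV

lemma zz_mono {X Y : ℕ} (h : X ≤ Y) (h1 : 1 ≤ X) : zz X ≤ zz Y :=
  Real.exp_le_exp.2 (Real.rpow_le_rpow (Real.log_natCast_nonneg X)
    (Real.log_le_log (by exact_mod_cast h1) (by exact_mod_cast h)) (by norm_num))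

lemma zz_small (K B : ℕ) {c : ℝ} (hc : 0 < c) : ∀ᶠ N : ℕ in atTop,
    2 * Real.log N ^ B * zz (N ^ (K + 1)) ≤ (N : ℝ) ^ c := by
  have t : Tendsto (fun N : ℕ => N ^ (K + 1)) atTop atTop := tendsto_pow_atTop (by omega)
  filter_upwards [t.eventually (MRHM_ev B (δ := 1 / 25) (c := c / (K + 1 : ℕ)) (D := 2)
    (by norm_num) (by positivity) two_pos)] with N h
  rw [Nat.cast_pow, ← Real.rpow_natCast (N : ℝ) (K + 1), ← Real.rpow_mul (Nat.cast_nonneg N),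
    mul_div_cancel₀ _ (by positivity), Real.rpow_natCast] at h
  refine le_trans ?_ h
  rw [zz, Nat.cast_pow, show (1 - 1 / 25 : ℝ) = 24 / 25 by norm_num]
  have l0 := Real.log_natCast_nonneg N
  refine mul_le_mul_of_nonneg_right (mul_le_mul_of_nonneg_left (pow_le_pow_left₀ l0 ?_ B)
    zero_le_two) (Real.exp_pos _).le
  rw [Real.log_pow]
  push_cast
  linarith only [l0, Nat.cast_nonneg (α := ℝ) K, mul_nonneg_of_nonpos_of_nonpos (Mathlib.Tactic.Linarith.sub_nonpos_of_le (Mathlib.Tactic.Linarith.natCast_nonneg ℝ K)) (Mathlib.Tactic.Linarith.sub_nonpos_of_le l0)]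

lemma Bd.mono {ι : Type} [Fintype ι] {φ : ι → ℤ → ℤ} {z : ι → ℝ} {w Y E E' : ℕ}
    (h : Bd φ z w Y E) (h' : E ≤ E') : Bd φ z w Y E' := fun p a b c => (h p a b c).trans h'

/-- The two truncations agree. -/
lemma Good_cmp {ι : Type} [Fintype ι] (φ : ι → ℤ → ℤ) (z : ι → ℝ) {w Y₀ Y₁ y E : ℕ} {l : ℝ}
    (hl : 2 ≤ l) (hw : 2 ≤ w) (hE : 2 * E ≤ w) (hc : Fintype.card ι ≤ E)
    (hw' : 8 * (E : ℝ) ^ 2 * l ^ 2 ≤ w) (hz : ∀ i, (w : ℝ) ≤ z i) (h0 : w ≤ Y₀) (h1 : w ≤ Y₁)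
    (h2 : Y₁ ≤ y) (hh : 9 * (Real.exp 73 * Real.log w) ^ Fintype.card ι ≤ √l)
    (b0 : Bd φ z w Y₀ E ∧ |Rs φ z w Y₀| ≤ 1 / (2 * l ^ 2))
    (b1 : Bd φ (fun _ => (y : ℝ)) w Y₁ E ∧ |Rs φ (fun _ => (y : ℝ)) w Y₁| ≤ 1 / (2 * l ^ 2))
    (b2 : Bd φ (fun _ => (y : ℝ)) Y₁ y E ∧ |Rs φ (fun _ => (y : ℝ)) Y₁ y| ≤ 1 / (2 * l ^ 2)) :
    0 ≤ EZ φ (fun _ => (y : ℝ)) y ∧ EZ φ (fun _ => (y : ℝ)) y ≤ √l ∧
      |EZ φ z Y₀ - EZ φ (fun _ => (y : ℝ)) y| ≤ 1 / l := by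
  have l0 : 0 < l := by linarith only [hl]
  have w0 : (0 : ℝ) < w := by exact_mod_cast (show 0 < w by omega)
  have s1 : 1 / l ^ 2 ≤ 1 / 4 := one_div_le_one_div_of_le (by norm_num) (by linarith only [hl, mul_nonneg_of_nonpos_of_nonpos (Mathlib.Tactic.Linarith.sub_nonpos_of_le hl) (Mathlib.Tactic.Linarith.sub_nonpos_of_le hl)])
  have s0 : 0 ≤ 1 / l ^ 2 := by positivity
  have e : ∀ {u : ℕ} {R : ℝ}, w ≤ u → R ≤ 1 / (2 * l ^ 2) →
      R + 4 * (E : ℝ) ^ 2 / u ≤ 1 / l ^ 2 := fun {u R} hu hR => by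
    have u1 : (w : ℝ) ≤ u := by exact_mod_cast hu
    have : 4 * (E : ℝ) ^ 2 / u ≤ 1 / (2 * l ^ 2) := by
      rw [div_le_div_iff₀ (by linarith only [w0, u1]) (by positivity)]
      linarith only [hw', u1]
    have e : 1 / l ^ 2 = 1 / (2 * l ^ 2) + 1 / (2 * l ^ 2) := by field_simp; ring
    linarith only [hR, this, e]
  have a0 := cmp_det φ z (by omega) h0 hE hc b0.1 (e le_rfl b0.2) (by linarith only [s1])
  have a1 := cmp_det φ _ (by omega) h1 hE hc b1.1 (e le_rfl b1.2) (by linarith only [s1])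
  have a2 := cmp_det φ _ (by omega) h2 (hE.trans h1) hc b2.1 (e h1 b2.2) (by linarith only [s1])
  obtain ⟨a3, a4⟩ := EZ_head φ z hw
  rw [← EZ_congr φ hz (z' := fun _ => (y : ℝ)) fun _ => by exact_mod_cast h1.trans h2] at a1
  have a5 : √l ≤ l := Real.sqrt_le_self_iff.2 (Or.inr (by linarith only [hl]))
  have a6 : 1 / l ^ 2 * l = 1 / l := by field_simp
  refine ⟨(EZ_head φ _ (hw.trans (h1.trans h2))).1, ?_⟩
  generalize EZ φ z w = W at *
  generalize EZ φ z Y₀ = x₀ at *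
  generalize EZ φ (fun _ => (y : ℝ)) Y₁ = x₁ at *
  generalize EZ φ (fun _ => (y : ℝ)) y = x₂ at *
  generalize 1 / l ^ 2 = s at *
  have a7 : 9 * W ≤ l := by linarith only [hh, a5, a4]
  have a8 : s * W ≤ W / 4 := by linarith only [a3, s1, mul_nonneg_of_nonpos_of_nonpos (Mathlib.Tactic.Linarith.sub_nonpos_of_le a3) (Mathlib.Tactic.Linarith.sub_nonpos_of_le s1)]
  have a9 : s * (9 * W) ≤ s * l := mul_le_mul_of_nonneg_left a7 s0
  rw [abs_le] at a0 a1 a2 ⊢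
  have c1 : x₁ ≤ 3 / 2 * W := by linarith only [a1, a8, a1.2]
  have c2 : s * x₁ ≤ s * (3 / 2 * W) := mul_le_mul_of_nonneg_left c1 s0
  have c3 : 0 ≤ s * W := mul_nonneg s0 a3
  refine ⟨by linarith only [hh, a3, a4, a1, a2, a8, c2, a2.2], ?_, ?_⟩ <;> linarith only [a6, a0, a1, a2, a9, c2, a0.1, a0.2, a1.1, a1.2, a2.1, a2.2]

lemma Good_val {lam : ℝ} {d D H N n : ℕ} {c : Fin (d + 1) → ℤ} (hd : 1 ≤ d) (hD : d ≤ D)
    (hc : c ∈ PX lam d H) (hn : n ∈ Ra lam N) (hl : 4 ≤ lam) (h : 2 * D * lam ^ 2 ≤ N) :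
    (n : ℤ) ≤ 2 * pe c n ∧ (pe c n : ℝ) ≤ lam ^ (D + 1) * pe c N ∧
      (pe c N : ℝ) ≤ lam ^ (D + 1) * pe c n := by
  have l0 : 0 < lam := by linarith only [hl]
  have h' : 2 * d * lam ^ 2 ≤ N := le_trans (by gcongr) h
  have n1 := (rg_Ra lam N).pos n hn
  have n2 := (rg_Ra lam N).hi n hn
  have n3 := (rg_Ra lam N).lo n hn
  have n4 : (n : ℝ) ≤ N := by exact_mod_cast n2
  have k : 2 * d * lam ≤ n := le_of_mul_le_mul_left (le_trans (le_of_eq (by ring)) (h'.trans n3)) l0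
  obtain ⟨b1, b2⟩ := pe_bounds hc n1 k
  obtain ⟨b3, b4⟩ := pe_bounds hc (n1.trans n2) (k.trans n4)
  have a0 : (0 : ℝ) ≤ c (Fin.last d) := by
    exact_mod_cast zero_le_one.trans (mem_PX hc).2.1
  have p1 : c (Fin.last d) * (n : ℝ) ^ d ≤ c (Fin.last d) * (N : ℝ) ^ d := by gcongr
  have p2 : c (Fin.last d) * (N : ℝ) ^ d ≤ lam ^ D * (c (Fin.last d) * (n : ℝ) ^ d) := by
    rw [mul_left_comm]
    refine mul_le_mul_of_nonneg_left ((pow_le_pow_left₀ (by positivity) n3 d).trans ?_) a0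
    rw [mul_pow]
    exact mul_le_mul_of_nonneg_right (pow_le_pow_right₀ (by linarith only [hl]) hD) (by positivity)
  have p3 : 1 ≤ lam ^ D := one_le_pow₀ (by linarith only [hl])
  have p4 : (0 : ℝ) ≤ c (Fin.last d) * (n : ℝ) ^ d := by positivity
  refine ⟨(pe_range hd hc (rg_Ra lam N) hn l0 h').1, ?_, ?_⟩
  · have : 4 ≤ lam ^ (D + 1) := by rw [pow_succ]; linarith only [hl, p3, mul_nonneg_of_nonpos_of_nonpos (Mathlib.Tactic.Linarith.sub_nonpos_of_le hl) (Mathlib.Tactic.Linarith.sub_nonpos_of_le p3)]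
    exact le_trans (by linarith only [b2, b3, p1]) (mul_le_mul_of_nonneg_right this (by linarith only [b3, b4]))
  · have := mul_le_mul_of_nonneg_left b1 (zero_le_one.trans p3)
    have q : 4 * (lam ^ D * pe c n) ≤ lam * (lam ^ D * pe c n) :=
      mul_le_mul_of_nonneg_right hl (mul_nonneg (by linarith only [p3]) (by linarith only [b1, b2]))
    rw [pow_succ']
    linarith only [b4, p2, this, q]

lemma good (F₀ : Finset (ℤ × ℤ)) (h₀ : Prim F₀) (h₁ : F₀.card ≤ 1) {k D : ℕ} (d : Fin k → ℕ)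
    (hd : ∀ i, 1 ≤ d i ∧ d i ≤ D) (B K : ℕ) (hB : k + 2 ≤ B) {η : ℝ} (hη : 0 < η) :
    ∀ᶠ N : ℕ in atTop, ∀ H X : Fin k → ℕ,
    (∀ i, N ≤ X i ∧ X i ≤ N ^ (K + 1) ∧ 2 * (H i * N ^ d i) ≤ X i ^ 3) →
    ∀ v ∈ Tp d (Real.log N ^ B) H, ∀ (Y : ℕ) (C : ℝ), zz (N ^ (K + 1)) ≤ Y →
    |∑ n ∈ Ra (Real.log N ^ B) N, (∏ f ∈ F₀, L1 (zz N) (ev f n)) *
      (∏ i, L1 (zz (X i)) (pe (v i) n) - ∏ i, F1 (zz (X i)) (pe (v i) n))| ≤ η / 8 * N →
    |∑ n ∈ Ra (Real.log N ^ B) N, (∏ f ∈ F₀, L1 (zz N) (ev f n) -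
      ∏ f ∈ F₀, F1 (zz N) (ev f n)) * ∏ i, F1 (zz (X i)) (pe (v i) n)| ≤ η / 8 * N →
    0 ≤ C → C ≤ √(Real.log N) →
    |EZ (Sys F₀ v) (fun i => zz (Sum.elim (fun _ => N) X i)) Y - C| ≤ 1 / Real.log N →
    |cz (Sys F₀ v) N - C| ≤ η := by
  have e0 : ∀ᶠ N : ℕ in atTop, ∀ f ∈ F₀, f.1 ≤ N ∧ |f.2| ≤ N ∧ |(f.2 : ℝ)| ≤ Real.log N :=
    (eventually_all_finset F₀).2 fun f _ => by
      filter_upwards [eventually_ge_atTop (f.1.natAbs + f.2.natAbs),
        TB_tend.eventually_ge_atTop |(f.2 : ℝ)|] with N a b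
      exact ⟨by omega, by rw [Int.abs_eq_natAbs]; omega, b⟩
  filter_upwards [e0, model_d (F₀ ⊕ Fin k) (D + 1) B (K + 1),
    weight_d (F₀ ⊕ Fin k) B (D + 1 + 1) (3 * (K + 1)) hη, TB_tend.eventually_ge_atTop 4,
    TB_tend.eventually_ge_atTop (12 / η), TB_tend.eventually_ge_atTop (2 * D + 2),
    Core_ev one_pos (2 * B + 1), zz_small K (B + 1) one_pos, eventually_ge_atTop 2]
    with N e0 h1 h3 l1 l2 l3 l4 l5 N2 H X hX v hv Y C hY d1 d2 a3 a4 a2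
  set lam := Real.log N ^ B with hlam
  have l1' : 1 ≤ Real.log N := by linarith only [l1]
  have cd : Fintype.card (F₀ ⊕ Fin k) ≤ k + 1 := by
    rw [Fintype.card_sum, Fintype.card_coe, Fintype.card_fin]
    omega
  have m1 : Real.log N ^ (Fintype.card (F₀ ⊕ Fin k) + 1) ≤ lam := pow_le_pow_right₀ l1' (by omega)
  have m2 : Real.log N ^ 2 ≤ lam := pow_le_pow_right₀ l1' (by omega)
  have m3 : Real.log N ≤ lam := le_trans (by linarith only [l1, mul_nonneg_of_nonpos_of_nonpos (Mathlib.Tactic.Linarith.sub_nonpos_of_le l1) (Mathlib.Tactic.Linarith.sub_nonpos_of_le l1)]) m2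
  have l0 : 0 < lam := by linarith only [l1, m3]
  rw [Real.rpow_one] at l4 l5
  rw [pow_succ, pow_mul', ← hlam] at l4
  rw [pow_succ, ← hlam] at l5
  have D0 : (0 : ℝ) ≤ D := Nat.cast_nonneg D
  have m4 : 2 * (D + 1 : ℕ) * lam ^ 2 ≤ N :=
    le_trans (by push_cast; linarith only [l3, sq_nonneg lam, mul_nonneg_of_nonpos_of_nonpos (Mathlib.Tactic.Linarith.sub_nonpos_of_le (sq_nonneg lam)) (Mathlib.Tactic.Linarith.sub_nonpos_of_le l3)]) l4
  have m5 : 2 * lam ^ 2 ≤ N := le_trans (by linarith only [l1, sq_nonneg lam, sq_nonneg lam, mul_nonneg_of_nonpos_of_nonpos (Mathlib.Tactic.Linarith.sub_nonpos_of_le (sq_nonneg lam)) (Mathlib.Tactic.Linarith.sub_nonpos_of_le l1)]) l4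
  have NK : N ≤ N ^ (K + 1) := Nat.le_self_pow (by omega) N
  have hX' : ∀ i : F₀ ⊕ Fin k, N ≤ Sum.elim (fun _ => N) X i ∧
      Sum.elim (fun _ => N) X i ≤ N ^ (K + 1) := by
    rintro (f | i)
    · exact ⟨le_rfl, NK⟩
    · exact ⟨(hX i).1, (hX i).2.1⟩
  have hz : ∀ i : F₀ ⊕ Fin k, zz (Sum.elim (fun _ => N) X i) ≤ zz (N ^ (K + 1)) := fun i =>
    zz_mono (hX' i).2 (le_trans (by omega) (hX' i).1)
  have NR : N ∈ Ra lam N := mem_filter.2 ⟨mem_Icc.2 ⟨by omega, le_rfl⟩,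
    le_mul_of_one_le_left (Nat.cast_nonneg N) (by linarith only [l1, m3])⟩
  have val : ∀ i, ∀ n ∈ Ra lam N, (n : ℤ) ≤ 2 * Sys F₀ v i n ∧
      (Sys F₀ v i n : ℝ) ≤ lam ^ (D + 1 + 1) * Sys F₀ v i N ∧
      (Sys F₀ v i N : ℝ) ≤ lam ^ (D + 1 + 1) * Sys F₀ v i n := by
    rintro (f | i) n hn
    · have e : ∀ y : ℕ, (Sys F₀ v (Sum.inl f) y : ℝ) = f.1.1 * y + f.1.2 := fun y => by
        simp [Sys]
      obtain ⟨f1, f2, f3⟩ := e0 f f.2
      have f4 := (h₀ f f.2).1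
      have f5 : (1 : ℝ) ≤ f.1.1 := by exact_mod_cast f4
      have n1 : 2 * lam ≤ n := le_of_mul_le_mul_left
        (le_trans (le_of_eq (by ring)) (m5.trans ((rg_Ra lam N).lo n hn))) l0
      have n2 : (n : ℝ) ≤ N := by exact_mod_cast (rg_Ra lam N).hi n hn
      have n3 := (rg_Ra lam N).lo n hn
      obtain ⟨f6, f7⟩ := abs_le.1 f3
      have p : 3 * lam ≤ lam ^ (D + 1 + 1) :=
        le_trans (by linarith only [l1, m2, m3, mul_nonneg_of_nonpos_of_nonpos (Mathlib.Tactic.Linarith.sub_nonpos_of_le (sq_nonneg (Real.log ↑N))) (Mathlib.Tactic.Linarith.sub_nonpos_of_le l1), mul_nonneg_of_nonpos_of_nonpos (Mathlib.Tactic.Linarith.sub_nonpos_of_le (sq_nonneg (Real.log ↑N))) (Mathlib.Tactic.Linarith.sub_nonpos_of_le m2), mul_nonneg_of_nonpos_of_nonpos (Mathlib.Tactic.Linarith.sub_nonpos_of_le (sq_nonneg (Real.log ↑N))) (Mathlib.Tactic.Linarith.sub_nonpos_of_le m3), mul_nonneg_of_nonpos_of_nonpos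 (Mathlib.Tactic.Linarith.sub_nonpos_of_le l1) (Mathlib.Tactic.Linarith.sub_nonpos_of_le l1), mul_nonneg_of_nonpos_of_nonpos (Mathlib.Tactic.Linarith.sub_nonpos_of_le l1) (Mathlib.Tactic.Linarith.sub_nonpos_of_le m2), mul_nonneg_of_nonpos_of_nonpos (Mathlib.Tactic.Linarith.sub_nonpos_of_le m2) (Mathlib.Tactic.Linarith.sub_nonpos_of_le m2), mul_nonneg_of_nonpos_of_nonpos (Mathlib.Tactic.Linarith.sub_nonpos_of_le m2) (Mathlib.Tactic.Linarith.sub_nonpos_of_le m3)]) (pow_le_pow_right₀ (by linarith only [l1, m3]) (show 2 ≤ D + 1 + 1 by omega))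
      have q0 : (n : ℝ) ≤ f.1.1 * n := le_mul_of_one_le_left (by positivity) f5
      have q1 : (f.1.1 : ℝ) * n ≤ f.1.1 * N := by gcongr
      have q2 : (f.1.1 : ℝ) * N ≤ lam * (f.1.1 * n) := by
        rw [mul_left_comm]; gcongr
      have q3 : (n : ℝ) ≤ 2 * Sys F₀ v (Sum.inl f) n := by rw [e]; linarith only [m3, n1, f6, q0]
      refine ⟨by exact_mod_cast q3, ?_, ?_⟩
      · rw [e, e]
        exact le_trans (by linarith only [l1, m3, n1, f6, q0, q1]) (mul_le_mul_of_nonneg_right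
          (show (3 : ℝ) ≤ _ by linarith only [l1, m3, p]) (by linarith only [l1, m3, n1, f6, q0, q1]))
      · rw [e, e]
        refine le_trans ?_ (mul_le_mul_of_nonneg_right p (by linarith only [l1, m3, n1, f6, q0]))
        have := mul_le_mul_of_nonneg_left
          (show (f.1.1 : ℝ) * n ≤ 2 * (f.1.1 * n + f.1.2) by linarith only [m3, n1, f6, q0]) l0.le
        linarith only [m3, n1, f7, q0, q1, q2, this]
    · exact Good_val (hd i).1 ((hd i).2.trans (Nat.le_succ D)) (Fintype.mem_piFinset.1 hv i) hn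
        (by linarith only [l1, m3]) m4
  have a1 := h1 lam m3 le_rfl _ (Gd_Sys h₀ (fun i => (hd i).2) v) _ hX'
    (fun i n hn => (val i n hn).1) Y fun i => (hz i).trans hY
  refine h3 lam m1 le_rfl _ (fun i => zz (Sum.elim (fun _ => N) X i))
    (fun i n hn => ⟨?_, val i n hn⟩) ?_ C a3 a4 ?_
  · have b1 : (n : ℝ) ≤ 2 * Sys F₀ v i n := by exact_mod_cast (val i n hn).1
    have b2 := (rg_Ra lam N).lo n hn
    have z0 : 0 < zz (N ^ (K + 1)) := Real.exp_pos _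
    refine (hz i).trans_lt (lt_of_mul_lt_mul_left ?_ l0.le)
    linarith only [l1, l5, m5, b2, m2, m3, b1, l0, z0, mul_pos l0 z0, mul_nonneg_of_nonpos_of_nonpos (Mathlib.Tactic.Linarith.sub_nonpos_of_le (sq_nonneg (Real.log ↑N))) (Mathlib.Tactic.Linarith.sub_nonpos_of_le l1), mul_nonneg_of_nonpos_of_nonpos (Mathlib.Tactic.Linarith.sub_nonpos_of_le (sq_nonneg (Real.log ↑N))) (Mathlib.Tactic.Linarith.sub_nonpos_of_le m2), mul_nonneg_of_nonpos_of_nonpos (Mathlib.Tactic.Linarith.sub_nonpos_of_le (sq_nonneg (Real.log ↑N))) (Mathlib.Tactic.Linarith.sub_nonpos_of_le m3), mul_nonneg_of_nonpos_of_nonpos (Mathlib.Tactic.Linarith.sub_nonpos_of_le (sq_nonneg (Real.log ↑N))) (Mathlib.Tactic.Linarith.sub_nonpos_of_le b1), mul_nonneg_of_nonpos_of_nonpos (Mathlib.Tactic.Linarith.sub_nonpos_of_le l1) (Mathlib.Tactic.Linarith.sub_nonpos_of_le l1), mul_nonneg_of_nonpos_of_nonpos (Mathlib.Tactic.Linarith.sub_nonpos_of_le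 l1) (le_of_lt (Mathlib.Tactic.Linarith.sub_neg_of_lt (mul_pos l0 z0))), mul_nonneg_of_nonpos_of_nonpos (Mathlib.Tactic.Linarith.sub_nonpos_of_le m2) (Mathlib.Tactic.Linarith.sub_nonpos_of_le m2), mul_nonneg_of_nonpos_of_nonpos (Mathlib.Tactic.Linarith.sub_nonpos_of_le m2) (Mathlib.Tactic.Linarith.sub_nonpos_of_le b1)]
  · have N2' : (2 : ℤ) ≤ N := by exact_mod_cast N2
    rintro (f | i)
    · obtain ⟨f1, f2, -⟩ := e0 f f.2
      have := (le_abs_self _).trans f2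
      have q : f.1.1 * N ≤ N * N := mul_le_mul_of_nonneg_right f1 (by positivity)
      refine le_trans (b := (N : ℤ) ^ 3) (show f.1.1 * N + f.1.2 ≤ _ by nlinarith only [N2, this, q]) ?_
      exact pow_le_pow_right₀ (by omega) (by omega)
    · have b1 := (pe_range (hd i).1 (Fintype.mem_piFinset.1 hv i) (rg_Ra lam N) NR l0
        (le_trans (by gcongr; exact (hd i).2.trans (Nat.le_succ D)) m4)).2.2
      have b2 := (hX i).2.2.trans (Nat.pow_le_pow_left (hX i).2.1 3)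
      rw [← pow_mul, mul_comm (K + 1)] at b2
      exact b1.trans (by exact_mod_cast b2)
  have pr : ∀ (n : ℕ) (φ : ℝ → ℤ → ℝ), ∏ i, φ (zz (Sum.elim (fun _ => N) X i)) (Sys F₀ v i n) =
      (∏ f ∈ F₀, φ (zz N) (ev f n)) * ∏ i, φ (zz (X i)) (pe (v i) n) := fun n φ => by
    rw [Fintype.prod_sum_type, ← prod_coe_sort F₀]
    rfl
  have e : ∑ n ∈ Ra lam N, ∏ i, L1 (zz (Sum.elim (fun _ => N) X i)) (Sys F₀ v i n) =
      ∑ n ∈ Ra lam N, (∏ f ∈ F₀, L1 (zz N) (ev f n)) *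
        (∏ i, L1 (zz (X i)) (pe (v i) n) - ∏ i, F1 (zz (X i)) (pe (v i) n)) +
      ∑ n ∈ Ra lam N, (∏ f ∈ F₀, L1 (zz N) (ev f n) -
        ∏ f ∈ F₀, F1 (zz N) (ev f n)) * ∏ i, F1 (zz (X i)) (pe (v i) n) +
      ∑ n ∈ Ra lam N, ∏ i, F1 (zz (Sum.elim (fun _ => N) X i)) (Sys F₀ v i n) := by
    rw [← sum_add_distrib, ← sum_add_distrib]
    refine sum_congr rfl fun n _ => ?_
    rw [pr n L1, pr n F1]
    ring
  rw [e]
  have r1 : ((Ra lam N).card : ℝ) ≤ N := by exact_mod_cast (rg_Ra lam N).card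
  have r2 := Main_Ra l0 N
  have r0 : (0 : ℝ) ≤ (Ra lam N).card := Nat.cast_nonneg _
  have N0 : (0 : ℝ) ≤ N := Nat.cast_nonneg _
  generalize ((Ra lam N).card : ℝ) = R at *
  generalize EZ (Sys F₀ v) (fun i => zz (Sum.elim (fun _ => N) X i)) Y = E at *
  generalize Real.log N = l at *
  have b1 : |R * E - R * C| ≤ N / l := by
    rw [← mul_sub, abs_mul, abs_of_nonneg r0]
    exact (mul_le_mul r1 a2 (abs_nonneg _) N0).trans_eq (by ring)
  have b2 : |R * C - C * N| ≤ N / l := by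
    rw [abs_sub_comm, mul_comm R, ← mul_sub, abs_of_nonneg (mul_nonneg a3 (by linarith only [r1]))]
    have s1 : C ≤ l := a4.trans (Real.sqrt_le_iff.2 ⟨by linarith only [l1], by linarith only [l1, mul_nonneg_of_nonpos_of_nonpos (Mathlib.Tactic.Linarith.sub_nonpos_of_le l1) (Mathlib.Tactic.Linarith.sub_nonpos_of_le l1)]⟩)
    calc _ ≤ l * (N / lam) := mul_le_mul s1 (by linarith only [r2]) (by linarith only [r1]) (by linarith only [l1])
      _ ≤ l * (N / l ^ 2) := by gcongr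
      _ = _ := by field_simp
  have b3 : 3 * ((N : ℝ) / l) ≤ η / 4 * N := by
    rw [div_le_iff₀ hη] at l2
    rw [← mul_div_assoc, div_le_iff₀ (by linarith only [l1])]
    linarith only [l2, mul_nonneg_of_nonpos_of_nonpos (Mathlib.Tactic.Linarith.sub_nonpos_of_le (Mathlib.Tactic.Linarith.natCast_nonneg ℝ N)) (Mathlib.Tactic.Linarith.sub_nonpos_of_le l2)]
  rw [abs_le] at *
  constructor <;> linarith only [d1, d2, a1, b1, b2, b3, a1.1, a1.2, b1.1, b1.2, b2.1, b2.2, d1.1, d1.2, d2.1, d2.2]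

end Pool.Agent.Work.MP_51e72e_nt.PV
end
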